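import Mathlib
import Pool.Agent.H106DD.Defs

set_option autoImplicit false
open Finset

namespace DD106
namespace SCL

/-- number of integers of a box side in a residue class -/
theorem CL_resid (m : ℕ) (hm : 0 < m) (x0 : ℤ) (R : ℕ) (α : ZMod m) :
    |((((Ico x0 (x0 + R)).filter (fun x : ℤ => (x : ZMod m) = α)).card : ℕ) : ℝ) - (R : ℝ) / m| ≤ 1 := by
  obtain ⟨v, rfl⟩ := ZMod.intCast_surjective α
  have h1 : (Ico x0 (x0 + R)).filter (fun x : ℤ => (x : ZMod m) = (v : ZMod m)) =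
      (Ico x0 (x0 + R)).filter (fun x : ℤ => x ≡ v [ZMOD (m : ℤ)]) := by
    apply Finset.filter_congr
    intro x _
    exact ZMod.intCast_eq_intCast_iff x v m
  rw [h1]
  have hm' : (0 : ℤ) < (m : ℤ) := by exact_mod_cast hm
  have h2 := Int.Ico_filter_modEq_card x0 (x0 + R) hm' v
  have hmR : (0 : ℝ) < (m : ℝ) := by exact_mod_cast hm
  set c := ((Ico x0 (x0 + R)).filter (fun x : ℤ => x ≡ v [ZMOD (m : ℤ)])).card with hc
  set A : ℤ := ⌈((((x0 + R : ℤ)) : ℚ) - v) / ((m : ℤ) : ℚ)⌉ with hA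
  set B : ℤ := ⌈((x0 : ℚ) - v) / ((m : ℤ) : ℚ)⌉ with hB
  have h3 : ((c : ℕ) : ℤ) = max (A - B) 0 := by
    rw [h2]
  have hA1 : (A : ℝ) < ((x0 + R : ℤ) - v : ℝ) / m + 1 := by
    have := Int.ceil_lt_add_one (((((x0 + R : ℤ)) : ℚ) - v) / ((m : ℤ) : ℚ))
    have h : ((A : ℚ) : ℝ) < ((((((x0 + R : ℤ)) : ℚ) - v) / ((m : ℤ) : ℚ) + 1 : ℚ) : ℝ) := by
      exact Rat.cast_lt.2 this
    push_cast at h ⊢
    exact h
  have hA2 : ((x0 + R : ℤ) - v : ℝ) / m ≤ (A : ℝ) := by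
    have := Int.le_ceil (((((x0 + R : ℤ)) : ℚ) - v) / ((m : ℤ) : ℚ))
    have h : ((((((x0 + R : ℤ)) : ℚ) - v) / ((m : ℤ) : ℚ) : ℚ) : ℝ) ≤ ((A : ℚ) : ℝ) := by
      exact Rat.cast_le.2 this
    push_cast at h ⊢
    exact h
  have hB1 : (B : ℝ) < (x0 - v : ℝ) / m + 1 := by
    have := Int.ceil_lt_add_one (((x0 : ℚ) - v) / ((m : ℤ) : ℚ))
    have h : ((B : ℚ) : ℝ) < (((((x0 : ℚ) - v) / ((m : ℤ) : ℚ) + 1 : ℚ)) : ℝ) := by
      exact Rat.cast_lt.2 this
    push_cast at h ⊢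
    exact h
  have hB2 : (x0 - v : ℝ) / m ≤ (B : ℝ) := by
    have := Int.le_ceil (((x0 : ℚ) - v) / ((m : ℤ) : ℚ))
    have h : (((((x0 : ℚ) - v) / ((m : ℤ) : ℚ) : ℚ)) : ℝ) ≤ ((B : ℚ) : ℝ) := by
      exact Rat.cast_le.2 this
    push_cast at h ⊢
    exact h
  have hdiff : ((x0 + R : ℤ) - v : ℝ) / m - (x0 - v : ℝ) / m = (R : ℝ) / m := by
    push_cast
    field_simp
    ring
  have h3R : (c : ℝ) = max ((A : ℝ) - B) 0 := by
    have : ((c : ℤ) : ℝ) = ((max (A - B) 0 : ℤ) : ℝ) := by rw [h3]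
    push_cast at this
    exact this
  have hR0 : (0 : ℝ) ≤ (R : ℝ) / m := by positivity
  rw [h3R, abs_le]
  constructor
  · have : (A : ℝ) - B ≤ max ((A : ℝ) - B) 0 := le_max_left _ _
    linarith
  · rcases max_cases ((A : ℝ) - B) 0 with ⟨h, _⟩ | ⟨h, _⟩
    · rw [h]; linarith
    · rw [h]; linarith

/-- solutions modulo `m` -/
noncomputable def CL_sol (Q a b : ℤ) (m : ℕ) : ℕ :=
  Nat.card {v : ZMod m × ZMod m // ((Q : ZMod m) * v.1 + a) ^ 2 + ((Q : ZMod m) * v.2 + b) ^ 2 = 0}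

theorem CL_sol_mul (Q a b : ℤ) (m n : ℕ) (h : m.Coprime n) :
    CL_sol Q a b (m * n) = CL_sol Q a b m * CL_sol Q a b n := by
  unfold CL_sol
  rw [← Nat.card_prod]
  apply Nat.card_congr
  let e := ZMod.chineseRemainder h
  have key : ∀ x y : ZMod (m * n),
      e (((Q : ZMod (m * n)) * x + a) ^ 2 + ((Q : ZMod (m * n)) * y + b) ^ 2) =
        ((((Q : ZMod m) * (e x).1 + a) ^ 2 + ((Q : ZMod m) * (e y).1 + b) ^ 2),
         (((Q : ZMod n) * (e x).2 + a) ^ 2 + ((Q : ZMod n) * (e y).2 + b) ^ 2)) := by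
    intro x y
    rw [map_add, map_pow, map_pow, map_add, map_add, map_mul, map_mul, map_intCast, map_intCast,
      map_intCast]
    rfl
  have key0 : ∀ x y : ZMod (m * n),
      (((Q : ZMod (m * n)) * x + a) ^ 2 + ((Q : ZMod (m * n)) * y + b) ^ 2 = 0) ↔
        ((((Q : ZMod m) * (e x).1 + a) ^ 2 + ((Q : ZMod m) * (e y).1 + b) ^ 2) = 0 ∧
         (((Q : ZMod n) * (e x).2 + a) ^ 2 + ((Q : ZMod n) * (e y).2 + b) ^ 2) = 0) := by
    intro x y
    rw [← e.map_eq_zero_iff, key, Prod.mk_eq_zero]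
  refine
    { toFun := fun v => (⟨((e v.1.1).1, (e v.1.2).1), ((key0 _ _).1 v.2).1⟩,
        ⟨((e v.1.1).2, (e v.1.2).2), ((key0 _ _).1 v.2).2⟩)
      invFun := fun w => ⟨(e.symm (w.1.1.1, w.2.1.1), e.symm (w.1.1.2, w.2.1.2)), by
        rw [key0]
        simp only [RingEquiv.apply_symm_apply]
        exact ⟨w.1.2, w.2.2⟩⟩
      left_inv := ?_
      right_inv := ?_ }
  · rintro ⟨⟨x, y⟩, hv⟩
    simp
  · rintro ⟨⟨⟨x, y⟩, h1⟩, ⟨⟨x', y'⟩, h2⟩⟩
    simp

theorem CL_sol_prime (Q a b : ℤ) (p : ℕ) (hp : P1 p) (hQ : ¬ (p : ℤ) ∣ Q) :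
    CL_sol Q a b p = 2 * p - 1 := by
  have : Fact p.Prime := ⟨hp.1⟩
  have hp2 : 2 < p := by
    have := hp.1.two_le
    have := hp.2
    omega
  have hQ0 : (Q : ZMod p) ≠ 0 := by
    intro h
    exact hQ ((ZMod.intCast_zmod_eq_zero_iff_dvd Q p).1 h)
  obtain ⟨i, hi⟩ : IsSquare (-1 : ZMod p) := by
    rw [ZMod.exists_sq_eq_neg_one_iff]
    have := hp.2
    omega
  have h2 : (2 : ZMod p) ≠ 0 := by
    intro h
    have h' : ((2 : ℕ) : ZMod p) = 0 := by exact_mod_cast h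
    rw [ZMod.natCast_eq_zero_iff] at h'
    exact absurd (Nat.le_of_dvd (by norm_num) h') (by omega)
  have hi0 : i ≠ 0 := by
    rintro rfl
    simp at hi
  unfold CL_sol
  have e1 : {v : ZMod p × ZMod p // ((Q : ZMod p) * v.1 + a) ^ 2 + ((Q : ZMod p) * v.2 + b) ^ 2 = 0} ≃
      {v : ZMod p × ZMod p // v.1 ^ 2 + v.2 ^ 2 = 0} :=
    { toFun := fun v => ⟨((Q : ZMod p) * v.1.1 + a, (Q : ZMod p) * v.1.2 + b), v.2⟩
      invFun := fun w => ⟨((Q : ZMod p)⁻¹ * (w.1.1 - a), (Q : ZMod p)⁻¹ * (w.1.2 - b)), by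
        have h1 : (Q : ZMod p) * ((Q : ZMod p)⁻¹ * (w.1.1 - a)) + a = w.1.1 := by
          rw [← mul_assoc, mul_inv_cancel₀ hQ0]; ring
        have h2 : (Q : ZMod p) * ((Q : ZMod p)⁻¹ * (w.1.2 - b)) + b = w.1.2 := by
          rw [← mul_assoc, mul_inv_cancel₀ hQ0]; ring
        simp only [h1, h2]
        exact w.2⟩
      left_inv := by
        rintro ⟨⟨x, y⟩, hv⟩
        simp only [Subtype.mk.injEq, Prod.mk.injEq]
        constructor
        · rw [add_sub_cancel_right, ← mul_assoc, inv_mul_cancel₀ hQ0, one_mul]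
        · rw [add_sub_cancel_right, ← mul_assoc, inv_mul_cancel₀ hQ0, one_mul]
      right_inv := by
        rintro ⟨⟨x, y⟩, hv⟩
        simp only [Subtype.mk.injEq, Prod.mk.injEq]
        constructor
        · rw [← mul_assoc, mul_inv_cancel₀ hQ0]; ring
        · rw [← mul_assoc, mul_inv_cancel₀ hQ0]; ring }
  rw [Nat.card_congr e1]
  have h3 : {v : ZMod p × ZMod p | v.1 ^ 2 + v.2 ^ 2 = 0} =
      ↑((Finset.univ.image (fun y : ZMod p => (i * y, y))) ∪
        ((Finset.univ.erase (0 : ZMod p)).image (fun y : ZMod p => (-(i * y), y)))) := by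
    ext ⟨x, y⟩
    simp only [Set.mem_ofPred_eq, Finset.coe_union, Finset.coe_image, Finset.coe_univ, Set.image_univ,
      Set.mem_union, Set.mem_range, Prod.mk.injEq, Finset.coe_erase, Set.mem_image, Set.mem_sdiff,
      Set.mem_univ, true_and, Set.mem_singleton_iff]
    constructor
    · intro h
      have h4 : (x - i * y) * (x + i * y) = 0 := by
        have : (x - i * y) * (x + i * y) = x ^ 2 - (i * i) * y ^ 2 := by ring
        rw [this, ← hi]
        linear_combination h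
      rcases mul_eq_zero.1 h4 with h5 | h5
      · left; exact ⟨y, (sub_eq_zero.1 h5).symm, rfl⟩
      · by_cases hy : y = 0
        · left
          refine ⟨y, ?_, rfl⟩
          subst hy
          simp at h5
          simp [h5]
        · right
          exact ⟨y, hy, by linear_combination (-1 : ZMod p) * h5, rfl⟩
    · rintro (⟨z, h1, h2⟩ | ⟨z, hz, h1, h2⟩)
      · subst h1; subst h2
        have : (i * z) ^ 2 + z ^ 2 = (i * i) * z ^ 2 + z ^ 2 := by ring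
        rw [this, ← hi]; ring
      · subst h1; subst h2
        have : (-(i * z)) ^ 2 + z ^ 2 = (i * i) * z ^ 2 + z ^ 2 := by ring
        rw [this, ← hi]; ring
  have h4 : Nat.card {v : ZMod p × ZMod p // v.1 ^ 2 + v.2 ^ 2 = 0} =
      Set.ncard {v : ZMod p × ZMod p | v.1 ^ 2 + v.2 ^ 2 = 0} := rfl
  rw [h4, h3, Set.ncard_coe_finset, Finset.card_union_of_disjoint, Finset.card_image_of_injective,
    Finset.card_image_of_injective, Finset.card_erase_of_mem (Finset.mem_univ _), Finset.card_univ,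
    ZMod.card]
  · omega
  · intro u w h
    simp only [Prod.mk.injEq] at h
    exact h.2
  · intro u w h
    simp only [Prod.mk.injEq] at h
    exact h.2
  · rw [Finset.disjoint_left]
    rintro ⟨x, y⟩ h5 h6
    simp only [Finset.mem_image, Finset.mem_univ, true_and, Prod.mk.injEq, Finset.mem_erase,
      and_true] at h5 h6
    obtain ⟨u, hu1, hu2⟩ := h5
    obtain ⟨w, hw0, hw1, hw2⟩ := h6
    subst hu2
    subst hw2
    have h7 : 2 * (i * w) = 0 := by linear_combination hu1 - hw1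
    rcases mul_eq_zero.1 h7 with h8 | h8
    · exact h2 h8
    · rcases mul_eq_zero.1 h8 with h9 | h9
      · exact hi0 h9
      · exact hw0 h9

theorem CL_sol_prod (Q a b : ℤ) (D : Finset ℕ) (hD : ∀ p ∈ D, P1 p ∧ ¬ (p : ℤ) ∣ Q) :
    CL_sol Q a b (∏ p ∈ D, p) = ∏ p ∈ D, (2 * p - 1) := by
  classical
  induction D using Finset.induction_on with
  | empty =>
    simp only [Finset.prod_empty]
    unfold CL_sol
    rw [Nat.card_eq_one_iff_unique]
    refine ⟨⟨fun u v => Subtype.ext (Subsingleton.elim _ _)⟩, ⟨⟨(0, 0), Subsingleton.elim _ _⟩⟩⟩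
  | insert q D hq ih =>
    rw [Finset.prod_insert hq, Finset.prod_insert hq, CL_sol_mul, ih, CL_sol_prime]
    · exact (hD q (Finset.mem_insert_self _ _)).1
    · exact (hD q (Finset.mem_insert_self _ _)).2
    · intro p hp
      exact hD p (Finset.mem_insert_of_mem hp)
    · apply Nat.Coprime.prod_right
      intro p hp
      have h1 := (hD q (Finset.mem_insert_self _ _)).1.1
      have h2 := (hD p (Finset.mem_insert_of_mem hp)).1.1
      rw [Nat.coprime_primes h1 h2]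
      rintro rfl
      exact hq hp

/-- TARGET: prove this. Do not change the definitions above. Helper lemmas may be added before it. -/
theorem CL_thm  : CL_stmt := by
  intro D Q a b x0 y0 R hD
  set m : ℕ := ∏ p ∈ D, p with hm
  have hm0 : 0 < m := Finset.prod_pos fun p hp => (hD p hp).1.1.pos
  have : NeZero m := ⟨hm0.ne'⟩
  have hmR : (0 : ℝ) < (m : ℝ) := by exact_mod_cast hm0
  -- the condition
  have hcond : ∀ v : ℤ × ℤ, (∀ p ∈ D, (p : ℤ) ∣ (Q * v.1 + a) ^ 2 + (Q * v.2 + b) ^ 2) ↔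
      ((Q : ZMod m) * (v.1 : ZMod m) + a) ^ 2 + ((Q : ZMod m) * (v.2 : ZMod m) + b) ^ 2 = 0 := by
    intro v
    have h1 : ((Q : ZMod m) * (v.1 : ZMod m) + a) ^ 2 + ((Q : ZMod m) * (v.2 : ZMod m) + b) ^ 2 =
        (((Q * v.1 + a) ^ 2 + (Q * v.2 + b) ^ 2 : ℤ) : ZMod m) := by push_cast; rfl
    rw [h1, ZMod.intCast_zmod_eq_zero_iff_dvd]
    constructor
    · intro h
      rw [hm]
      push_cast
      apply Finset.prod_dvd_of_coprime
      · intro p hp q hq hpq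
        have h1 := (hD p hp).1.1
        have h2 := (hD q hq).1.1
        exact_mod_cast (Nat.coprime_primes h1 h2).2 hpq
      · intro p hp
        exact h p hp
    · intro h p hp
      refine dvd_trans ?_ h
      exact_mod_cast Finset.dvd_prod_of_mem (fun p => p) hp
  set T : Finset (ZMod m × ZMod m) := Finset.univ.filter
    (fun w => ((Q : ZMod m) * w.1 + a) ^ 2 + ((Q : ZMod m) * w.2 + b) ^ 2 = 0) with hT
  have hTcard : T.card = ∏ p ∈ D, (2 * p - 1) := by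
    rw [← CL_sol_prod Q a b D hD]
    unfold CL_sol
    rw [Nat.card_eq_fintype_card, Fintype.card_subtype]
  set F := (cbox x0 y0 R).filter (fun v : ℤ × ℤ =>
        ∀ p ∈ D, (p : ℤ) ∣ (Q * v.1 + a) ^ 2 + (Q * v.2 + b) ^ 2) with hF
  set red : ℤ × ℤ → ZMod m × ZMod m := fun v => ((v.1 : ZMod m), (v.2 : ZMod m)) with hred
  set nu : ZMod m → ℕ := fun α => ((Ico x0 (x0 + R)).filter (fun x : ℤ => (x : ZMod m) = α)).card with hnu
  set nv : ZMod m → ℕ := fun α => ((Ico y0 (y0 + R)).filter (fun x : ℤ => (x : ZMod m) = α)).card with hnv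
  have hFcard : F.card = ∑ w ∈ T, nu w.1 * nv w.2 := by
    have h1 : F.card = ∑ w ∈ T, (F.filter (fun v => red v = w)).card := by
      apply Finset.card_eq_sum_card_fiberwise
      intro v hv
      have hv' : v ∈ F := hv
      rw [hF, Finset.mem_filter] at hv'
      have := (hcond v).1 hv'.2
      simp only [hT, Finset.coe_filter, Finset.mem_univ, true_and, Set.mem_ofPred_eq, hred]
      exact this
    rw [h1]
    apply Finset.sum_congr rfl
    intro w hw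
    have h2 : F.filter (fun v => red v = w) =
        (Ico x0 (x0 + R)).filter (fun x : ℤ => (x : ZMod m) = w.1) ×ˢ
          (Ico y0 (y0 + R)).filter (fun x : ℤ => (x : ZMod m) = w.2) := by
      ext v
      simp only [hF, hred, cbox, Finset.mem_filter, Finset.mem_product, Prod.ext_iff]
      constructor
      · rintro ⟨⟨⟨h1, h2⟩, _⟩, h3, h4⟩
        exact ⟨⟨h1, h3⟩, ⟨h2, h4⟩⟩
      · rintro ⟨⟨h1, h3⟩, ⟨h2, h4⟩⟩
        refine ⟨⟨⟨h1, h2⟩, ?_⟩, h3, h4⟩
        rw [hcond, h3, h4]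
        simp only [hT, Finset.mem_filter] at hw
        exact hw.2
    rw [h2, Finset.card_product]
  have hprod : (R : ℝ) ^ 2 * ∏ p ∈ D, g p = (T.card : ℝ) * ((R : ℝ) / m) ^ 2 := by
    have h1 : ∏ p ∈ D, g p = (T.card : ℝ) / (m : ℝ) ^ 2 := by
      rw [hTcard, hm]
      push_cast
      rw [← Finset.prod_pow, ← Finset.prod_div_distrib]
      apply Finset.prod_congr rfl
      intro p hp
      have h1 : 1 ≤ 2 * p := by
        have := (hD p hp).1.1.pos
        omega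
      unfold g
      rw [Nat.cast_sub h1]
      push_cast
      rfl
    rw [h1]
    field_simp
  rw [hprod, hFcard]
  push_cast
  have h5 : ∑ w ∈ T, ((nu w.1 : ℝ) * (nv w.2 : ℝ)) - (T.card : ℝ) * ((R : ℝ) / m) ^ 2 =
      ∑ w ∈ T, ((nu w.1 : ℝ) * (nv w.2 : ℝ) - ((R : ℝ) / m) ^ 2) := by
    rw [Finset.sum_sub_distrib, Finset.sum_const, nsmul_eq_mul]
  rw [h5]
  have hR0 : (0 : ℝ) ≤ (R : ℝ) / m := by positivity
  have h6 : ∀ w ∈ T, |(nu w.1 : ℝ) * (nv w.2 : ℝ) - ((R : ℝ) / m) ^ 2| ≤ 2 * ((R : ℝ) / m) + 1 := by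
    intro w _
    have h7 : |(nu w.1 : ℝ) - (R : ℝ) / m| ≤ 1 := CL_resid m hm0 x0 R w.1
    have h8 : |(nv w.2 : ℝ) - (R : ℝ) / m| ≤ 1 := CL_resid m hm0 y0 R w.2
    have h9 : (nv w.2 : ℝ) ≤ (R : ℝ) / m + 1 := by
      have := (abs_le.1 h8).2
      linarith
    have h10 : (nu w.1 : ℝ) * (nv w.2 : ℝ) - ((R : ℝ) / m) ^ 2 =
        ((nu w.1 : ℝ) - (R : ℝ) / m) * (nv w.2 : ℝ) + ((R : ℝ) / m) * ((nv w.2 : ℝ) - (R : ℝ) / m) := by
      ring
    rw [h10]
    have hnv0 : (0 : ℝ) ≤ (nv w.2 : ℝ) := Nat.cast_nonneg _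
    calc |((nu w.1 : ℝ) - (R : ℝ) / m) * (nv w.2 : ℝ) + ((R : ℝ) / m) * ((nv w.2 : ℝ) - (R : ℝ) / m)|
        ≤ |((nu w.1 : ℝ) - (R : ℝ) / m) * (nv w.2 : ℝ)| +
          |((R : ℝ) / m) * ((nv w.2 : ℝ) - (R : ℝ) / m)| := abs_add_le _ _
      _ = |(nu w.1 : ℝ) - (R : ℝ) / m| * (nv w.2 : ℝ) +
          ((R : ℝ) / m) * |(nv w.2 : ℝ) - (R : ℝ) / m| := by
            rw [abs_mul, abs_mul, abs_of_nonneg hnv0, abs_of_nonneg hR0]
      _ ≤ 1 * ((R : ℝ) / m + 1) + ((R : ℝ) / m) * 1 := by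
            gcongr
      _ = 2 * ((R : ℝ) / m) + 1 := by ring
  have h11 : (T.card : ℝ) ≤ 2 ^ D.card * (m : ℝ) := by
    rw [hTcard, hm]
    push_cast
    rw [← Finset.prod_const, ← Finset.prod_mul_distrib]
    apply Finset.prod_le_prod
    · intro p _
      exact Nat.cast_nonneg _
    · intro p hp
      have : ((2 * p - 1 : ℕ) : ℝ) ≤ ((2 * p : ℕ) : ℝ) := by
        exact_mod_cast Nat.sub_le _ _
      push_cast at this
      exact this
  calc |∑ w ∈ T, ((nu w.1 : ℝ) * (nv w.2 : ℝ) - ((R : ℝ) / m) ^ 2)|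
      ≤ ∑ w ∈ T, |(nu w.1 : ℝ) * (nv w.2 : ℝ) - ((R : ℝ) / m) ^ 2| := Finset.abs_sum_le_sum_abs _ _
    _ ≤ ∑ w ∈ T, (2 * ((R : ℝ) / m) + 1) := Finset.sum_le_sum h6
    _ = (T.card : ℝ) * (2 * ((R : ℝ) / m) + 1) := by rw [Finset.sum_const, nsmul_eq_mul]
    _ ≤ (2 ^ D.card * (m : ℝ)) * (2 * ((R : ℝ) / m) + 1) := by gcongr
    _ = 2 ^ D.card * (2 * (R : ℝ) + ∏ p ∈ D, (p : ℝ)) := by
        have : (∏ p ∈ D, (p : ℝ)) = (m : ℝ) := by rw [hm]; push_cast; rfl
        rw [this]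
        field_simp




end SCL
end DD106
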