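import Mathlib
import Pool.Agent.H106DD.Defs

set_option autoImplicit false
open Finset

namespace DD106
namespace SCLASS



/-- per-class facts -/
theorem class_one (hTV : TV_stmt) (C D0 c c' M a : ℕ) (q e : ℕ → ℕ) (eps' : ℝ) (ha : a < M)
    (hfm : ((c = c' ∨ c + c' + 2 ≤ C) → fewP q e D0 c c' M eps') ∧
      ((c ≠ c' ∧ C ≤ c + c' + 1) → manyP q e D0 c c' M eps')) :
    ((∑ b ∈ range (M - 1), |(seen (ff q e D0 c c') M a (b + 1) : ℤ) -
        seen (ff q e D0 c c') M a b| : ℤ) : ℝ) ≤ 3 * eps' * (M : ℝ) ^ 2 ∧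
    ∀ b < M, |(seen (ff q e D0 c c') M a b : ℝ) -
      (if c' ≠ c ∧ C ≤ c + c' + 1 then (M : ℝ) ^ 2 else 0)| ≤ eps' * (M : ℝ) ^ 2 := by
  obtain ⟨h1, h2, h3⟩ := hTV (ff q e D0 c c') M a ha
  by_cases hm : c' ≠ c ∧ C ≤ c + c' + 1
  · have hmany := hfm.2 ⟨fun h => hm.1 h.symm, hm.2⟩
    unfold manyP at hmany
    constructor
    · have h2' : ((∑ b ∈ range (M - 1), |(seen (ff q e D0 c c') M a (b + 1) : ℤ) -
        seen (ff q e D0 c c') M a b| : ℤ) : ℝ) ≤ ((3 * (((obox M).filter (fun v => ∃ v' ∈ obox M, v' ≠ v ∧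
        (ff q e D0 c c') v' = (ff q e D0 c c') v)).card : ℤ) : ℤ) : ℝ) := by
        exact_mod_cast h2
      refine h2'.trans ?_
      push_cast
      linarith
    · intro b hb
      obtain ⟨h4, h5, h6⟩ := h3 b hb
      rw [if_pos hm, abs_le]
      have h4' : (seen (ff q e D0 c c') M a b : ℝ) ≤ (M : ℝ) ^ 2 := by exact_mod_cast h4
      have h6' : (M : ℝ) ^ 2 ≤ (seen (ff q e D0 c c') M a b : ℝ) + (((obox M).filter (fun v => ∃ v' ∈ obox M, v' ≠ v ∧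
        (ff q e D0 c c') v' = (ff q e D0 c c') v)).card : ℝ) := by exact_mod_cast h6
      have h7 : (0 : ℝ) ≤ (((obox M).filter (fun v => ∃ v' ∈ obox M, v' ≠ v ∧
        (ff q e D0 c c') v' = (ff q e D0 c c') v)).card : ℝ) := Nat.cast_nonneg _
      constructor <;> linarith
  · have hf : c = c' ∨ c + c' + 2 ≤ C := by
      by_contra hh
      push Not at hh
      exact hm ⟨fun h => hh.1 h.symm, by omega⟩
    have hfew := hfm.1 hf
    unfold fewP at hfew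
    constructor
    · have h1' : ((∑ b ∈ range (M - 1), |(seen (ff q e D0 c c') M a (b + 1) : ℤ) -
        seen (ff q e D0 c c') M a b| : ℤ) : ℝ) ≤ ((2 * (((obox M).image (ff q e D0 c c')).card : ℤ) : ℤ) : ℝ) := by
        exact_mod_cast h1
      refine h1'.trans ?_
      push_cast
      have h7 : (0 : ℝ) ≤ (((obox M).image (ff q e D0 c c')).card : ℝ) := Nat.cast_nonneg _
      linarith
    · intro b hb
      obtain ⟨h4, h5, h6⟩ := h3 b hb
      rw [if_neg hm, abs_le]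
      have h5' : (seen (ff q e D0 c c') M a b : ℝ) ≤ (((obox M).image (ff q e D0 c c')).card : ℝ) := by
        exact_mod_cast h5
      have h7 : (0 : ℝ) ≤ (seen (ff q e D0 c c') M a b : ℝ) := Nat.cast_nonneg _
      constructor <;> linarith

/-- facts on the row function -/
theorem class_row (hGEO : GEO_stmt) (hTV : TV_stmt) (C D0 c M a : ℕ) (q e : ℕ → ℕ) (eps' : ℝ)
    (hset : setup C D0 q) (he : ∀ c < C, 1 ≤ e c) (hc : c < C) (ha : a < M)
    (hfm : ∀ c' < C, ((c = c' ∨ c + c' + 2 ≤ C) → fewP q e D0 c c' M eps') ∧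
      ((c ≠ c' ∧ C ≤ c + c' + 1) → manyP q e D0 c c' M eps')) :
    ((∑ b ∈ range (M - 1), |(RR (P0 q e D0 C M) (pt q e D0 c a (b + 1)) : ℤ) -
        RR (P0 q e D0 C M) (pt q e D0 c a b)| : ℤ) : ℝ) ≤ 3 * (C * eps') * (M : ℝ) ^ 2 ∧
    ∀ b < M, |(RR (P0 q e D0 C M) (pt q e D0 c a b) : ℝ) + 1 -
      (NN C c : ℝ) * (M : ℝ) ^ 2| ≤ (C * eps') * (M : ℝ) ^ 2 := by
  obtain ⟨-, hG⟩ := hGEO C D0 M q e hset he
  have hr : ∀ b < M, (RR (P0 q e D0 C M) (pt q e D0 c a b) : ℤ) + 1 =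
      ∑ c' ∈ range C, (seen (ff q e D0 c c') M a b : ℤ) := by
    intro b hb
    have := hG c hc a ha b hb
    unfold pt
    exact_mod_cast this
  constructor
  · have h1 : (∑ b ∈ range (M - 1), |(RR (P0 q e D0 C M) (pt q e D0 c a (b + 1)) : ℤ) -
        RR (P0 q e D0 C M) (pt q e D0 c a b)|) ≤ ∑ b ∈ range (M - 1), ∑ c' ∈ range C,
          |(seen (ff q e D0 c c') M a (b + 1) : ℤ) - seen (ff q e D0 c c') M a b| := by
      refine Finset.sum_le_sum fun b hb => ?_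
      rw [Finset.mem_range] at hb
      have e1 := hr (b + 1) (by omega)
      have e2 := hr b (by omega)
      have e3 : (RR (P0 q e D0 C M) (pt q e D0 c a (b + 1)) : ℤ) -
        RR (P0 q e D0 C M) (pt q e D0 c a b) = ∑ c' ∈ range C,
          ((seen (ff q e D0 c c') M a (b + 1) : ℤ) - seen (ff q e D0 c c') M a b) := by
        rw [Finset.sum_sub_distrib]; linarith
      rw [e3]
      exact Finset.abs_sum_le_sum_abs _ _
    rw [Finset.sum_comm] at h1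
    have h2 : ((∑ b ∈ range (M - 1), |(RR (P0 q e D0 C M) (pt q e D0 c a (b + 1)) : ℤ) -
        RR (P0 q e D0 C M) (pt q e D0 c a b)| : ℤ) : ℝ) ≤ ((∑ c' ∈ range C, ∑ b ∈ range (M - 1),
          |(seen (ff q e D0 c c') M a (b + 1) : ℤ) - seen (ff q e D0 c c') M a b| : ℤ) : ℝ) := by
      exact Int.cast_le.mpr h1
    refine h2.trans ?_
    rw [Int.cast_sum]
    have h3 : ∑ c' ∈ range C, ((∑ b ∈ range (M - 1),
          |(seen (ff q e D0 c c') M a (b + 1) : ℤ) - seen (ff q e D0 c c') M a b| : ℤ) : ℝ) ≤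
          ∑ c' ∈ range C, 3 * eps' * (M : ℝ) ^ 2 :=
      Finset.sum_le_sum fun c' hc' => (class_one hTV C D0 c c' M a q e eps' ha
        (hfm c' (Finset.mem_range.mp hc'))).1
    refine h3.trans ?_
    rw [Finset.sum_const, Finset.card_range, nsmul_eq_mul]
    apply le_of_eq; ring
  · intro b hb
    have e1 : (RR (P0 q e D0 C M) (pt q e D0 c a b) : ℝ) + 1 =
      ∑ c' ∈ range C, (seen (ff q e D0 c c') M a b : ℝ) := by exact_mod_cast hr b hb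
    have e2 : (NN C c : ℝ) * (M : ℝ) ^ 2 = ∑ c' ∈ range C,
        (if c' ≠ c ∧ C ≤ c + c' + 1 then (M : ℝ) ^ 2 else 0) := by
      rw [← Finset.sum_filter, Finset.sum_const, nsmul_eq_mul]; rfl
    rw [e1, e2, ← Finset.sum_sub_distrib]
    refine (Finset.abs_sum_le_sum_abs _ _).trans ?_
    have h3 : ∑ c' ∈ range C, |(seen (ff q e D0 c c') M a b : ℝ) -
        (if c' ≠ c ∧ C ≤ c + c' + 1 then (M : ℝ) ^ 2 else 0)| ≤ ∑ c' ∈ range C, eps' * (M : ℝ) ^ 2 :=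
      Finset.sum_le_sum fun c' hc' => (class_one hTV C D0 c c' M a q e eps' ha
        (hfm c' (Finset.mem_range.mp hc'))).2 b hb
    refine h3.trans ?_
    rw [Finset.sum_const, Finset.card_range, nsmul_eq_mul]
    apply le_of_eq; ring

/-- number of removed points -/
theorem class_remove {α : Type*} [DecidableEq α] (X0 : Finset α) (V2 : α → ℤ) (lo hi A B : ℤ)
    (hinj : Set.InjOn V2 X0) (hlo : ∀ v ∈ X0, lo - A ≤ V2 v) (hhi : ∀ v ∈ X0, V2 v < hi + B)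
    (hA : 0 ≤ A) (hB : 0 ≤ B) :
    (X0.card : ℤ) ≤ ((X0.filter (fun v => lo ≤ V2 v ∧ V2 v < hi)).card : ℤ) + (A + B) := by
  classical
  have h1 := Finset.card_filter_add_card_filter_not (s := X0) (fun v => lo ≤ V2 v ∧ V2 v < hi)
  have h2 : (X0.filter (fun v => ¬ (lo ≤ V2 v ∧ V2 v < hi))).card ≤
      (Finset.Ico (lo - A) lo ∪ Finset.Ico hi (hi + B)).card := by
    refine Finset.card_le_card_of_injOn V2 ?_ ?_
    · intro v hv
      rw [Finset.mem_coe, Finset.mem_filter] at hv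
      have := hlo v hv.1
      have := hhi v hv.1
      rw [Finset.mem_coe, Finset.mem_union, Finset.mem_Ico, Finset.mem_Ico]
      by_cases h : V2 v < lo
      · left; constructor <;> omega
      · right
        have h3 : ¬ V2 v < hi := fun h4 => hv.2 ⟨by omega, h4⟩
        constructor <;> omega
    · intro v hv w hw hvw
      rw [Finset.mem_coe, Finset.mem_filter] at hv hw
      exact hinj hv.1 hw.1 hvw
  have h3 := (Finset.card_union_le (Finset.Ico (lo - A) lo) (Finset.Ico hi (hi + B)))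
  rw [Int.card_Ico, Int.card_Ico] at h3
  have h4 : ((lo - (lo - A)).toNat : ℤ) = A := by
    rw [Int.toNat_of_nonneg] <;> omega
  have h5 : ((hi + B - hi).toNat : ℤ) = B := by
    rw [Int.toNat_of_nonneg] <;> omega
  omega

/-- TARGET: prove this. Do not change the definitions above. Helper lemmas may be added before it. -/
theorem CLASS_thm (hGEO : GEO_stmt) (hTV : TV_stmt) (hREC : REC_stmt) (hPLACE : PLACE_stmt) : CLASS_stmt := by
  intro eps heps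
  obtain ⟨eps0, h0, h01, h0e⟩ : ∃ eps0 : ℝ, 0 < eps0 ∧ eps0 ≤ 1 ∧ eps0 ≤ eps :=
    ⟨min eps 1, lt_min heps one_pos, min_le_right _ _, min_le_left _ _⟩
  obtain ⟨e2, K, T, Mp, he2, he21, hK, hT, hP⟩ := hPLACE (eps0/4) (by positivity)
  refine ⟨K, T, hK, hT, ?_⟩
  intro C hC
  have hC' : (0:ℝ) < C := by exact_mod_cast hC
  obtain ⟨eps', heps', hδ⟩ : ∃ eps' : ℝ, 0 < eps' ∧ (C : ℝ) * eps' = eps0 * e2 / 24 :=
    ⟨eps0 * e2 / (24 * C), by positivity, by field_simp⟩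
  refine ⟨eps', max Mp (⌈4/e2⌉₊ + ⌈2*(3+2*K+2*T)/eps0⌉₊ + 1), heps', ?_⟩
  intro M hM D0 q e hset he hfm c hc
  have hMp : Mp ≤ M := le_trans (le_max_left _ _) hM
  have hM2 := le_trans (le_max_right _ _) hM
  have hM1 : 1 ≤ M := by omega
  have hMr : (1:ℝ) ≤ M := by exact_mod_cast hM1
  have hMe : 4/e2 ≤ (M : ℝ) := by
    refine (Nat.le_ceil _).trans ?_
    exact_mod_cast (by omega : ⌈4/e2⌉₊ ≤ M)
  have hMb : 2*(3+2*K+2*T)/eps0 ≤ (M : ℝ) := by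
    refine (Nat.le_ceil _).trans ?_
    exact_mod_cast (by omega : ⌈2*(3+2*K+2*T)/eps0⌉₊ ≤ M)
  have hrow := fun a (ha : a < M) => class_row hGEO hTV C D0 c M a q e eps' hset he hc ha
    (hfm c hc)
  rw [hδ] at hrow
  -- record rows
  have hB : ∀ a : ℕ, ∃ B : Finset ℕ, a < M → (B ⊆ range M ∧
      ((M : ℝ) - B.card) * (e2 * M) ≤ 3 * (eps0 * e2 / 24) * (M : ℝ) ^ 2 ∧
      ∀ b1 ∈ B, ∀ b2 ∈ B, b1 < b2 → (1 - e2) * (M : ℝ) * ((b2 : ℝ) - b1) ≤
        (VV q e D0 C M c a b2 : ℝ) - (VV q e D0 C M c a b1 : ℝ)) := by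
    intro a
    by_cases ha : a < M
    · obtain ⟨B, hB1, hB2, hB3⟩ := hREC M (fun b => (RR (P0 q e D0 C M) (pt q e D0 c a b) : ℤ)) e2
        (3 * (eps0 * e2 / 24) * (M : ℝ) ^ 2) he2 he21 (by omega) (hrow a ha).1
      refine ⟨B, fun _ => ⟨hB1, hB2, ?_⟩⟩
      intro b1 hb1 b2 hb2 h12
      exact hB3 b1 hb1 b2 hb2 h12
    · exact ⟨∅, fun h => absurd h ha⟩
  choose B hB using hB
  -- bounds of V
  have hM0 : (0 : ℝ) < M := by linarith
  have hVlo : ∀ a < M, ∀ b < M, -((NN C c : ℝ) * (M : ℝ) ^ 2) - eps0 * e2 / 24 * (M : ℝ) ^ 2 ≤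
      (VV q e D0 C M c a b : ℝ) := by
    intro a ha b hb
    have h := (abs_le.mp ((hrow a ha).2 b hb)).2
    unfold VV
    push_cast
    have h1 : (0 : ℝ) ≤ (M : ℝ) * ((b : ℝ) + 1) := by positivity
    linarith
  have hVhi : ∀ a < M, ∀ b < M, (VV q e D0 C M c a b : ℝ) ≤
      -((NN C c : ℝ) * (M : ℝ) ^ 2) + (M : ℝ) ^ 2 + eps0 * e2 / 24 * (M : ℝ) ^ 2 + 1 := by
    intro a ha b hb
    have h := (abs_le.mp ((hrow a ha).2 b hb)).1
    unfold VV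
    push_cast
    have h2 : (b : ℝ) + 1 ≤ M := by exact_mod_cast hb
    have h1 : (M : ℝ) * ((b : ℝ) + 1) ≤ (M : ℝ) ^ 2 := by
      rw [pow_two]; exact mul_le_mul_of_nonneg_left h2 hM0.le
    linarith
  set A : ℤ := ⌈eps0 * e2 / 24 * (M : ℝ) ^ 2⌉ with hA
  have hA1 : eps0 * e2 / 24 * (M : ℝ) ^ 2 ≤ (A : ℝ) := Int.le_ceil _
  have hA2 : (A : ℝ) < eps0 * e2 / 24 * (M : ℝ) ^ 2 + 1 := Int.ceil_lt_add_one _
  have hAnn : (0 : ℝ) ≤ eps0 * e2 / 24 * (M : ℝ) ^ 2 := by positivity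
  have hA0 : 0 ≤ A := by exact_mod_cast hAnn.trans hA1
  have hee : eps0 * e2 ≤ e2 := by nlinarith
  have hee' : eps0 * e2 ≤ eps0 := by nlinarith
  have hM4 : 4 ≤ e2 * (M : ℝ) ^ 2 := by
    have : 4 ≤ (M : ℝ) * e2 := (div_le_iff₀ he2).mp hMe
    nlinarith
  obtain ⟨f, h', h, X0, hf, hh', hh, hX0, hX0c, hinj⟩ := hP M hMp (VV q e D0 C M c) B
    (-((NN C c : ℤ) * (M : ℤ) ^ 2) - A) (fun a ha => (hB a ha).1) (fun a ha => (hB a ha).2.2) (by
      intro a ha b hb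
      have hbM : b < M := Finset.mem_range.mp ((hB a ha).1 hb)
      have h1 := hVlo a ha b hbM
      have h2 := hVhi a ha b hbM
      push_cast
      constructor
      · linarith
      · nlinarith [mul_le_mul_of_nonneg_right hee (sq_nonneg (M : ℝ))])
  -- the values
  have hloV : ∀ v ∈ X0, -((NN C c : ℤ) * (M : ℤ) ^ 2) - A ≤
      VV q e D0 C M c v.1 v.2 + (f v.2 : ℤ) + (h' v.1 : ℤ) + (h v.1 v.2 : ℤ) := by
    intro v hv
    obtain ⟨ha, hb⟩ := hX0 v hv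
    have hbM : v.2 < M := Finset.mem_range.mp ((hB v.1 ha).1 hb)
    have h1 := hVlo v.1 ha v.2 hbM
    have h2 : ((-((NN C c : ℤ) * (M : ℤ) ^ 2) - A : ℤ) : ℝ) ≤ (VV q e D0 C M c v.1 v.2 : ℝ) := by
      push_cast; linarith
    have h3 : -((NN C c : ℤ) * (M : ℤ) ^ 2) - A ≤ VV q e D0 C M c v.1 v.2 := by exact_mod_cast h2
    have h4 : (0 : ℤ) ≤ (f v.2 : ℤ) := Int.natCast_nonneg _
    have h5 : (0 : ℤ) ≤ (h' v.1 : ℤ) := Int.natCast_nonneg _
    have h6 : (0 : ℤ) ≤ (h v.1 v.2 : ℤ) := Int.natCast_nonneg _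
    linarith
  have hhiV : ∀ v ∈ X0,
      VV q e D0 C M c v.1 v.2 + (f v.2 : ℤ) + (h' v.1 : ℤ) + (h v.1 v.2 : ℤ) <
        (-((NN C c : ℤ) * (M : ℤ) ^ 2) + (M : ℤ) ^ 2) + (A + 1 + 2 * K * M + 2 * T) := by
    intro v hv
    obtain ⟨ha, hb⟩ := hX0 v hv
    have hbM : v.2 < M := Finset.mem_range.mp ((hB v.1 ha).1 hb)
    have h1 := hVhi v.1 ha v.2 hbM
    have h2 : (VV q e D0 C M c v.1 v.2 : ℝ) ≤
        ((-((NN C c : ℤ) * (M : ℤ) ^ 2) + (M : ℤ) ^ 2 + A + 1 : ℤ) : ℝ) := by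
      push_cast; linarith
    have h3 : VV q e D0 C M c v.1 v.2 ≤ -((NN C c : ℤ) * (M : ℤ) ^ 2) + (M : ℤ) ^ 2 + A + 1 := by
      exact_mod_cast h2
    have h4 : (f v.2 : ℤ) < K * M := by exact_mod_cast hf v.2
    have h5 : (h' v.1 : ℤ) < K * M := by exact_mod_cast hh' v.1
    have h6 : (h v.1 v.2 : ℤ) < 2 * T := by exact_mod_cast hh v.1 v.2
    linarith
  have hBnn : (0 : ℤ) ≤ A + 1 + 2 * K * M + 2 * T := by positivity
  have hrem := class_remove X0 (fun v : ℕ × ℕ => VV q e D0 C M c v.1 v.2 + (f v.2 : ℤ) +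
    (h' v.1 : ℤ) + (h v.1 v.2 : ℤ)) (-((NN C c : ℤ) * (M : ℤ) ^ 2))
    (-((NN C c : ℤ) * (M : ℤ) ^ 2) + (M : ℤ) ^ 2) A (A + 1 + 2 * K * M + 2 * T) hinj hloV hhiV hA0 hBnn
  refine ⟨f, h', h, X0.filter (fun v : ℕ × ℕ => -((NN C c : ℤ) * (M : ℤ) ^ 2) ≤
    VV q e D0 C M c v.1 v.2 + (f v.2 : ℤ) + (h' v.1 : ℤ) + (h v.1 v.2 : ℤ) ∧
    VV q e D0 C M c v.1 v.2 + (f v.2 : ℤ) + (h' v.1 : ℤ) + (h v.1 v.2 : ℤ) <
      (-((NN C c : ℤ) * (M : ℤ) ^ 2) + (M : ℤ) ^ 2)), hf, hh', hh, ?_, ?_, ?_, ?_⟩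
  · intro v hv
    obtain ⟨ha, hb⟩ := hX0 v (Finset.mem_filter.mp hv).1
    rw [Finset.mem_product, Finset.mem_range, Finset.mem_range]
    exact ⟨ha, Finset.mem_range.mp ((hB v.1 ha).1 hb)⟩
  · -- counting
    have hBc : ∀ a ∈ range M, (1 - eps0 / 8) * (M : ℝ) ≤ ((B a).card : ℝ) := by
      intro a ha
      have h1 := (hB a (Finset.mem_range.mp ha)).2.1
      have h2 : ((M : ℝ) - (B a).card) ≤ eps0 / 8 * M := by
        have h3 : ((M : ℝ) - (B a).card) * (e2 * M) ≤ (eps0 / 8 * M) * (e2 * M) := by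
          refine h1.trans (le_of_eq ?_); ring
        exact le_of_mul_le_mul_right h3 (by positivity)
      linarith
    have hsum := Finset.sum_le_sum hBc
    rw [Finset.sum_const, Finset.card_range, nsmul_eq_mul] at hsum
    have hremR : (X0.card : ℝ) ≤ ((X0.filter (fun v : ℕ × ℕ => -((NN C c : ℤ) * (M : ℤ) ^ 2) ≤
      VV q e D0 C M c v.1 v.2 + (f v.2 : ℤ) + (h' v.1 : ℤ) + (h v.1 v.2 : ℤ) ∧
      VV q e D0 C M c v.1 v.2 + (f v.2 : ℤ) + (h' v.1 : ℤ) + (h v.1 v.2 : ℤ) <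
      (-((NN C c : ℤ) * (M : ℤ) ^ 2) + (M : ℤ) ^ 2))).card : ℝ) +
        ((A : ℝ) + ((A : ℝ) + 1 + 2 * K * M + 2 * T)) := by
      exact_mod_cast hrem
    have hMb' : 2*(3+2*K+2*T) ≤ (M : ℝ) * eps0 := (div_le_iff₀ h0).mp hMb
    have hfin : (3 : ℝ) + 2 * K * M + 2 * T ≤ eps0 / 2 * (M : ℝ) ^ 2 := by
      have hT0 : (0 : ℝ) ≤ T := Nat.cast_nonneg _
      have h1 : (3 : ℝ) + 2 * K * M + 2 * T ≤ (3 + 2 * K + 2 * T) * M := by nlinarith
      have h2 : (3 + 2 * K + 2 * T) * (M : ℝ) ≤ (M : ℝ) * eps0 / 2 * M := by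
        refine mul_le_mul_of_nonneg_right ?_ hM0.le
        linarith
      refine h1.trans (h2.trans (le_of_eq ?_))
      ring
    have h8 := mul_le_mul_of_nonneg_right hee' (sq_nonneg (M : ℝ))
    have h9 := mul_le_mul_of_nonneg_right h0e (sq_nonneg (M : ℝ))
    have h10 : (M : ℝ) * ((1 - eps0 / 8) * M) = (M : ℝ) ^ 2 - eps0 / 8 * (M : ℝ) ^ 2 := by ring
    rw [h10] at hsum
    have h11 : (1 - eps) * (M : ℝ) ^ 2 = (M : ℝ) ^ 2 - eps * (M : ℝ) ^ 2 := by ring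
    rw [h11]
    have h12 : eps0 * e2 / 24 * (M : ℝ) ^ 2 = eps0 * e2 * (M : ℝ) ^ 2 / 24 := by ring
    rw [h12] at hA2
    have h13 : (0 : ℝ) ≤ eps0 * (M : ℝ) ^ 2 := by positivity
    linarith
  · intro v hv w hw hvw
    rw [Finset.mem_coe, Finset.mem_filter] at hv hw
    exact hinj (Finset.mem_coe.mpr hv.1) (Finset.mem_coe.mpr hw.1) hvw
  · intro v hv
    exact (Finset.mem_filter.mp hv).2



end SCLASS
end DD106
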