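import Mathlib
import Pool.Agent.H106DD.Defs

set_option autoImplicit false
open Finset

namespace DD106
namespace SF1


theorem F1_NN (C c : ℕ) (hc : c < C) : NN C c = if 2 * c + 1 < C then c + 1 else c := by
  unfold NN
  split_ifs with h
  · have h1 : (range C).filter (fun c' => c' ≠ c ∧ C ≤ c + c' + 1) = Ico (C - 1 - c) C := by
      ext x
      simp only [mem_filter, mem_range, mem_Ico]
      omega
    rw [h1, Nat.card_Ico]
    omega
  · have h1 : (range C).filter (fun c' => c' ≠ c ∧ C ≤ c + c' + 1) =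
        (Ico (C - 1 - c) C).erase c := by
      ext x
      simp only [mem_filter, mem_range, mem_Ico, mem_erase]
      omega
    rw [h1, card_erase_of_mem (by simp only [mem_Ico]; omega), Nat.card_Ico]
    omega

theorem F1_NN_ne (C c c' : ℕ) (hc : c < C) (hc' : c' < C) (hne : c ≠ c')
    (h0 : c ≠ (C - 2) / 2) (h0' : c' ≠ (C - 2) / 2) : NN C c ≠ NN C c' := by
  rw [F1_NN C c hc, F1_NN C c' hc']
  split_ifs <;> omega

theorem F1_primes (C : ℕ) : ∃ (D0 : ℕ) (q : ℕ → ℕ), setup C D0 q := by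
  have hinf : {p : ℕ | p.Prime ∧ p ≡ 3 [MOD 4]}.Infinite :=
    Nat.infinite_setOfPred_prime_and_modEq (by norm_num) (by decide)
  have hm := Nat.nth_strictMono hinf
  have hp : ∀ n, (Nat.nth (fun p : ℕ => p.Prime ∧ p ≡ 3 [MOD 4]) n).Prime ∧
      Nat.nth (fun p : ℕ => p.Prime ∧ p ≡ 3 [MOD 4]) n ≡ 3 [MOD 4] :=
    fun n => Nat.nth_mem_of_infinite hinf n
  refine ⟨Nat.nth (fun p : ℕ => p.Prime ∧ p ≡ 3 [MOD 4]) C,
    Nat.nth (fun p : ℕ => p.Prime ∧ p ≡ 3 [MOD 4]), (hp C).1, ?_, hm.le_apply, ?_, ?_⟩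
  · exact (hp C).2
  · intro c hc
    exact ⟨(hp c).1, (hp c).2, (hm hc).ne⟩
  · intro c _ c' _ h
    exact hm.injective h

theorem F1_split (n r : ℕ) (θ : ℕ → ℝ × ℝ) (E : ℕ → Finset ℝ) (G : Finset ℝ → ℝ × ℝ → ℕ) :
    ∑ j ∈ range (n + r), G (if j < n then E j else {0}) (if j < n then θ j else (1, 0)) =
      ∑ j ∈ range n, G (E j) (θ j) + r * G {0} (1, 0) := by
  rw [Finset.sum_range_add]
  congr 1
  · refine Finset.sum_congr rfl fun j hj => ?_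
    rw [if_pos (mem_range.1 hj), if_pos (mem_range.1 hj)]
  · have h1 : ∀ j ∈ range r, G (if n + j < n then E (n + j) else {0})
        (if n + j < n then θ (n + j) else (1, 0)) = G {0} (1, 0) := by
      intro j _
      rw [if_neg (by omega), if_neg (by omega)]
    rw [Finset.sum_congr rfl h1, Finset.sum_const, card_range, smul_eq_mul]

theorem F1_aux (hNT : NT_stmt) (hGEO : GEO_stmt) (hCLASS : CLASS_stmt) (hGADL : GADL_stmt)
    (hGAD : GAD_stmt) (ε : ℝ) (hε : 0 < ε) (hε1 : ε ≤ 1) : ∃ C : ℕ, 0 < C ∧ ∃ M0 : ℕ, ∀ M : ℕ,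
    M0 ≤ M → ∀ n : ℕ, (1 + ε) * ((C : ℝ) * (M : ℝ) ^ 2) ≤ n →
      ∃ S : Finset (ℝ × ℝ), S.card = n ∧
        (1 - ε) * ((C : ℝ) * (M : ℝ) ^ 2) ≤ ((S.image (RR S)).card : ℝ) := by
  classical
  obtain ⟨s, hs4, hs⟩ : ∃ s : ℕ, 4 ≤ s ∧ 4 ≤ ε * s := by
    refine ⟨⌈4 / ε⌉₊ + 4, by omega, ?_⟩
    have h1 := Nat.le_ceil (4 / ε)
    rw [div_le_iff₀ hε] at h1
    push_cast
    nlinarith
  have hsR : (4 : ℝ) ≤ s := by exact_mod_cast hs4
  obtain ⟨K, T, hK, hT, hcl⟩ := hCLASS (ε / 4) (by linarith)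
  have hC0 : 0 < s ^ 2 := by positivity
  obtain ⟨eps', M0c, heps', hclC⟩ := hcl (s ^ 2) hC0
  obtain ⟨D0, q, hset⟩ := F1_primes (s ^ 2)
  obtain ⟨M0n, hnt⟩ := hNT (s ^ 2) D0 q eps' hset heps'
  obtain ⟨M0g, hgad⟩ := hGADL s K T D0 1 q (by omega) one_pos hset
  refine ⟨s ^ 2, hC0, M0c + M0n + M0g + 1, fun M hM n0 hn0 => ?_⟩
  obtain ⟨e, he1, hfm⟩ := hnt M (by omega)
  have hcls := hclC M (by omega) D0 q e hset he1 hfm
  obtain ⟨hPcard, -⟩ := hGEO (s ^ 2) D0 M q e hset he1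
  have hM1 : 0 < M := by omega
  have hex : ∀ c : ℕ, ∃ (f h' : ℕ → ℕ) (h : ℕ → ℕ → ℕ) (X : Finset (ℕ × ℕ)),
        (∀ i, f i < K * M) ∧ (∀ i, h' i < K * M) ∧ (∀ i j, h i j < 2 * T) ∧ (c < s ^ 2 →
        (X ⊆ (range M) ×ˢ (range M) ∧ (1 - ε / 4) * (M : ℝ) ^ 2 ≤ X.card ∧
        Set.InjOn (fun v : ℕ × ℕ =>
          VV q e D0 (s ^ 2) M c v.1 v.2 + (f v.2 : ℤ) + (h' v.1 : ℤ) + (h v.1 v.2 : ℤ)) X ∧
        ∀ v ∈ X, -((NN (s ^ 2) c : ℤ) * (M : ℤ) ^ 2) ≤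
            VV q e D0 (s ^ 2) M c v.1 v.2 + (f v.2 : ℤ) + (h' v.1 : ℤ) + (h v.1 v.2 : ℤ) ∧
          VV q e D0 (s ^ 2) M c v.1 v.2 + (f v.2 : ℤ) + (h' v.1 : ℤ) + (h v.1 v.2 : ℤ)
            < -((NN (s ^ 2) c : ℤ) * (M : ℤ) ^ 2) + (M : ℤ) ^ 2)) := by
    intro c
    by_cases hc : c < s ^ 2
    · obtain ⟨f, h', h, X, a1, a2, a3, a4⟩ := hcls c hc
      exact ⟨f, h', h, X, a1, a2, a3, fun _ => a4⟩
    · exact ⟨fun _ => 0, fun _ => 0, fun _ _ => 0, ∅, fun _ => Nat.mul_pos hK hM1,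
        fun _ => Nat.mul_pos hK hM1, fun _ _ => Nat.mul_pos two_pos hT, fun h => (hc h).elim⟩
  choose f h' h X b1 b2 b3 b4 using hex
  obtain ⟨n, θ, E, hθ, hE, hsum⟩ := hgad M (by omega) e f h' h he1 b1 b2 b3
  set TE : ℕ := ∑ j ∈ range n, (E j).card with hTE
  have hle : s ^ 2 * M ^ 2 + TE ≤ n0 := by
    have h1 : ((s ^ 2 * M ^ 2 + TE : ℕ) : ℝ) ≤ n0 := by
      refine le_trans ?_ hn0
      push_cast
      have h2 : (TE : ℝ) ≤ (2 * (s : ℝ) + 1) * (M : ℝ) ^ 2 := hE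
      have h3 : (2 * (s : ℝ) + 1) ≤ ε * (s : ℝ) ^ 2 := by nlinarith
      have h4 : (2 * (s : ℝ) + 1) * (M : ℝ) ^ 2 ≤ ε * (s : ℝ) ^ 2 * (M : ℝ) ^ 2 :=
        mul_le_mul_of_nonneg_right h3 (by positivity)
      nlinarith
    exact_mod_cast h1
  obtain ⟨r, hr⟩ : ∃ r, n0 = s ^ 2 * M ^ 2 + TE + r := ⟨n0 - (s ^ 2 * M ^ 2 + TE), by omega⟩
  obtain ⟨S, hPS, hScard, hRR⟩ := hGAD (P0 q e D0 (s ^ 2) M) (n + r)
    (fun j => if j < n then θ j else (1, 0)) (fun j => if j < n then E j else {0}) (by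
      intro j _
      by_cases hj : j < n
      · simp only [hj, if_true]
        exact hθ j hj
      · simp only [hj, if_false]
        intro h0
        have := congrArg Prod.fst h0
        simp at this)
  have hcard1 : ∑ j ∈ range (n + r), (if j < n then E j else {0}).card = TE + r := by
    have := F1_split n r θ E (fun A _ => A.card)
    simp only [card_singleton, mul_one] at this
    exact this
  refine ⟨S, ?_, ?_⟩
  · rw [hScard, hPcard, hcard1, hr]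
    ring
  have hptmem : ∀ c < s ^ 2, ∀ a < M, ∀ b < M, pt q e D0 c a b ∈ P0 q e D0 (s ^ 2) M := by
    intro c hc a ha b hb
    refine mem_image.2 ⟨(c, (a, b)), ?_, rfl⟩
    simp only [mem_product, mem_range]
    exact ⟨hc, ha, hb⟩
  have hR : ∀ c < s ^ 2, ∀ a < M, ∀ b < M, (RR S (pt q e D0 c a b) : ℤ) =
      (TE + r : ℤ) - (VV q e D0 (s ^ 2) M c a b + (f c b : ℤ) + (h' c a : ℤ) + (h c a b : ℤ)) := by
    intro c hc a ha b hb
    have h1 := hRR _ (hptmem c hc a ha b hb)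
    have h2 := F1_split n r θ E (fun A t => (A.image (fun s =>
      (s - ((pt q e D0 c a b).1 * t.1 + (pt q e D0 c a b).2 * t.2)) ^ 2)).card)
    have h3 := hsum c hc a ha b hb
    simp only [image_singleton, card_singleton, mul_one] at h2
    rw [h2] at h1
    unfold VV
    have h1' := congrArg (Nat.cast : ℕ → ℤ) h1
    have h3' := congrArg (Nat.cast : ℕ → ℤ) h3
    push_cast at h1' h3' ⊢
    linarith
  set c0 : ℕ := (s ^ 2 - 2) / 2 with hc0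
  set U : Finset (Σ _ : ℕ, ℕ × ℕ) := ((range (s ^ 2)).erase c0).sigma (fun c => X c) with hU
  have hUmem : ∀ u ∈ U, u.1 ≠ c0 ∧ u.1 < s ^ 2 ∧ u.2 ∈ X u.1 ∧ u.2.1 < M ∧ u.2.2 < M := by
    intro u hu
    rw [hU, mem_sigma, mem_erase, mem_range] at hu
    have h1 := (b4 u.1 hu.1.2).1 hu.2
    rw [mem_product, mem_range, mem_range] at h1
    exact ⟨hu.1.1, hu.1.2, hu.2, h1.1, h1.2⟩
  have himg : U.image (fun u => RR S (pt q e D0 u.1 u.2.1 u.2.2)) ⊆ S.image (RR S) := by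
    intro y hy
    obtain ⟨u, hu, rfl⟩ := mem_image.1 hy
    obtain ⟨-, hc, -, ha, hb⟩ := hUmem u hu
    exact mem_image.2 ⟨_, hPS (hptmem _ hc _ ha _ hb), rfl⟩
  have hinj : Set.InjOn (fun u : (Σ _ : ℕ, ℕ × ℕ) => RR S (pt q e D0 u.1 u.2.1 u.2.2)) U := by
    intro u hu v hv huv
    obtain ⟨hu0, huc, huX, hua, hub⟩ := hUmem u hu
    obtain ⟨hv0, hvc, hvX, hva, hvb⟩ := hUmem v hv
    have h1 : (RR S (pt q e D0 u.1 u.2.1 u.2.2) : ℤ) = (RR S (pt q e D0 v.1 v.2.1 v.2.2) : ℤ) := by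
      exact_mod_cast huv
    rw [hR _ huc _ hua _ hub, hR _ hvc _ hva _ hvb] at h1
    have hu4 := (b4 u.1 huc).2.2.2 u.2 huX
    have hv4 := (b4 v.1 hvc).2.2.2 v.2 hvX
    have hcc : u.1 = v.1 := by
      by_contra hne
      have hNN := F1_NN_ne (s ^ 2) u.1 v.1 huc hvc hne hu0 hv0
      have hM2 : (0 : ℤ) < (M : ℤ) ^ 2 := by positivity
      rcases lt_or_gt_of_ne hNN with hlt | hlt
      · have h5 : (NN (s ^ 2) u.1 : ℤ) + 1 ≤ (NN (s ^ 2) v.1 : ℤ) := by exact_mod_cast hlt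
        have h6 := mul_le_mul_of_nonneg_right h5 hM2.le
        linarith [hu4.1, hv4.2]
      · have h5 : (NN (s ^ 2) v.1 : ℤ) + 1 ≤ (NN (s ^ 2) u.1 : ℤ) := by exact_mod_cast hlt
        have h6 := mul_le_mul_of_nonneg_right h5 hM2.le
        linarith [hv4.1, hu4.2]
    obtain ⟨c, a⟩ := u
    obtain ⟨c', a'⟩ := v
    simp only at hcc
    subst hcc
    have h7 := (b4 c huc).2.2.1 huX hvX (by
      show VV q e D0 (s ^ 2) M c a.1 a.2 + (f c a.2 : ℤ) + (h' c a.1 : ℤ) + (h c a.1 a.2 : ℤ) =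
        VV q e D0 (s ^ 2) M c a'.1 a'.2 + (f c a'.2 : ℤ) + (h' c a'.1 : ℤ) + (h c a'.1 a'.2 : ℤ)
      simp only at h1
      linarith)
    exact congrArg (Sigma.mk c) h7
  have hcardU : ((s : ℝ) ^ 2 - 1) * ((1 - ε / 4) * (M : ℝ) ^ 2) ≤ (U.card : ℝ) := by
    rw [hU, card_sigma]
    push_cast
    have h1 : ∑ _c ∈ (range (s ^ 2)).erase c0, ((1 - ε / 4) * (M : ℝ) ^ 2) ≤
        ∑ c ∈ (range (s ^ 2)).erase c0, ((X c).card : ℝ) := by
      refine Finset.sum_le_sum fun c hc => ?_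
      rw [mem_erase, mem_range] at hc
      exact (b4 c hc.2).2.1
    refine le_trans (le_of_eq ?_) h1
    rw [Finset.sum_const, nsmul_eq_mul, card_erase_of_mem (by
      rw [mem_range, hc0]
      omega), card_range, Nat.cast_sub hC0]
    push_cast
    ring
  have hle2 : U.card ≤ (S.image (RR S)).card := by
    rw [← card_image_of_injOn hinj]
    exact card_le_card himg
  have hle3 : (U.card : ℝ) ≤ ((S.image (RR S)).card : ℝ) := by exact_mod_cast hle2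
  refine le_trans ?_ hle3
  refine le_trans ?_ hcardU
  push_cast
  have hM2 : (0 : ℝ) ≤ (M : ℝ) ^ 2 := by positivity
  have h1 : (1 - ε) * (s : ℝ) ^ 2 ≤ ((s : ℝ) ^ 2 - 1) * (1 - ε / 4) := by
    have h2 : 16 ≤ ε * (s : ℝ) ^ 2 := by nlinarith
    nlinarith
  have h2 := mul_le_mul_of_nonneg_right h1 hM2
  linarith

/-- TARGET: prove this. Do not change the definitions above. Helper lemmas may be added before it. -/
theorem F1_thm (hNT : NT_stmt) (hGEO : GEO_stmt) (hCLASS : CLASS_stmt) (hGADL : GADL_stmt) (hGAD : GAD_stmt) : F1_stmt := by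
  intro ε hε
  obtain ⟨C, hC, M0, h⟩ := F1_aux hNT hGEO hCLASS hGADL hGAD (min ε 1) (lt_min hε one_pos)
    (min_le_right _ _)
  refine ⟨C, hC, M0, fun M hM n hn => ?_⟩
  have h0 : (0 : ℝ) ≤ (C : ℝ) * (M : ℝ) ^ 2 := by positivity
  have h1 : min ε 1 ≤ ε := min_le_left _ _
  obtain ⟨S, hS, hS'⟩ := h M hM n (le_trans (mul_le_mul_of_nonneg_right (by linarith) h0) hn)
  exact ⟨S, hS, le_trans (mul_le_mul_of_nonneg_right (by linarith) h0) hS'⟩



end SF1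
end DD106
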