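import Mathlib
import Pool.Agent.H106DD.Defs

set_option autoImplicit false
open Finset

namespace DD106
namespace SF2

/-- TARGET: prove this. -/
theorem F2_thm (hF1 : F1_stmt) : MAIN_stmt := by
  intro ε hε
  -- parameters
  set e : ℝ := min ε 1 with he
  have he0 : 0 < e := lt_min hε one_pos
  have he1 : e ≤ 1 := min_le_right _ _
  have heε : e ≤ ε := min_le_left _ _
  obtain ⟨C, hC, M0, hM0⟩ := hF1 (e / 4) (by positivity)
  have hCr : (0 : ℝ) < C := by exact_mod_cast hC
  set T : ℝ := max (8 / e) (M0 : ℝ) with hT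
  have hT1 : 8 / e ≤ T := le_max_left _ _
  have hT2 : (M0 : ℝ) ≤ T := le_max_right _ _
  have hT0 : 0 < T := lt_of_lt_of_le (by positivity) hT1
  set A : ℝ := (1 + e / 4) * C with hA
  have hA0 : 0 < A := by positivity
  refine ⟨⌈A * T ^ 2⌉₊, fun n hn => ?_⟩
  have hn' : A * T ^ 2 ≤ n := (Nat.le_ceil _).trans (by exact_mod_cast hn)
  set t : ℝ := Real.sqrt (n / A) with ht
  have ht2 : t ^ 2 = n / A := Real.sq_sqrt (by positivity)
  have htT : T ≤ t := by
    apply Real.le_sqrt_of_sq_le
    rw [le_div_iff₀ hA0]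
    linarith
  have ht0 : 0 < t := lt_of_lt_of_le hT0 htT
  set M : ℕ := ⌊t⌋₊ with hM
  have hMt : (M : ℝ) ≤ t := Nat.floor_le ht0.le
  have hMt' : t < (M : ℝ) + 1 := Nat.lt_floor_add_one t
  have hM0M : M0 ≤ M := Nat.le_floor (hT2.trans htT)
  have hnA : A * t ^ 2 = n := by rw [ht2]; field_simp
  obtain ⟨S, hSn, hSv⟩ := hM0 M hM0M n (by
    have : (M : ℝ) ^ 2 ≤ t ^ 2 := by
      apply pow_le_pow_left₀ (Nat.cast_nonneg _) hMt
    calc (1 + e / 4) * ((C : ℝ) * (M : ℝ) ^ 2) = A * (M : ℝ) ^ 2 := by rw [hA]; ring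
      _ ≤ A * t ^ 2 := by gcongr
      _ = n := hnA)
  -- numeric bound
  have hnum : (1 - ε) * (n : ℝ) ≤ (1 - e / 4) * ((C : ℝ) * (M : ℝ) ^ 2) := by
    have h8 : 8 ≤ e * t := by
      have : 8 / e ≤ t := hT1.trans htT
      rw [div_le_iff₀ he0] at this
      linarith
    have hM2 : (1 - e / 4) * t ^ 2 ≤ (M : ℝ) ^ 2 := by
      have h1 : t - 1 ≤ (M : ℝ) := by linarith
      have h2 : 1 ≤ t := by
        have : e * t ≤ t := by nlinarith
        linarith
      have h3 : (t - 1) ^ 2 ≤ (M : ℝ) ^ 2 := pow_le_pow_left₀ (by linarith) h1 2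
      nlinarith
    have h4 : (1 - e) * (n : ℝ) ≤ (1 - e / 4) * ((C : ℝ) * (M : ℝ) ^ 2) := by
      rw [← hnA, hA]
      have h5 : (1 - e / 4) * ((C : ℝ) * ((1 - e / 4) * t ^ 2))
          ≤ (1 - e / 4) * ((C : ℝ) * (M : ℝ) ^ 2) := by
        have : 0 ≤ 1 - e / 4 := by linarith
        gcongr
      refine le_trans ?_ h5
      have h6 : 0 ≤ (C : ℝ) * t ^ 2 := by positivity
      have h7 : (1 - e) * ((1 + e / 4)) ≤ (1 - e / 4) * (1 - e / 4) := by nlinarith
      calc (1 - e) * ((1 + e / 4) * (C : ℝ) * t ^ 2)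
          = ((1 - e) * ((1 + e / 4))) * ((C : ℝ) * t ^ 2) := by ring
        _ ≤ ((1 - e / 4) * (1 - e / 4)) * ((C : ℝ) * t ^ 2) := by gcongr
        _ = _ := by ring
    refine le_trans ?_ h4
    have : (0 : ℝ) ≤ n := Nat.cast_nonneg n
    nlinarith
  -- enumeration
  have eq : Fin n ≃ S := (Fintype.equivFinOfCardEq (by simp [hSn])).symm
  set p : Fin n → ℝ × ℝ := fun i => (eq i : ℝ × ℝ) with hp
  have hpinj : Function.Injective p := fun i j h => eq.injective (Subtype.ext h)
  have hpimg : Finset.univ.image p = S := by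
    ext y
    simp only [Finset.mem_image, Finset.mem_univ, true_and]
    constructor
    · rintro ⟨i, rfl⟩; exact (eq i).2
    · intro hy
      exact ⟨eq.symm ⟨y, hy⟩, by simp [hp]⟩
  set x : Fin n → EuclideanSpace ℝ (Fin 2) := fun i => !₂[(p i).1, (p i).2] with hx
  have hxinj : Function.Injective x := by
    intro i j h
    apply hpinj
    have h0 : (x i) 0 = (x j) 0 := by rw [h]
    have h1 : (x i) 1 = (x j) 1 := by rw [h]
    simp [hx] at h0 h1
    exact Prod.ext h0 h1
  have hdist : ∀ i j, dist (x j) (x i) = Real.sqrt (sqd (p i) (p j)) := by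
    intro i j
    rw [EuclideanSpace.dist_eq]
    congr 1
    simp only [hx, Fin.sum_univ_two, sqd, Real.dist_eq, sq_abs]
    simp
    ring
  refine ⟨x, hxinj, ?_⟩
  have hRR : ∀ i, ((Finset.univ.erase i).image (fun j : Fin n => dist (x j) (x i))).card
      = RR S (p i) := by
    intro i
    have e1 : (Finset.univ.erase i).image (fun j : Fin n => dist (x j) (x i))
        = ((S.erase (p i)).image (sqd (p i))).image Real.sqrt := by
      rw [← hpimg, ← Finset.image_erase hpinj, Finset.image_image, Finset.image_image]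
      apply Finset.image_congr
      intro j _
      simp [hdist]
    rw [e1, Finset.card_image_of_injOn]
    · rfl
    · intro a ha b hb hab
      simp only [Finset.coe_image, Set.mem_image] at ha hb
      obtain ⟨u, _, rfl⟩ := ha
      obtain ⟨v, _, rfl⟩ := hb
      have hu : 0 ≤ sqd (p i) u := by unfold sqd; positivity
      have hv : 0 ≤ sqd (p i) v := by unfold sqd; positivity
      exact (Real.sqrt_inj hu hv).mp hab
  have e2 : (Finset.univ.image (fun i : Fin n =>
      ((Finset.univ.erase i).image (fun j : Fin n => dist (x j) (x i))).card)) = S.image (RR S) := by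
    simp only [hRR]
    conv_rhs => rw [← hpimg]
    rw [Finset.image_image]
    apply Finset.image_congr
    intro i _
    simp [hpimg]
  rw [e2]
  exact hnum.trans hSv



end SF2
end DD106
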