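import Mathlib
import Pool.Agent.H106DD.Defs

set_option autoImplicit false
open Finset

namespace DD106
namespace SFEW

/-! auxiliary lemmas for FEW -/

theorem few_sumsq (P : Finset ℕ) : ∑ p ∈ P, 1 / (p : ℝ) ^ 2 ≤ 2 := by
  have h := sum_le_hasSum P (fun i _ => by positivity) hasSum_zeta_two
  have hpi := Real.pi_lt_d2
  have h0 := Real.pi_pos
  nlinarith

theorem few_G (P : Finset ℕ) (hP : ∀ p ∈ P, P1 p) :
    (∑ p ∈ P, 2 / (p : ℝ)) - 2 ≤ ∑ p ∈ P, g p ∧ ∑ p ∈ P, g p ≤ ∑ p ∈ P, 2 / (p : ℝ) := by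
  have h : ∑ p ∈ P, g p = ∑ p ∈ P, 2 / (p : ℝ) - ∑ p ∈ P, 1 / (p : ℝ) ^ 2 := by
    rw [← Finset.sum_sub_distrib]
    refine Finset.sum_congr rfl fun p hp => ?_
    have hp0 : (p : ℝ) ≠ 0 := by
      have := (hP p hp).1.pos
      positivity
    unfold g
    field_simp
  have h1 := few_sumsq P
  have h2 : 0 ≤ ∑ p ∈ P, 1 / (p : ℝ) ^ 2 := Finset.sum_nonneg fun p _ => by positivity
  rw [h]
  constructor <;> linarith

theorem few_line (Q B' : ℕ) (hQ : 0 < Q) (r : ℕ) :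
    ((Icc (-((Q * B' : ℕ) : ℤ)) ((Q * B' : ℕ) : ℤ)).filter
      (fun x : ℤ => (x % (Q : ℤ)).toNat = r)).card ≤ 2 * B' + 1 := by
  have h1 : ((Icc (-((Q * B' : ℕ) : ℤ)) ((Q * B' : ℕ) : ℤ)).filter
      (fun x : ℤ => (x % (Q : ℤ)).toNat = r)).card ≤ (Icc (-(B' : ℤ)) (B' : ℤ)).card := by
    have hQ' : (0 : ℤ) < Q := by exact_mod_cast hQ
    refine Finset.card_le_card_of_injOn (fun x => x / (Q : ℤ)) ?_ ?_
    · intro x hx
      simp only [Finset.coe_filter, Finset.mem_Icc, Set.mem_ofPred_eq] at hx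
      obtain ⟨⟨h1, h2⟩, -⟩ := hx
      push_cast at h1 h2
      simp only [Finset.coe_Icc, Set.mem_Icc]
      constructor
      · rw [Int.le_ediv_iff_mul_le hQ']
        linarith
      · have h3 : x / (Q : ℤ) * Q ≤ x := Int.ediv_mul_le x hQ'.ne'
        have h4 : x / (Q : ℤ) * Q ≤ (B' : ℤ) * Q := by linarith
        exact le_of_mul_le_mul_right h4 hQ'
    · intro x hx y hy hxy
      simp only [Finset.coe_filter, Finset.mem_Icc, Set.mem_ofPred_eq] at hx hy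
      have hx0 := Int.emod_nonneg x hQ'.ne'
      have hy0 := Int.emod_nonneg y hQ'.ne'
      have h3 : x % (Q : ℤ) = y % (Q : ℤ) := by
        have := hx.2.trans hy.2.symm
        omega
      have hx1 := Int.mul_ediv_add_emod x Q
      have hy1 := Int.mul_ediv_add_emod y Q
      simp only at hxy
      rw [← hx1, ← hy1, hxy, h3]
  refine h1.trans ?_
  rw [Int.card_Icc]
  omega

theorem few_T (Q B' N : ℕ) (hQ : 0 < Q) (c : ℤ)
    (hN : (((range Q) ×ˢ (range Q)).filter (fun v : ℕ × ℕ =>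
      (Q : ℤ) ∣ (v.1 : ℤ) ^ 2 + (v.2 : ℤ) ^ 2 - c)).card ≤ N) :
    ((sq (Q * B')).filter (fun v : ℤ × ℤ => (Q : ℤ) ∣ v.1 ^ 2 + v.2 ^ 2 - c)).card
      ≤ (2 * B' + 1) ^ 2 * N := by
  have hQ' : (0 : ℤ) < Q := by exact_mod_cast hQ
  refine (Finset.card_le_mul_card_image_of_maps_to
    (f := fun v : ℤ × ℤ => ((v.1 % (Q : ℤ)).toNat, (v.2 % (Q : ℤ)).toNat))
    (t := ((range Q) ×ˢ (range Q)).filter (fun v : ℕ × ℕ =>
      (Q : ℤ) ∣ (v.1 : ℤ) ^ 2 + (v.2 : ℤ) ^ 2 - c)) ?_ ((2 * B' + 1) ^ 2) ?_).trans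
    (Nat.mul_le_mul_left _ hN)
  · intro v hv
    simp only [Finset.mem_filter, Finset.mem_product, Finset.mem_range] at hv ⊢
    have a0 := Int.emod_nonneg v.1 hQ'.ne'
    have a1 := Int.emod_lt_of_pos v.1 hQ'
    have b0 := Int.emod_nonneg v.2 hQ'.ne'
    have b1 := Int.emod_lt_of_pos v.2 hQ'
    refine ⟨⟨by omega, by omega⟩, ?_⟩
    rw [Int.toNat_of_nonneg a0, Int.toNat_of_nonneg b0]
    have hd := hv.2
    have e1 : (v.1 % (Q : ℤ)) = v.1 - Q * (v.1 / Q) := by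
      have := Int.mul_ediv_add_emod v.1 Q
      linarith
    have e2 : (v.2 % (Q : ℤ)) = v.2 - Q * (v.2 / Q) := by
      have := Int.mul_ediv_add_emod v.2 Q
      linarith
    rw [e1, e2]
    obtain ⟨k, hk⟩ := hd
    refine ⟨k - 2 * v.1 * (v.1 / Q) + Q * (v.1 / Q) ^ 2 - 2 * v.2 * (v.2 / Q)
      + Q * (v.2 / Q) ^ 2, ?_⟩
    linear_combination hk
  · intro b _
    have hsub : ((sq (Q * B')).filter (fun v : ℤ × ℤ => (Q : ℤ) ∣ v.1 ^ 2 + v.2 ^ 2 - c)).filter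
        (fun v : ℤ × ℤ => ((v.1 % (Q : ℤ)).toNat, (v.2 % (Q : ℤ)).toNat) = b) ⊆
        ((Icc (-((Q * B' : ℕ) : ℤ)) ((Q * B' : ℕ) : ℤ)).filter
          (fun x : ℤ => (x % (Q : ℤ)).toNat = b.1)) ×ˢ
        ((Icc (-((Q * B' : ℕ) : ℤ)) ((Q * B' : ℕ) : ℤ)).filter
          (fun x : ℤ => (x % (Q : ℤ)).toNat = b.2)) := by
      intro v hv
      simp only [sq, Finset.mem_filter, Finset.mem_product] at hv ⊢
      obtain ⟨⟨⟨h1, h2⟩, -⟩, h3⟩ := hv
      rw [← h3]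
      exact ⟨⟨h1, rfl⟩, ⟨h2, rfl⟩⟩
    refine (Finset.card_le_card hsub).trans ?_
    rw [Finset.card_product, pow_two]
    exact Nat.mul_le_mul (few_line Q B' hQ _) (few_line Q B' hQ _)

/-- counting the values with many representations -/
theorem few_N (hFL : FL_stmt) (P : Finset ℕ) (hP : ∀ p ∈ P, P1 p) (Q D M k : ℕ) (w1 w2 : ℤ)
    (hw1 : |w1| ≤ ((Q * D : ℕ) : ℤ)) (hw2 : |w2| ≤ ((Q * D : ℕ) : ℤ))
    (V : Finset (ℤ × ℤ)) (hV : V ⊆ obox M)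
    (hk : ∀ v ∈ V, k ≤ om P (((Q * D : ℕ) : ℤ) * v.1 + w1) (((Q * D : ℕ) : ℤ) * v.2 + w2)) :
    2 ^ k * ((V.image (fun v : ℤ × ℤ => (((Q * D : ℕ) : ℤ) * v.1 + w1) ^ 2
      + (((Q * D : ℕ) : ℤ) * v.2 + w2) ^ 2)).filter (fun n => 0 < n)).card ≤
    ((sq (Q * (2 * D * M))).filter
      (fun v : ℤ × ℤ => (Q : ℤ) ∣ v.1 ^ 2 + v.2 ^ 2 - (w1 ^ 2 + w2 ^ 2))).card := by
  set F : ℤ × ℤ → ℤ := fun v : ℤ × ℤ => (((Q * D : ℕ) : ℤ) * v.1 + w1) ^ 2
      + (((Q * D : ℕ) : ℤ) * v.2 + w2) ^ 2 with hF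
  set S := (V.image F).filter (fun n => 0 < n) with hS
  set T := (sq (Q * (2 * D * M))).filter
      (fun v : ℤ × ℤ => (Q : ℤ) ∣ v.1 ^ 2 + v.2 ^ 2 - (w1 ^ 2 + w2 ^ 2)) with hT
  refine le_trans ?_ (Finset.card_le_card (Finset.filter_subset
    (fun v : ℤ × ℤ => v.1 ^ 2 + v.2 ^ 2 ∈ S) T))
  refine Finset.mul_card_image_le_card_of_maps_to (f := fun v : ℤ × ℤ => v.1 ^ 2 + v.2 ^ 2)
    (fun v hv => (Finset.mem_filter.1 hv).2) _ ?_
  intro n hn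
  have hn' := hn
  rw [hS, Finset.mem_filter, Finset.mem_image] at hn'
  obtain ⟨⟨v, hv, hvn⟩, hn0⟩ := hn'
  obtain ⟨m, rfl⟩ := Int.eq_ofNat_of_zero_le hn0.le
  have hm0 : 0 < m := by exact_mod_cast hn0
  have hvn' : (((Q * D : ℕ) : ℤ) * v.1 + w1) ^ 2 + (((Q * D : ℕ) : ℤ) * v.2 + w2) ^ 2 = (m : ℤ) :=
    hvn
  have h1 := hFL m (P.filter (fun p : ℕ => (p : ℤ) ∣ (((Q * D : ℕ) : ℤ) * v.1 + w1) ^ 2
      + (((Q * D : ℕ) : ℤ) * v.2 + w2) ^ 2)) hm0 (by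
        intro p hp
        rw [Finset.mem_filter, hvn'] at hp
        exact ⟨hP p hp.1, Int.natCast_dvd_natCast.1 hp.2⟩) ⟨_, _, hvn'⟩
  have h2 : 2 ^ k ≤ 2 ^ (P.filter (fun p : ℕ => (p : ℤ) ∣ (((Q * D : ℕ) : ℤ) * v.1 + w1) ^ 2
      + (((Q * D : ℕ) : ℤ) * v.2 + w2) ^ 2)).card := Nat.pow_le_pow_right (by norm_num) (hk v hv)
  refine h2.trans (h1.trans (Finset.card_le_card ?_))
  intro a ha
  rw [Finset.mem_filter] at ha
  have ha2 := ha.2
  -- bounds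
  have hvb := hV hv
  simp only [obox, Finset.mem_product, Finset.mem_Ioo] at hvb
  obtain ⟨⟨b1, b2⟩, ⟨b3, b4⟩⟩ := hvb
  set q : ℤ := ((Q * D : ℕ) : ℤ) with hq
  have hq0 : 0 ≤ q := by positivity
  have hMq : 0 ≤ (M : ℤ) := by positivity
  have z1 : |q * v.1 + w1| ≤ q * M := by
    have e1 : |q * v.1| ≤ q * (M - 1) := by
      rw [abs_mul, abs_of_nonneg hq0]
      exact mul_le_mul_of_nonneg_left (abs_le.2 ⟨by linarith, by linarith⟩) hq0
    calc |q * v.1 + w1| ≤ |q * v.1| + |w1| := abs_add_le _ _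
      _ ≤ q * (M - 1) + q := add_le_add e1 hw1
      _ = q * M := by ring
  have z2 : |q * v.2 + w2| ≤ q * M := by
    have e1 : |q * v.2| ≤ q * (M - 1) := by
      rw [abs_mul, abs_of_nonneg hq0]
      exact mul_le_mul_of_nonneg_left (abs_le.2 ⟨by linarith, by linarith⟩) hq0
    calc |q * v.2 + w2| ≤ |q * v.2| + |w2| := abs_add_le _ _
      _ ≤ q * (M - 1) + q := add_le_add e1 hw2
      _ = q * M := by ring
  have z1' : (q * v.1 + w1) ^ 2 ≤ (q * M) ^ 2 := by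
    rw [← sq_abs (q * v.1 + w1)]
    exact pow_le_pow_left₀ (abs_nonneg _) z1 2
  have z2' : (q * v.2 + w2) ^ 2 ≤ (q * M) ^ 2 := by
    rw [← sq_abs (q * v.2 + w2)]
    exact pow_le_pow_left₀ (abs_nonneg _) z2 2
  have hm : (m : ℤ) ≤ 2 * (q * M) ^ 2 := by
    rw [← hvn']; linarith
  have hB : (((Q * (2 * D * M) : ℕ)) : ℤ) = 2 * (q * M) := by
    rw [hq]; push_cast; ring
  have hqM : 0 ≤ q * M := mul_nonneg hq0 hMq
  have hx : |a.1| ≤ 2 * (q * M) := by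
    refine abs_le_of_sq_le_sq ?_ (by linarith)
    have := sq_nonneg a.2
    nlinarith [sq_nonneg (q * M)]
  have hy : |a.2| ≤ 2 * (q * M) := by
    refine abs_le_of_sq_le_sq ?_ (by linarith)
    have := sq_nonneg a.1
    nlinarith [sq_nonneg (q * M)]
  have hdiv : (Q : ℤ) ∣ a.1 ^ 2 + a.2 ^ 2 - (w1 ^ 2 + w2 ^ 2) := by
    rw [ha2, ← hvn', hq]
    push_cast
    refine ⟨D * (Q * D * v.1 ^ 2 + 2 * v.1 * w1 + Q * D * v.2 ^ 2 + 2 * v.2 * w2), ?_⟩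
    ring
  simp only [Finset.mem_filter]
  refine ⟨⟨?_, ?_⟩, ha2⟩
  · rw [hT, Finset.mem_filter]
    refine ⟨?_, hdiv⟩
    simp only [sq, Finset.mem_product, Finset.mem_Icc]
    rw [hB]
    exact ⟨abs_le.1 hx, abs_le.1 hy⟩
  · rw [ha2]; exact hn

theorem few_obox (M : ℕ) (hM : 1 ≤ M) : obox M = cbox (1 - M) (1 - M) (2 * M - 1) := by
  have h : ((2 * M - 1 : ℕ) : ℤ) = 2 * (M : ℤ) - 1 := by
    rw [Nat.cast_sub (by omega)]; push_cast; ring
  unfold obox cbox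
  rw [h]
  have h2 : Ioo (-(M : ℤ)) M = Ico (1 - (M : ℤ)) (1 - (M : ℤ) + (2 * (M : ℤ) - 1)) := by
    ext x
    simp only [Finset.mem_Ioo, Finset.mem_Ico]
    omega
  rw [h2]

/-- Chebyshev -/
theorem few_cheb (hTU : TU_stmt) (P : Finset ℕ) (y : ℝ) (Q a b : ℤ) (M : ℕ) (hM : 1 ≤ M)
    (hP : ∀ p ∈ P, P1 p ∧ ¬ (p : ℤ) ∣ Q ∧ (p : ℝ) ≤ y) (hy : 2 ≤ y)
    (hyM : y ^ 8 ≤ ((2 * M - 1 : ℕ) : ℝ)) (t : ℝ) (ht : 0 < t) :
    (((obox M).filter (fun v : ℤ × ℤ =>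
      t < |(om P (Q * v.1 + a) (Q * v.2 + b) : ℝ) - ∑ p ∈ P, g p|)).card : ℝ) * t ^ 2 ≤
      4 * (M : ℝ) ^ 2 * ((∑ p ∈ P, g p) + 1) := by
  have h1 := hTU P y Q a b (1 - M) (1 - M) (2 * M - 1) hP hy hyM
  rw [← few_obox M hM] at h1
  have hG : 0 ≤ ∑ p ∈ P, g p := by
    refine Finset.sum_nonneg fun p hp => ?_
    have := (hP p hp).1.1.two_le
    have h2 : (2 : ℝ) ≤ p := by exact_mod_cast this
    unfold g
    have : 0 ≤ 2 * (p : ℝ) - 1 := by linarith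
    positivity
  have h2 : (((obox M).filter (fun v : ℤ × ℤ =>
      t < |(om P (Q * v.1 + a) (Q * v.2 + b) : ℝ) - ∑ p ∈ P, g p|)).card : ℝ) * t ^ 2 ≤
      ∑ v ∈ obox M, ((om P (Q * v.1 + a) (Q * v.2 + b) : ℝ) - ∑ p ∈ P, g p) ^ 2 := by
    rw [← nsmul_eq_mul]
    refine (Finset.card_nsmul_le_sum _ _ _ ?_).trans
      (Finset.sum_le_sum_of_subset_of_nonneg (Finset.filter_subset _ _)
        (fun v _ _ => sq_nonneg _))
    intro v hv
    rw [Finset.mem_filter] at hv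
    rw [← sq_abs ((om P (Q * v.1 + a) (Q * v.2 + b) : ℝ) - ∑ p ∈ P, g p)]
    exact pow_le_pow_left₀ ht.le hv.2.le 2
  refine h2.trans (h1.trans ?_)
  have h3 : (((2 * M - 1 : ℕ) : ℝ)) ^ 2 ≤ 4 * (M : ℝ) ^ 2 := by
    have h4 : (((2 * M - 1 : ℕ) : ℝ)) ≤ 2 * (M : ℝ) := by
      have : 2 * M - 1 ≤ 2 * M := by omega
      exact_mod_cast this
    calc (((2 * M - 1 : ℕ) : ℝ)) ^ 2 ≤ (2 * (M : ℝ)) ^ 2 :=
          pow_le_pow_left₀ (by positivity) h4 2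
      _ = 4 * (M : ℝ) ^ 2 := by ring
  exact mul_le_mul_of_nonneg_right h3 (by linarith)

theorem few_event (c : ℝ) (hc : 0 < c) (k : ℕ) :
    ∀ᶠ M : ℕ in Filter.atTop, c * (Real.log (Real.log M)) ^ k ≤ Real.log M := by
  have h : (fun x : ℝ => Real.log x ^ k) =o[Filter.atTop] (id : ℝ → ℝ) :=
    Real.isLittleO_pow_log_id_atTop
  have h1 := h.def (c := c⁻¹) (by positivity)
  have h2 : Filter.Tendsto (fun M : ℕ => Real.log (M : ℝ)) Filter.atTop Filter.atTop :=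
    Real.tendsto_log_atTop.comp tendsto_natCast_atTop_atTop
  have h3 := h2.eventually h1
  have h4 := h2.eventually (Filter.eventually_ge_atTop (0 : ℝ))
  filter_upwards [h3, h4] with M hM hM0
  simp only [id, Real.norm_eq_abs] at hM
  rw [abs_of_nonneg hM0] at hM
  have h5 := (le_abs_self _).trans hM
  calc c * Real.log (Real.log M) ^ k ≤ c * (c⁻¹ * Real.log M) :=
        mul_le_mul_of_nonneg_left h5 hc.le
    _ = Real.log M := by field_simp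

theorem few_event2 (K : ℝ) :
    ∀ᶠ M : ℕ in Filter.atTop, K ≤ Real.log (Real.log M) :=
  (Real.tendsto_log_atTop.comp (Real.tendsto_log_atTop.comp
    tendsto_natCast_atTop_atTop)).eventually (Filter.eventually_ge_atTop K)

theorem few_event3 (K : ℝ) : ∀ᶠ M : ℕ in Filter.atTop, K ≤ (M : ℝ) :=
  tendsto_natCast_atTop_atTop.eventually (Filter.eventually_ge_atTop K)

theorem few_real1 (eta eps A B M : ℝ) (heta : 0 < eta) (heps : 0 < eps) (hA0 : 0 < A)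
    (hA1 : 256 / (eta ^ 2 * eps) ≤ A) (h1 : B * (eta / 4 * A) ^ 2 ≤ 8 * M ^ 2 * A) :
    B ≤ eps / 2 * M ^ 2 := by
  have h2 : 8 * A ≤ eps / 2 * (eta / 4 * A) ^ 2 := by
    rw [div_le_iff₀ (by positivity)] at hA1
    have h3 : 256 * A ≤ A * (eta ^ 2 * eps) * A := mul_le_mul_of_nonneg_right hA1 hA0.le
    calc 8 * A = 256 * A / 32 := by ring
      _ ≤ A * (eta ^ 2 * eps) * A / 32 := by linarith
      _ = eps / 2 * (eta / 4 * A) ^ 2 := by ring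
  have h3 : B * (eta / 4 * A) ^ 2 ≤ (eps / 2 * M ^ 2) * (eta / 4 * A) ^ 2 := by
    calc B * (eta / 4 * A) ^ 2 ≤ 8 * M ^ 2 * A := h1
      _ = M ^ 2 * (8 * A) := by ring
      _ ≤ M ^ 2 * (eps / 2 * (eta / 4 * A) ^ 2) := mul_le_mul_of_nonneg_left h2 (by positivity)
      _ = _ := by ring
  exact le_of_mul_le_mul_right h3 (by positivity)

theorem few_real2 (eta eps A : ℝ) (hA2 : 8 ≤ A * eta) (heta : 0 < eta) (heps : 0 < eps)
    (D M Q k s : ℕ) (hA3 : 3200 * (D : ℝ) ^ 2 ≤ A * (eps * eta)) (hD : 0 < D) (hM1 : (1 : ℝ) ≤ M)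
    (h1 : 2 ^ k * s ≤ (2 * (2 * D * M) + 1) ^ 2 * (16 * Q))
    (h5 : (Q : ℝ) ≤ (2 : ℝ) ^ ((1 - eta) * A)) (hk : (1 - eta / 2) * A ≤ k) :
    (s : ℝ) ≤ eps / 4 * (M : ℝ) ^ 2 := by
  have h2 : (2 : ℝ) ^ k * s ≤ (2 * (2 * D * M) + 1) ^ 2 * (16 * Q) := by
    exact_mod_cast h1
  have h3 : ((2 : ℝ) * (2 * D * M) + 1) ^ 2 ≤ 25 * (D : ℝ) ^ 2 * (M : ℝ) ^ 2 := by
    have hDM : (1 : ℝ) ≤ D * M := by
      have : (1 : ℝ) ≤ D := by exact_mod_cast hD
      nlinarith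
    have h4 : (2 : ℝ) * (2 * D * M) + 1 ≤ 5 * (D * M) := by linarith
    calc ((2 : ℝ) * (2 * D * M) + 1) ^ 2 ≤ (5 * (D * M)) ^ 2 :=
          pow_le_pow_left₀ (by positivity) h4 2
      _ = _ := by ring
  have h4 : (2 : ℝ) ^ ((1 - eta / 2) * A) ≤ (2 : ℝ) ^ k := by
    rw [← Real.rpow_natCast]
    exact Real.rpow_le_rpow_of_exponent_le (by norm_num) hk
  have h6 : (2 : ℝ) ^ ((1 - eta / 2) * A) =
      (2 : ℝ) ^ ((1 - eta) * A) * (2 : ℝ) ^ (eta / 2 * A) := by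
    rw [← Real.rpow_add (by norm_num)]
    congr 1; ring
  have h7 : eta / 2 * A ≤ (2 : ℝ) ^ (eta / 2 * A) := by
    have h8 : (1 : ℝ) + (eta / 2 * A) * 1 ≤ (1 + 1) ^ (eta / 2 * A) :=
      one_add_mul_self_le_rpow_one_add (by norm_num) (by linarith)
    have : (1 + 1 : ℝ) = 2 := by norm_num
    rw [this] at h8
    linarith
  have h8 : 1600 * (D : ℝ) ^ 2 ≤ eps * (2 : ℝ) ^ (eta / 2 * A) := by
    have : 1600 * (D : ℝ) ^ 2 ≤ eps * (eta / 2 * A) := by linarith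
    exact this.trans (mul_le_mul_of_nonneg_left h7 heps.le)
  have hpos1 : (0 : ℝ) < (2 : ℝ) ^ ((1 - eta) * A) := by positivity
  have h9 : (2 : ℝ) ^ k * s ≤ (2 : ℝ) ^ k * (eps / 4 * (M : ℝ) ^ 2) := by
    calc (2 : ℝ) ^ k * s ≤ (2 * (2 * D * M) + 1) ^ 2 * (16 * Q) := h2
      _ ≤ (25 * (D : ℝ) ^ 2 * (M : ℝ) ^ 2) * (16 * (2 : ℝ) ^ ((1 - eta) * A)) := by
          gcongr
      _ = (1600 * (D : ℝ) ^ 2) * ((2 : ℝ) ^ ((1 - eta) * A) / 4 * (M : ℝ) ^ 2) := by ring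
      _ ≤ (eps * (2 : ℝ) ^ (eta / 2 * A)) *
            ((2 : ℝ) ^ ((1 - eta) * A) / 4 * (M : ℝ) ^ 2) :=
          mul_le_mul_of_nonneg_right h8 (by positivity)
      _ = (2 : ℝ) ^ ((1 - eta / 2) * A) * (eps / 4 * (M : ℝ) ^ 2) := by
          rw [h6]; ring
      _ ≤ (2 : ℝ) ^ k * (eps / 4 * (M : ℝ) ^ 2) :=
          mul_le_mul_of_nonneg_right h4 (by positivity)
  exact le_of_mul_le_mul_left h9 (by positivity)

set_option maxHeartbeats 2000000 in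
/-- TARGET: prove this. Do not change the definitions above. Helper lemmas may be added before it. -/
theorem FEW_thm (hTU : TU_stmt) (hFL : FL_stmt) (hSOL : SOL_stmt) : FEW_stmt := by
  intro C1 eta eps D hC1 heta heta1 heps hD
  set K : ℝ := 256 / (eta ^ 2 * eps) + 8 / eta + 3200 * (D : ℝ) ^ 2 / (eps * eta) + 1 with hK
  have hev := ((few_event (C1 * Real.exp K) (by positivity) 3).and
    ((few_event 1 one_pos 2).and ((few_event2 3).and (few_event3 (4 / eps + 1)))))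
  obtain ⟨M0, hM0⟩ := Filter.eventually_atTop.1 hev
  refine ⟨M0, fun M hM P hP q1 q2 e1 e2 w1 w2 hq1 hq2 hq12 hq14 hq24 hPD hQA hw1 hw2 hco => ?_⟩
  obtain ⟨hE1, hE2, hE3, hE4⟩ := hM0 M hM
  obtain ⟨hPa, hPb, hPc⟩ := hP
  set L := Real.log M with hL
  set l := Real.log L with hl
  set A := ∑ p ∈ P, 2 / (p : ℝ) with hA
  set G := ∑ p ∈ P, g p with hG
  set Q : ℕ := q1 ^ e1 * q2 ^ e2 with hQ
  have hl0 : 0 < l := by linarith
  have hL1 : 9 ≤ L := by nlinarith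
  have hL0 : 0 < L := by linarith
  have hM1 : (1 : ℝ) ≤ M := by
    have : 0 < 4 / eps := by positivity
    linarith
  have hM1' : 1 ≤ M := by exact_mod_cast hM1
  have hM0' : (0 : ℝ) < M := by linarith
  have hQ0 : 0 < Q := Nat.mul_pos (pow_pos hq1.pos _) (pow_pos hq2.pos _)
  have hQR : (0 : ℝ) < Q := by exact_mod_cast hQ0
  -- the scale
  set Y := Real.exp (L / l ^ 2) with hY
  have hYl : 1 ≤ L / l ^ 2 := by
    rw [le_div_iff₀ (by positivity)]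
    linarith
  have hY2 : 2 ≤ Y := by
    have h1 : Real.exp 1 ≤ Y := Real.exp_le_exp.2 hYl
    have h2 := Real.add_one_le_exp (1 : ℝ)
    linarith
  have hPY : P.filter (fun p : ℕ => (p : ℝ) ≤ Y) = P :=
    Finset.filter_true_of_mem fun p hp => (hPa p hp).2
  have hKA : K ≤ A := by
    have h1 := hPc Y hY2 le_rfl
    rw [hPY, hY, Real.log_exp] at h1
    have h2 : C1 * Real.exp K * l ≤ L / l ^ 2 := by
      rw [le_div_iff₀ (by positivity)]
      calc C1 * Real.exp K * l * l ^ 2 = C1 * Real.exp K * l ^ 3 := by ring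
        _ ≤ L := hE1
    have h3 : C1 * l * Real.exp K ≤ C1 * l * Real.exp A := by
      calc C1 * l * Real.exp K = C1 * Real.exp K * l := by ring
        _ ≤ L / l ^ 2 := h2
        _ ≤ C1 * l * Real.exp A := h1
    have h4 : Real.exp K ≤ Real.exp A := le_of_mul_le_mul_left h3 (by positivity)
    exact Real.exp_le_exp.1 h4
  have hKpos1 : 0 < 256 / (eta ^ 2 * eps) := by positivity
  have hKpos2 : 0 < 8 / eta := by positivity
  have hDR : (0 : ℝ) < D := by exact_mod_cast hD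
  have hKpos3 : 0 < 3200 * (D : ℝ) ^ 2 / (eps * eta) := by positivity
  have hA1 : 256 / (eta ^ 2 * eps) ≤ A := by linarith
  have hA2 : 8 / eta ≤ A := by linarith
  have hA3 : 3200 * (D : ℝ) ^ 2 / (eps * eta) ≤ A := by linarith
  have hA4 : 1 ≤ A := by linarith
  have hA2' : 8 ≤ A * eta := by rwa [div_le_iff₀ heta] at hA2
  have hA3' : 3200 * (D : ℝ) ^ 2 ≤ A * (eps * eta) := by
    rwa [div_le_iff₀ (by positivity)] at hA3
  have hA0 : 0 < A := by linarith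
  obtain ⟨hG1, hG2⟩ := few_G P (fun p hp => (hPa p hp).1)
  -- primes do not divide `Q * D`
  have hPQ : ∀ p ∈ P, P1 p ∧ ¬ (p : ℤ) ∣ ((Q * D : ℕ) : ℤ) ∧ (p : ℝ) ≤ Y := by
    intro p hp
    refine ⟨(hPa p hp).1, ?_, (hPa p hp).2⟩
    rw [Int.natCast_dvd_natCast]
    intro hdvd
    have hpp := (hPa p hp).1.1
    have hp4 := (hPa p hp).1.2
    rcases (Nat.Prime.dvd_mul hpp).1 hdvd with h | h
    · rcases (Nat.Prime.dvd_mul hpp).1 h with h | h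
      · have := (Nat.prime_dvd_prime_iff_eq hpp hq1).1 (hpp.dvd_of_dvd_pow h)
        omega
      · have := (Nat.prime_dvd_prime_iff_eq hpp hq2).1 (hpp.dvd_of_dvd_pow h)
        omega
    · exact hPD p hp h
  have hY8 : Y ^ 8 ≤ ((2 * M - 1 : ℕ) : ℝ) := by
    have h1 : Y ^ 8 ≤ M := by
      rw [hY, ← Real.exp_nat_mul]
      have h2 : ((8 : ℕ) : ℝ) * (L / l ^ 2) ≤ L := by
        push_cast
        rw [← mul_div_assoc, div_le_iff₀ (by positivity)]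
        have hl9 : 9 ≤ l ^ 2 := by nlinarith
        nlinarith
      calc Real.exp (((8 : ℕ) : ℝ) * (L / l ^ 2)) ≤ Real.exp L := Real.exp_le_exp.2 h2
        _ = M := Real.exp_log hM0'
    have h3 : (M : ℝ) ≤ ((2 * M - 1 : ℕ) : ℝ) := by
      have : M ≤ 2 * M - 1 := by omega
      exact_mod_cast this
    linarith
  -- Chebyshev
  set t : ℝ := eta / 4 * A with ht
  have ht0 : 0 < t := by positivity
  have hcheb := few_cheb hTU P Y ((Q * D : ℕ) : ℤ) w1 w2 M hM1' hPQ hY2 hY8 t ht0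
  set F : ℤ × ℤ → ℤ := fun v : ℤ × ℤ => (((Q * D : ℕ) : ℤ) * v.1 + w1) ^ 2
      + (((Q * D : ℕ) : ℤ) * v.2 + w2) ^ 2 with hF
  set Bad := (obox M).filter (fun v : ℤ × ℤ =>
      t < |(om P (((Q * D : ℕ) : ℤ) * v.1 + w1) (((Q * D : ℕ) : ℤ) * v.2 + w2) : ℝ)
        - ∑ p ∈ P, g p|) with hBad
  set Goo := (obox M).filter (fun v : ℤ × ℤ =>
      ¬ t < |(om P (((Q * D : ℕ) : ℤ) * v.1 + w1) (((Q * D : ℕ) : ℤ) * v.2 + w2) : ℝ)
        - ∑ p ∈ P, g p|) with hGoo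
  have hbad : (Bad.card : ℝ) ≤ eps / 2 * (M : ℝ) ^ 2 := by
    refine few_real1 eta eps A _ M heta heps hA0 hA1 (hcheb.trans ?_)
    have : (∑ p ∈ P, g p) + 1 ≤ 2 * A := by linarith
    calc 4 * (M : ℝ) ^ 2 * ((∑ p ∈ P, g p) + 1) ≤ 4 * (M : ℝ) ^ 2 * (2 * A) :=
          mul_le_mul_of_nonneg_left this (by positivity)
      _ = _ := by ring
  -- good points
  set k : ℕ := ⌈(1 - eta / 2) * A⌉₊ with hk
  have hgood : ∀ v ∈ Goo, k ≤ om P (((Q * D : ℕ) : ℤ) * v.1 + w1) (((Q * D : ℕ) : ℤ) * v.2 + w2) := by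
    intro v hv
    rw [hGoo, Finset.mem_filter, not_lt] at hv
    rw [hk, Nat.ceil_le]
    have h1 := (abs_le.1 hv.2).1
    rw [ht] at h1
    linarith
  have hN := few_N hFL P (fun p hp => (hPa p hp).1) Q D M k w1 w2 hw1 hw2 Goo
    (Finset.filter_subset _ _) hgood
  have hT := few_T Q (2 * D * M) (16 * Q) hQ0 (w1 ^ 2 + w2 ^ 2)
    (hSOL q1 q2 e1 e2 (w1 ^ 2 + w2 ^ 2) hq1 hq2 hq12 (by rintro rfl; omega)
      (by rintro rfl; omega) hco)
  set S := (Goo.image F).filter (fun n => 0 < n) with hS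
  have hSM : (S.card : ℝ) ≤ eps / 4 * (M : ℝ) ^ 2 :=
    few_real2 eta eps A hA2' heta heps D M Q k S.card hA3' hD hM1 (hN.trans hT) hQA
      (Nat.le_ceil _)
  -- conclusion
  have hsub : (obox M).image F ⊆ (Bad.image F ∪ {0}) ∪ S := by
    intro n hn
    rw [Finset.mem_image] at hn
    obtain ⟨v, hv, rfl⟩ := hn
    rw [Finset.mem_union, Finset.mem_union]
    by_cases hb : v ∈ Bad
    · exact Or.inl (Or.inl (Finset.mem_image_of_mem F hb))
    · have hg : v ∈ Goo := by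
        rw [hGoo, Finset.mem_filter]
        refine ⟨hv, fun hc => hb ?_⟩
        rw [hBad, Finset.mem_filter]
        exact ⟨hv, hc⟩
      by_cases h0 : 0 < F v
      · right
        rw [hS, Finset.mem_filter]
        exact ⟨Finset.mem_image_of_mem F hg, h0⟩
      · left; right
        have h1 : 0 ≤ F v := by
          rw [hF]; positivity
        rw [Finset.mem_singleton]
        omega
  have hcard : ((obox M).image F).card ≤ Bad.card + 1 + S.card := by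
    refine (Finset.card_le_card hsub).trans ((Finset.card_union_le _ _).trans ?_)
    refine Nat.add_le_add_right ((Finset.card_union_le _ _).trans ?_) _
    exact Nat.add_le_add Finset.card_image_le (by simp)
  have hcardR : (((obox M).image F).card : ℝ) ≤ Bad.card + 1 + S.card := by exact_mod_cast hcard
  have hone : (1 : ℝ) ≤ eps / 4 * (M : ℝ) ^ 2 := by
    have h1 : 4 / eps ≤ M := by linarith
    rw [div_le_iff₀ heps] at h1
    nlinarith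
  calc (((obox M).image F).card : ℝ) ≤ Bad.card + 1 + S.card := hcardR
    _ ≤ eps / 2 * (M : ℝ) ^ 2 + eps / 4 * (M : ℝ) ^ 2 + eps / 4 * (M : ℝ) ^ 2 := by
        linarith
    _ = eps * (M : ℝ) ^ 2 := by ring



end SFEW
end DD106
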