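import Mathlib
import Pool.Agent.H106DD.Defs

set_option autoImplicit false
open Finset

namespace DD106
namespace SFL

/-- the representations of `n` as a sum of two squares -/
noncomputable def FLR (n : ℕ) : Finset (ℤ × ℤ) :=
  ((Icc (-(n : ℤ)) n) ×ˢ (Icc (-(n : ℤ)) n)).filter (fun v : ℤ × ℤ => v.1 ^ 2 + v.2 ^ 2 = n)

theorem FL_mem (n : ℕ) (v : ℤ × ℤ) : v ∈ FLR n ↔ v.1 ^ 2 + v.2 ^ 2 = n := by
  unfold FLR
  rw [Finset.mem_filter, Finset.mem_product, Finset.mem_Icc, Finset.mem_Icc]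
  constructor
  · exact fun h => h.2
  · intro h
    refine ⟨⟨⟨?_, ?_⟩, ⟨?_, ?_⟩⟩, h⟩
    · nlinarith [sq_nonneg (v.1 + 1), sq_nonneg v.2, sq_nonneg v.1, Int.emod_emod_of_dvd v.1 (dvd_refl 2),
        (by
          rcases le_or_gt 0 v.1 with h0 | h0
          · nlinarith
          · nlinarith : -(v.1 ^ 2) ≤ v.1)]
    · nlinarith [sq_nonneg v.2, (by
          rcases le_or_gt v.1 0 with h0 | h0
          · nlinarith
          · nlinarith : v.1 ≤ v.1 ^ 2)]
    · nlinarith [sq_nonneg v.1, (by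
          rcases le_or_gt 0 v.2 with h0 | h0
          · nlinarith
          · nlinarith : -(v.2 ^ 2) ≤ v.2)]
    · nlinarith [sq_nonneg v.1, (by
          rcases le_or_gt v.2 0 with h0 | h0
          · nlinarith
          · nlinarith : v.2 ≤ v.2 ^ 2)]

/-- multiplication by a Gaussian integer, on pairs -/
def FLmul (w : GaussianInt) (v : ℤ × ℤ) : ℤ × ℤ :=
  ((w * (⟨v.1, v.2⟩ : GaussianInt)).re, (w * (⟨v.1, v.2⟩ : GaussianInt)).im)

theorem FL_norm (x y : ℤ) : Zsqrtd.norm (⟨x, y⟩ : GaussianInt) = x ^ 2 + y ^ 2 := by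
  rw [Zsqrtd.norm_def]
  simp only
  ring

theorem FL_norm' (z : GaussianInt) : Zsqrtd.norm z = z.re ^ 2 + z.im ^ 2 := by
  rw [Zsqrtd.norm_def]
  ring

theorem FLmul_inj (w : GaussianInt) (hw : w ≠ 0) : Function.Injective (FLmul w) := by
  rintro ⟨a, b⟩ ⟨c, d⟩ h
  unfold FLmul at h
  simp only [Prod.mk.injEq] at h
  have h2 : w * (⟨a, b⟩ : GaussianInt) = w * (⟨c, d⟩ : GaussianInt) := Zsqrtd.ext h.1 h.2
  have h3 := mul_left_cancel₀ hw h2
  rw [Zsqrtd.ext_iff] at h3
  simp only at h3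
  rw [h3.1, h3.2]

/-- a Gaussian integer of prime norm is prime -/
theorem FL_prime (z : GaussianInt) (p : ℕ) (hp : p.Prime) (hz : z.norm = p) : Prime z := by
  rw [← irreducible_iff_prime]
  constructor
  · intro h
    rw [← Zsqrtd.norm_eq_one_iff, hz] at h
    simp only [Int.natAbs_natCast] at h
    exact hp.one_lt.ne' h
  · intro a b hab
    have h1 : a.norm.natAbs * b.norm.natAbs = p := by
      rw [← Int.natAbs_mul, ← Zsqrtd.norm_mul, ← hab, hz, Int.natAbs_natCast]
    rcases Nat.dvd_prime hp |>.mp (Dvd.intro _ h1) with h2 | h2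
    · left
      exact Zsqrtd.norm_eq_one_iff.mp h2
    · right
      rw [h2] at h1
      have : b.norm.natAbs = 1 := by
        have h3 : p * b.norm.natAbs = p * 1 := by rw [h1, mul_one]
        exact Nat.eq_of_mul_eq_mul_left hp.pos h3
      exact Zsqrtd.norm_eq_one_iff.mp this

theorem FL_star_norm (z : GaussianInt) : (star z).norm = z.norm := Zsqrtd.norm_conj z

theorem FL_dvd_norm {a b : GaussianInt} (h : a ∣ b) : a.norm ∣ b.norm := by
  obtain ⟨c, rfl⟩ := h
  rw [Zsqrtd.norm_mul]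
  exact Dvd.intro _ rfl

/-- removing a prime factor from a norm -/
theorem FL_remove (p : ℕ) (hp : P1 p) (n : ℕ) (z : GaussianInt) (hz : z.norm = ((p * n : ℕ) : ℤ)) :
    ∃ w : GaussianInt, w.norm = n := by
  have hf : Fact p.Prime := ⟨hp.1⟩
  obtain ⟨a, b, hab⟩ := Nat.Prime.sq_add_sq (p := p) (by rw [hp.2]; norm_num)
  set q : GaussianInt := ⟨(a : ℤ), (b : ℤ)⟩ with hq
  have hqn : q.norm = p := by
    rw [hq, FL_norm]
    exact_mod_cast hab
  have hpr : Prime q := FL_prime q p hp.1 hqn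
  have hdvd : q ∣ z * star z := by
    have h1 : ((z.norm : ℤ) : GaussianInt) = z * star z := Zsqrtd.norm_eq_mul_conj z
    rw [← h1, hz]
    have h2 : ((q.norm : ℤ) : GaussianInt) = q * star q := Zsqrtd.norm_eq_mul_conj q
    rw [hqn] at h2
    push_cast
    push_cast at h2
    rw [h2]
    exact ⟨star q * n, by ring⟩
  have hp0 : (p : ℤ) ≠ 0 := by exact_mod_cast hp.1.ne_zero
  rcases hpr.dvd_or_dvd hdvd with h | h
  · obtain ⟨w, hw⟩ := h
    refine ⟨w, ?_⟩
    rw [hw, Zsqrtd.norm_mul, hqn] at hz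
    push_cast at hz
    exact mul_left_cancel₀ hp0 hz
  · obtain ⟨w, hw⟩ := h
    refine ⟨w, ?_⟩
    have : (star z).norm = q.norm * w.norm := by rw [hw, Zsqrtd.norm_mul]
    rw [FL_star_norm, hz, hqn] at this
    push_cast at this
    exact (mul_left_cancel₀ hp0 this).symm

theorem FL_remove_pow (p : ℕ) (hp : P1 p) (e n : ℕ) (z : GaussianInt)
    (hz : z.norm = ((p ^ e * n : ℕ) : ℤ)) : ∃ w : GaussianInt, w.norm = n := by
  induction e generalizing z with
  | zero => exact ⟨z, by rw [hz, pow_zero, one_mul]⟩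
  | succ e ih =>
    obtain ⟨w, hw⟩ := FL_remove p hp (p ^ e * n) z (by rw [hz, pow_succ]; congr 1; ring)
    exact ih w hw

theorem FL_step (p : ℕ) (hp : P1 p) (e n : ℕ) (he : 0 < e) (hn : ¬ p ∣ n) :
    2 * (FLR n).card ≤ (FLR (p ^ e * n)).card := by
  have hf : Fact p.Prime := ⟨hp.1⟩
  obtain ⟨a, b, hab⟩ := Nat.Prime.sq_add_sq (p := p) (by rw [hp.2]; norm_num)
  set q : GaussianInt := ⟨(a : ℤ), (b : ℤ)⟩ with hq
  have hqn : q.norm = p := by
    rw [hq, FL_norm]
    exact_mod_cast hab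
  have hpr : Prime q := FL_prime q p hp.1 hqn
  have hsn : (star q).norm = p := by rw [FL_star_norm, hqn]
  have hq0 : q ≠ 0 := hpr.ne_zero
  have hs0 : star q ≠ 0 := (FL_prime (star q) p hp.1 hsn).ne_zero
  have hnorm : ∀ (w : GaussianInt) (v : ℤ × ℤ), w.norm = p → v ∈ FLR n →
      FLmul (w ^ e) v ∈ FLR (p ^ e * n) := by
    intro w v hw hv
    rw [FL_mem] at hv ⊢
    unfold FLmul
    simp only
    rw [← FL_norm', Zsqrtd.norm_mul, FL_norm v.1 v.2, hv]
    have : Zsqrtd.norm (w ^ e) = (p : ℤ) ^ e := by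
      have h1 := map_pow (Zsqrtd.normMonoidHom (d := -1)) w e
      have h2 : Zsqrtd.norm (w ^ e) = (Zsqrtd.norm w) ^ e := h1
      rw [h2, hw]
    rw [this]
    push_cast
    ring
  have hdisj : Disjoint ((FLR n).image (FLmul (q ^ e))) ((FLR n).image (FLmul ((star q) ^ e))) := by
    rw [Finset.disjoint_left]
    intro v h1 h2
    rw [Finset.mem_image] at h1 h2
    obtain ⟨u, hu, hu2⟩ := h1
    obtain ⟨u', hu', hu2'⟩ := h2
    rw [← hu2'] at hu2
    unfold FLmul at hu2
    simp only [Prod.mk.injEq] at hu2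
    have h3 : q ^ e * (⟨u.1, u.2⟩ : GaussianInt) = (star q) ^ e * (⟨u'.1, u'.2⟩ : GaussianInt) :=
      Zsqrtd.ext hu2.1 hu2.2
    have h4 : q ∣ (star q) ^ e * (⟨u'.1, u'.2⟩ : GaussianInt) := by
      rw [← h3]
      exact Dvd.dvd.mul_right (dvd_pow_self q he.ne') _
    rcases hpr.dvd_or_dvd h4 with h5 | h5
    · have h6 : q ∣ star q := hpr.dvd_of_dvd_pow h5
      have h7 : q ∣ q + star q := dvd_add (dvd_refl q) h6
      have h8 := FL_dvd_norm h7
      have h9 : q + star q = (⟨2 * (a : ℤ), 0⟩ : GaussianInt) := by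
        rw [hq]
        apply Zsqrtd.ext
        · simp
          ring
        · simp
      rw [h9, hqn, FL_norm] at h8
      have h10 : p ∣ (2 * a) ^ 2 := by
        have : (p : ℤ) ∣ (((2 * a) ^ 2 : ℕ) : ℤ) := by
          push_cast
          simpa using h8
        exact_mod_cast this
      have h11 : p ∣ 2 * a := hp.1.dvd_of_dvd_pow h10
      rcases (Nat.Prime.dvd_mul hp.1).mp h11 with h12 | h12
      · have := Nat.le_of_dvd (by norm_num) h12
        have h13 := hp.2
        have h14 := hp.1.two_le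
        have : p = 2 := by omega
        rw [this] at h13
        norm_num at h13
      · have ha0 : a ≠ 0 := by
          rintro rfl
          have hb : b ^ 2 = p := by rw [← hab]; ring
          exact hp.1.not_isSquare (by rw [← hb]; exact ⟨b, by ring⟩)
        have hb0 : b ≠ 0 := by
          rintro rfl
          have hb : a ^ 2 = p := by rw [← hab]; ring
          exact hp.1.not_isSquare (by rw [← hb]; exact ⟨a, by ring⟩)
        have h13 := Nat.le_of_dvd (Nat.pos_of_ne_zero ha0) h12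
        have h14 : 0 < a := Nat.pos_of_ne_zero ha0
        have h15 : 0 < b := Nat.pos_of_ne_zero hb0
        nlinarith
    · have h6 := FL_dvd_norm h5
      rw [hqn, FL_norm] at h6
      rw [FL_mem] at hu'
      rw [hu'] at h6
      exact hn (by exact_mod_cast h6)
  have hsub : (FLR n).image (FLmul (q ^ e)) ∪ (FLR n).image (FLmul ((star q) ^ e)) ⊆
      FLR (p ^ e * n) := by
    intro v hv
    rw [Finset.mem_union, Finset.mem_image, Finset.mem_image] at hv
    rcases hv with ⟨u, hu, rfl⟩ | ⟨u, hu, rfl⟩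
    · exact hnorm q u hqn hu
    · exact hnorm (star q) u hsn hu
  have hcard := Finset.card_le_card hsub
  rw [Finset.card_union_of_disjoint hdisj,
    Finset.card_image_of_injective _ (FLmul_inj _ (pow_ne_zero e hq0)),
    Finset.card_image_of_injective _ (FLmul_inj _ (pow_ne_zero e hs0))] at hcard
  omega

theorem FL_main (D : Finset ℕ) : ∀ n : ℕ, 0 < n → (∀ p ∈ D, P1 p ∧ p ∣ n) →
    (∃ z : GaussianInt, z.norm = n) → 2 ^ D.card ≤ (FLR n).card := by
  induction D using Finset.induction_on with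
  | empty =>
    intro n hn _ ⟨z, hz⟩
    rw [Finset.card_empty, pow_zero]
    apply Finset.card_pos.mpr
    refine ⟨(z.re, z.im), ?_⟩
    rw [FL_mem, ← hz, FL_norm']
  | insert p D hpD ih =>
    intro n hn h ⟨z, hz⟩
    rw [Finset.card_insert_of_notMem hpD, pow_succ]
    obtain ⟨hp, hpn⟩ := h p (Finset.mem_insert_self p D)
    obtain ⟨e, m, hm, hnm⟩ := Nat.exists_eq_pow_mul_and_not_dvd hn.ne' p hp.1.ne_one
    have he : 0 < e := by
      rcases Nat.eq_zero_or_pos e with h0 | h0
      · exfalso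
        rw [h0, pow_zero, one_mul] at hnm
        rw [hnm] at hpn
        exact hm hpn
      · exact h0
    have hmpos : 0 < m := by
      rcases Nat.eq_zero_or_pos m with h0 | h0
      · exfalso
        exact hm (h0 ▸ dvd_zero p)
      · exact h0
    have hD : ∀ p' ∈ D, P1 p' ∧ p' ∣ m := by
      intro p' hp'
      obtain ⟨h1, h2⟩ := h p' (Finset.mem_insert_of_mem hp')
      refine ⟨h1, ?_⟩
      rw [hnm] at h2
      have hne : p' ≠ p := by
        rintro rfl
        exact hpD hp'
      have hcop : Nat.Coprime p' (p ^ e) :=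
        Nat.Coprime.pow_right e ((Nat.coprime_primes h1.1 hp.1).mpr hne)
      exact hcop.dvd_of_dvd_mul_left h2
    have hrep : ∃ w : GaussianInt, w.norm = m :=
      FL_remove_pow p hp e m z (by rw [hz, hnm])
    have h1 := ih m hmpos hD hrep
    have h2 := FL_step p hp e m he hm
    rw [← hnm] at h2
    omega

/-- TARGET: prove this. Do not change the definitions above. Helper lemmas may be added before it. -/
theorem FL_thm  : FL_stmt := by
  intro n D hn hD ⟨x, y, hxy⟩
  exact FL_main D n hn hD ⟨⟨x, y⟩, by rw [FL_norm, hxy]⟩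



end SFL
end DD106
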