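import Mathlib
import Pool.Agent.H106DD.Defs

set_option autoImplicit false
open Finset

namespace DD106
namespace SGAD

/-! auxiliary lemmas for the gadgets -/

theorem GAD_quad (L b c : ℝ) (hL : 0 < L) : {X : ℝ | L * X ^ 2 + b * X + c = 0}.Finite := by
  by_cases h : ∃ X1 : ℝ, L * X1 ^ 2 + b * X1 + c = 0
  · obtain ⟨X1, h1⟩ := h
    apply (Set.toFinite ({X1, -b / L - X1} : Set ℝ)).subset
    intro X hX
    simp only [Set.mem_setOf_eq] at hX
    have h2 : (X - X1) * (L * (X + X1) + b) = 0 := by linear_combination hX - h1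
    rcases mul_eq_zero.mp h2 with h3 | h3
    · left; linarith
    · right
      rw [Set.mem_singleton_iff]
      field_simp
      linarith
  · have : {X : ℝ | L * X ^ 2 + b * X + c = 0} = ∅ := by
      ext X
      simp only [Set.mem_setOf_eq, Set.mem_empty_iff_false, iff_false]
      exact fun hX => h ⟨X, hX⟩
    rw [this]
    exact Set.finite_empty

/-- the points of a gadget -/
noncomputable def GAD_e (θ : ℝ × ℝ) (X s : ℝ) : ℝ × ℝ :=
  (s / (θ.1 ^ 2 + θ.2 ^ 2) * θ.1 - X * θ.2, s / (θ.1 ^ 2 + θ.2 ^ 2) * θ.2 + X * θ.1)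

theorem GAD_pos {θ : ℝ × ℝ} (h : θ ≠ 0) : 0 < θ.1 ^ 2 + θ.2 ^ 2 := by
  by_contra hc
  push Not at hc
  have h1 : θ.1 = 0 := by nlinarith [sq_nonneg θ.1, sq_nonneg θ.2]
  have h2 : θ.2 = 0 := by nlinarith [sq_nonneg θ.1, sq_nonneg θ.2]
  exact h (Prod.ext h1 h2)

theorem GAD_inner {θ : ℝ × ℝ} (h : θ ≠ 0) (X s : ℝ) :
    (GAD_e θ X s).1 * θ.1 + (GAD_e θ X s).2 * θ.2 = s := by
  have hL := GAD_pos h
  unfold GAD_e
  field_simp
  ring

theorem GAD_perp {θ : ℝ × ℝ} (h : θ ≠ 0) (X s : ℝ) :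
    (GAD_e θ X s).2 * θ.1 - (GAD_e θ X s).1 * θ.2 = (θ.1 ^ 2 + θ.2 ^ 2) * X := by
  have hL := GAD_pos h
  unfold GAD_e
  field_simp
  ring

theorem GAD_sqd {θ : ℝ × ℝ} (h : θ ≠ 0) (X s : ℝ) (x : ℝ × ℝ) :
    sqd x (GAD_e θ X s) = (s - (x.1 * θ.1 + x.2 * θ.2)) ^ 2 / (θ.1 ^ 2 + θ.2 ^ 2) +
      ((θ.1 ^ 2 + θ.2 ^ 2) * X ^ 2 + 2 * (θ.2 * x.1 - θ.1 * x.2) * X + (x.1 ^ 2 + x.2 ^ 2) -
        (x.1 * θ.1 + x.2 * θ.2) ^ 2 / (θ.1 ^ 2 + θ.2 ^ 2)) := by
  have hL := GAD_pos h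
  unfold sqd GAD_e
  field_simp
  ring

theorem GAD_step (P S0 : Finset (ℝ × ℝ)) (hP : P ⊆ S0) (θ : ℝ × ℝ) (hθ : θ ≠ 0) (E : Finset ℝ) :
    ∃ S : Finset (ℝ × ℝ), S0 ⊆ S ∧ S.card = S0.card + E.card ∧
      ∀ x ∈ P, RR S x = RR S0 x +
        (E.image (fun s => (s - (x.1 * θ.1 + x.2 * θ.2)) ^ 2)).card := by
  have hL := GAD_pos hθ
  -- the exceptional set
  have hfin1 : (⋃ y ∈ S0, {X : ℝ | (θ.1 ^ 2 + θ.2 ^ 2) * X = y.2 * θ.1 - y.1 * θ.2}).Finite := by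
    apply Set.Finite.biUnion S0.finite_toSet
    intro y _
    apply (Set.finite_singleton ((y.2 * θ.1 - y.1 * θ.2) / (θ.1 ^ 2 + θ.2 ^ 2))).subset
    intro X hX
    simp only [Set.mem_setOf_eq] at hX
    rw [Set.mem_singleton_iff, ← hX]
    field_simp
  have hfin2 : (⋃ x ∈ P, ⋃ s ∈ E, ⋃ y ∈ S0,
      {X : ℝ | sqd x (GAD_e θ X s) = sqd x y}).Finite := by
    apply Set.Finite.biUnion P.finite_toSet
    intro x _
    apply Set.Finite.biUnion E.finite_toSet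
    intro s _
    apply Set.Finite.biUnion S0.finite_toSet
    intro y _
    apply (GAD_quad (θ.1 ^ 2 + θ.2 ^ 2) (2 * (θ.2 * x.1 - θ.1 * x.2))
      ((s - (x.1 * θ.1 + x.2 * θ.2)) ^ 2 / (θ.1 ^ 2 + θ.2 ^ 2) + (x.1 ^ 2 + x.2 ^ 2) -
        (x.1 * θ.1 + x.2 * θ.2) ^ 2 / (θ.1 ^ 2 + θ.2 ^ 2) - sqd x y) hL).subset
    intro X hX
    simp only [Set.mem_setOf_eq] at hX ⊢
    rw [GAD_sqd hθ] at hX
    linear_combination hX
  obtain ⟨X, hX⟩ := (hfin1.union hfin2).exists_notMem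
  rw [Set.mem_union, not_or] at hX
  obtain ⟨hX1, hX2⟩ := hX
  have hX1' : ∀ s, GAD_e θ X s ∉ S0 := by
    intro s hs
    apply hX1
    rw [Set.mem_iUnion₂]
    exact ⟨_, hs, (GAD_perp hθ X s).symm⟩
  have hX2' : ∀ x ∈ P, ∀ s ∈ E, ∀ y ∈ S0, sqd x (GAD_e θ X s) ≠ sqd x y := by
    intro x hx s hs y hy he
    apply hX2
    simp only [Set.mem_iUnion]
    exact ⟨x, hx, s, hs, y, hy, he⟩
  have hinj : Function.Injective (GAD_e θ X) := by
    intro s s' h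
    rw [← GAD_inner hθ X s, h, GAD_inner hθ X s']
  refine ⟨S0 ∪ E.image (GAD_e θ X), subset_union_left, ?_, ?_⟩
  · rw [card_union_of_disjoint, card_image_of_injective _ hinj]
    rw [disjoint_right]
    intro y hy
    obtain ⟨s, _, rfl⟩ := mem_image.mp hy
    exact hX1' s
  · intro x hx
    have hxn : x ∉ E.image (GAD_e θ X) := by
      intro h
      obtain ⟨s, _, h2⟩ := mem_image.mp h
      exact hX1' s (h2 ▸ hP hx)
    unfold RR
    rw [erase_union_distrib, erase_eq_of_notMem hxn, image_union, card_union_of_disjoint]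
    · congr 1
      rw [image_image]
      have h3 : (sqd x ∘ GAD_e θ X) = (fun t => t / (θ.1 ^ 2 + θ.2 ^ 2) +
          ((θ.1 ^ 2 + θ.2 ^ 2) * X ^ 2 + 2 * (θ.2 * x.1 - θ.1 * x.2) * X + (x.1 ^ 2 + x.2 ^ 2) -
          (x.1 * θ.1 + x.2 * θ.2) ^ 2 / (θ.1 ^ 2 + θ.2 ^ 2))) ∘
          (fun s => (s - (x.1 * θ.1 + x.2 * θ.2)) ^ 2) := by
        funext s
        simp only [Function.comp_apply]
        exact GAD_sqd hθ X s x
      rw [h3, ← image_image, card_image_of_injective]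
      intro t t' ht
      simp only [add_left_inj] at ht
      exact (div_left_inj' hL.ne').mp ht
    · rw [disjoint_right]
      intro v hv hv2
      obtain ⟨z, hz, rfl⟩ := mem_image.mp hv
      obtain ⟨s, hs, rfl⟩ := mem_image.mp hz
      obtain ⟨y, hy, h4⟩ := mem_image.mp hv2
      exact hX2' x hx s hs y (mem_of_mem_erase hy) h4.symm

/-- TARGET: prove this. Do not change the definitions above. Helper lemmas may be added before it. -/
theorem GAD_thm  : GAD_stmt := by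
  intro P n
  induction n with
  | zero =>
    intro θ E _
    exact ⟨P, Subset.refl _, by simp, by simp⟩
  | succ n ih =>
    intro θ E hθ
    obtain ⟨S0, h1, h2, h3⟩ := ih θ E (fun j hj => hθ j (by omega))
    obtain ⟨S, k1, k2, k3⟩ := GAD_step P S0 h1 (θ n) (hθ n (by omega)) (E n)
    refine ⟨S, h1.trans k1, ?_, ?_⟩
    · rw [k2, h2, sum_range_succ, add_assoc]
    · intro x hx
      rw [k3 x hx, h3 x hx, sum_range_succ, add_assoc]



end SGAD
end DD106
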