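import Mathlib
import Pool.Agent.H106DD.Defs

set_option autoImplicit false
open Finset

namespace DD106
namespace SGADL


/-- bundle of gadgets -/
def Bun (q e : ℕ → ℕ) (D0 C M : ℕ) (t : ℕ → ℕ → ℕ → ℕ) (cost : ℕ) : Prop :=
  ∃ (n : ℕ) (θ : ℕ → ℝ × ℝ) (E : ℕ → Finset ℝ), (∀ j < n, θ j ≠ 0) ∧
    (∑ j ∈ range n, (E j).card) ≤ cost ∧
    ∀ c < C, ∀ a < M, ∀ b < M,
      ∑ j ∈ range n, ((E j).image (fun s =>
        (s - ((pt q e D0 c a b).1 * (θ j).1 + (pt q e D0 c a b).2 * (θ j).2)) ^ 2)).card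
        + t c a b = ∑ j ∈ range n, (E j).card

theorem sum_glue (F : ℝ × ℝ → Finset ℝ → ℕ) (n n' : ℕ) (θ θ' : ℕ → ℝ × ℝ)
    (E E' : ℕ → Finset ℝ) :
    ∑ j ∈ range (n + n'), F (if j < n then θ j else θ' (j - n))
        (if j < n then E j else E' (j - n)) =
      ∑ j ∈ range n, F (θ j) (E j) + ∑ j ∈ range n', F (θ' j) (E' j) := by
  rw [Finset.sum_range_add]
  congr 1
  · refine sum_congr rfl fun j hj => ?_
    rw [if_pos (mem_range.1 hj), if_pos (mem_range.1 hj)]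
  · refine sum_congr rfl fun j _ => ?_
    rw [if_neg (by omega), if_neg (by omega), Nat.add_sub_cancel_left]

theorem Bun_add {q e : ℕ → ℕ} {D0 C M : ℕ} {t t' : ℕ → ℕ → ℕ → ℕ} {k k' : ℕ}
    (h : Bun q e D0 C M t k) (h' : Bun q e D0 C M t' k') :
    Bun q e D0 C M (fun c a b => t c a b + t' c a b) (k + k') := by
  obtain ⟨n, θ, E, h1, h2, h3⟩ := h
  obtain ⟨n', θ', E', h1', h2', h3'⟩ := h'
  refine ⟨n + n', fun j => if j < n then θ j else θ' (j - n),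
    fun j => if j < n then E j else E' (j - n), ?_, ?_, ?_⟩
  · intro j hj
    by_cases hjn : j < n
    · simp only [hjn, if_true]; exact h1 j hjn
    · simp only [hjn, if_false]; exact h1' _ (by omega)
  · have := sum_glue (fun _ X => X.card) n n' θ θ' E E'
    simp only at this ⊢
    rw [this]
    exact add_le_add h2 h2'
  · intro c hc a ha b hb
    have e1 := sum_glue (fun _ X => X.card) n n' θ θ' E E'
    have e2 := sum_glue (fun t X => (X.image (fun s =>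
        (s - ((pt q e D0 c a b).1 * t.1 + (pt q e D0 c a b).2 * t.2)) ^ 2)).card) n n' θ θ' E E'
    simp only at e1 e2 ⊢
    rw [e1, e2]
    have a1 := h3 c hc a ha b hb
    have a2 := h3' c hc a ha b hb
    omega

theorem Bun_lin (hLG : LG_stmt) {q e : ℕ → ℕ} {D0 M S : ℕ} (hS : 1 ≤ S) (hM : 1 ≤ M)
    (hD : S ^ 2 ≤ D0) :
    Bun q e D0 (S ^ 2) M (fun _ _ b => M * (b + 1)) (M * (2 * M * S)) := by
  obtain ⟨E, hE, h⟩ := hLG S M D0 hS hM hD
  refine ⟨M, fun _ => (0, 1), fun _ => E, fun j _ => by simp [Prod.ext_iff], ?_, ?_⟩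
  · simp only [sum_const, card_range, smul_eq_mul]
    exact Nat.mul_le_mul_left _ hE
  · intro c hc a ha b hb
    simp only [sum_const, card_range, smul_eq_mul]
    have h1 := h c hc b hb
    have h2 : (pt q e D0 c a b).1 * 0 + (pt q e D0 c a b).2 * 1 = (b : ℝ) + (c : ℝ) / (D0 : ℝ) := by
      simp [pt, ty]
    rw [h2, ← mul_add, h1]

theorem frac_eq {m m' : ℕ} {x y : ℝ} (hx0 : 0 ≤ x) (hx1 : x < 1) (hy0 : 0 ≤ y) (hy1 : y < 1)
    (h : (m : ℝ) + x = m' + y) : m = m' ∧ x = y := by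
  have h1 : m = m' := by
    rcases lt_trichotomy m m' with hlt | heq | hgt
    · exfalso
      have : (m : ℝ) + 1 ≤ m' := by exact_mod_cast hlt
      linarith
    · exact heq
    · exfalso
      have : (m' : ℝ) + 1 ≤ m := by exact_mod_cast hgt
      linarith
  subst h1
  exact ⟨rfl, by linarith⟩

theorem divmod_eq {w j k j' k' : ℕ} (hk : k < w) (hk' : k' < w) (h : w * j + k = w * j' + k') :
    j = j' ∧ k = k' := by
  have h1 : k = k' := by
    have := congrArg (· % w) h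
    simpa [Nat.mul_add_mod, Nat.mod_eq_of_lt hk, Nat.mod_eq_of_lt hk'] using this
  subst h1
  have h2 : w * j = w * j' := by omega
  exact ⟨Nat.eq_of_mul_eq_mul_left (by omega) h2, rfl⟩

theorem Bun_plf (hPLF : PLF_stmt) {q e : ℕ → ℕ} {D0 C M : ℕ} (φ : ℕ → ℝ) (m : ℕ → ℕ → ℕ → ℕ)
    (w : ℕ) (h : ℕ → ℕ → ℕ → ℕ) (B NV : ℕ) (θ0 : ℝ × ℝ) (hθ : θ0 ≠ 0) (hw : 1 ≤ w)
    (hu : ∀ c < C, ∀ a < M, ∀ b < M,
      (pt q e D0 c a b).1 * θ0.1 + (pt q e D0 c a b).2 * θ0.2 = (m c a b : ℝ) + φ c)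
    (hφ0 : ∀ c < C, 0 ≤ φ c) (hφ1 : ∀ c < C, φ c < 1)
    (hφi : ∀ c < C, ∀ c' < C, φ c = φ c' → c = c')
    (hh : ∀ c < C, ∀ a < M, ∀ b < M, ∀ a' < M, ∀ b' < M, m c a b = m c a' b' →
      h c a b = h c a' b')
    (hB : ∀ c a b, h c a b ≤ B)
    (VS : Finset (ℕ × ℕ)) (hVS : VS.card ≤ NV)
    (hVm : ∀ c < C, ∀ a < M, ∀ b < M, (c, m c a b / w) ∈ VS) (hVC : ∀ x ∈ VS, x.1 < C) :
    Bun q e D0 C M h (B * (NV + w * 2 ^ w)) := by
  classical
  have key := hPLF ((range C) ×ˢ ((range M) ×ˢ (range M)))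
    (fun z => (m z.1 z.2.1 z.2.2 : ℝ) + φ z.1)
    (VS.image (fun x => (((w * x.2 : ℕ) : ℝ)) + φ x.1)) w (fun z => h z.1 z.2.1 z.2.2) B hw
    ?_ ?_ ?_ ?_
  · obtain ⟨E, hE1, hE2⟩ := key
    refine ⟨B, fun _ => θ0, E, fun _ _ => hθ, ?_, ?_⟩
    · calc ∑ j ∈ range B, (E j).card ≤ ∑ j ∈ range B, (NV + w * 2 ^ w) := by
            refine sum_le_sum fun i hi => (hE1 i (mem_range.1 hi)).trans ?_
            exact Nat.add_le_add_right (card_image_le.trans hVS) _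
        _ = B * (NV + w * 2 ^ w) := by simp
    · intro c hc a ha b hb
      have h1 := hE2 (c, a, b) (by simp [hc, ha, hb])
      simp only at h1
      beta_reduce
      rw [hu c hc a ha b hb]
      exact h1
  · intro v hv v' hv' k hk k' hk' heq
    obtain ⟨x, hx, rfl⟩ := mem_image.1 hv
    obtain ⟨x', hx', rfl⟩ := mem_image.1 hv'
    have c1 := hVC x hx
    have c1' := hVC x' hx'
    have h1 : ((w * x.2 + k : ℕ) : ℝ) + φ x.1 = ((w * x'.2 + k' : ℕ) : ℝ) + φ x'.1 := by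
      push_cast at heq ⊢
      linarith
    obtain ⟨h2, h3⟩ := frac_eq (hφ0 _ c1) (hφ1 _ c1) (hφ0 _ c1') (hφ1 _ c1') h1
    obtain ⟨h4, h5⟩ := divmod_eq hk hk' h2
    exact ⟨by rw [h3, h4], h5⟩
  · intro z hz
    simp only [mem_product, mem_range] at hz
    refine ⟨((w * (m z.1 z.2.1 z.2.2 / w) : ℕ) : ℝ) + φ z.1, mem_image.2
      ⟨(z.1, m z.1 z.2.1 z.2.2 / w), hVm _ hz.1 _ hz.2.1 _ hz.2.2, rfl⟩,
      m z.1 z.2.1 z.2.2 % w, Nat.mod_lt _ (by omega), ?_⟩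
    have h1 : (m z.1 z.2.1 z.2.2 : ℝ) =
        ((w * (m z.1 z.2.1 z.2.2 / w) : ℕ) : ℝ) + ((m z.1 z.2.1 z.2.2 % w : ℕ) : ℝ) := by
      rw [← Nat.cast_add, Nat.div_add_mod]
    rw [h1]
    ring
  · intro z hz z' hz' heq
    simp only [mem_product, mem_range] at hz hz'
    obtain ⟨h2, h3⟩ := frac_eq (hφ0 _ hz.1) (hφ1 _ hz.1) (hφ0 _ hz'.1) (hφ1 _ hz'.1) heq
    have h4 := hφi _ hz.1 _ hz'.1 h3
    rw [← h4] at h2 ⊢
    exact hh _ hz.1 _ hz.2.1 _ hz.2.2 _ hz'.2.1 _ hz'.2.2 h2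
  · intro z _
    exact hB _ _ _

theorem tx_facts {C D0 : ℕ} {q e : ℕ → ℕ} (hq : ∀ c < C, (q c).Prime ∧ q c % 4 = 3 ∧ q c ≠ D0)
    (hqi : ∀ c < C, ∀ c' < C, q c = q c' → c = c') (he : ∀ c < C, 1 ≤ e c) :
    (∀ c < C, 0 ≤ tx q e c) ∧ (∀ c < C, tx q e c < 1) ∧
      (∀ c < C, ∀ c' < C, tx q e c = tx q e c' → c = c') := by
  refine ⟨fun c _ => by unfold tx; positivity, ?_, ?_⟩
  · intro c hc
    unfold tx
    have h1 : (1 : ℝ) < q c := by exact_mod_cast (hq c hc).1.one_lt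
    have h2 : (1 : ℝ) < (q c : ℝ) ^ (e c) := one_lt_pow₀ h1 (by have := he c hc; omega)
    rw [div_lt_one (by linarith)]
    exact h2
  · intro c hc c' hc' h
    unfold tx at h
    have h1 : (q c : ℝ) ^ (e c) = (q c' : ℝ) ^ (e c') := by
      rw [one_div, one_div] at h
      exact inv_injective h
    have h2 : q c ^ (e c) = q c' ^ (e c') := by exact_mod_cast h1
    have h3 : q c ∣ q c' ^ (e c') := by
      rw [← h2]
      exact dvd_pow_self _ (by have := he c hc; omega)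
    have h4 := (hq c hc).1.dvd_of_dvd_pow h3
    exact hqi c hc c' hc' ((Nat.prime_dvd_prime_iff_eq (hq c hc).1 (hq c' hc').1).1 h4)

theorem ty_facts {C D0 : ℕ} (hD : D0.Prime) (hCD : C ≤ D0) :
    (∀ c < C, 0 ≤ ty D0 c) ∧ (∀ c < C, ty D0 c < 1) ∧
      (∀ c < C, ∀ c' < C, ty D0 c = ty D0 c' → c = c') := by
  have h0 : (0 : ℝ) < D0 := by exact_mod_cast hD.pos
  refine ⟨fun c _ => by unfold ty; positivity, ?_, ?_⟩
  · intro c hc
    unfold ty
    rw [div_lt_one h0]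
    exact_mod_cast hc.trans_le hCD
  · intro c _ c' _ h
    unfold ty at h
    rw [div_left_inj' h0.ne'] at h
    exact_mod_cast h

/-- TARGET: prove this. Do not change the definitions above. Helper lemmas may be added before it. -/
theorem GADL_thm (hPLF : PLF_stmt) (hLG : LG_stmt) : GADL_stmt := by
  intro S K T D0 eps q hS heps hset
  obtain ⟨hD0, hD04, hCD, hq, hqi⟩ := hset
  obtain ⟨w, hw⟩ := exists_nat_ge (4 * ((S ^ 2 : ℕ) : ℝ) * ((K : ℝ) + T) / eps + 1)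
  have hwp : (0 : ℝ) ≤ 4 * ((S ^ 2 : ℕ) : ℝ) * ((K : ℝ) + T) / eps := by positivity
  have hw1 : 1 ≤ w := by
    have : (1 : ℝ) ≤ w := by linarith
    exact_mod_cast this
  obtain ⟨M0, hM0⟩ := exists_nat_ge
    (4 * ((K : ℝ) + T) * (((S ^ 2 : ℕ) : ℝ) + ((w * 2 ^ w : ℕ) : ℝ)) / eps + 1)
  have hMp : (0 : ℝ) ≤
      4 * ((K : ℝ) + T) * (((S ^ 2 : ℕ) : ℝ) + ((w * 2 ^ w : ℕ) : ℝ)) / eps := by positivity
  refine ⟨M0, fun M hM e f h' h he hf hh' hh => ?_⟩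
  have hM' : (M0 : ℝ) ≤ M := by exact_mod_cast hM
  have hM1 : 1 ≤ M := by
    have : (1 : ℝ) ≤ M := by linarith
    exact_mod_cast this
  have hdiv : ∀ x, x < M → x / w < M / w + 1 := fun x hx =>
    Nat.lt_succ_of_le (Nat.div_le_div_right hx.le)
  obtain ⟨tx0, tx1, txi⟩ := tx_facts hq hqi he
  obtain ⟨ty0, ty1, tyi⟩ := ty_facts hD0 hCD
  have b1 : Bun q e D0 (S ^ 2) M (fun _ _ b => M * (b + 1)) (M * (2 * M * S)) :=
    Bun_lin hLG hS hM1 hCD
  have b2 : Bun q e D0 (S ^ 2) M (fun c _ b => f c b)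
      (K * M * (S ^ 2 * (M / w + 1) + w * 2 ^ w)) := by
    refine Bun_plf hPLF (ty D0) (fun _ _ b => b) w (fun c _ b => f c b) (K * M)
      (S ^ 2 * (M / w + 1)) (0, 1) (by simp [Prod.ext_iff]) hw1 ?_ ty0 ty1 tyi ?_
      (fun c _ b => (hf c b).le) (range (S ^ 2) ×ˢ range (M / w + 1)) (by simp) ?_ ?_
    · intro c _ a _ b _
      simp [pt]
    · intro c _ a _ b _ a' _ b' _ hb
      rw [hb]
    · intro c hc a _ b hb
      simp only [mem_product, mem_range]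
      exact ⟨hc, hdiv b hb⟩
    · intro x hx
      exact mem_range.1 (mem_product.1 hx).1
  have b3 : Bun q e D0 (S ^ 2) M (fun c a _ => h' c a)
      (K * M * (S ^ 2 * (M / w + 1) + w * 2 ^ w)) := by
    refine Bun_plf hPLF (tx q e) (fun _ a _ => a) w (fun c a _ => h' c a) (K * M)
      (S ^ 2 * (M / w + 1)) (1, 0) (by simp [Prod.ext_iff]) hw1 ?_ tx0 tx1 txi ?_
      (fun c a _ => (hh' c a).le) (range (S ^ 2) ×ˢ range (M / w + 1)) (by simp) ?_ ?_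
    · intro c _ a _ b _
      simp [pt]
    · intro c _ a _ b _ a' _ b' _ hb
      rw [hb]
    · intro c hc a ha b _
      simp only [mem_product, mem_range]
      exact ⟨hc, hdiv a ha⟩
    · intro x hx
      exact mem_range.1 (mem_product.1 hx).1
  have hD0' : (D0 : ℝ) ≠ 0 := by exact_mod_cast hD0.ne_zero
  have b4 : Bun q e D0 (S ^ 2) M h
      (2 * T * (S ^ 2 * (M * (M / w + 1)) + w * 2 ^ w)) := by
    refine Bun_plf hPLF (tx q e) (fun c a b => a + w * (M * D0 * b + M * c)) w h (2 * T)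
      (S ^ 2 * (M * (M / w + 1))) (1, (w : ℝ) * M * D0) (by simp [Prod.ext_iff]) hw1 ?_ tx0 tx1
      txi ?_ (fun c a b => (hh c a b).le)
      ((range (S ^ 2) ×ˢ (range M ×ˢ range (M / w + 1))).image
        (fun x : ℕ × ℕ × ℕ => (x.1, x.2.2 + (M * D0 * x.2.1 + M * x.1)))) ?_ ?_ ?_
    · intro c _ a _ b _
      simp only [pt, ty]
      push_cast
      field_simp
      ring
    · intro c _ a ha b _ a' ha' b' _ hb
      have hL : M ≤ w * (M * D0) := by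
        calc M = 1 * (M * 1) := by ring
          _ ≤ w * (M * D0) := Nat.mul_le_mul hw1 (Nat.mul_le_mul_left _ hD0.one_lt.le)
      have h1 : (w * (M * D0)) * b + a = (w * (M * D0)) * b' + a' := by
        have e1 : w * (M * D0 * b + M * c) = (w * (M * D0)) * b + w * (M * c) := by ring
        have e2 : w * (M * D0 * b' + M * c) = (w * (M * D0)) * b' + w * (M * c) := by ring
        rw [e1, e2] at hb
        omega
      obtain ⟨h2, h3⟩ := divmod_eq (ha.trans_le hL) (ha'.trans_le hL) h1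
      rw [h2, h3]
    · refine card_image_le.trans ?_
      simp
    · intro c hc a ha b hb
      simp only [mem_image, mem_product, mem_range]
      refine ⟨(c, b, a / w), ⟨hc, hb, hdiv a ha⟩, ?_⟩
      rw [Nat.add_mul_div_left _ _ (by omega)]
    · intro x hx
      obtain ⟨y, hy, rfl⟩ := mem_image.1 hx
      exact mem_range.1 (mem_product.1 hy).1
  obtain ⟨n, θ, E, h1, h2, h3⟩ := Bun_add (Bun_add (Bun_add b1 b2) b3) b4
  refine ⟨n, θ, E, h1, ?_, h3⟩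
  refine le_trans (Nat.cast_le.2 h2) ?_
  have hdw : ((M / w : ℕ) : ℝ) * w ≤ M := by exact_mod_cast Nat.div_mul_le_self M w
  have hd0 : (0 : ℝ) ≤ ((M / w : ℕ) : ℝ) := Nat.cast_nonneg _
  have hm1 : (1 : ℝ) ≤ M := by exact_mod_cast hM1
  have hS0 : (0 : ℝ) ≤ S := Nat.cast_nonneg _
  have hK0 : (0 : ℝ) ≤ K := Nat.cast_nonneg _
  have hT0 : (0 : ℝ) ≤ T := Nat.cast_nonneg _
  have hW0 : (0 : ℝ) ≤ (w : ℝ) * 2 ^ w := by positivity
  have k1 : 4 * (S : ℝ) ^ 2 * ((K : ℝ) + T) ≤ eps * w := by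
    have : 4 * ((S ^ 2 : ℕ) : ℝ) * ((K : ℝ) + T) / eps ≤ w := by linarith
    rw [div_le_iff₀ heps] at this
    push_cast at this
    linarith
  have k2 : 4 * ((K : ℝ) + T) * ((S : ℝ) ^ 2 + (w : ℝ) * 2 ^ w) ≤ eps * M := by
    have : 4 * ((K : ℝ) + T) * (((S ^ 2 : ℕ) : ℝ) + ((w * 2 ^ w : ℕ) : ℝ)) / eps ≤ M := by linarith
    rw [div_le_iff₀ heps] at this
    push_cast at this
    linarith
  push_cast
  generalize ((M / w : ℕ) : ℝ) = d at *
  generalize (w : ℝ) * 2 ^ w = W at *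
  have hA : (0 : ℝ) ≤ (K : ℝ) + T := by linarith
  have k3 : 4 * (S : ℝ) ^ 2 * ((K : ℝ) + T) * d ≤ eps * M := by
    calc 4 * (S : ℝ) ^ 2 * ((K : ℝ) + T) * d ≤ eps * w * d := mul_le_mul_of_nonneg_right k1 hd0
      _ = eps * (d * w) := by ring
      _ ≤ eps * M := mul_le_mul_of_nonneg_left hdw heps.le
  have k4 : 2 * ((K : ℝ) + T) * ((S : ℝ) ^ 2 * (d + 1) + W) ≤ eps * M := by
    linarith only [k2, k3]
  have k5 : (M : ℝ) * (2 * ((K : ℝ) + T) * ((S : ℝ) ^ 2 * (d + 1) + W)) ≤ M * (eps * M) :=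
    mul_le_mul_of_nonneg_left k4 (by linarith)
  have k6 : 2 * (T : ℝ) * W ≤ 2 * (T : ℝ) * W * M :=
    le_mul_of_one_le_right (by positivity) hm1
  linarith only [k5, k6]



end SGADL
end DD106
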