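import Mathlib
import Pool.Agent.H106DD.Defs

set_option autoImplicit false
open Finset

namespace DD106
namespace SGEO

theorem ff_key301 (D0 d d' d'' p : ℕ) (hp : p.Prime) (hd' : p ∣ d') (hd : ¬ p ∣ d)
    (hd'' : ¬ p ∣ d'') (hD : ¬ p ∣ D0) (h0 : 0 < D0) (h1 : 0 < d) (h2 : 0 < d') (h3 : 0 < d'')
    (v1 v2 w1 w2 k k' : ℤ)
    (h : ((v1 : ℝ) + 1 / d - 1 / d') ^ 2 + ((v2 : ℝ) + k / D0) ^ 2 =
      ((w1 : ℝ) + 1 / d - 1 / d'') ^ 2 + ((w2 : ℝ) + k' / D0) ^ 2) : False := by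
  have h0' : (D0 : ℝ) ≠ 0 := by positivity
  have h1' : (d : ℝ) ≠ 0 := by positivity
  have h2' : (d' : ℝ) ≠ 0 := by positivity
  have h3' : (d'' : ℝ) ≠ 0 := by positivity
  have e1 : ((v1 : ℝ) + 1 / d - 1 / d') ^ 2 + ((v2 : ℝ) + k / D0) ^ 2 =
      ((((D0 * (d * d' * v1 + d' - d)) ^ 2 + (d * d' * (D0 * v2 + k)) ^ 2 : ℤ)) : ℝ) /
        (((d * d' * D0) ^ 2 : ℤ) : ℝ) := by
    push_cast
    field_simp
  have e2 : ((w1 : ℝ) + 1 / d - 1 / d'') ^ 2 + ((w2 : ℝ) + k' / D0) ^ 2 =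
      ((((D0 * (d * d'' * w1 + d'' - d)) ^ 2 + (d * d'' * (D0 * w2 + k')) ^ 2 : ℤ)) : ℝ) /
        (((d * d'' * D0) ^ 2 : ℤ) : ℝ) := by
    push_cast
    field_simp
  rw [e1, e2, div_eq_div_iff (by push_cast; positivity) (by push_cast; positivity)] at h
  have h4 : ((D0 * (d * d' * v1 + d' - d)) ^ 2 + (d * d' * (D0 * v2 + k)) ^ 2 : ℤ) *
      ((d * d'' * D0) ^ 2 : ℤ) =
      ((D0 * (d * d'' * w1 + d'' - d)) ^ 2 + (d * d'' * (D0 * w2 + k')) ^ 2 : ℤ) *
      ((d * d' * D0) ^ 2 : ℤ) := by exact_mod_cast h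
  have hpz : Prime (p : ℤ) := Nat.prime_iff_prime_int.mp hp
  have hpd' : (p : ℤ) ∣ (d' : ℤ) := by exact_mod_cast hd'
  have hpd : ¬ (p : ℤ) ∣ (d : ℤ) := by
    intro hh; exact hd (by exact_mod_cast hh)
  have hpd'' : ¬ (p : ℤ) ∣ (d'' : ℤ) := by
    intro hh; exact hd'' (by exact_mod_cast hh)
  have hpD : ¬ (p : ℤ) ∣ (D0 : ℤ) := by
    intro hh; exact hD (by exact_mod_cast hh)
  have h5 : (p : ℤ) ∣ ((D0 * (d * d' * v1 + d' - d)) ^ 2 + (d * d' * (D0 * v2 + k)) ^ 2 : ℤ) *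
      ((d * d'' * D0) ^ 2 : ℤ) := by
    rw [h4]
    apply Dvd.dvd.mul_left
    apply dvd_pow _ (by norm_num)
    exact Dvd.dvd.mul_right (Dvd.dvd.mul_left hpd' _) _
  rcases hpz.dvd_or_dvd h5 with h6 | h6
  · obtain ⟨m, hm⟩ := hpd'
    have h7 : ((D0 * (d * d' * v1 + d' - d)) ^ 2 + (d * d' * (D0 * v2 + k)) ^ 2 : ℤ) =
        (D0 * d) ^ 2 + (p : ℤ) * (D0 ^ 2 * (d * m * v1 + m) * (d * d' * v1 + d' - 2 * d) +
          m * d' * (d * (D0 * v2 + k)) ^ 2) := by
      rw [hm]; ring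
    rw [h7] at h6
    have h8 : (p : ℤ) ∣ ((D0 : ℤ) * d) ^ 2 := by
      have := (Int.dvd_add_left (Dvd.intro _ rfl)).mp h6
      exact this
    have h9 := hpz.dvd_of_dvd_pow h8
    rcases hpz.dvd_or_dvd h9 with h10 | h10
    · exact hpD h10
    · exact hpd h10
  · have h9 := hpz.dvd_of_dvd_pow h6
    rcases hpz.dvd_or_dvd h9 with h10 | h10
    · rcases hpz.dvd_or_dvd h10 with h11 | h11
      · exact hpd h11
      · exact hpd'' h11
    · exact hpD h10

theorem ff_ne301 {C D0 : ℕ} {q e : ℕ → ℕ} (hs : setup C D0 q) (he : ∀ c < C, 1 ≤ e c)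
    {c c' c'' : ℕ} (hc : c < C) (hc' : c' < C) (hc'' : c'' < C) (h1 : c' ≠ c) (h2 : c' ≠ c'')
    (v w : ℤ × ℤ) : ff q e D0 c c' v ≠ ff q e D0 c c'' w := by
  intro h
  obtain ⟨hD, hD4, hCD, hq, hinj⟩ := hs
  have hpp := (hq c' hc').1
  have hnd : ∀ b < C, b ≠ c' → ¬ q c' ∣ q b ^ e b := by
    intro b hb hbc hdiv
    have := hpp.dvd_of_dvd_pow hdiv
    rw [Nat.prime_dvd_prime_iff_eq hpp (hq b hb).1] at this
    exact hbc (hinj c' hc' b hb this).symm
  have hdd : q c' ∣ q c' ^ e c' := dvd_pow_self _ (by have := he c' hc'; omega)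
  have hDD : ¬ q c' ∣ D0 := by
    intro hh
    rw [Nat.prime_dvd_prime_iff_eq hpp hD] at hh
    exact (hq c' hc').2.2 hh
  refine ff_key301 D0 (q c ^ e c) (q c' ^ e c') (q c'' ^ e c'') (q c') hpp hdd
    (hnd c hc (Ne.symm h1)) (hnd c'' hc'' (Ne.symm h2)) hDD hD.pos
    (pow_pos (hq c hc).1.pos _) (pow_pos hpp.pos _) (pow_pos (hq c'' hc'').1.pos _)
    v.1 v.2 w.1 w.2 ((c : ℤ) - c') ((c : ℤ) - c'') ?_
  unfold ff tx ty at h
  push_cast
  have e1 : (v.2 : ℝ) + ((c : ℝ) - c') / D0 = v.2 + (c : ℝ) / D0 - c' / D0 := by ring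
  have e2 : (w.2 : ℝ) + ((c : ℝ) - c'') / D0 = w.2 + (c : ℝ) / D0 - c'' / D0 := by ring
  rw [e1, e2]
  exact h

theorem pt_inj301 {C D0 : ℕ} {q e : ℕ → ℕ} (hs : setup C D0 q) (he : ∀ c < C, 1 ≤ e c)
    {c c' a a' b b' : ℕ} (hc : c < C) (hc' : c' < C)
    (h1 : (a : ℝ) + tx q e c = (a' : ℝ) + tx q e c') (h2 : (b : ℝ) + ty D0 c = (b' : ℝ) + ty D0 c') :
    c = c' ∧ a = a' ∧ b = b' := by
  obtain ⟨hD, hD4, hCD, hq, hinj⟩ := hs
  have hge : ∀ b < C, 3 ≤ q b ^ e b := by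
    intro b hb
    have h4 := (hq b hb).2.1
    have h5 : 3 ≤ q b := by
      have := (hq b hb).1.two_le
      omega
    calc 3 ≤ q b := h5
      _ = q b ^ 1 := (pow_one _).symm
      _ ≤ q b ^ e b := Nat.pow_le_pow_right (by omega) (he b hb)
  have hd : (3 : ℝ) ≤ ((q c : ℝ) ^ (e c)) := by exact_mod_cast hge c hc
  have hd' : (3 : ℝ) ≤ ((q c' : ℝ) ^ (e c')) := by exact_mod_cast hge c' hc'
  unfold tx at h1
  set d := ((q c : ℝ) ^ (e c)) with hdd
  set d' := ((q c' : ℝ) ^ (e c')) with hdd'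
  have p1 : 0 < 1 / d := by positivity
  have p2 : 0 < 1 / d' := by positivity
  have p3 : 1 / d < 1 := by rw [div_lt_one (by linarith)]; linarith
  have p4 : 1 / d' < 1 := by rw [div_lt_one (by linarith)]; linarith
  have ha : a = a' := by
    by_contra hne
    rcases Nat.lt_or_gt_of_ne hne with h | h
    · have : (a : ℝ) + 1 ≤ a' := by exact_mod_cast h
      linarith
    · have : (a' : ℝ) + 1 ≤ a := by exact_mod_cast h
      linarith
  subst ha
  have h3 : 1 / d = 1 / d' := by linarith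
  have h4 : d = d' := by
    have := congrArg (fun x => 1 / x) h3
    simpa using this
  have h5 : q c ^ e c = q c' ^ e c' := by
    have : ((q c ^ e c : ℕ) : ℝ) = ((q c' ^ e c' : ℕ) : ℝ) := by push_cast; exact h4
    exact_mod_cast this
  have h6 : q c = q c' := by
    have h7 : q c ∣ q c' ^ e c' := by
      rw [← h5]; exact dvd_pow_self _ (by have := he c hc; omega)
    have h8 := (hq c hc).1.dvd_of_dvd_pow h7
    rwa [Nat.prime_dvd_prime_iff_eq (hq c hc).1 (hq c' hc').1] at h8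
  have h7 := hinj c hc c' hc' h6
  subst h7
  refine ⟨rfl, rfl, ?_⟩
  have : (b : ℝ) = b' := by linarith
  exact_mod_cast this

/-- TARGET: prove this. Do not change the definitions above. Helper lemmas may be added before it. -/
theorem GEO_thm  : GEO_stmt := by
  classical
  intro C D0 M q e hs he
  constructor
  · unfold P0
    rw [Finset.card_image_of_injOn]
    · rw [Finset.card_product, Finset.card_product, Finset.card_range, Finset.card_range]
      ring
    · intro u hu u' hu' h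
      simp only [Finset.coe_product, Set.mem_prod, Finset.mem_coe, Finset.mem_range] at hu hu'
      simp only [Prod.mk.injEq] at h
      obtain ⟨h1, h2, h3⟩ := pt_inj301 hs he hu.1 hu'.1 h.1 h.2
      ext
      · exact h1
      · exact h2
      · exact h3
  · intro c hc a ha b hb
    set x : ℝ × ℝ := ((a : ℝ) + tx q e c, (b : ℝ) + ty D0 c) with hx
    set V : ℕ → Finset ℝ := fun c' => ((range M) ×ˢ (range M)).image
      (fun v : ℕ × ℕ => ff q e D0 c c' ((a : ℤ) - v.1, (b : ℤ) - v.2)) with hV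
    have hval : ∀ c' a' b' : ℕ, sqd x ((a' : ℝ) + tx q e c', (b' : ℝ) + ty D0 c') =
        ff q e D0 c c' ((a : ℤ) - a', (b : ℤ) - b') := by
      intro c' a' b'
      simp only [sqd, hx, ff]
      push_cast
      ring
    have hxmem : x ∈ P0 q e D0 C M := by
      unfold P0
      rw [Finset.mem_image]
      exact ⟨(c, (a, b)), by simp [hc, ha, hb], rfl⟩
    have himg : (P0 q e D0 C M).image (sqd x) = (range C).biUnion V := by
      ext t
      simp only [P0, Finset.image_image, Finset.mem_image, Finset.mem_product, Finset.mem_range,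
        Finset.mem_biUnion, hV, Function.comp]
      constructor
      · rintro ⟨u, ⟨h1, h2, h3⟩, rfl⟩
        refine ⟨u.1, h1, u.2, ⟨h2, h3⟩, ?_⟩
        rw [← hval]
      · rintro ⟨c', h1, v, ⟨h2, h3⟩, rfl⟩
        refine ⟨(c', v), ⟨h1, h2, h3⟩, ?_⟩
        simp only
        rw [hval]
    have hdisj : (↑(range C) : Set ℕ).PairwiseDisjoint V := by
      intro c' hc' c'' hc'' hne
      simp only [Finset.coe_range, Set.mem_Iio] at hc' hc''
      rw [Function.onFun, Finset.disjoint_left]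
      intro t ht1 ht2
      simp only [hV, Finset.mem_image] at ht1 ht2
      obtain ⟨v, -, hv⟩ := ht1
      obtain ⟨w, -, hw⟩ := ht2
      by_cases h : c' = c
      · have h' : c'' ≠ c := fun hh => hne (h.trans hh.symm)
        exact ff_ne301 hs he hc hc'' hc' h' (Ne.symm hne) _ _ (hw.trans hv.symm)
      · exact ff_ne301 hs he hc hc' hc'' h hne _ _ (hv.trans hw.symm)
    have hcard : ((P0 q e D0 C M).image (sqd x)).card = ∑ c' ∈ range C, seen (ff q e D0 c c') M a b := by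
      rw [himg, Finset.card_biUnion (fun i hi j hj hij => hdisj (by simpa using hi) (by simpa using hj) hij)]
      rfl
    have herase : ((P0 q e D0 C M).erase x).image (sqd x) = ((P0 q e D0 C M).image (sqd x)).erase 0 := by
      ext t
      simp only [Finset.mem_image, Finset.mem_erase]
      constructor
      · rintro ⟨y, ⟨hyx, hy⟩, rfl⟩
        refine ⟨?_, y, hy, rfl⟩
        intro h0
        apply hyx
        simp only [sqd] at h0
        have h1 : (x.1 - y.1) ^ 2 = 0 := by nlinarith [sq_nonneg (x.1 - y.1), sq_nonneg (x.2 - y.2)]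
        have h2 : (x.2 - y.2) ^ 2 = 0 := by nlinarith [sq_nonneg (x.1 - y.1), sq_nonneg (x.2 - y.2)]
        have h3 : x.1 - y.1 = 0 := by simpa using h1
        have h4 : x.2 - y.2 = 0 := by simpa using h2
        ext
        · linarith
        · linarith
      · rintro ⟨h0, y, hy, rfl⟩
        refine ⟨y, ⟨?_, hy⟩, rfl⟩
        rintro rfl
        apply h0
        simp [sqd]
    have h0mem : (0 : ℝ) ∈ (P0 q e D0 C M).image (sqd x) := by
      rw [Finset.mem_image]
      exact ⟨x, hxmem, by simp [sqd]⟩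
    unfold RR
    rw [← hcard, ← Finset.card_erase_add_one h0mem]
    congr 1
    convert congrArg Finset.card herase using 2



end SGEO
end DD106
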