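import Mathlib
import Pool.Agent.H106DD.Defs

set_option autoImplicit false
open Finset

namespace DD106
namespace SINNER

/-- the coordinates of the class lie in a window of length `2 rho / Q + 1` -/
theorem inner_window (Q rho : ℕ) (hQ : 0 < Q) (c v : ℤ) (h1 : -(rho : ℤ) ≤ Q * v + c)
    (h2 : (Q : ℤ) * v + c ≤ rho) :
    -((rho + c) / (Q : ℤ)) ≤ v ∧ v < -((rho + c) / (Q : ℤ)) + ((2 * rho / Q + 1 : ℕ) : ℤ) := by
  have hQ' : (0 : ℤ) < Q := by exact_mod_cast hQ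
  constructor
  · have : -v ≤ (rho + c) / (Q : ℤ) := by
      rw [Int.le_ediv_iff_mul_le hQ']
      linarith
    linarith
  · have h3 : (rho + c) / (Q : ℤ) * Q ≤ rho + c := Int.ediv_mul_le _ hQ'.ne'
    have h4 : v + (rho + c) / (Q : ℤ) ≤ (2 * rho) / (Q : ℤ) := by
      rw [Int.le_ediv_iff_mul_le hQ']
      linarith
    push_cast
    linarith

theorem inner_om (P : Finset ℕ) (hP : ∀ p ∈ P, P1 p) (s1 s2 r1 r2 : ℤ) :
    (1 / 2 : ℝ) ^ (om P (s1 * r1 - s2 * r2) (s1 * r2 + s2 * r1)) =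
      (1 / 2 : ℝ) ^ (P.filter (fun p : ℕ => (p : ℤ) ∣ s1 ^ 2 + s2 ^ 2)).card *
        wprod (P.filter (fun p : ℕ => ¬ (p : ℤ) ∣ s1 ^ 2 + s2 ^ 2)) (fun _ => 1 / 2) r1 r2 := by
  unfold om wprod
  have e : (∏ p ∈ (P.filter (fun p : ℕ => ¬ (p : ℤ) ∣ s1 ^ 2 + s2 ^ 2)).filter
      (fun p : ℕ => (p : ℤ) ∣ r1 ^ 2 + r2 ^ 2), (1 - (1 / 2 : ℝ))) =
      (1 / 2 : ℝ) ^ ((P.filter (fun p : ℕ => ¬ (p : ℤ) ∣ s1 ^ 2 + s2 ^ 2)).filter
      (fun p : ℕ => (p : ℤ) ∣ r1 ^ 2 + r2 ^ 2)).card := by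
    rw [prod_const]; norm_num
  rw [e, ← pow_add]
  congr 1
  rw [← card_union_of_disjoint]
  · congr 1
    ext p
    simp only [mem_filter, mem_union]
    constructor
    · rintro ⟨hp, hd⟩
      have hpr : Prime (p : ℤ) := Nat.prime_iff_prime_int.1 (hP p hp).1
      have hd' : (p : ℤ) ∣ (s1 ^ 2 + s2 ^ 2) * (r1 ^ 2 + r2 ^ 2) := by
        convert hd using 1; ring
      by_cases h : (p : ℤ) ∣ s1 ^ 2 + s2 ^ 2
      · exact Or.inl ⟨hp, h⟩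
      · exact Or.inr ⟨⟨hp, h⟩, (hpr.dvd_or_dvd hd').resolve_left h⟩
    · have key : (s1 * r1 - s2 * r2) ^ 2 + (s1 * r2 + s2 * r1) ^ 2
          = (s1 ^ 2 + s2 ^ 2) * (r1 ^ 2 + r2 ^ 2) := by ring
      rintro (⟨hp, h⟩ | ⟨⟨hp, h⟩, h'⟩)
      · exact ⟨hp, by rw [key]; exact h.mul_right _⟩
      · exact ⟨hp, by rw [key]; exact h'.mul_left _⟩
  · rw [Finset.disjoint_left]
    intro p hp hp'
    simp only [mem_filter] at hp hp'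
    exact hp'.1.2 hp.2

/-- TARGET: prove this. Do not change the definitions above. Helper lemmas may be added before it. -/
theorem INNER_thm (hSL : SL_stmt) : INNER_stmt := by
  intro P y l Q rho s1 s2 w1 w2 hP hy hl hsum hQ hcop hR
  have hQ' : (0 : ℤ) < Q := by exact_mod_cast hQ
  generalize hF : (sq rho).filter (fun r : ℤ × ℤ => (Q : ℤ) ∣ s1 * r.1 - s2 * r.2 - w1 ∧
        (Q : ℤ) ∣ s1 * r.2 + s2 * r.1 - w2) = F
  have hnn : 0 ≤ 3 * ((2 * rho / Q + 1 : ℕ) : ℝ) ^ 2 * Real.exp (-(1 / 2) * ∑ p ∈ P, g p) *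
        ∏ p ∈ P.filter (fun p : ℕ => (p : ℤ) ∣ s1 ^ 2 + s2 ^ 2), (1 / 2 * Real.exp (g p / 2)) := by
    apply mul_nonneg
    · positivity
    · apply prod_nonneg
      intro p _
      positivity
  rcases F.eq_empty_or_nonempty with hFe | ⟨r0, hr0⟩
  · rw [hFe, sum_empty]
    exact hnn
  have hr0' := hr0
  rw [← hF, mem_filter] at hr0'
  obtain ⟨hr0sq, hr01, hr02⟩ := hr0'
  -- N(s) is coprime to Q
  have hNs : IsCoprime (Q : ℤ) (s1 ^ 2 + s2 ^ 2) := by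
    have h1 : (Q : ℤ) ∣ (s1 ^ 2 + s2 ^ 2) * (r0.1 ^ 2 + r0.2 ^ 2) - (w1 ^ 2 + w2 ^ 2) := by
      have e : (s1 ^ 2 + s2 ^ 2) * (r0.1 ^ 2 + r0.2 ^ 2) - (w1 ^ 2 + w2 ^ 2)
          = (s1 * r0.1 - s2 * r0.2 - w1) * (s1 * r0.1 - s2 * r0.2 + w1)
            + (s1 * r0.2 + s2 * r0.1 - w2) * (s1 * r0.2 + s2 * r0.1 + w2) := by ring
      rw [e]
      exact dvd_add (hr01.mul_right _) (hr02.mul_right _)
    obtain ⟨k, hk⟩ := h1
    obtain ⟨a, b, hab⟩ := hcop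
    refine ⟨b - a * k, a * (r0.1 ^ 2 + r0.2 ^ 2), ?_⟩
    linear_combination hab + a * hk
  -- every r in F is r0 + Q v
  have hrep : ∀ r ∈ F, ∃ v : ℤ × ℤ, r = ((Q : ℤ) * v.1 + r0.1, (Q : ℤ) * v.2 + r0.2) := by
    intro r hr
    rw [← hF, mem_filter] at hr
    obtain ⟨_, hr1, hr2⟩ := hr
    have d1 : (Q : ℤ) ∣ s1 * (r.1 - r0.1) - s2 * (r.2 - r0.2) := by
      have e : s1 * (r.1 - r0.1) - s2 * (r.2 - r0.2)
          = (s1 * r.1 - s2 * r.2 - w1) - (s1 * r0.1 - s2 * r0.2 - w1) := by ring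
      rw [e]
      exact dvd_sub hr1 hr01
    have d2 : (Q : ℤ) ∣ s1 * (r.2 - r0.2) + s2 * (r.1 - r0.1) := by
      have e : s1 * (r.2 - r0.2) + s2 * (r.1 - r0.1)
          = (s1 * r.2 + s2 * r.1 - w2) - (s1 * r0.2 + s2 * r0.1 - w2) := by ring
      rw [e]
      exact dvd_sub hr2 hr02
    have e1 : (Q : ℤ) ∣ r.1 - r0.1 := by
      apply hNs.dvd_of_dvd_mul_left
      have e : (s1 ^ 2 + s2 ^ 2) * (r.1 - r0.1) = s1 * (s1 * (r.1 - r0.1) - s2 * (r.2 - r0.2))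
          + s2 * (s1 * (r.2 - r0.2) + s2 * (r.1 - r0.1)) := by ring
      rw [e]
      exact dvd_add (d1.mul_left s1) (d2.mul_left s2)
    have e2 : (Q : ℤ) ∣ r.2 - r0.2 := by
      apply hNs.dvd_of_dvd_mul_left
      have e : (s1 ^ 2 + s2 ^ 2) * (r.2 - r0.2) = s1 * (s1 * (r.2 - r0.2) + s2 * (r.1 - r0.1))
          - s2 * (s1 * (r.1 - r0.1) - s2 * (r.2 - r0.2)) := by ring
      rw [e]
      exact dvd_sub (d2.mul_left s1) (d1.mul_left s2)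
    obtain ⟨v1, hv1⟩ := e1
    obtain ⟨v2, hv2⟩ := e2
    refine ⟨(v1, v2), ?_⟩
    apply Prod.ext
    · simp only; linarith
    · simp only; linarith
  -- embed in a box
  have hsub : F ⊆ (cbox (-((rho + r0.1) / (Q : ℤ))) (-((rho + r0.2) / (Q : ℤ)))
      (2 * rho / Q + 1)).image
      (fun v : ℤ × ℤ => ((Q : ℤ) * v.1 + r0.1, (Q : ℤ) * v.2 + r0.2)) := by
    intro r hr
    obtain ⟨v, hv⟩ := hrep r hr
    rw [mem_image]
    refine ⟨v, ?_, hv.symm⟩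
    rw [← hF, mem_filter] at hr
    obtain ⟨hrsq, _⟩ := hr
    unfold sq at hrsq
    rw [mem_product, mem_Icc, mem_Icc] at hrsq
    unfold cbox
    rw [mem_product, mem_Ico, mem_Ico]
    rw [hv] at hrsq
    simp only at hrsq
    exact ⟨inner_window Q rho hQ r0.1 v.1 hrsq.1.1 hrsq.1.2,
      inner_window Q rho hQ r0.2 v.2 hrsq.2.1 hrsq.2.2⟩
  have hinj : ∀ v ∈ cbox (-((rho + r0.1) / (Q : ℤ))) (-((rho + r0.2) / (Q : ℤ)))
      (2 * rho / Q + 1), ∀ v' ∈ cbox (-((rho + r0.1) / (Q : ℤ))) (-((rho + r0.2) / (Q : ℤ)))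
      (2 * rho / Q + 1),
      (fun v : ℤ × ℤ => ((Q : ℤ) * v.1 + r0.1, (Q : ℤ) * v.2 + r0.2)) v
        = (fun v : ℤ × ℤ => ((Q : ℤ) * v.1 + r0.1, (Q : ℤ) * v.2 + r0.2)) v' → v = v' := by
    intro v _ v' _ h
    simp only [Prod.mk.injEq, add_left_inj, mul_eq_mul_left_iff, hQ'.ne', or_false] at h
    exact Prod.ext h.1 h.2
  have hP' : ∀ p ∈ P.filter (fun p : ℕ => ¬ (p : ℤ) ∣ s1 ^ 2 + s2 ^ 2),
      P1 p ∧ ¬ (p : ℤ) ∣ (Q : ℤ) ∧ (p : ℝ) ≤ y ∧ (0 : ℝ) ≤ (fun _ : ℕ => (1 / 2 : ℝ)) p ∧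
        (fun _ : ℕ => (1 / 2 : ℝ)) p ≤ 1 := by
    intro p hp
    rw [mem_filter] at hp
    obtain ⟨h1, h2, h3⟩ := hP p hp.1
    refine ⟨h1, ?_, h3, by norm_num, by norm_num⟩
    intro h
    exact h2 (by exact_mod_cast h)
  have hsum' : (∑ p ∈ P.filter (fun p : ℕ => ¬ (p : ℤ) ∣ s1 ^ 2 + s2 ^ 2), 2 / (p : ℝ)) ≤ l := by
    refine le_trans ?_ hsum
    apply sum_le_sum_of_subset_of_nonneg (filter_subset _ _)
    intro p _ _
    positivity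
  have hSL' := hSL (P.filter (fun p : ℕ => ¬ (p : ℤ) ∣ s1 ^ 2 + s2 ^ 2)) y l
    (fun _ => 1 / 2) Q r0.1 r0.2 (-((rho + r0.1) / (Q : ℤ))) (-((rho + r0.2) / (Q : ℤ)))
      (2 * rho / Q + 1) hP' hy hl hsum' hR
  have hom : ∀ r : ℤ × ℤ, (1 / 2 : ℝ) ^ (om P (s1 * r.1 - s2 * r.2) (s1 * r.2 + s2 * r.1)) =
      (1 / 2 : ℝ) ^ (P.filter (fun p : ℕ => (p : ℤ) ∣ s1 ^ 2 + s2 ^ 2)).card *
        wprod (P.filter (fun p : ℕ => ¬ (p : ℤ) ∣ s1 ^ 2 + s2 ^ 2)) (fun _ => 1 / 2) r.1 r.2 :=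
    fun r => inner_om P (fun p hp => (hP p hp).1) s1 s2 r.1 r.2
  calc ∑ r ∈ F, (1 / 2 : ℝ) ^ (om P (s1 * r.1 - s2 * r.2) (s1 * r.2 + s2 * r.1))
      ≤ ∑ r ∈ (cbox (-((rho + r0.1) / (Q : ℤ))) (-((rho + r0.2) / (Q : ℤ)))
            (2 * rho / Q + 1)).image
            (fun v : ℤ × ℤ => ((Q : ℤ) * v.1 + r0.1, (Q : ℤ) * v.2 + r0.2)),
        (1 / 2 : ℝ) ^ (om P (s1 * r.1 - s2 * r.2) (s1 * r.2 + s2 * r.1)) := by
        apply sum_le_sum_of_subset_of_nonneg hsub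
        intro r _ _
        positivity
    _ = ∑ v ∈ cbox (-((rho + r0.1) / (Q : ℤ))) (-((rho + r0.2) / (Q : ℤ)))
            (2 * rho / Q + 1), (1 / 2 : ℝ) ^ (P.filter (fun p : ℕ => (p : ℤ) ∣ s1 ^ 2 + s2 ^ 2)).card *
        wprod (P.filter (fun p : ℕ => ¬ (p : ℤ) ∣ s1 ^ 2 + s2 ^ 2)) (fun _ => 1 / 2)
          ((Q : ℤ) * v.1 + r0.1) ((Q : ℤ) * v.2 + r0.2) := by
        rw [sum_image (fun v hv v' hv' h => hinj v hv v' hv' h)]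
        apply sum_congr rfl
        intro v _
        exact hom _
    _ ≤ (1 / 2 : ℝ) ^ (P.filter (fun p : ℕ => (p : ℤ) ∣ s1 ^ 2 + s2 ^ 2)).card *
        (3 * ((2 * rho / Q + 1 : ℕ) : ℝ) ^ 2 * Real.exp (-(∑ p ∈
          P.filter (fun p : ℕ => ¬ (p : ℤ) ∣ s1 ^ 2 + s2 ^ 2), (1 / 2) * g p))) := by
        rw [← mul_sum]
        exact mul_le_mul_of_nonneg_left hSL' (by positivity)
    _ = 3 * ((2 * rho / Q + 1 : ℕ) : ℝ) ^ 2 * Real.exp (-(1 / 2) * ∑ p ∈ P, g p) *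
        ∏ p ∈ P.filter (fun p : ℕ => (p : ℤ) ∣ s1 ^ 2 + s2 ^ 2), (1 / 2 * Real.exp (g p / 2)) := by
        rw [prod_mul_distrib, prod_const, ← Real.exp_sum, ← mul_sum]
        have hsplit : ∑ p ∈ P, g p = ∑ p ∈ P.filter (fun p : ℕ => (p : ℤ) ∣ s1 ^ 2 + s2 ^ 2), g p
            + ∑ p ∈ P.filter (fun p : ℕ => ¬ (p : ℤ) ∣ s1 ^ 2 + s2 ^ 2), g p :=
          (sum_filter_add_sum_filter_not P _ _).symm
        rw [hsplit, ← sum_div]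
        generalize (∑ p ∈ P.filter (fun p : ℕ => (p : ℤ) ∣ s1 ^ 2 + s2 ^ 2), g p) = A
        generalize (∑ p ∈ P.filter (fun p : ℕ => ¬ (p : ℤ) ∣ s1 ^ 2 + s2 ^ 2), g p) = B
        have : Real.exp (-(1 / 2 * B)) = Real.exp (-(1 / 2) * (A + B)) * Real.exp (A / 2) := by
          rw [← Real.exp_add]; congr 1; ring
        rw [this]
        ring



end SINNER
end DD106
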