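import Mathlib
import Pool.Agent.H106DD.Defs

set_option autoImplicit false
open Finset

namespace DD106
namespace SLG

/-- first half of the linear gadget -/
noncomputable def lgE1 (S M D0 : ℕ) : Finset ℝ :=
  ((range M) ×ˢ (range S)).image
    (fun v : ℕ × ℕ => 2 * (v.1 : ℝ) + 2 * (v.2 : ℝ) / D0 - (8 * M + 8))

/-- second half of the linear gadget -/
noncomputable def lgE2 (S M D0 : ℕ) : Finset ℝ :=
  ((range M) ×ˢ (range S)).image
    (fun v : ℕ × ℕ => 2 * (v.1 : ℝ) + 2 * ((v.2 : ℝ) * S) / D0 + (8 * M + 8))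

theorem lg_nat {S D0 j j' b k l κ : ℕ} (hS : S ^ 2 ≤ D0) (hk : k < S) (hl : l < S)
    (hκ : κ < S ^ 2) (h : D0 * (j + j') + (k + l * S) = D0 * b + κ) :
    j + j' = b ∧ l = κ / S ∧ k = κ % S := by
  have h1 : k + l * S < S ^ 2 := by
    have : (l + 1) * S ≤ S * S := Nat.mul_le_mul_right S hl
    nlinarith
  have h2 : j + j' = b := by
    rcases lt_trichotomy (j + j') b with h3 | h3 | h3
    · exfalso
      have : D0 * (j + j' + 1) ≤ D0 * b := Nat.mul_le_mul_left D0 h3
      nlinarith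
    · exact h3
    · exfalso
      have : D0 * (b + 1) ≤ D0 * (j + j') := Nat.mul_le_mul_left D0 h3
      nlinarith
  have h3 : k + l * S = κ := by
    rw [h2] at h
    omega
  have hS0 : 0 < S := lt_of_le_of_lt (Nat.zero_le _) hk
  refine ⟨h2, ?_, ?_⟩
  · rw [← h3, Nat.add_mul_div_right _ _ hS0, Nat.div_eq_of_lt hk, zero_add]
  · rw [← h3, Nat.add_mul_mod_self_right, Nat.mod_eq_of_lt hk]

theorem lg_pair {S M D0 b κ : ℕ} (hS1 : 1 ≤ S) (hS : S ^ 2 ≤ D0) (hκ : κ < S ^ 2) {s s' : ℝ}
    (hs : s ∈ lgE1 S M D0) (hs' : s' ∈ lgE2 S M D0)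
    (h : s + s' = 2 * ((b : ℝ) + (κ : ℝ) / (D0 : ℝ))) :
    ∃ j' ≤ b, s' = 2 * (j' : ℝ) + 2 * (((κ / S : ℕ) : ℝ) * S) / D0 + (8 * M + 8) := by
  obtain ⟨⟨j, k⟩, hv, rfl⟩ := Finset.mem_image.1 hs
  obtain ⟨⟨j', l⟩, hv', rfl⟩ := Finset.mem_image.1 hs'
  rw [Finset.mem_product, Finset.mem_range, Finset.mem_range] at hv hv'
  have hD0 : 0 < D0 := lt_of_lt_of_le (by positivity) hS
  have hD : (D0 : ℝ) ≠ 0 := by positivity
  have h2 : ((D0 * (j + j') + (k + l * S) : ℕ) : ℝ) = ((D0 * b + κ : ℕ) : ℝ) := by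
    push_cast
    simp only at h
    field_simp at h
    linarith
  have h3 : D0 * (j + j') + (k + l * S) = D0 * b + κ := by exact_mod_cast h2
  obtain ⟨e1, e2, -⟩ := lg_nat hS hv.2 hv'.2 hκ h3
  refine ⟨j', by omega, ?_⟩
  have e3 : l = κ / S := e2
  simp only
  rw [← e3]

theorem lg_E1_lt {S M D0 : ℕ} (hS1 : 1 ≤ S) (hS : S ^ 2 ≤ D0) {s : ℝ}
    (hs : s ∈ lgE1 S M D0) : s < 0 := by
  obtain ⟨⟨j, k⟩, hv, rfl⟩ := Finset.mem_image.1 hs
  rw [Finset.mem_product, Finset.mem_range, Finset.mem_range] at hv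
  have hD0 : 0 < D0 := lt_of_lt_of_le (by positivity) hS
  have hD : (0 : ℝ) < D0 := by positivity
  have h1 : (j : ℝ) < M := by exact_mod_cast hv.1
  have h2 : (k : ℝ) ≤ D0 := by
    have h3 : k < S := hv.2
    have : k ≤ D0 := by nlinarith
    exact_mod_cast this
  have h3 : 2 * (k : ℝ) / D0 ≤ 2 := by
    rw [div_le_iff₀ hD]
    linarith
  simp only
  have hM0 : (0 : ℝ) ≤ M := by positivity
  linarith

theorem lg_E2_gt {S M D0 : ℕ} {s : ℝ} (hs : s ∈ lgE2 S M D0) : 8 * (M : ℝ) + 8 ≤ s := by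
  obtain ⟨⟨j, k⟩, hv, rfl⟩ := Finset.mem_image.1 hs
  have h1 : (0 : ℝ) ≤ 2 * (j : ℝ) + 2 * ((k : ℝ) * S) / D0 := by positivity
  simp only
  linarith

/-- TARGET: prove this. Do not change the definitions above. Helper lemmas may be added before it. -/
theorem LG_thm  : LG_stmt := by
  intro S M D0 hS1 hM1 hS
  have hD0 : 0 < D0 := lt_of_lt_of_le (by positivity) hS
  have hD : (D0 : ℝ) ≠ 0 := by positivity
  have hDp : (0 : ℝ) < D0 := by positivity
  refine ⟨lgE1 S M D0 ∪ lgE2 S M D0, ?_, ?_⟩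
  · refine (Finset.card_union_le _ _).trans ?_
    have h1 : (lgE1 S M D0).card ≤ M * S := by
      refine Finset.card_image_le.trans ?_
      rw [Finset.card_product, Finset.card_range, Finset.card_range]
    have h2 : (lgE2 S M D0).card ≤ M * S := by
      refine Finset.card_image_le.trans ?_
      rw [Finset.card_product, Finset.card_range, Finset.card_range]
    nlinarith
  · intro κ hκ b hb
    obtain ⟨u, hu⟩ : ∃ u : ℝ, u = (b : ℝ) + (κ : ℝ) / (D0 : ℝ) := ⟨_, rfl⟩
    rw [← hu]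
    have hu0 : 0 ≤ u := by rw [hu]; positivity
    have hu1 : u < M + 1 := by
      have h1 : (b : ℝ) < M := by exact_mod_cast hb
      have h2 : (κ : ℝ) / D0 < 1 := by
        rw [div_lt_one hDp]
        exact_mod_cast lt_of_lt_of_le hκ hS
      rw [hu]
      linarith
    obtain ⟨A, hA⟩ : ∃ A : Finset ℝ, A = (range (b + 1)).image (fun j' : ℕ =>
        2 * (j' : ℝ) + 2 * (((κ / S : ℕ) : ℝ) * S) / D0 + (8 * M + 8)) := ⟨_, rfl⟩
    have hκS : κ / S < S := by
      rw [Nat.div_lt_iff_lt_mul (by omega)]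
      rw [pow_two] at hκ
      exact hκ
    have hAcard : A.card = b + 1 := by
      rw [hA, Finset.card_image_of_injective, Finset.card_range]
      intro x y hxy
      have : (x : ℝ) = y := by
        simp only at hxy
        linarith
      exact_mod_cast this
    have hAE2 : A ⊆ lgE2 S M D0 := by
      intro s hs
      rw [hA] at hs
      obtain ⟨j', hj', rfl⟩ := Finset.mem_image.1 hs
      rw [Finset.mem_range] at hj'
      refine Finset.mem_image.2 ⟨(j', κ / S), ?_, rfl⟩
      rw [Finset.mem_product, Finset.mem_range, Finset.mem_range]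
      exact ⟨by show j' < M; omega, hκS⟩
    have hAE : A ⊆ lgE1 S M D0 ∪ lgE2 S M D0 := hAE2.trans Finset.subset_union_right
    have hpart : ∀ s ∈ A, 2 * u - s ∈ lgE1 S M D0 := by
      intro s hs
      rw [hA] at hs
      obtain ⟨j', hj', rfl⟩ := Finset.mem_image.1 hs
      rw [Finset.mem_range] at hj'
      refine Finset.mem_image.2 ⟨(b - j', κ % S), ?_, ?_⟩
      · rw [Finset.mem_product, Finset.mem_range, Finset.mem_range]
        exact ⟨by show b - j' < M; omega, Nat.mod_lt _ (by omega)⟩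
      · have h1 : ((b - j' : ℕ) : ℝ) = (b : ℝ) - j' := by
          rw [Nat.cast_sub (by omega)]
        have h2 : (κ : ℝ) = ((κ % S : ℕ) : ℝ) + ((κ / S : ℕ) : ℝ) * S := by
          have := Nat.mod_add_div κ S
          have h3 : ((κ % S + S * (κ / S) : ℕ) : ℝ) = κ := by rw [this]
          push_cast at h3
          linarith
        simp only
        rw [h1, hu, h2]
        field_simp
        ring
    have himg : (lgE1 S M D0 ∪ lgE2 S M D0).image (fun s => (s - u) ^ 2) =
        ((lgE1 S M D0 ∪ lgE2 S M D0) \ A).image (fun s => (s - u) ^ 2) := by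
      apply Finset.Subset.antisymm
      · intro y hy
        obtain ⟨s, hs, rfl⟩ := Finset.mem_image.1 hy
        by_cases hsA : s ∈ A
        · have h1 := hpart s hsA
          refine Finset.mem_image.2 ⟨2 * u - s, ?_, by ring⟩
          rw [Finset.mem_sdiff]
          refine ⟨Finset.mem_union_left _ h1, fun hcon => ?_⟩
          have h2 := lg_E1_lt hS1 hS h1
          have h3 := lg_E2_gt (hAE2 hcon)
          have hM0 : (0 : ℝ) ≤ M := by positivity
          linarith
        · exact Finset.mem_image.2 ⟨s, Finset.mem_sdiff.2 ⟨hs, hsA⟩, rfl⟩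
      · exact Finset.image_subset_image Finset.sdiff_subset
    have hkey : ∀ s ∈ lgE1 S M D0, ∀ s' ∈ lgE2 S M D0, s + s' = 2 * u → s' ∈ A := by
      intro s hs s' hs' h
      rw [hu] at h
      obtain ⟨j', hj', e⟩ := lg_pair hS1 hS hκ hs hs' h
      rw [hA]
      refine Finset.mem_image.2 ⟨j', ?_, e.symm⟩
      rw [Finset.mem_range]
      omega
    have hinj : Set.InjOn (fun s : ℝ => (s - u) ^ 2)
        (((lgE1 S M D0 ∪ lgE2 S M D0) \ A : Finset ℝ) : Set ℝ) := by
      intro s hs s' hs' h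
      rw [Finset.mem_coe, Finset.mem_sdiff, Finset.mem_union] at hs hs'
      simp only at h
      rcases sq_eq_sq_iff_eq_or_eq_neg.1 h with h1 | h1
      · linarith
      · exfalso
        have h2 : s + s' = 2 * u := by linarith
        have hM0 : (0 : ℝ) ≤ M := by positivity
        rcases hs.1 with h3 | h3 <;> rcases hs'.1 with h4 | h4
        · have := lg_E1_lt hS1 hS h3
          have := lg_E1_lt hS1 hS h4
          linarith
        · exact hs'.2 (hkey s h3 s' h4 h2)
        · exact hs.2 (hkey s' h4 s h3 (by linarith))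
        · have := lg_E2_gt h3
          have := lg_E2_gt h4
          linarith
    rw [himg, Finset.card_image_of_injOn hinj, ← hAcard]
    exact Finset.card_sdiff_add_card_eq_card hAE



end SLG
end DD106
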