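import Mathlib
import Pool.Agent.H106DD.Defs

set_option autoImplicit false
open Finset

namespace DD106
namespace SMANY


theorem j13221_asym (C1 C2 eta eps : ℝ) (hC1 : 0 < C1) (hC2 : 0 < C2) (heta : 0 < eta) (heps : 0 < eps) :
    ∃ l0 : ℝ, ∀ l : ℝ, l0 ≤ l → 3 ≤ l ∧ ∀ A : ℝ, Real.exp l / l ^ 2 ≤ C1 * l * Real.exp A →
      1 ≤ A ∧ 64 / (eta ^ 2 * eps) ≤ A ∧ C2 * l ^ 4 * (2 : ℝ) ^ (-(eta / 2) * A) ≤ eps / 2 := by
  have hlog2 : 0 < Real.log 2 := Real.log_pos (by norm_num)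
  set c : ℝ := eta / 4 * Real.log 2 with hc
  have hcpos : 0 < c := by positivity
  have h1 : Filter.Tendsto (fun l : ℝ => C1 * (8 * ((l / 2) ^ 3 * Real.exp (-(l / 2))))) Filter.atTop (nhds (C1 * (8 * 0))) :=
    ((((Real.tendsto_pow_mul_exp_neg_atTop_nhds_zero 3).comp
      (Filter.tendsto_id.atTop_div_const (by norm_num : (0 : ℝ) < 2)))).const_mul 8).const_mul C1
  have h2 : Filter.Tendsto (fun l : ℝ => C2 * ((1 / c ^ 4) * ((l * c) ^ 4 * Real.exp (-(l * c))))) Filter.atTop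
      (nhds (C2 * ((1 / c ^ 4) * 0))) :=
    ((((Real.tendsto_pow_mul_exp_neg_atTop_nhds_zero 4).comp
      (Filter.tendsto_id.atTop_mul_const hcpos))).const_mul (1 / c ^ 4)).const_mul C2
  rw [mul_zero, mul_zero] at h1 h2
  have e1 := h1.eventually (gt_mem_nhds (by norm_num : (0 : ℝ) < 1))
  have e2 := h2.eventually (gt_mem_nhds (by positivity : (0 : ℝ) < eps / 2))
  have e3 := Filter.eventually_ge_atTop (3 : ℝ)
  have e4 := Filter.eventually_ge_atTop (2 * (64 / (eta ^ 2 * eps)))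
  obtain ⟨l0, hl0⟩ := Filter.eventually_atTop.mp (e1.and (e2.and (e3.and e4)))
  refine ⟨l0, fun l hl => ?_⟩
  obtain ⟨g1, g2, g3, g4⟩ := hl0 l hl
  refine ⟨g3, fun A hA => ?_⟩
  have hl : 0 < l := by linarith
  have hA1 : l / 2 ≤ A := by
    have k1 : C1 * l ^ 3 < Real.exp (l / 2) := by
      have : C1 * (8 * ((l / 2) ^ 3 * Real.exp (-(l / 2)))) = C1 * l ^ 3 * Real.exp (-(l / 2)) := by ring
      rw [this, Real.exp_neg, ← div_eq_mul_inv, div_lt_one (Real.exp_pos _)] at g1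
      exact g1
    have k2 : Real.exp l ≤ C1 * l ^ 3 * Real.exp A := by
      rw [div_le_iff₀ (by positivity)] at hA
      calc Real.exp l ≤ C1 * l * Real.exp A * l ^ 2 := hA
        _ = C1 * l ^ 3 * Real.exp A := by ring
    have k3 : Real.exp l < Real.exp (l / 2) * Real.exp A :=
      lt_of_le_of_lt k2 (mul_lt_mul_of_pos_right k1 (Real.exp_pos _))
    rw [← Real.exp_add, Real.exp_lt_exp] at k3
    linarith
  refine ⟨by linarith, by linarith, ?_⟩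
  have k4 : (2 : ℝ) ^ (-(eta / 2) * A) ≤ Real.exp (-(l * c)) := by
    rw [Real.rpow_def_of_pos (by norm_num), Real.exp_le_exp, hc]
    have : Real.log 2 * (eta / 2) * (l / 2) ≤ Real.log 2 * (eta / 2) * A :=
      mul_le_mul_of_nonneg_left hA1 (by positivity)
    nlinarith
  have k5 : C2 * ((1 / c ^ 4) * ((l * c) ^ 4 * Real.exp (-(l * c)))) = C2 * l ^ 4 * Real.exp (-(l * c)) := by
    field_simp
  rw [k5] at g2
  calc C2 * l ^ 4 * (2 : ℝ) ^ (-(eta / 2) * A) ≤ C2 * l ^ 4 * Real.exp (-(l * c)) :=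
        mul_le_mul_of_nonneg_left k4 (by positivity)
    _ ≤ eps / 2 := g2.le

theorem j13221_box (M : ℕ) (hM : 1 ≤ M) : obox M = cbox (-(M : ℤ) + 1) (-(M : ℤ) + 1) (2 * M - 1) := by
  unfold obox cbox
  have h : ((2 * M - 1 : ℕ) : ℤ) = 2 * (M : ℤ) - 1 := by omega
  have e : Ioo (-(M : ℤ)) M = Ico (-(M : ℤ) + 1) (-(M : ℤ) + 1 + ((2 * M - 1 : ℕ) : ℤ)) := by
    ext x
    rw [mem_Ioo, mem_Ico, h]
    omega
  rw [e]

/-- the index set of factorizations -/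
noncomputable def j13221_idx (Q D M : ℕ) (w1 w2 : ℤ) : Finset (Σ _ : ℤ × ℤ, ℤ × ℤ) :=
  ((sq (2 * Q * D * M)).filter (fun s => LL Q s ∧ (Q : ℤ) ^ 2 ≤ 4 * (s.1 ^ 2 + s.2 ^ 2))).sigma
    (fun s => rset Q D M w1 w2 s)

theorem j13221_mem_sq {B : ℕ} {s : ℤ × ℤ} (h : s.1 ^ 2 + s.2 ^ 2 ≤ 2 * (B : ℤ) ^ 2) : s ∈ sq (2 * B) := by
  unfold sq
  rw [mem_product, mem_Icc, mem_Icc]
  have hB : (0 : ℤ) ≤ B := Int.natCast_nonneg B
  have h1 : |s.1| ≤ |2 * (B : ℤ)| := sq_le_sq.mp (by nlinarith [sq_nonneg s.2])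
  have h2 : |s.2| ≤ |2 * (B : ℤ)| := sq_le_sq.mp (by nlinarith [sq_nonneg s.1])
  rw [abs_of_nonneg (by linarith : (0 : ℤ) ≤ 2 * (B : ℤ))] at h1 h2
  have h3 := abs_le.mp h1
  have h4 := abs_le.mp h2
  push_cast
  exact ⟨h3, h4⟩

/-- a factorization of a nonunique value -/
theorem j13221_fact (hPAIR : PAIR_stmt) (Q D M : ℕ) (w1 w2 : ℤ) (hQ : Q % 2 = 1) (hD : 1 < D) (hD2 : D % 2 = 1)
    (hw1 : |w1| ≤ ((Q * D : ℕ) : ℤ)) (hw2 : |w2| ≤ ((Q * D : ℕ) : ℤ))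
    (h1 : (Q : ℤ) ∣ w2) (h2 : IsCoprime w1 (Q : ℤ)) (h3 : (D : ℤ) ∣ w1) (h4 : IsCoprime w2 (D : ℤ))
    (v : ℤ × ℤ) (hv : v ∈ obox M) (v' : ℤ × ℤ) (hv' : v' ∈ obox M) (hne : v' ≠ v)
    (he : (((Q * D : ℕ) : ℤ) * v'.1 + w1) ^ 2 + (((Q * D : ℕ) : ℤ) * v'.2 + w2) ^ 2 =
        (((Q * D : ℕ) : ℤ) * v.1 + w1) ^ 2 + (((Q * D : ℕ) : ℤ) * v.2 + w2) ^ 2) :
    ∃ p : Σ _ : ℤ × ℤ, ℤ × ℤ, p ∈ j13221_idx Q D M w1 w2 ∧
      ((Q * D : ℕ) : ℤ) * v.1 + w1 = p.1.1 * p.2.1 - p.1.2 * p.2.2 ∧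
      ((Q * D : ℕ) : ℤ) * v.2 + w2 = p.1.1 * p.2.2 + p.1.2 * p.2.1 := by
  have hQ0 : 0 < Q := by omega
  set K : ℤ := ((Q * D : ℕ) : ℤ) with hK
  have hKpos : 0 < K := by rw [hK]; exact_mod_cast Nat.mul_pos hQ0 (by omega)
  set x := K * v.1 + w1 with hx
  set y := K * v.2 + w2 with hy
  have hneq : (x, y) ≠ (K * v'.1 + w1, K * v'.2 + w2) := by
    intro h
    rw [Prod.mk.injEq] at h
    apply hne
    have a1 : K * v.1 = K * v'.1 := by linarith [h.1]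
    have a2 : K * v.2 = K * v'.2 := by linarith [h.2]
    have b1 := mul_left_cancel₀ hKpos.ne' a1
    have b2 := mul_left_cancel₀ hKpos.ne' a2
    exact Prod.ext b1.symm b2.symm
  obtain ⟨s, r, hsx, hsy, hLL, hsQ, hsr⟩ := hPAIR Q D x y (K * v'.1 + w1) (K * v'.2 + w2) w1 w2 hQ0 hD hD2
    ⟨v.1, by rw [hx]; ring⟩ ⟨v.2, by rw [hy]; ring⟩ ⟨v'.1, by ring⟩ ⟨v'.2, by ring⟩ h1 h2 h3 h4 hneq he.symm
  have hQD : (Q : ℤ) ∣ K := by rw [hK]; push_cast; exact Dvd.intro _ rfl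
  have hvb : |v.1| ≤ (M : ℤ) - 1 ∧ |v.2| ≤ (M : ℤ) - 1 := by
    unfold obox at hv
    rw [mem_product, mem_Ioo, mem_Ioo] at hv
    exact ⟨abs_le.mpr ⟨by omega, by omega⟩, abs_le.mpr ⟨by omega, by omega⟩⟩
  have hxb : |x| ≤ K * M := by
    calc |x| ≤ |K * v.1| + |w1| := abs_add_le _ _
      _ = K * |v.1| + |w1| := by rw [abs_mul, abs_of_pos hKpos]
      _ ≤ K * (M - 1) + K := add_le_add (mul_le_mul_of_nonneg_left hvb.1 hKpos.le) hw1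
      _ = K * M := by ring
  have hyb : |y| ≤ K * M := by
    calc |y| ≤ |K * v.2| + |w2| := abs_add_le _ _
      _ = K * |v.2| + |w2| := by rw [abs_mul, abs_of_pos hKpos]
      _ ≤ K * (M - 1) + K := add_le_add (mul_le_mul_of_nonneg_left hvb.2 hKpos.le) hw2
      _ = K * M := by ring
  have hKM : 0 ≤ K * M := le_trans (abs_nonneg _) hxb
  have hx2 : x ^ 2 ≤ (K * M) ^ 2 := sq_le_sq.mpr (by rw [abs_of_nonneg hKM]; exact hxb)
  have hy2 : y ^ 2 ≤ (K * M) ^ 2 := sq_le_sq.mpr (by rw [abs_of_nonneg hKM]; exact hyb)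
  have hprod : (s.1 ^ 2 + s.2 ^ 2) * (r.1 ^ 2 + r.2 ^ 2) = x ^ 2 + y ^ 2 := by rw [hsx, hsy]; ring
  have hKMe : K * M = ((Q * D * M : ℕ) : ℤ) := by rw [hK]; push_cast; ring
  have hprod2 : (s.1 ^ 2 + s.2 ^ 2) * (r.1 ^ 2 + r.2 ^ 2) ≤ 2 * ((Q * D * M : ℕ) : ℤ) ^ 2 := by
    rw [hprod, ← hKMe]; linarith
  have hs1 : 1 ≤ s.1 ^ 2 + s.2 ^ 2 := by
    have : (1 : ℤ) ≤ (Q : ℤ) ^ 2 := by
      have : (1 : ℤ) ≤ Q := by exact_mod_cast hQ0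
      nlinarith
    by_contra hcon
    have : s.1 ^ 2 + s.2 ^ 2 ≤ 0 := by omega
    linarith
  have hr1 : 1 ≤ r.1 ^ 2 + r.2 ^ 2 := le_trans hs1 hsr
  have hsle : s.1 ^ 2 + s.2 ^ 2 ≤ 2 * ((Q * D * M : ℕ) : ℤ) ^ 2 :=
    le_trans (le_mul_of_one_le_right (by linarith) hr1) hprod2
  have hrle : r.1 ^ 2 + r.2 ^ 2 ≤ 2 * ((Q * D * M : ℕ) : ℤ) ^ 2 :=
    le_trans (le_mul_of_one_le_left (by linarith) hs1) hprod2
  have e2 : 2 * (Q * D * M) = 2 * Q * D * M := by ring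
  have hsq := j13221_mem_sq hsle
  have hrq := j13221_mem_sq hrle
  rw [e2] at hsq hrq
  refine ⟨⟨s, r⟩, ?_, hsx, hsy⟩
  unfold j13221_idx
  rw [mem_sigma]
  refine ⟨mem_filter.mpr ⟨hsq, hLL hQ, hsQ⟩, ?_⟩
  unfold rset
  refine mem_filter.mpr ⟨hrq, hsr, hprod2, ?_, ?_⟩
  · show (Q : ℤ) ∣ s.1 * r.1 - s.2 * r.2 - w1
    rw [← hsx, hx]
    have : K * v.1 + w1 - w1 = K * v.1 := by ring
    rw [this]; exact Dvd.dvd.mul_right hQD _
  · show (Q : ℤ) ∣ s.1 * r.2 + s.2 * r.1 - w2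
    rw [← hsy, hy]
    have : K * v.2 + w2 - w2 = K * v.2 := by ring
    rw [this]; exact Dvd.dvd.mul_right hQD _

/-- counting typical nonunique values -/
theorem j13221_typ (Q D M : ℕ) (w1 w2 : ℤ) (P : Finset ℕ) (hK : 0 < Q * D) (T : ℝ) (St : Finset (ℤ × ℤ))
    (hT : ∀ v ∈ St, (om P (((Q * D : ℕ) : ℤ) * v.1 + w1) (((Q * D : ℕ) : ℤ) * v.2 + w2) : ℝ) ≤ T)
    (hf : ∀ v ∈ St, ∃ p : Σ _ : ℤ × ℤ, ℤ × ℤ, p ∈ j13221_idx Q D M w1 w2 ∧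
      ((Q * D : ℕ) : ℤ) * v.1 + w1 = p.1.1 * p.2.1 - p.1.2 * p.2.2 ∧
      ((Q * D : ℕ) : ℤ) * v.2 + w2 = p.1.1 * p.2.2 + p.1.2 * p.2.1) :
    (St.card : ℝ) * (2 : ℝ) ^ (-T) ≤
      ∑ s ∈ (sq (2 * Q * D * M)).filter (fun s => LL Q s ∧ (Q : ℤ) ^ 2 ≤ 4 * (s.1 ^ 2 + s.2 ^ 2)),
        ∑ r ∈ rset Q D M w1 w2 s, (1 / 2 : ℝ) ^ (om P (s.1 * r.1 - s.2 * r.2) (s.1 * r.2 + s.2 * r.1)) := by
  classical
  have hK' : (0 : ℤ) < ((Q * D : ℕ) : ℤ) := by exact_mod_cast hK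
  rw [Finset.sum_sigma']
  let φ : ℤ × ℤ → (Σ _ : ℤ × ℤ, ℤ × ℤ) := fun v => if h : v ∈ St then (hf v h).choose else ⟨(0, 0), (0, 0)⟩
  have hφ : ∀ v ∈ St, φ v ∈ j13221_idx Q D M w1 w2 ∧
      ((Q * D : ℕ) : ℤ) * v.1 + w1 = (φ v).1.1 * (φ v).2.1 - (φ v).1.2 * (φ v).2.2 ∧
      ((Q * D : ℕ) : ℤ) * v.2 + w2 = (φ v).1.1 * (φ v).2.2 + (φ v).1.2 * (φ v).2.1 := by
    intro v hv
    have : φ v = (hf v hv).choose := by simp only [φ, dif_pos hv]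
    rw [this]
    exact (hf v hv).choose_spec
  have hinj : Set.InjOn φ (St : Set (ℤ × ℤ)) := by
    intro v hv v' hv' h
    obtain ⟨-, a1, a2⟩ := hφ v hv
    obtain ⟨-, b1, b2⟩ := hφ v' hv'
    rw [h, ← b1] at a1
    rw [h, ← b2] at a2
    have c1 := mul_left_cancel₀ hK'.ne' (add_right_cancel a1)
    have c2 := mul_left_cancel₀ hK'.ne' (add_right_cancel a2)
    exact Prod.ext c1 c2
  have hle : ∑ v ∈ St, (1 / 2 : ℝ) ^ (om P ((φ v).1.1 * (φ v).2.1 - (φ v).1.2 * (φ v).2.2)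
      ((φ v).1.1 * (φ v).2.2 + (φ v).1.2 * (φ v).2.1)) ≤
      ∑ p ∈ j13221_idx Q D M w1 w2, (1 / 2 : ℝ) ^ (om P (p.1.1 * p.2.1 - p.1.2 * p.2.2) (p.1.1 * p.2.2 + p.1.2 * p.2.1)) := by
    rw [← Finset.sum_image (f := fun p : (Σ _ : ℤ × ℤ, ℤ × ℤ) =>
      (1 / 2 : ℝ) ^ (om P (p.1.1 * p.2.1 - p.1.2 * p.2.2) (p.1.1 * p.2.2 + p.1.2 * p.2.1))) hinj]
    refine Finset.sum_le_sum_of_subset_of_nonneg ?_ (fun p _ _ => by positivity)
    intro p hp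
    obtain ⟨v, hv, rfl⟩ := Finset.mem_image.mp hp
    exact (hφ v hv).1
  refine le_trans ?_ hle
  rw [← nsmul_eq_mul, ← Finset.sum_const]
  refine Finset.sum_le_sum (fun v hv => ?_)
  obtain ⟨-, a1, a2⟩ := hφ v hv
  rw [← a1, ← a2]
  have h1 := hT v hv
  rw [one_div, inv_pow, ← Real.rpow_natCast, ← Real.rpow_neg (by norm_num)]
  exact Real.rpow_le_rpow_of_exponent_le (by norm_num) (neg_le_neg h1)

/-- counting atypical values -/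
theorem j13221_atyp (hTU : TU_stmt) (Q D M : ℕ) (w1 w2 : ℤ) (P : Finset ℕ) (Y A eta : ℝ) (hM : 1 ≤ M)
    (hP : ∀ p ∈ P, P1 p ∧ ¬ (p : ℤ) ∣ ((Q * D : ℕ) : ℤ) ∧ (p : ℝ) ≤ Y) (hY : 2 ≤ Y)
    (hYM : Y ^ 8 ≤ (M : ℝ)) (hG : ∑ p ∈ P, g p ≤ A) (hA : 1 ≤ A) (heta : 0 < eta) :
    (((obox M).filter (fun v : ℤ × ℤ => (1 + eta / 2) * A <
      (om P (((Q * D : ℕ) : ℤ) * v.1 + w1) (((Q * D : ℕ) : ℤ) * v.2 + w2) : ℝ))).card : ℝ) * (eta / 2 * A) ^ 2 ≤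
      8 * (M : ℝ) ^ 2 * A := by
  have hR : (M : ℝ) ≤ ((2 * M - 1 : ℕ) : ℝ) := by exact_mod_cast (by omega : M ≤ 2 * M - 1)
  have hR2 : ((2 * M - 1 : ℕ) : ℝ) ≤ 2 * M := by
    have : ((2 * M - 1 : ℕ) : ℝ) ≤ ((2 * M : ℕ) : ℝ) := by exact_mod_cast (by omega : 2 * M - 1 ≤ 2 * M)
    push_cast at this; exact this
  have h := hTU P Y ((Q * D : ℕ) : ℤ) w1 w2 (-(M : ℤ) + 1) (-(M : ℤ) + 1) (2 * M - 1) hP hY (le_trans hYM hR)
  rw [← j13221_box M hM] at h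
  have h1 : (((obox M).filter (fun v : ℤ × ℤ => (1 + eta / 2) * A <
      (om P (((Q * D : ℕ) : ℤ) * v.1 + w1) (((Q * D : ℕ) : ℤ) * v.2 + w2) : ℝ))).card : ℝ) * (eta / 2 * A) ^ 2 ≤
      ∑ v ∈ obox M, ((om P (((Q * D : ℕ) : ℤ) * v.1 + w1) (((Q * D : ℕ) : ℤ) * v.2 + w2) : ℝ) - ∑ p ∈ P, g p) ^ 2 := by
    rw [← nsmul_eq_mul, ← Finset.sum_const]
    refine le_trans (Finset.sum_le_sum (fun v hv => ?_))
      (Finset.sum_le_sum_of_subset_of_nonneg (Finset.filter_subset _ _) (fun v _ _ => sq_nonneg _))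
    have h2 := (Finset.mem_filter.mp hv).2
    have h3 : eta / 2 * A ≤ (om P (((Q * D : ℕ) : ℤ) * v.1 + w1) (((Q * D : ℕ) : ℤ) * v.2 + w2) : ℝ) - ∑ p ∈ P, g p := by
      nlinarith
    exact pow_le_pow_left₀ (by positivity) h3 2
  refine le_trans h1 (le_trans h ?_)
  have h4 : ((2 * M - 1 : ℕ) : ℝ) ^ 2 ≤ (2 * M) ^ 2 := pow_le_pow_left₀ (by positivity) hR2 2
  have h5 : (∑ p ∈ P, g p) + 1 ≤ 2 * A := by linarith
  calc ((2 * M - 1 : ℕ) : ℝ) ^ 2 * ((∑ p ∈ P, g p) + 1) ≤ ((2 * M - 1 : ℕ) : ℝ) ^ 2 * (2 * A) :=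
        mul_le_mul_of_nonneg_left h5 (by positivity)
    _ ≤ (2 * M) ^ 2 * (2 * A) := mul_le_mul_of_nonneg_right h4 (by positivity)
    _ = 8 * (M : ℝ) ^ 2 * A := by ring

theorem j13221_G (P : Finset ℕ) : ∑ p ∈ P, g p ≤ ∑ p ∈ P, 2 / (p : ℝ) := by
  refine Finset.sum_le_sum (fun p _ => ?_)
  unfold g
  rcases Nat.eq_zero_or_pos p with rfl | hp
  · simp
  · have hp' : (0 : ℝ) < p := by exact_mod_cast hp
    rw [div_le_div_iff₀ (by positivity) hp']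
    nlinarith

/-- TARGET: prove this. Do not change the definitions above. Helper lemmas may be added before it. -/
theorem MANY_thm (hTU : TU_stmt) (hPAIR : PAIR_stmt) (hMSUM : MSUM_stmt) : MANY_stmt := by
  classical
  intro C1 eta eps D hC1 heta heta1 heps hD hD2
  obtain ⟨C2, M1, hC2, hMS⟩ := hMSUM C1 D hC1 (by omega)
  obtain ⟨l0, hl0⟩ := j13221_asym C1 C2 eta eps hC1 hC2 heta heps
  have htend : Filter.Tendsto (fun M : ℕ => Real.log (Real.log (M : ℝ))) Filter.atTop Filter.atTop :=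
    Real.tendsto_log_atTop.comp (Real.tendsto_log_atTop.comp tendsto_natCast_atTop_atTop)
  obtain ⟨M2, hM2⟩ := Filter.eventually_atTop.mp (htend.eventually (Filter.eventually_ge_atTop l0))
  refine ⟨max (max M1 M2) 3, fun M hM P hP Q w1 w2 hQ hPD hQl hQu hw1 hw2 h1 h2 h3 h4 => ?_⟩
  have hMM1 : M1 ≤ M := le_trans (le_trans (le_max_left _ _) (le_max_left _ _)) hM
  have hMM2 : M2 ≤ M := le_trans (le_trans (le_max_right _ _) (le_max_left _ _)) hM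
  have hM3 : 3 ≤ M := le_trans (le_max_right _ _) hM
  set L := Real.log (M : ℝ) with hL
  set l := Real.log L with hl
  obtain ⟨hl3, hA'⟩ := hl0 l (hM2 M hMM2)
  set A := ∑ p ∈ P, 2 / (p : ℝ) with hA
  have hMpos : (0 : ℝ) < M := by exact_mod_cast (by omega : 0 < M)
  have hLpos : 0 < L := Real.log_pos (by exact_mod_cast (by omega : 1 < M))
  have hLexp : Real.exp l = L := Real.exp_log hLpos
  have hl0' : 0 < l := by linarith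
  set Y := Real.exp (L / l ^ 2) with hYdef
  have hll : (8 : ℝ) ≤ l ^ 2 := by nlinarith
  -- `L ≥ l ^ 2`
  have hLl : l ^ 2 ≤ L := by
    rw [← hLexp]
    have := Real.quadratic_le_exp_of_nonneg hl0'.le
    have h3 : 1 + l + l ^ 2 / 2 ≤ Real.exp l := this
    have hcub : l ^ 3 / 6 + l ^ 2 / 2 ≤ Real.exp l := by
      have hs := Real.sum_le_exp_of_nonneg hl0'.le 4
      simp only [Finset.sum_range_succ, Finset.sum_range_zero, Nat.factorial] at hs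
      norm_num at hs
      nlinarith
    nlinarith
  have hY2 : 2 ≤ Y := by
    rw [hYdef]
    have : 1 ≤ L / l ^ 2 := (one_le_div (by positivity)).mpr hLl
    have h5 := Real.add_one_le_exp (L / l ^ 2)
    linarith
  have hY8 : Y ^ 8 ≤ (M : ℝ) := by
    rw [hYdef, ← Real.exp_nat_mul]
    have h6 : ((8 : ℕ) : ℝ) * (L / l ^ 2) ≤ L := by
      rw [← mul_div_assoc, div_le_iff₀ (by positivity)]
      push_cast
      nlinarith
    calc Real.exp (((8 : ℕ) : ℝ) * (L / l ^ 2)) ≤ Real.exp L := Real.exp_le_exp.mpr h6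
      _ = M := Real.exp_log hMpos
  obtain ⟨hP1, hP2, hP3⟩ := hP
  have hfil : P.filter (fun p : ℕ => (p : ℝ) ≤ Y) = P := Finset.filter_true_of_mem (fun p hp => (hP1 p hp).2)
  have hkey := hP3 Y hY2 (le_refl _)
  rw [hfil, hYdef, Real.log_exp, ← hA] at hkey
  rw [← hLexp] at hkey
  have hkey' : Real.exp l / l ^ 2 ≤ C1 * l * Real.exp A := hkey
  obtain ⟨hA1, hA2, hA3⟩ := hA' A hkey'
  have hQ0 : 0 < Q := by omega
  have hK : 0 < Q * D := Nat.mul_pos hQ0 (by omega)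
  have hnd : ∀ p ∈ P, ¬ (p : ℤ) ∣ ((Q * D : ℕ) : ℤ) := by
    intro p hp hdvd
    have hdvd' : p ∣ Q * D := by exact_mod_cast hdvd
    rcases (hP1 p hp).1.1.dvd_mul.mp hdvd' with h | h
    · exact (hPD p hp).2 h
    · exact (hPD p hp).1 h
  -- the two parts
  set bad := (obox M).filter (fun v : ℤ × ℤ => ∃ v' ∈ obox M, v' ≠ v ∧
        (((Q * D : ℕ) : ℤ) * v'.1 + w1) ^ 2 + (((Q * D : ℕ) : ℤ) * v'.2 + w2) ^ 2 =
        (((Q * D : ℕ) : ℤ) * v.1 + w1) ^ 2 + (((Q * D : ℕ) : ℤ) * v.2 + w2) ^ 2) with hbad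
  set Sa := (obox M).filter (fun v : ℤ × ℤ => (1 + eta / 2) * A <
      (om P (((Q * D : ℕ) : ℤ) * v.1 + w1) (((Q * D : ℕ) : ℤ) * v.2 + w2) : ℝ)) with hSa
  set St := bad.filter (fun v : ℤ × ℤ =>
      (om P (((Q * D : ℕ) : ℤ) * v.1 + w1) (((Q * D : ℕ) : ℤ) * v.2 + w2) : ℝ) ≤ (1 + eta / 2) * A) with hSt
  have hsub : bad ⊆ Sa ∪ St := by
    intro v hv
    rw [Finset.mem_union]
    by_cases h : (om P (((Q * D : ℕ) : ℤ) * v.1 + w1) (((Q * D : ℕ) : ℤ) * v.2 + w2) : ℝ) ≤ (1 + eta / 2) * A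
    · right; exact Finset.mem_filter.mpr ⟨hv, h⟩
    · left; exact Finset.mem_filter.mpr ⟨(Finset.mem_filter.mp hv).1, not_le.mp h⟩
  have hcard : (bad.card : ℝ) ≤ Sa.card + St.card := by
    have := (Finset.card_le_card hsub).trans (Finset.card_union_le _ _)
    exact_mod_cast this
  have hSa' : (Sa.card : ℝ) ≤ eps / 2 * (M : ℝ) ^ 2 := by
    have h5 := j13221_atyp hTU Q D M w1 w2 P Y A eta (by omega) (fun p hp => ⟨(hP1 p hp).1, hnd p hp, (hP1 p hp).2⟩)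
      hY2 hY8 (j13221_G P) hA1 heta
    rw [← hSa] at h5
    have hpos : 0 < (eta / 2 * A) ^ 2 := by positivity
    have h6 : 8 * (M : ℝ) ^ 2 * A ≤ (eps / 2 * (M : ℝ) ^ 2) * (eta / 2 * A) ^ 2 := by
      rw [div_le_iff₀ (by positivity)] at hA2
      have h7 : (0 : ℝ) ≤ (M : ℝ) ^ 2 * A := by positivity
      have h8 : 8 * (M : ℝ) ^ 2 * A * 8 = (M : ℝ) ^ 2 * A * 64 := by ring
      have h9 : (eps / 2 * (M : ℝ) ^ 2) * (eta / 2 * A) ^ 2 * 8 = (M : ℝ) ^ 2 * A * (A * (eta ^ 2 * eps)) := by ring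
      have h10 := mul_le_mul_of_nonneg_left hA2 h7
      nlinarith
    exact le_of_mul_le_mul_right (le_trans h5 h6) hpos
  have hSt' : (St.card : ℝ) ≤ eps / 2 * (M : ℝ) ^ 2 := by
    have h5 := j13221_typ Q D M w1 w2 P hK ((1 + eta / 2) * A) St
      (fun v hv => (Finset.mem_filter.mp hv).2) (fun v hv => by
        have h6 := Finset.mem_filter.mp (Finset.mem_filter.mp hv).1
        obtain ⟨v', hv', hne, he⟩ := h6.2
        exact j13221_fact hPAIR Q D M w1 w2 hQ hD hD2 hw1 hw2 h1 h2 h3 h4 v h6.1 v' hv' hne he)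
    have hcop : IsCoprime (w1 ^ 2 + w2 ^ 2) (Q : ℤ) := by
      obtain ⟨k, hk⟩ := h1
      have : w1 ^ 2 + w2 ^ 2 = w1 ^ 2 + (Q : ℤ) * (k * w2) := by rw [hk]; ring
      rw [this]
      exact (h2.pow_left).add_mul_left_left _
    have h6 := hMS M hMM1 P ⟨hP1, hP2, hP3⟩ Q w1 w2 hQ0 (fun p hp => (hPD p hp).2) hQu hcop
    have h7 := le_trans h5 h6
    have hQpos : (0 : ℝ) < Q := by exact_mod_cast hQ0
    have h2pos : (0 : ℝ) < (2 : ℝ) ^ (-((1 + eta / 2) * A)) := Real.rpow_pos_of_pos (by norm_num) _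
    have h8 : C2 * l ^ 4 * (M : ℝ) ^ 2 / Q ≤ (eps / 2 * (M : ℝ) ^ 2) * (2 : ℝ) ^ (-((1 + eta / 2) * A)) := by
      rw [div_le_iff₀ hQpos]
      have h9 : (2 : ℝ) ^ (-((1 + eta / 2) * A)) * (2 : ℝ) ^ ((1 + eta) * A) = (2 : ℝ) ^ (eta / 2 * A) := by
        rw [← Real.rpow_add (by norm_num)]
        congr 1; ring
      have h10 : (2 : ℝ) ^ (-(eta / 2) * A) * (2 : ℝ) ^ (eta / 2 * A) = 1 := by
        rw [← Real.rpow_add (by norm_num)]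
        have : -(eta / 2) * A + eta / 2 * A = 0 := by ring
        rw [this, Real.rpow_zero]
      have h11 : C2 * l ^ 4 ≤ eps / 2 * (2 : ℝ) ^ (eta / 2 * A) := by
        have := mul_le_mul_of_nonneg_right hA3 (Real.rpow_pos_of_pos (by norm_num : (0 : ℝ) < 2) (eta / 2 * A)).le
        rwa [mul_assoc, h10, mul_one] at this
      calc C2 * l ^ 4 * (M : ℝ) ^ 2 ≤ eps / 2 * (2 : ℝ) ^ (eta / 2 * A) * (M : ℝ) ^ 2 :=
            mul_le_mul_of_nonneg_right h11 (by positivity)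
        _ = (eps / 2 * (M : ℝ) ^ 2) * ((2 : ℝ) ^ (-((1 + eta / 2) * A)) * (2 : ℝ) ^ ((1 + eta) * A)) := by rw [h9]; ring
        _ ≤ (eps / 2 * (M : ℝ) ^ 2) * ((2 : ℝ) ^ (-((1 + eta / 2) * A)) * Q) := by
            refine mul_le_mul_of_nonneg_left (mul_le_mul_of_nonneg_left hQl h2pos.le) (by positivity)
        _ = (eps / 2 * (M : ℝ) ^ 2) * (2 : ℝ) ^ (-((1 + eta / 2) * A)) * Q := by ring
    exact le_of_mul_le_mul_right (le_trans h7 h8) h2pos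
  calc (bad.card : ℝ) ≤ Sa.card + St.card := hcard
    _ ≤ eps / 2 * (M : ℝ) ^ 2 + eps / 2 * (M : ℝ) ^ 2 := add_le_add hSa' hSt'
    _ = eps * (M : ℝ) ^ 2 := by ring



end SMANY
end DD106
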