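import Mathlib
import Pool.Agent.H106DD.Defs

set_option autoImplicit false
open Finset

namespace DD106
namespace SML

open ArithmeticFunction in
/-- `χ₄(n)/n` -/
noncomputable def mlc : ArithmeticFunction ℝ := ⟨fun n => ((ZMod.χ₄ (n : ZMod 4) : ℤ) : ℝ) / n, by simp⟩

/-- `1/n` -/
noncomputable def mlz : ArithmeticFunction ℝ := ⟨fun n => 1 / (n : ℝ), by simp⟩

theorem mlc_apply (n : ℕ) : mlc n = ((ZMod.χ₄ (n : ZMod 4) : ℤ) : ℝ) / n := rfl
theorem mlz_apply (n : ℕ) : mlz n = 1 / (n : ℝ) := rfl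

theorem mlc_mult : mlc.IsMultiplicative := by
  constructor
  · simp [mlc_apply]
  · intro m n _
    simp only [mlc_apply, Nat.cast_mul, map_mul, Int.cast_mul]
    rw [mul_div_mul_comm]

theorem mlz_mult : mlz.IsMultiplicative := by
  constructor
  · simp [mlz_apply]
  · intro m n _
    simp only [mlz_apply, Nat.cast_mul]
    rw [one_div_mul_one_div]

noncomputable def mlf : ArithmeticFunction ℝ := mlc * mlz

theorem mlf_mult : mlf.IsMultiplicative := mlc_mult.mul mlz_mult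

theorem mlf_pow {p : ℕ} (hp : p.Prime) (k : ℕ) :
    mlf (p ^ k) = (∑ i ∈ range (k + 1), ((ZMod.χ₄ (p : ZMod 4) : ℤ) : ℝ) ^ i) * (1 / (p : ℝ)) ^ k := by
  have hp0 : (p : ℝ) ≠ 0 := by exact_mod_cast hp.ne_zero
  rw [mlf, ArithmeticFunction.mul_apply,
    Nat.sum_divisorsAntidiagonal (f := fun a b => mlc a * mlz b), Nat.sum_divisors_prime_pow hp,
    Finset.sum_mul]
  apply Finset.sum_congr rfl
  intro i hi
  have hik : i ≤ k := by simpa [Nat.lt_succ_iff] using hi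
  rw [Nat.pow_div hik hp.pos, mlc_apply, mlz_apply]
  push_cast
  rw [map_pow]
  push_cast
  have : (p : ℝ) ^ k = p ^ i * p ^ (k - i) := by rw [← pow_add]; congr 1; omega
  rw [one_div_pow, this]
  field_simp

theorem chi_cases {p : ℕ} (hp : p.Prime) :
    (p = 2 ∧ ((ZMod.χ₄ (p : ZMod 4) : ℤ) : ℝ) = 0) ∨ (p % 4 = 1 ∧ ((ZMod.χ₄ (p : ZMod 4) : ℤ) : ℝ) = 1) ∨
    (p % 4 = 3 ∧ ((ZMod.χ₄ (p : ZMod 4) : ℤ) : ℝ) = -1) := by
  rcases hp.eq_two_or_odd with h | h
  · left; refine ⟨h, ?_⟩; subst h; rw [ZMod.χ₄_nat_eq_if_mod_four]; simp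
  · have : p % 4 = 1 ∨ p % 4 = 3 := by omega
    rcases this with h1 | h1
    · right; left; refine ⟨h1, ?_⟩; rw [ZMod.χ₄_nat_one_mod_four h1]; simp
    · right; right; refine ⟨h1, ?_⟩; rw [ZMod.χ₄_nat_three_mod_four h1]; simp

theorem ml_sum_neg_one (k : ℕ) : ∑ i ∈ range (k + 1), (-1 : ℝ) ^ i = (1 + (-1) ^ k) / 2 := by
  induction k with
  | zero => simp
  | succ k ih => rw [Finset.sum_range_succ, ih, pow_succ]; ring

theorem mlf_pow_nonneg {p : ℕ} (hp : p.Prime) (k : ℕ) : 0 ≤ mlf (p ^ k) := by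
  rw [mlf_pow hp]
  apply mul_nonneg _ (by positivity)
  rcases chi_cases hp with ⟨_, h⟩ | ⟨_, h⟩ | ⟨_, h⟩
  · rw [h]; exact Finset.sum_nonneg fun i _ => by positivity
  · rw [h]; simp; positivity
  · rw [h, ml_sum_neg_one]
    rcases neg_one_pow_eq_or ℝ k with h | h <;> rw [h] <;> norm_num

theorem mlf_nonneg (n : ℕ) : 0 ≤ mlf n := by
  rcases Nat.eq_zero_or_pos n with rfl | hn
  · simp
  · rw [mlf_mult.multiplicative_factorization _ hn.ne']
    exact Finset.prod_nonneg fun p hp => mlf_pow_nonneg (Nat.prime_of_mem_primeFactors hp) _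

theorem mlf_hasSum {p : ℕ} (hp : p.Prime) :
    ∃ S : ℝ, HasSum (fun k : ℕ => mlf (p ^ k)) S ∧
      S ≤ Real.exp ((if p % 4 = 1 then 2 / (p : ℝ) else 0) + 4 * (1 / (p : ℝ) ^ 2)) := by
  have hp2 : (2 : ℝ) ≤ p := by exact_mod_cast hp.two_le
  have hr0 : 0 < 1 / (p : ℝ) := by positivity
  have hr1 : 1 / (p : ℝ) ≤ 1 / 2 := one_div_le_one_div_of_le (by norm_num) hp2
  set r : ℝ := 1 / (p : ℝ) with hr
  have hr2 : 1 / (p : ℝ) ^ 2 = r ^ 2 := by rw [hr]; ring
  have hr3 : 2 / (p : ℝ) = 2 * r := by rw [hr]; ring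
  have hg : HasSum (fun k : ℕ => r ^ k) (1 - r)⁻¹ :=
    hasSum_geometric_of_lt_one hr0.le (by linarith)
  rw [hr2, hr3]
  rcases chi_cases hp with ⟨h2, h⟩ | ⟨h1, h⟩ | ⟨h3, h⟩
  · refine ⟨(1 - r)⁻¹, ?_, ?_⟩
    · convert hg using 2 with k
      rw [mlf_pow hp, h]
      rw [Finset.sum_eq_single 0]
      · simp [hr]
      · intro b _ hb; exact zero_pow hb
      · simp
    · have hr' : r = 1 / 2 := by rw [hr, h2]; norm_num
      rw [if_neg (by omega), hr']
      have := Real.add_one_le_exp (1 : ℝ)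
      norm_num at this ⊢
      linarith
  · refine ⟨r / (1 - r) ^ 2 + (1 - r)⁻¹, ?_, ?_⟩
    · have hk := (hasSum_coe_mul_geometric_of_norm_lt_one (𝕜 := ℝ) (r := r) (by
        rw [Real.norm_eq_abs, abs_of_pos hr0]; linarith)).add hg
      have e : (fun k : ℕ => mlf (p ^ k)) = fun b : ℕ => (b : ℝ) * r ^ b + r ^ b := by
        funext k
        rw [mlf_pow hp, h]
        simp only [one_pow, Finset.sum_const, Finset.card_range, nsmul_eq_mul, mul_one, ← hr]
        push_cast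
        ring
      rw [e]; exact hk
    · rw [if_pos h1]
      have hpos : 0 < 1 - r := by linarith
      have h4 : r / (1 - r) ^ 2 + (1 - r)⁻¹ = (1 - r)⁻¹ ^ 2 := by field_simp; ring
      have h5 : (1 - r)⁻¹ ≤ Real.exp (r + 2 * r ^ 2) := by
        rw [inv_le_comm₀ hpos (Real.exp_pos _), ← Real.exp_neg]
        have h6 : (1 + r + 2 * r ^ 2) ≤ Real.exp (r + 2 * r ^ 2) := by
          have := Real.add_one_le_exp (r + 2 * r ^ 2); linarith
        rw [Real.exp_neg, inv_le_comm₀ (Real.exp_pos _) hpos]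
        refine le_trans ?_ h6
        rw [inv_le_iff_one_le_mul₀ hpos]
        nlinarith [mul_pos hr0 hr0, sq_nonneg r]
      rw [h4]
      calc (1 - r)⁻¹ ^ 2 ≤ Real.exp (r + 2 * r ^ 2) ^ 2 := by gcongr
        _ = _ := by rw [← Real.exp_nat_mul]; congr 1; push_cast; ring
  · refine ⟨((1 - r)⁻¹ + (1 + r)⁻¹) / 2, ?_, ?_⟩
    · have hg2 : HasSum (fun k : ℕ => (-r) ^ k) (1 - (-r))⁻¹ :=
        hasSum_geometric_of_norm_lt_one (by
          rw [Real.norm_eq_abs, abs_neg, abs_of_pos hr0]; linarith)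
      rw [sub_neg_eq_add] at hg2
      have hk := (hg.add hg2).div_const 2
      have e : (fun k : ℕ => mlf (p ^ k)) = fun i : ℕ => (r ^ i + (-r) ^ i) / 2 := by
        funext k
        rw [mlf_pow hp, h, ml_sum_neg_one]
        rw [← hr, neg_pow r k]
        ring
      rw [e]; exact hk
    · rw [if_neg (by omega)]
      have hpos : 0 < 1 - r := by linarith
      have hpos' : 0 < 1 + r := by linarith
      have h4 : ((1 - r)⁻¹ + (1 + r)⁻¹) / 2 = ((1 - r) * (1 + r))⁻¹ := by field_simp; ring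
      have h5 : (1 + 4 * r ^ 2) ≤ Real.exp (0 + 4 * r ^ 2) := by
        have := Real.add_one_le_exp (0 + 4 * r ^ 2); linarith
      rw [h4]
      refine le_trans ?_ h5
      rw [inv_le_iff_one_le_mul₀ (by positivity)]
      nlinarith [mul_pos hr0 hr0, sq_nonneg r, mul_pos (mul_pos hr0 hr0) (mul_pos hr0 hr0),
        mul_le_mul hr1 hr1 hr0.le (by norm_num : (0:ℝ) ≤ 1/2)]

/-- partial harmonic sum -/
noncomputable def mlH (N : ℕ) : ℝ := ∑ m ∈ Ioc 0 N, mlz m

theorem mlH_mono : Monotone mlH := by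
  intro a b hab
  apply Finset.sum_le_sum_of_subset_of_nonneg
  · exact Finset.Ioc_subset_Ioc_right hab
  · intro i _ _; rw [mlz_apply]; positivity

theorem mlH_nonneg (N : ℕ) : 0 ≤ mlH N := Finset.sum_nonneg fun i _ => by rw [mlz_apply]; positivity

theorem mlH_log (N : ℕ) : Real.log ((N : ℝ) + 1) ≤ mlH N := by
  have h := log_add_one_le_harmonic N
  refine le_trans (by exact_mod_cast h) (le_of_eq ?_)
  rw [harmonic, mlH]
  push_cast
  have : Ioc 0 N = (range N).image (· + 1) := by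
    ext x; simp only [mem_Ioc, mem_image, mem_range]
    constructor
    · rintro ⟨h1, h2⟩; exact ⟨x - 1, by omega, by omega⟩
    · rintro ⟨a, h1, rfl⟩; omega
  rw [this, Finset.sum_image (by intro a _ b _ h; simpa using h)]
  apply Finset.sum_congr rfl
  intro i _
  rw [mlz_apply]; push_cast; rw [one_div]

/-- `G(d) = χ-free term` -/
noncomputable def mlG (N d : ℕ) : ℝ := mlH (N / d) / d

theorem mlG_anti (N : ℕ) {a b : ℕ} (ha : 0 < a) (hab : a ≤ b) : mlG N b ≤ mlG N a := by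
  unfold mlG
  have h1 : mlH (N / b) ≤ mlH (N / a) := mlH_mono (Nat.div_le_div_left hab ha)
  have h2 : (0 : ℝ) < a := by exact_mod_cast ha
  have h3 : (a : ℝ) ≤ b := by exact_mod_cast hab
  exact div_le_div₀ (mlH_nonneg _) h1 h2 h3

theorem ml_alt (N K : ℕ) (hK : 0 < K) :
    mlG N 1 - mlG N 3 ≤ ∑ d ∈ Ioc 0 (4 * K), ((ZMod.χ₄ (d : ZMod 4) : ℤ) : ℝ) * mlG N d := by
  induction K with
  | zero => omega
  | succ K ih =>
    have e : Ioc 0 (4 * (K + 1)) = Ioc 0 (4 * K) ∪ {4 * K + 1, 4 * K + 2, 4 * K + 3, 4 * K + 4} := by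
      ext x; simp only [mem_Ioc, mem_union, mem_insert, mem_singleton]; omega
    have hd : Disjoint (Ioc 0 (4 * K)) {4 * K + 1, 4 * K + 2, 4 * K + 3, 4 * K + 4} := by
      rw [Finset.disjoint_left]; intro x hx; simp only [mem_Ioc, mem_insert, mem_singleton] at hx ⊢; omega
    rw [e, Finset.sum_union hd]
    have c1 : ((ZMod.χ₄ ((4 * K + 1 : ℕ) : ZMod 4) : ℤ) : ℝ) = 1 := by
      rw [ZMod.χ₄_nat_one_mod_four (by omega)]; simp
    have c2 : ((ZMod.χ₄ ((4 * K + 2 : ℕ) : ZMod 4) : ℤ) : ℝ) = 0 := by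
      rw [ZMod.χ₄_nat_eq_if_mod_four, if_pos (by omega)]; simp
    have c3 : ((ZMod.χ₄ ((4 * K + 3 : ℕ) : ZMod 4) : ℤ) : ℝ) = -1 := by
      rw [ZMod.χ₄_nat_three_mod_four (by omega)]; simp
    have c4 : ((ZMod.χ₄ ((4 * K + 4 : ℕ) : ZMod 4) : ℤ) : ℝ) = 0 := by
      rw [ZMod.χ₄_nat_eq_if_mod_four, if_pos (by omega)]; simp
    have e2 : ∑ d ∈ ({4 * K + 1, 4 * K + 2, 4 * K + 3, 4 * K + 4} : Finset ℕ),
        ((ZMod.χ₄ (d : ZMod 4) : ℤ) : ℝ) * mlG N d = mlG N (4 * K + 1) - mlG N (4 * K + 3) := by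
      rw [Finset.sum_insert (by simp), Finset.sum_insert (by simp), Finset.sum_insert (by simp),
        Finset.sum_singleton, c1, c2, c3, c4]
      ring
    rw [e2]
    rcases Nat.eq_zero_or_pos K with rfl | hK'
    · simp
    · have := ih hK'
      have h2 := mlG_anti N (a := 4 * K + 1) (b := 4 * K + 3) (by omega) (by omega)
      linarith

theorem mlG_zero {N d : ℕ} (h : N < d) : mlG N d = 0 := by
  unfold mlG; rw [Nat.div_eq_of_lt h]; simp [mlH]

theorem ml_lower (N : ℕ) : 2 / 3 * mlH N ≤ ∑ n ∈ Ioc 0 N, mlf n := by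
  rcases Nat.eq_zero_or_pos N with rfl | hN
  · simp [mlH]
  rw [mlf, ArithmeticFunction.sum_Ioc_mul_eq_sum_sum]
  have e1 : ∑ n ∈ Ioc 0 N, mlc n * ∑ m ∈ Ioc 0 (N / n), mlz m =
      ∑ d ∈ Ioc 0 (4 * N), ((ZMod.χ₄ (d : ZMod 4) : ℤ) : ℝ) * mlG N d := by
    have hs : Ioc 0 N ⊆ Ioc 0 (4 * N) := Finset.Ioc_subset_Ioc_right (by omega)
    rw [← Finset.sum_subset hs]
    · apply Finset.sum_congr rfl
      intro d _
      rw [mlc_apply]
      unfold mlG mlH
      ring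
    · intro x _ hx2
      simp only [mem_Ioc, not_and, not_le] at hx2
      rcases Nat.eq_zero_or_pos x with rfl | hx
      · simp [mlG]
      · rw [mlG_zero (hx2 hx), mul_zero]
  rw [e1]
  refine le_trans ?_ (ml_alt N N hN)
  have h1 : mlG N 1 = mlH N := by unfold mlG; simp
  have h3 : mlG N 3 ≤ mlH N / 3 := by
    unfold mlG
    have := mlH_mono (Nat.div_le_self N 3)
    push_cast
    linarith
  rw [h1]; linarith

theorem ml_upper (N : ℕ) : ∑ n ∈ Ioc 0 N, mlf n ≤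
    ∏ p ∈ (N + 1).primesBelow, Real.exp ((if p % 4 = 1 then 2 / (p : ℝ) else 0) + 4 * (1 / (p : ℝ) ^ 2)) := by
  have h := EulerProduct.summable_and_hasSum_smoothNumbers_prod_primesBelow_tsum (f := fun n => mlf n)
    mlf_mult.map_one (fun {m n} h => mlf_mult.map_mul_of_coprime h)
    (fun {p} hp => by
      obtain ⟨S, hS, _⟩ := mlf_hasSum hp
      simpa only [Real.norm_eq_abs, abs_of_nonneg (mlf_nonneg _)] using hS.summable) (N + 1)
  obtain ⟨_, h2⟩ := h
  have h3 : ∏ p ∈ (N + 1).primesBelow, ∑' n : ℕ, mlf (p ^ n) ≤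
      ∏ p ∈ (N + 1).primesBelow, Real.exp ((if p % 4 = 1 then 2 / (p : ℝ) else 0) + 4 * (1 / (p : ℝ) ^ 2)) := by
    apply Finset.prod_le_prod
    · intro p _; exact tsum_nonneg fun n => mlf_nonneg _
    · intro p hp
      obtain ⟨S, hS, hS2⟩ := mlf_hasSum (Nat.prime_of_mem_primesBelow hp)
      rw [hS.tsum_eq]; exact hS2
  refine le_trans ?_ h3
  -- finite subset of the smooth numbers
  let T : Finset ((N + 1).smoothNumbers) := (Ioc 0 N).attach.image
    (fun n => ⟨n.1, Nat.mem_smoothNumbers_of_lt (Finset.mem_Ioc.1 n.2).1 (Nat.lt_succ_of_le (Finset.mem_Ioc.1 n.2).2)⟩)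
  have h4 := sum_le_hasSum T (fun n _ => mlf_nonneg n) h2
  refine le_trans (le_of_eq ?_) h4
  rw [Finset.sum_image]
  · exact (Finset.sum_attach (Ioc 0 N) (fun n => mlf n)).symm
  · intro a _ b _ hab
    have := congrArg (fun x : (N + 1).smoothNumbers => (x : ℕ)) hab
    exact Subtype.ext this

theorem ml_main : ∃ C0 : ℝ, ∀ y : ℝ, 16 ≤ y →
    Real.log (Real.log y) - C0
      ≤ ∑ p ∈ (Finset.range (⌊y⌋₊ + 1)).filter (fun p => p.Prime ∧ p % 4 = 1), 2 / (p : ℝ) := by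
  have hsum : Summable (fun n : ℕ => 1 / (n : ℝ) ^ 2) := Real.summable_one_div_nat_pow.2 (by norm_num)
  refine ⟨Real.log (3 / 2) + 4 * ∑' n : ℕ, 1 / (n : ℝ) ^ 2, fun y hy => ?_⟩
  set N := ⌊y⌋₊ with hN
  have hlogy : 0 < Real.log y := Real.log_pos (by linarith)
  have h1 : Real.log y ≤ mlH N := by
    refine le_trans ?_ (mlH_log N)
    exact Real.log_le_log (by linarith) (Nat.lt_floor_add_one y).le
  have h2 := (ml_lower N).trans (ml_upper N)
  rw [← Real.exp_sum, Finset.sum_add_distrib, ← Finset.mul_sum] at h2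
  have h3 : ∑ p ∈ (N + 1).primesBelow, (if p % 4 = 1 then 2 / (p : ℝ) else 0) =
      ∑ p ∈ (Finset.range (N + 1)).filter (fun p => p.Prime ∧ p % 4 = 1), 2 / (p : ℝ) := by
    rw [← Finset.sum_filter, Nat.primesBelow, Finset.filter_filter]
  have h4 : ∑ p ∈ (N + 1).primesBelow, 1 / (p : ℝ) ^ 2 ≤ ∑' n : ℕ, 1 / (n : ℝ) ^ 2 :=
    hsum.sum_le_tsum _ (fun i _ => by positivity)
  rw [h3] at h2
  have h5 : 2 / 3 * Real.log y ≤ Real.exp (∑ p ∈ (Finset.range (N + 1)).filter (fun p => p.Prime ∧ p % 4 = 1), 2 / (p : ℝ)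
      + 4 * ∑ p ∈ (N + 1).primesBelow, 1 / (p : ℝ) ^ 2) := by linarith
  have h6 := Real.log_le_log (by positivity) h5
  rw [Real.log_exp, Real.log_mul (by norm_num) hlogy.ne'] at h6
  have h7 : Real.log (2 / 3) = - Real.log (3 / 2) := by
    rw [← Real.log_inv]; norm_num
  linarith

/-- TARGET: prove this. Do not change the definitions above. Helper lemmas may be added before it. -/
theorem ML_thm  : ML_stmt := by
  obtain ⟨C0, h⟩ := ml_main
  refine ⟨C0, fun y hy => ?_⟩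
  refine le_trans ?_ (h y hy)
  have he : Real.exp 1 < 2.7182818286 := Real.exp_one_lt_d9
  have h1 : Real.exp 1 ≤ Real.log 16 := by
    have : Real.log 16 = 4 * Real.log 2 := by
      rw [show (16 : ℝ) = 2 ^ 4 by norm_num, Real.log_pow]; norm_num
    rw [this]
    have := Real.log_two_gt_d9
    linarith
  have h2 : Real.log 16 ≤ Real.log y := Real.log_le_log (by norm_num) hy
  have h3 : 1 ≤ Real.log (Real.log y) := by
    rw [Real.le_log_iff_exp_le (by linarith [Real.exp_pos 1])]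
    linarith
  have h4 : 0 ≤ Real.log (Real.log (Real.log y)) := Real.log_nonneg h3
  linarith



end SML
end DD106
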