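import Mathlib
import Pool.Agent.H106DD.Defs

set_option autoImplicit false
open Finset

namespace DD106
namespace SMSUM


/-! ### helper lemmas for MSUM -/

theorem ms_sum_inv_sq_aux (N : ℕ) :
    ∑ n ∈ range N, 1 / ((2 + n : ℕ) : ℝ) ^ 2 ≤ 1 - 1 / ((N : ℝ) + 1) := by
  induction N with
  | zero => simp
  | succ N ih =>
    rw [Finset.sum_range_succ]
    have h1 : 1 / ((2 + N : ℕ) : ℝ) ^ 2 ≤ 1 / ((N : ℝ) + 1) - 1 / ((N : ℝ) + 1 + 1) := by
      have hN : (0 : ℝ) ≤ N := Nat.cast_nonneg N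
      push_cast
      rw [div_sub_div _ _ (by positivity) (by positivity), div_le_div_iff₀ (by positivity) (by positivity)]
      nlinarith
    push_cast at ih h1 ⊢
    linarith

theorem ms_sum_inv_sq (P : Finset ℕ) (hP : ∀ p ∈ P, 2 ≤ p) : ∑ p ∈ P, 1 / (p : ℝ) ^ 2 ≤ 1 := by
  have hsub : P ⊆ Finset.Ico 2 (P.sup id + 2) := by
    intro p hp
    rw [Finset.mem_Ico]
    have : p ≤ P.sup id := Finset.le_sup (f := id) hp
    exact ⟨hP p hp, by omega⟩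
  calc ∑ p ∈ P, 1 / (p : ℝ) ^ 2 ≤ ∑ p ∈ Finset.Ico 2 (P.sup id + 2), 1 / (p : ℝ) ^ 2 :=
        Finset.sum_le_sum_of_subset_of_nonneg hsub (fun _ _ _ => by positivity)
    _ = ∑ n ∈ range (P.sup id), 1 / ((2 + n : ℕ) : ℝ) ^ 2 := by
        rw [Finset.sum_Ico_eq_sum_range]
        simp
    _ ≤ 1 - 1 / (((P.sup id : ℕ) : ℝ) + 1) := ms_sum_inv_sq_aux _
    _ ≤ 1 := by
        have : (0 : ℝ) ≤ 1 / (((P.sup id : ℕ) : ℝ) + 1) := by positivity
        linarith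

theorem ms_g_ge (P : Finset ℕ) (hP : ∀ p ∈ P, P1 p) :
    (∑ p ∈ P, 2 / (p : ℝ)) - 1 ≤ ∑ p ∈ P, g p := by
  have h1 : ∑ p ∈ P, g p = ∑ p ∈ P, 2 / (p : ℝ) - ∑ p ∈ P, 1 / (p : ℝ) ^ 2 := by
    rw [← Finset.sum_sub_distrib]
    apply Finset.sum_congr rfl
    intro p hp
    have hp0 : (0 : ℝ) < p := by exact_mod_cast (hP p hp).1.pos
    unfold g
    field_simp
  have h2 := ms_sum_inv_sq P (fun p hp => (hP p hp).1.two_le)
  linarith

theorem ms_factor_le (p : ℕ) (hp : P1 p) : 1 / 2 * Real.exp (g p / 2) ≤ 1 := by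
  have hp5 : 5 ≤ p := by
    have h2 := hp.1.two_le
    have h3 := hp.2
    have h4 : p ≠ 2 := by rintro rfl; simp at h3
    have h5 : p ≠ 3 := by rintro rfl; simp at h3
    have h6 : p ≠ 4 := by rintro rfl; simp at h3
    omega
  have hp5' : (5 : ℝ) ≤ p := by exact_mod_cast hp5
  have hg : g p ≤ 1 := by
    unfold g
    rw [div_le_one (by positivity)]
    nlinarith
  have h1 : Real.exp (g p / 2) ≤ 2 := by
    have h2 : g p / 2 ≤ Real.log 2 := by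
      have := Real.log_two_gt_d9
      linarith
    calc Real.exp (g p / 2) ≤ Real.exp (Real.log 2) := Real.exp_le_exp.mpr h2
      _ = 2 := Real.exp_log (by norm_num)
  linarith

theorem ms_factor_nonneg (p : ℕ) : 0 ≤ 1 / 2 * Real.exp (g p / 2) := by positivity

/-- the product over a subset of the primes is larger -/
theorem ms_prod_mono (P P' : Finset ℕ) (hP : ∀ p ∈ P, P1 p) (hsub : P' ⊆ P) (n : ℤ) :
    ∏ p ∈ P.filter (fun p : ℕ => (p : ℤ) ∣ n), (1 / 2 * Real.exp (g p / 2)) ≤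
      ∏ p ∈ P'.filter (fun p : ℕ => (p : ℤ) ∣ n), (1 / 2 * Real.exp (g p / 2)) := by
  apply Finset.prod_le_prod_of_subset_of_le_one (Finset.filter_subset_filter _ hsub)
  · intro p _; exact ms_factor_nonneg p
  · intro p hp _; exact ms_factor_le p (hP p (Finset.mem_filter.mp hp).1)

theorem ms_prod_le_one (P : Finset ℕ) (hP : ∀ p ∈ P, P1 p) (n : ℤ) :
    ∏ p ∈ P.filter (fun p : ℕ => (p : ℤ) ∣ n), (1 / 2 * Real.exp (g p / 2)) ≤ 1 := by
  apply Finset.prod_le_one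
  · intro p _; exact ms_factor_nonneg p
  · intro p hp; exact ms_factor_le p (hP p (Finset.mem_filter.mp hp).1)

theorem ms_exp4 (x : ℝ) (hx : 0 ≤ x) : x ^ 4 / 64 ≤ Real.exp x := by
  have h1 := Real.quadratic_le_exp_of_nonneg (x := x / 2) (by linarith)
  have h2 : Real.exp x = Real.exp (x / 2) ^ 2 := by
    rw [← Real.exp_nat_mul]; congr 1; push_cast; ring
  have h3 : x ^ 2 / 8 ≤ Real.exp (x / 2) := by nlinarith
  rw [h2]
  calc x ^ 4 / 64 = (x ^ 2 / 8) ^ 2 := by ring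
    _ ≤ Real.exp (x / 2) ^ 2 := pow_le_pow_left₀ (by positivity) h3 2

theorem ms_big (M : ℕ) (hl : 200 ≤ Real.log (Real.log M)) :
    (Real.log (Real.log M)) ^ 2 ≤ Real.log M ∧ Real.exp (Real.log (Real.log M)) = Real.log M ∧
    Real.exp (Real.log M) = M ∧ 20000 ≤ Real.log M := by
  have hL0 : 0 ≤ Real.log (M : ℝ) := Real.log_natCast_nonneg M
  have hLpos : 0 < Real.log (M : ℝ) := by
    rcases hL0.eq_or_lt with h | h
    · rw [← h, Real.log_zero] at hl; norm_num at hl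
    · exact h
  have hMpos : (0 : ℝ) < M := by
    rcases Nat.eq_zero_or_pos M with h | h
    · subst h; simp at hLpos
    · exact_mod_cast h
  have e1 : Real.exp (Real.log (Real.log M)) = Real.log M := Real.exp_log hLpos
  have h4 := ms_exp4 (Real.log (Real.log M)) (by linarith)
  rw [e1] at h4
  set l := Real.log (Real.log (M : ℝ)) with hldef
  have h5 : l ^ 2 ≤ l ^ 4 / 64 := by
    have : (64 : ℝ) ≤ l ^ 2 := by nlinarith
    nlinarith [sq_nonneg l]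
  refine ⟨h5.trans h4, e1, Real.exp_log hMpos, ?_⟩
  have h6 : (20000 : ℝ) ≤ l ^ 2 := by nlinarith
  linarith

theorem ms_sq1 (L : ℝ) (hL : 20000 ≤ L) : 2 * L ^ 2 ≤ L ^ 4 / 64 := by
  have h : (128 : ℝ) ≤ L ^ 2 := by nlinarith
  have h2 : 128 * L ^ 2 ≤ L ^ 2 * L ^ 2 := mul_le_mul_of_nonneg_right h (sq_nonneg L)
  have h3 : L ^ 4 = L ^ 2 * L ^ 2 := by ring
  rw [h3]; linarith

theorem ms_sq2 (L : ℝ) (hL : 20000 ≤ L) : L ^ 2 / 2 ≤ (L / 2) ^ 4 / 64 := by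
  have h : (512 : ℝ) ≤ L ^ 2 := by nlinarith
  have h2 : 512 * L ^ 2 ≤ L ^ 2 * L ^ 2 := mul_le_mul_of_nonneg_right h (sq_nonneg L)
  have h3 : (L / 2) ^ 4 = L ^ 2 * L ^ 2 / 16 := by ring
  rw [h3]; linarith

theorem ms_Rin (D M Q j : ℕ) (hD : 0 < D) (hQ : 0 < Q) (hQL : (Q : ℝ) ≤ (Real.log M) ^ 2)
    (hl : 200 ≤ Real.log (Real.log M)) (hj : 4 ^ j ≤ 2 * Q * D * M) :
    (((2 * (2 * Q * D * M / 2 ^ j) / Q + 1 : ℕ) : ℝ)) * 2 ^ j ≤ 5 * D * M ∧
    Real.exp (Real.log M / 4) ≤ ((2 * (2 * Q * D * M / 2 ^ j) / Q + 1 : ℕ) : ℝ) := by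
  obtain ⟨-, -, hM, hL⟩ := ms_big M hl
  set L := Real.log (M : ℝ) with hLdef
  set rho := 2 * Q * D * M / 2 ^ j with hrho
  set R := 2 * rho / Q + 1 with hR
  have h2j : 0 < 2 ^ j := by positivity
  -- integer inequalities
  have i1 : 2 * rho < Q * R := Nat.lt_mul_div_succ (2 * rho) hQ
  have i2 : 2 * Q * D * M < 2 ^ j * (rho + 1) := Nat.lt_mul_div_succ _ h2j
  have i3 : Q * (R - 1) ≤ 2 * rho := by
    rw [hR, Nat.add_sub_cancel]; exact Nat.mul_div_le _ _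
  have i4 : 2 ^ j * rho ≤ 2 * Q * D * M := Nat.mul_div_le _ _
  have i1' : 2 * rho + 1 ≤ Q * R := i1
  have r1 : 2 * (rho : ℝ) + 1 ≤ Q * R := by exact_mod_cast i1'
  have r2 : 2 * (Q : ℝ) * D * M < 2 ^ j * ((rho : ℝ) + 1) := by exact_mod_cast i2
  have r3 : (Q : ℝ) * ((R : ℝ) - 1) ≤ 2 * rho := by
    have h : ((R - 1 : ℕ) : ℝ) = (R : ℝ) - 1 := by
      rw [Nat.cast_sub (by rw [hR]; exact Nat.le_add_left 1 _)]; simp
    rw [← h]; exact_mod_cast i3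
  have r4 : (2 : ℝ) ^ j * rho ≤ 2 * Q * D * M := by exact_mod_cast i4
  have rj : (4 : ℝ) ^ j ≤ 2 * Q * D * M := by exact_mod_cast hj
  have h44 : (4 : ℝ) ^ j = (2 ^ j) ^ 2 := by rw [← pow_mul, mul_comm, pow_mul]; norm_num
  have hQ' : (1 : ℝ) ≤ Q := by exact_mod_cast hQ
  have hD' : (1 : ℝ) ≤ D := by exact_mod_cast hD
  have hMpos : (0 : ℝ) < M := by rw [← hM]; exact Real.exp_pos _
  have hR1 : (1 : ℝ) ≤ R := by
    have : 1 ≤ R := by rw [hR]; exact Nat.le_add_left 1 _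
    exact_mod_cast this
  set t : ℝ := 2 ^ j with ht
  have htpos : 0 < t := by positivity
  -- 2 Q ≤ D M
  have hLM : 2 * L ^ 2 ≤ (M : ℝ) := by
    have h1 := ms_exp4 L (by linarith)
    rw [hM] at h1
    have h2 := ms_sq1 L hL
    linarith
  have hDM : (M : ℝ) ≤ D * M := by nlinarith
  have hQDM : 2 * (Q : ℝ) ≤ D * M := by linarith
  have htDM : t ≤ D * M := by
    have h1 : t ^ 2 ≤ ((D : ℝ) * M) ^ 2 := by
      rw [← h44]
      calc (4 : ℝ) ^ j ≤ 2 * Q * D * M := rj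
        _ = (2 * Q) * (D * M) := by ring
        _ ≤ (D * M) * (D * M) := mul_le_mul_of_nonneg_right hQDM (by positivity)
        _ = ((D : ℝ) * M) ^ 2 := by ring
    exact (pow_le_pow_iff_left₀ htpos.le (by positivity) (by norm_num)).mp h1
  constructor
  · -- upper bound
    have h1 : ((R : ℝ) - 1) * t * Q ≤ 4 * (D * M) * Q := by
      calc ((R : ℝ) - 1) * t * Q = (Q * ((R : ℝ) - 1)) * t := by ring
        _ ≤ (2 * rho) * t := mul_le_mul_of_nonneg_right r3 htpos.le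
        _ = 2 * (t * rho) := by ring
        _ ≤ 2 * (2 * Q * D * M) := by linarith
        _ = 4 * (D * M) * Q := by ring
    have h2 : ((R : ℝ) - 1) * t ≤ 4 * (D * M) :=
      le_of_mul_le_mul_right h1 (by linarith)
    nlinarith
  · -- lower bound
    by_contra hcon
    push Not at hcon
    have h1 : 4 * ((D : ℝ) * M) < t * (R + 1) := by
      have h2 : 4 * ((D : ℝ) * M) * Q < t * (R + 1) * Q := by
        calc 4 * ((D : ℝ) * M) * Q = 2 * (2 * Q * D * M) := by ring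
          _ < 2 * (t * ((rho : ℝ) + 1)) := by linarith
          _ = t * ((2 * (rho : ℝ) + 1) + 1) := by ring
          _ ≤ t * (Q * R + 1) := by
              apply mul_le_mul_of_nonneg_left _ htpos.le; linarith
          _ ≤ t * (Q * R + Q) := by
              apply mul_le_mul_of_nonneg_left _ htpos.le; linarith
          _ = t * (R + 1) * Q := by ring
      exact lt_of_mul_lt_mul_right h2 (by linarith)
    have h3 : (4 * ((D : ℝ) * M)) ^ 2 < (t * (R + 1)) ^ 2 :=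
      pow_lt_pow_left₀ h1 (by positivity) (by norm_num)
    have h4 : (t * ((R : ℝ) + 1)) ^ 2 ≤ (2 * Q * D * M) * (R + 1) ^ 2 := by
      rw [mul_pow, ← h44]
      exact mul_le_mul_of_nonneg_right rj (by positivity)
    have h5 : 8 * ((D : ℝ) * M) < Q * (R + 1) ^ 2 := by
      have h6 : (8 * ((D : ℝ) * M)) * (2 * (D * M)) < (Q * (R + 1) ^ 2) * (2 * (D * M)) := by
        calc (8 * ((D : ℝ) * M)) * (2 * (D * M)) = (4 * ((D : ℝ) * M)) ^ 2 := by ring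
          _ < (2 * Q * D * M) * (R + 1) ^ 2 := lt_of_lt_of_le h3 h4
          _ = (Q * (R + 1) ^ 2) * (2 * (D * M)) := by ring
      exact lt_of_mul_lt_mul_right h6 (by positivity)
    have hE1 : 1 ≤ Real.exp (L / 4) := Real.one_le_exp (by linarith)
    have h7 : ((R : ℝ) + 1) ^ 2 ≤ 4 * Real.exp (L / 2) := by
      have h8 : (R : ℝ) + 1 ≤ 2 * Real.exp (L / 4) := by linarith
      calc ((R : ℝ) + 1) ^ 2 ≤ (2 * Real.exp (L / 4)) ^ 2 :=
            pow_le_pow_left₀ (by positivity) h8 2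
        _ = 4 * (Real.exp (L / 4)) ^ 2 := by ring
        _ = 4 * Real.exp (L / 2) := by
            rw [← Real.exp_nat_mul]; congr 2; push_cast; ring
    have h9 : L ^ 2 ≤ 2 * Real.exp (L / 2) := by
      have h10 := ms_exp4 (L / 2) (by linarith)
      have h11 := ms_sq2 L hL
      linarith
    have h12 : Real.exp (L / 2) * Real.exp (L / 2) = M := by
      rw [← Real.exp_add, ← hM]; congr 1; ring
    have h13 : (Q : ℝ) * (R + 1) ^ 2 ≤ 8 * M := by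
      calc (Q : ℝ) * (R + 1) ^ 2 ≤ L ^ 2 * (4 * Real.exp (L / 2)) :=
            mul_le_mul hQL h7 (by positivity) (by positivity)
        _ ≤ (2 * Real.exp (L / 2)) * (4 * Real.exp (L / 2)) :=
            mul_le_mul_of_nonneg_right h9 (by positivity)
        _ = 8 * (Real.exp (L / 2) * Real.exp (L / 2)) := by ring
        _ = 8 * M := by rw [h12]
    nlinarith

theorem ms_abs (j N : ℕ) (x : ℤ) (h : 4 ^ j * x ^ 2 ≤ (N : ℤ) ^ 2) :
    |x| ≤ ((N / 2 ^ j : ℕ) : ℤ) := by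
  have h44 : (4 : ℤ) ^ j = (2 ^ j) ^ 2 := by rw [← pow_mul, mul_comm, pow_mul]; norm_num
  have h1 : (2 ^ j * |x|) ^ 2 ≤ (N : ℤ) ^ 2 := by
    rw [mul_pow, sq_abs, ← h44]; exact h
  have h2 : 2 ^ j * |x| ≤ (N : ℤ) :=
    (pow_le_pow_iff_left₀ (by positivity) (by positivity) (by norm_num)).mp h1
  have h3 : x.natAbs * 2 ^ j ≤ N := by
    have h4 : ((x.natAbs * 2 ^ j : ℕ) : ℤ) ≤ (N : ℤ) := by
      push_cast
      rw [mul_comm]; exact h2
    exact_mod_cast h4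
  have h5 : x.natAbs ≤ N / 2 ^ j := (Nat.le_div_iff_mul_le (by positivity)).mpr h3
  have h6 : |x| = (x.natAbs : ℤ) := Int.abs_eq_natAbs x
  rw [h6]; exact_mod_cast h5

theorem ms_rset_sub (D M Q : ℕ) (w1 w2 : ℤ) (j : ℕ) (s : ℤ × ℤ)
    (hs : (4 : ℤ) ^ j ≤ s.1 ^ 2 + s.2 ^ 2) :
    rset Q D M w1 w2 s ⊆ (sq (2 * Q * D * M / 2 ^ j)).filter (fun r : ℤ × ℤ =>
      (Q : ℤ) ∣ s.1 * r.1 - s.2 * r.2 - w1 ∧ (Q : ℤ) ∣ s.1 * r.2 + s.2 * r.1 - w2) := by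
  intro r hr
  unfold rset at hr
  rw [Finset.mem_filter] at hr ⊢
  obtain ⟨-, -, h2, h3, h4⟩ := hr
  refine ⟨?_, h3, h4⟩
  have key : ∀ x : ℤ, x ^ 2 ≤ r.1 ^ 2 + r.2 ^ 2 → |x| ≤ ((2 * Q * D * M / 2 ^ j : ℕ) : ℤ) := by
    intro x hx
    apply ms_abs
    calc 4 ^ j * x ^ 2 ≤ (s.1 ^ 2 + s.2 ^ 2) * (r.1 ^ 2 + r.2 ^ 2) :=
          mul_le_mul hs hx (sq_nonneg x) (by positivity)
      _ ≤ 2 * ((Q * D * M : ℕ) : ℤ) ^ 2 := h2
      _ ≤ ((2 * Q * D * M : ℕ) : ℤ) ^ 2 := by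
          push_cast
          nlinarith [sq_nonneg ((Q : ℤ) * D * M)]
  have k1 := abs_le.mp (key r.1 (by nlinarith [sq_nonneg r.2]))
  have k2 := abs_le.mp (key r.2 (by nlinarith [sq_nonneg r.1]))
  unfold sq
  rw [Finset.mem_product, Finset.mem_Icc, Finset.mem_Icc]
  exact ⟨k1, k2⟩

theorem ms_Y (L l : ℝ) (hl : 200 ≤ l) (hL : 0 < L) :
    Real.exp (L / l ^ 2) ^ (40 * l + 40) ≤ Real.exp (L / 4) := by
  rw [← Real.exp_mul]
  apply Real.exp_le_exp.mpr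
  rw [div_mul_eq_mul_div, div_le_div_iff₀ (by positivity) (by norm_num)]
  have h1 : (40 * l + 40) * 4 ≤ l ^ 2 := by nlinarith
  calc L * (40 * l + 40) * 4 = L * ((40 * l + 40) * 4) := by ring
    _ ≤ L * l ^ 2 := mul_le_mul_of_nonneg_left h1 hL.le

theorem ms_inner (hINNER : INNER_stmt) (C1 : ℝ) (D M Q : ℕ) (P : Finset ℕ) (w1 w2 : ℤ)
    (hgood : goodP C1 M P) (hD : 0 < D) (hQ : 0 < Q) (hPQ : ∀ p ∈ P, ¬ p ∣ Q)
    (hQL : (Q : ℝ) ≤ (Real.log M) ^ 2) (hcop : IsCoprime (w1 ^ 2 + w2 ^ 2) (Q : ℤ))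
    (hl : 200 ≤ Real.log (Real.log M)) (j : ℕ) (hj : 4 ^ j ≤ 2 * Q * D * M) (s : ℤ × ℤ)
    (hs : (4 : ℤ) ^ j ≤ s.1 ^ 2 + s.2 ^ 2) :
    ∑ r ∈ rset Q D M w1 w2 s,
        (1 / 2 : ℝ) ^ (om P (s.1 * r.1 - s.2 * r.2) (s.1 * r.2 + s.2 * r.1))
      ≤ 3 * (5 * D * M / 2 ^ j) ^ 2 *
          (Real.exp (1 / 2) * Real.exp (-(1 / 2) * ∑ p ∈ P, 2 / (p : ℝ))) *
        ∏ p ∈ P.filter (fun p : ℕ => (p : ℤ) ∣ s.1 ^ 2 + s.2 ^ 2), (1 / 2 * Real.exp (g p / 2)) := by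
  obtain ⟨hg1, hg2, -⟩ := hgood
  obtain ⟨hb1, hb2, hb3, hb4⟩ := ms_big M hl
  set L := Real.log (M : ℝ) with hL
  set l := Real.log L with hldef
  obtain ⟨hR1, hR2⟩ := ms_Rin D M Q j hD hQ hQL hl hj
  have hY : 2 ≤ Real.exp (L / l ^ 2) := by
    have h1 : 1 ≤ L / l ^ 2 := by rw [one_le_div (by positivity)]; exact hb1
    have h2 := Real.add_one_le_exp (L / l ^ 2)
    linarith
  have hmain := hINNER P (Real.exp (L / l ^ 2)) l Q (2 * Q * D * M / 2 ^ j) s.1 s.2 w1 w2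
    (fun p hp => ⟨(hg1 p hp).1, hPQ p hp, (hg1 p hp).2⟩) hY (by linarith) hg2 hQ hcop
    ((ms_Y L l hl (by linarith)).trans hR2)
  have hstep1 : ∑ r ∈ rset Q D M w1 w2 s,
        (1 / 2 : ℝ) ^ (om P (s.1 * r.1 - s.2 * r.2) (s.1 * r.2 + s.2 * r.1)) ≤
      ∑ r ∈ (sq (2 * Q * D * M / 2 ^ j)).filter (fun r : ℤ × ℤ =>
        (Q : ℤ) ∣ s.1 * r.1 - s.2 * r.2 - w1 ∧ (Q : ℤ) ∣ s.1 * r.2 + s.2 * r.1 - w2),
        (1 / 2 : ℝ) ^ (om P (s.1 * r.1 - s.2 * r.2) (s.1 * r.2 + s.2 * r.1)) :=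
    Finset.sum_le_sum_of_subset_of_nonneg (ms_rset_sub D M Q w1 w2 j s hs)
      (fun _ _ _ => by positivity)
  refine hstep1.trans (hmain.trans ?_)
  have hprod : 0 ≤ ∏ p ∈ P.filter (fun p : ℕ => (p : ℤ) ∣ s.1 ^ 2 + s.2 ^ 2),
      (1 / 2 * Real.exp (g p / 2)) := Finset.prod_nonneg fun p _ => ms_factor_nonneg p
  apply mul_le_mul_of_nonneg_right _ hprod
  apply mul_le_mul _ _ (Real.exp_pos _).le (by positivity)
  · apply mul_le_mul_of_nonneg_left _ (by norm_num)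
    apply pow_le_pow_left₀ (by positivity)
    rw [le_div_iff₀ (by positivity)]
    exact hR1
  · rw [← Real.exp_add]
    apply Real.exp_le_exp.mpr
    have := ms_g_ge P (fun p hp => (hg1 p hp).1)
    linarith

/-- the gain at the dyadic scale `j` -/
noncomputable def ms_b (C1 l : ℝ) (j : ℕ) : ℝ :=
  if (j : ℝ) < 300 * l ^ 2 then 1 else Real.sqrt (300 * C1 * l ^ 3 / j)

theorem ms_b_nonneg (C1 l : ℝ) (j : ℕ) : 0 ≤ ms_b C1 l j := by
  unfold ms_b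
  split_ifs
  · norm_num
  · exact Real.sqrt_nonneg _

theorem ms_Rout (Q j : ℕ) (hQ : 0 < Q) (hQj : Q ≤ 4 * 2 ^ j) :
    ((2 * 2 ^ (j + 1) / Q + 1 : ℕ) : ℝ) ≤ 8 * 2 ^ j / Q ∧
    4 * (2 : ℝ) ^ j / Q ≤ ((2 * 2 ^ (j + 1) / Q + 1 : ℕ) : ℝ) := by
  set R := 2 * 2 ^ (j + 1) / Q + 1 with hR
  have i1 : 2 * 2 ^ (j + 1) < Q * R := Nat.lt_mul_div_succ _ hQ
  have i3 : Q * (R - 1) ≤ 2 * 2 ^ (j + 1) := by
    rw [hR, Nat.add_sub_cancel]; exact Nat.mul_div_le _ _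
  have r1 : 2 * (2 : ℝ) ^ (j + 1) < Q * R := by exact_mod_cast i1
  have r3 : (Q : ℝ) * ((R : ℝ) - 1) ≤ 2 * 2 ^ (j + 1) := by
    have h : ((R - 1 : ℕ) : ℝ) = (R : ℝ) - 1 := by
      rw [Nat.cast_sub (by rw [hR]; exact Nat.le_add_left 1 _)]; simp
    rw [← h]; exact_mod_cast i3
  have rj : (Q : ℝ) ≤ 4 * 2 ^ j := by exact_mod_cast hQj
  have hQ' : (0 : ℝ) < Q := by exact_mod_cast hQ
  rw [pow_succ] at r1 r3
  constructor
  · rw [le_div_iff₀ hQ']; nlinarith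
  · rw [div_le_iff₀ hQ']; nlinarith

theorem ms_two_pow (j : ℕ) : Real.exp ((j : ℝ) / 2) ≤ (2 : ℝ) ^ j := by
  have h1 : (2 : ℝ) ^ j = Real.exp (j * Real.log 2) := by
    rw [mul_comm, Real.exp_mul, Real.exp_log (by norm_num), Real.rpow_natCast]
  rw [h1]
  apply Real.exp_le_exp.mpr
  have h2 := Real.log_two_gt_d9
  have h3 : (0 : ℝ) ≤ j := Nat.cast_nonneg j
  nlinarith

theorem ms_outer (hOUTER : OUTER_stmt) (hOUTER0 : OUTER0_stmt) (C1 : ℝ) (hC1 : 0 < C1) (M Q : ℕ)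
    (P : Finset ℕ) (hgood : goodP C1 M P) (hQ : 0 < Q) (hPQ : ∀ p ∈ P, ¬ p ∣ Q)
    (hQL : (Q : ℝ) ≤ (Real.log M) ^ 2) (hl : 200 ≤ Real.log (Real.log M)) (j : ℕ)
    (hjL : (j : ℝ) ≤ 2 * Real.log M) (hQj : Q ≤ 4 * 2 ^ j) :
    ∑ s ∈ (sq (2 ^ (j + 1))).filter (LL Q),
      ∏ p ∈ P.filter (fun p : ℕ => (p : ℤ) ∣ s.1 ^ 2 + s.2 ^ 2), (1 / 2 * Real.exp (g p / 2))
      ≤ 12 * (Q : ℝ) * (8 * 2 ^ j / Q) ^ 2 *
        (Real.exp 1 * ms_b C1 (Real.log (Real.log M)) j) := by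
  obtain ⟨hg1, hg2, hg3⟩ := hgood
  obtain ⟨hb1, hb2, hb3, hb4⟩ := ms_big M hl
  set L := Real.log (M : ℝ) with hL
  set l := Real.log L with hldef
  have hP1 : ∀ p ∈ P, P1 p := fun p hp => (hg1 p hp).1
  obtain ⟨hR1, hR2⟩ := ms_Rout Q j hQ hQj
  have hQ' : (0 : ℝ) < Q := by exact_mod_cast hQ
  by_cases hexc : (j : ℝ) < 300 * l ^ 2
  · -- exceptional scales
    have hb : ms_b C1 l j = 1 := by unfold ms_b; rw [if_pos hexc]
    rw [hb]
    have h0 := hOUTER0 Q (2 ^ (j + 1)) hQ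
    have h0' : (((sq (2 ^ (j + 1))).filter (LL Q)).card : ℝ) ≤
        4 * Q * ((2 * 2 ^ (j + 1) / Q + 1 : ℕ) : ℝ) ^ 2 := by exact_mod_cast h0
    have h1 : ∑ s ∈ (sq (2 ^ (j + 1))).filter (LL Q),
      ∏ p ∈ P.filter (fun p : ℕ => (p : ℤ) ∣ s.1 ^ 2 + s.2 ^ 2), (1 / 2 * Real.exp (g p / 2))
        ≤ (((sq (2 ^ (j + 1))).filter (LL Q)).card : ℝ) := by
      calc _ ≤ ∑ s ∈ (sq (2 ^ (j + 1))).filter (LL Q), (1 : ℝ) :=
            Finset.sum_le_sum fun s _ => ms_prod_le_one P hP1 _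
        _ = _ := by simp
    have h2 : ((2 * 2 ^ (j + 1) / Q + 1 : ℕ) : ℝ) ^ 2 ≤ (8 * 2 ^ j / Q) ^ 2 :=
      pow_le_pow_left₀ (by positivity) hR1 2
    have h3 : (1 : ℝ) ≤ Real.exp 1 := Real.one_le_exp (by norm_num)
    calc _ ≤ (((sq (2 ^ (j + 1))).filter (LL Q)).card : ℝ) := h1
      _ ≤ 4 * Q * ((2 * 2 ^ (j + 1) / Q + 1 : ℕ) : ℝ) ^ 2 := h0'
      _ ≤ 12 * Q * (8 * 2 ^ j / Q) ^ 2 := by
          apply mul_le_mul _ h2 (by positivity) (by positivity)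
          linarith
      _ = 12 * Q * (8 * 2 ^ j / Q) ^ 2 * (1 * 1) := by ring
      _ ≤ 12 * Q * (8 * 2 ^ j / Q) ^ 2 * (Real.exp 1 * 1) := by
          apply mul_le_mul_of_nonneg_left _ (by positivity)
          linarith
  · -- good scales
    have hb : ms_b C1 l j = Real.sqrt (300 * C1 * l ^ 3 / j) := by unfold ms_b; rw [if_neg hexc]
    rw [hb]
    push Not at hexc
    have hl2 : 0 < l ^ 2 := by positivity
    have hj0 : (0 : ℝ) < j := lt_of_lt_of_le (by positivity) hexc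
    set y : ℝ := Real.exp (j / (300 * l ^ 2)) with hy
    have hy2 : 2 ≤ y := by
      have h1 : 1 ≤ (j : ℝ) / (300 * l ^ 2) := by rw [one_le_div (by positivity)]; exact hexc
      have h2 := Real.add_one_le_exp ((j : ℝ) / (300 * l ^ 2))
      linarith
    have hyY : y ≤ Real.exp (L / l ^ 2) := by
      apply Real.exp_le_exp.mpr
      rw [div_le_div_iff₀ (by positivity) hl2]
      have : (j : ℝ) ≤ L * 300 := by linarith
      calc (j : ℝ) * l ^ 2 ≤ (L * 300) * l ^ 2 := mul_le_mul_of_nonneg_right this hl2.le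
        _ = L * (300 * l ^ 2) := by ring
    set P' := P.filter (fun p : ℕ => (p : ℝ) ≤ y) with hP'
    have hP'sub : P' ⊆ P := Finset.filter_subset _ _
    have hsum' : (∑ p ∈ P', 2 / (p : ℝ)) ≤ l := by
      refine (Finset.sum_le_sum_of_subset_of_nonneg hP'sub fun _ _ _ => by positivity).trans hg2
    have hyR : y ^ (40 * l + 40) ≤ ((2 * 2 ^ (j + 1) / Q + 1 : ℕ) : ℝ) := by
      refine le_trans ?_ hR2
      rw [hy, ← Real.exp_mul, le_div_iff₀ hQ']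
      have h1 : (j : ℝ) / (300 * l ^ 2) * (40 * l + 40) ≤ j / 4 := by
        rw [div_mul_eq_mul_div, div_le_div_iff₀ (by positivity) (by norm_num)]
        have h1 : (40 * l + 40) * 4 ≤ 300 * l ^ 2 := by nlinarith
        calc (j : ℝ) * (40 * l + 40) * 4 = j * ((40 * l + 40) * 4) := by ring
          _ ≤ j * (300 * l ^ 2) := mul_le_mul_of_nonneg_left h1 hj0.le
      have h2 : (Q : ℝ) ≤ Real.exp (j / 4) := by
        calc (Q : ℝ) ≤ L ^ 2 := hQL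
          _ = Real.exp (2 * l) := by
              rw [← hb2, ← Real.exp_nat_mul]; push_cast; rfl
          _ ≤ Real.exp (j / 4) := by
              apply Real.exp_le_exp.mpr
              nlinarith
      calc Real.exp ((j : ℝ) / (300 * l ^ 2) * (40 * l + 40)) * Q
          ≤ Real.exp (j / 4) * Real.exp (j / 4) :=
            mul_le_mul (Real.exp_le_exp.mpr h1) h2 hQ'.le (Real.exp_pos _).le
        _ = Real.exp ((j : ℝ) / 2) := by rw [← Real.exp_add]; congr 1; ring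
        _ ≤ 2 ^ j := ms_two_pow j
        _ ≤ 4 * 2 ^ j := by linarith [pow_pos (show (0 : ℝ) < 2 by norm_num) j]
    have hmain := hOUTER P' y l Q (2 ^ (j + 1))
      (fun p hp => ⟨hP1 p (hP'sub hp), hPQ p (hP'sub hp), (Finset.mem_filter.mp hp).2⟩)
      hy2 (by linarith) hsum' hQ hyR
    have hstep : ∑ s ∈ (sq (2 ^ (j + 1))).filter (LL Q),
      ∏ p ∈ P.filter (fun p : ℕ => (p : ℤ) ∣ s.1 ^ 2 + s.2 ^ 2), (1 / 2 * Real.exp (g p / 2)) ≤
        ∑ s ∈ (sq (2 ^ (j + 1))).filter (LL Q),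
      ∏ p ∈ P'.filter (fun p : ℕ => (p : ℤ) ∣ s.1 ^ 2 + s.2 ^ 2), (1 / 2 * Real.exp (g p / 2)) :=
      Finset.sum_le_sum fun s _ => ms_prod_mono P P' hP1 hP'sub _
    refine hstep.trans (hmain.trans ?_)
    have h3 := hg3 y hy2 hyY
    rw [← hP'] at h3
    set A := ∑ p ∈ P', 2 / (p : ℝ) with hA
    have hlogy : Real.log y = j / (300 * l ^ 2) := by rw [hy, Real.log_exp]
    rw [hlogy] at h3
    have h4 : Real.exp (-A) ≤ 300 * C1 * l ^ 3 / j := by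
      rw [le_div_iff₀ hj0]
      rw [div_le_iff₀ (by positivity)] at h3
      have h5 : Real.exp (-A) * Real.exp A = 1 := by rw [← Real.exp_add]; simp
      calc Real.exp (-A) * j ≤ Real.exp (-A) * (C1 * l * Real.exp A * (300 * l ^ 2)) :=
            mul_le_mul_of_nonneg_left h3 (Real.exp_pos _).le
        _ = (Real.exp (-A) * Real.exp A) * (300 * C1 * l ^ 3) := by ring
        _ = 300 * C1 * l ^ 3 := by rw [h5, one_mul]
    have h6 : Real.exp (-(1 / 2) * A) ≤ Real.sqrt (300 * C1 * l ^ 3 / j) := by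
      apply Real.le_sqrt_of_sq_le
      calc Real.exp (-(1 / 2) * A) ^ 2 = Real.exp (-A) := by
            rw [← Real.exp_nat_mul]; congr 1; push_cast; ring
        _ ≤ _ := h4
    have h7 : Real.exp (1 - 1 / 2 * A) = Real.exp 1 * Real.exp (-(1 / 2) * A) := by
      rw [← Real.exp_add]; congr 1; ring
    rw [h7]
    apply mul_le_mul _ _ (by positivity) (by positivity)
    · apply mul_le_mul_of_nonneg_left _ (by positivity)
      exact pow_le_pow_left₀ (by positivity) hR1 2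
    · exact mul_le_mul_of_nonneg_left h6 (Real.exp_pos _).le

theorem ms_block (hINNER : INNER_stmt) (hOUTER : OUTER_stmt) (hOUTER0 : OUTER0_stmt) (C1 : ℝ)
    (hC1 : 0 < C1) (D M Q : ℕ) (P : Finset ℕ) (w1 w2 : ℤ)
    (hgood : goodP C1 M P) (hD : 0 < D) (hQ : 0 < Q) (hPQ : ∀ p ∈ P, ¬ p ∣ Q)
    (hQL : (Q : ℝ) ≤ (Real.log M) ^ 2) (hcop : IsCoprime (w1 ^ 2 + w2 ^ 2) (Q : ℤ))
    (hl : 200 ≤ Real.log (Real.log M)) (j : ℕ)
    (hjL : (j : ℝ) ≤ 2 * Real.log M) (S : Finset (ℤ × ℤ))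
    (hS : ∀ s ∈ S, LL Q s ∧ (Q : ℤ) ^ 2 ≤ 4 * (s.1 ^ 2 + s.2 ^ 2) ∧
      (4 : ℤ) ^ j ≤ s.1 ^ 2 + s.2 ^ 2 ∧ s.1 ^ 2 + s.2 ^ 2 < (4 : ℤ) ^ (j + 1) ∧
      4 ^ j ≤ 2 * Q * D * M) :
    ∑ s ∈ S, ∑ r ∈ rset Q D M w1 w2 s,
        (1 / 2 : ℝ) ^ (om P (s.1 * r.1 - s.2 * r.2) (s.1 * r.2 + s.2 * r.1))
      ≤ 57600 * (Real.exp (1 / 2) * Real.exp 1) * D ^ 2 * M ^ 2 / Q *
          Real.exp (-(1 / 2) * ∑ p ∈ P, 2 / (p : ℝ)) * ms_b C1 (Real.log (Real.log M)) j := by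
  have hQ' : (0 : ℝ) < Q := by exact_mod_cast hQ
  rcases S.eq_empty_or_nonempty with rfl | ⟨s0, hs0⟩
  · rw [Finset.sum_empty]
    have := ms_b_nonneg C1 (Real.log (Real.log (M : ℝ))) j
    positivity
  obtain ⟨-, h02, h03, h04, hj⟩ := hS s0 hs0
  have hQj : Q ≤ 4 * 2 ^ j := by
    have h1 : (Q : ℤ) ^ 2 ≤ (4 * 2 ^ j) ^ 2 := by
      have h44 : (4 : ℤ) ^ (j + 1) = 4 * (2 ^ j) ^ 2 := by
        rw [pow_succ, ← pow_mul, mul_comm j 2, pow_mul]; norm_num; ring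
      rw [h44] at h04
      nlinarith
    have h2 : (Q : ℤ) ≤ 4 * 2 ^ j :=
      (pow_le_pow_iff_left₀ (by positivity) (by positivity) (by norm_num)).mp h1
    exact_mod_cast h2
  set A := ∑ p ∈ P, 2 / (p : ℝ) with hA
  set c : ℝ := 3 * (5 * D * M / 2 ^ j) ^ 2 * (Real.exp (1 / 2) * Real.exp (-(1 / 2) * A)) with hc
  have hc0 : 0 ≤ c := by positivity
  have h1 : ∑ s ∈ S, ∑ r ∈ rset Q D M w1 w2 s,
        (1 / 2 : ℝ) ^ (om P (s.1 * r.1 - s.2 * r.2) (s.1 * r.2 + s.2 * r.1)) ≤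
      ∑ s ∈ S, c * ∏ p ∈ P.filter (fun p : ℕ => (p : ℤ) ∣ s.1 ^ 2 + s.2 ^ 2),
        (1 / 2 * Real.exp (g p / 2)) :=
    Finset.sum_le_sum fun s hs => ms_inner hINNER C1 D M Q P w1 w2 hgood hD hQ hPQ hQL hcop hl j hj s
      (hS s hs).2.2.1
  have hsub : S ⊆ (sq (2 ^ (j + 1))).filter (LL Q) := by
    intro s hs
    obtain ⟨a1, a2, a3, a4, -⟩ := hS s hs
    rw [Finset.mem_filter]
    refine ⟨?_, a1⟩
    have h44 : (4 : ℤ) ^ (j + 1) = (2 ^ (j + 1)) ^ 2 := by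
      rw [← pow_mul, mul_comm, pow_mul]; norm_num
    have key : ∀ x : ℤ, x ^ 2 ≤ s.1 ^ 2 + s.2 ^ 2 → |x| ≤ ((2 ^ (j + 1) : ℕ) : ℤ) := by
      intro x hx
      have h5 : |x| ^ 2 ≤ (2 ^ (j + 1)) ^ 2 := by
        rw [sq_abs, ← h44]; linarith
      have h6 : |x| ≤ 2 ^ (j + 1) :=
        (pow_le_pow_iff_left₀ (abs_nonneg x) (by positivity) (by norm_num)).mp h5
      push_cast; exact h6
    have k1 := abs_le.mp (key s.1 (by nlinarith [sq_nonneg s.2]))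
    have k2 := abs_le.mp (key s.2 (by nlinarith [sq_nonneg s.1]))
    unfold sq
    rw [Finset.mem_product, Finset.mem_Icc, Finset.mem_Icc]
    exact ⟨k1, k2⟩
  have h2 : ∑ s ∈ S, c * ∏ p ∈ P.filter (fun p : ℕ => (p : ℤ) ∣ s.1 ^ 2 + s.2 ^ 2),
        (1 / 2 * Real.exp (g p / 2)) ≤
      c * ∑ s ∈ (sq (2 ^ (j + 1))).filter (LL Q),
        ∏ p ∈ P.filter (fun p : ℕ => (p : ℤ) ∣ s.1 ^ 2 + s.2 ^ 2), (1 / 2 * Real.exp (g p / 2)) := by
    rw [← Finset.mul_sum]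
    apply mul_le_mul_of_nonneg_left _ hc0
    exact Finset.sum_le_sum_of_subset_of_nonneg hsub
      (fun s _ _ => Finset.prod_nonneg fun p _ => ms_factor_nonneg p)
  have h3 := ms_outer hOUTER hOUTER0 C1 hC1 M Q P hgood hQ hPQ hQL hl j hjL hQj
  refine h1.trans (h2.trans ((mul_le_mul_of_nonneg_left h3 hc0).trans (le_of_eq ?_)))
  rw [hc]
  have h2j : (2 : ℝ) ^ j ≠ 0 := by positivity
  field_simp
  ring

theorem ms_inv_sqrt (J : ℕ) :
    ∑ j ∈ range (J + 1), 1 / Real.sqrt (j : ℝ) ≤ 2 * Real.sqrt J := by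
  induction J with
  | zero => simp
  | succ J ih =>
    rw [Finset.sum_range_succ]
    have h1 : 1 / Real.sqrt ((J + 1 : ℕ) : ℝ) ≤
        2 * Real.sqrt ((J + 1 : ℕ) : ℝ) - 2 * Real.sqrt (J : ℝ) := by
      have hJ : (0 : ℝ) ≤ J := Nat.cast_nonneg J
      have hpos : 0 < Real.sqrt ((J + 1 : ℕ) : ℝ) := Real.sqrt_pos.mpr (by positivity)
      rw [div_le_iff₀ hpos]
      have e1 : Real.sqrt ((J + 1 : ℕ) : ℝ) ^ 2 = J + 1 := by
        rw [Real.sq_sqrt (by positivity)]; push_cast; ring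
      have e2 : Real.sqrt (J : ℝ) ^ 2 = J := Real.sq_sqrt hJ
      nlinarith [sq_nonneg (Real.sqrt ((J + 1 : ℕ) : ℝ) - Real.sqrt (J : ℝ))]
    linarith

theorem ms_sum_b (C1 l L : ℝ) (hC1 : 0 < C1) (hl : 200 ≤ l) (J : ℕ) (hJ : (J : ℝ) ≤ 2 * L) :
    ∑ j ∈ range (J + 1), ms_b C1 l j ≤
      (300 * l ^ 2 + 1) + Real.sqrt (300 * C1 * l ^ 3) * (2 * Real.sqrt (2 * L)) := by
  have h1 : ∀ j ∈ range (J + 1), ms_b C1 l j ≤ (if (j : ℝ) < 300 * l ^ 2 then (1 : ℝ) else 0) +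
      Real.sqrt (300 * C1 * l ^ 3) * (1 / Real.sqrt (j : ℝ)) := by
    intro j _
    unfold ms_b
    split_ifs with h
    · have : 0 ≤ Real.sqrt (300 * C1 * l ^ 3) * (1 / Real.sqrt (j : ℝ)) := by positivity
      linarith
    · rw [zero_add, Real.sqrt_div (by positivity)]
      apply le_of_eq; ring
  refine (Finset.sum_le_sum h1).trans ?_
  rw [Finset.sum_add_distrib, ← Finset.mul_sum]
  apply add_le_add
  · rw [Finset.sum_ite, Finset.sum_const_zero, add_zero, Finset.sum_const, nsmul_eq_mul, mul_one]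
    have hsub : (range (J + 1)).filter (fun j : ℕ => (j : ℝ) < 300 * l ^ 2) ⊆
        range ⌈300 * l ^ 2⌉₊ := by
      intro j hj
      rw [Finset.mem_filter] at hj
      rw [Finset.mem_range]
      exact_mod_cast hj.2.trans_le (Nat.le_ceil _)
    have h2 := Finset.card_le_card hsub
    rw [Finset.card_range] at h2
    have h3 : (⌈300 * l ^ 2⌉₊ : ℝ) < 300 * l ^ 2 + 1 := Nat.ceil_lt_add_one (by positivity)
    have h4 : (((range (J + 1)).filter (fun j : ℕ => (j : ℝ) < 300 * l ^ 2)).card : ℝ) ≤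
        (⌈300 * l ^ 2⌉₊ : ℝ) := by exact_mod_cast h2
    linarith
  · apply mul_le_mul_of_nonneg_left _ (Real.sqrt_nonneg _)
    refine (ms_inv_sqrt J).trans ?_
    apply mul_le_mul_of_nonneg_left _ (by norm_num)
    exact Real.sqrt_le_sqrt hJ

theorem ms_final (C1 l L : ℝ) (hC1 : 0 < C1) (hl : 200 ≤ l) (hL : 1 ≤ L) :
    Real.sqrt (C1 * l ^ 3 / L) *
      ((300 * l ^ 2 + 1) + Real.sqrt (300 * C1 * l ^ 3) * (2 * Real.sqrt (2 * L))) ≤
      (301 * Real.sqrt C1 + 49 * C1) * l ^ 4 := by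
  have hl0 : 0 < l := by linarith
  have hL0 : 0 < L := by linarith
  have h1 : Real.sqrt (C1 * l ^ 3 / L) ≤ Real.sqrt C1 * l ^ 2 := by
    have h2 : C1 * l ^ 3 / L ≤ C1 * (l ^ 2) ^ 2 := by
      rw [div_le_iff₀ hL0]
      have h3 : l ^ 3 ≤ l ^ 4 := by nlinarith [pow_pos hl0 3]
      have h4 : l ^ 4 ≤ l ^ 4 * L := by nlinarith [pow_pos hl0 4]
      calc C1 * l ^ 3 ≤ C1 * (l ^ 4 * L) := mul_le_mul_of_nonneg_left (h3.trans h4) hC1.le
        _ = C1 * (l ^ 2) ^ 2 * L := by ring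
    calc Real.sqrt (C1 * l ^ 3 / L) ≤ Real.sqrt (C1 * (l ^ 2) ^ 2) := Real.sqrt_le_sqrt h2
      _ = Real.sqrt C1 * l ^ 2 := by
          rw [Real.sqrt_mul hC1.le, Real.sqrt_sq (by positivity)]
  have ha : Real.sqrt (C1 * l ^ 3 / L) * (300 * l ^ 2 + 1) ≤ 301 * Real.sqrt C1 * l ^ 4 := by
    have h5 : 300 * l ^ 2 + 1 ≤ 301 * l ^ 2 := by nlinarith
    calc Real.sqrt (C1 * l ^ 3 / L) * (300 * l ^ 2 + 1) ≤
          (Real.sqrt C1 * l ^ 2) * (301 * l ^ 2) :=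
          mul_le_mul h1 h5 (by positivity) (by positivity)
      _ = 301 * Real.sqrt C1 * l ^ 4 := by ring
  have hb : Real.sqrt (C1 * l ^ 3 / L) * (Real.sqrt (300 * C1 * l ^ 3) * (2 * Real.sqrt (2 * L))) ≤
      49 * C1 * l ^ 4 := by
    have h6 : Real.sqrt (C1 * l ^ 3 / L) * (Real.sqrt (300 * C1 * l ^ 3) *
        (2 * Real.sqrt (2 * L))) = 2 * Real.sqrt (600 * (C1 * l ^ 3) ^ 2) := by
      have h7 : 600 * (C1 * l ^ 3) ^ 2 = (C1 * l ^ 3 / L) * ((300 * C1 * l ^ 3) * (2 * L)) := by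
        field_simp
        ring
      have h11 : Real.sqrt ((C1 * l ^ 3 / L) * ((300 * C1 * l ^ 3) * (2 * L))) =
          Real.sqrt (C1 * l ^ 3 / L) * (Real.sqrt (300 * C1 * l ^ 3) * Real.sqrt (2 * L)) := by
        rw [Real.sqrt_mul (x := C1 * l ^ 3 / L) (by positivity) ((300 * C1 * l ^ 3) * (2 * L)),
          Real.sqrt_mul (x := 300 * C1 * l ^ 3) (by positivity) (2 * L)]
      rw [h7, h11]
      ring
    rw [h6]
    have h8 : Real.sqrt (600 * (C1 * l ^ 3) ^ 2) ≤ 49 / 2 * (C1 * l ^ 3) := by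
      apply Real.sqrt_le_iff.mpr
      refine ⟨by positivity, ?_⟩
      have : 0 ≤ (C1 * l ^ 3) ^ 2 := sq_nonneg _
      nlinarith
    have h9 : l ^ 3 ≤ l ^ 4 := by nlinarith [pow_pos hl0 3]
    have h10 : C1 * l ^ 3 ≤ C1 * l ^ 4 := mul_le_mul_of_nonneg_left h9 hC1.le
    linarith
  rw [mul_add]
  linarith

theorem ms_jbound (D M Q j : ℕ) (hD : 0 < D) (hQ : 0 < Q) (hQL : (Q : ℝ) ≤ (Real.log M) ^ 2)
    (hl : 200 ≤ Real.log (Real.log M)) (hLD : 2 * Real.log (2 * D) ≤ Real.log M)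
    (hj : 4 ^ j ≤ 2 * Q * D * M) : (j : ℝ) ≤ 2 * Real.log M := by
  obtain ⟨hb1, hb2, hb3, hb4⟩ := ms_big M hl
  set L := Real.log (M : ℝ) with hL
  set l := Real.log L with hldef
  have hD' : (0 : ℝ) < 2 * D := by positivity
  have rj : (4 : ℝ) ^ j ≤ 2 * Q * D * M := by exact_mod_cast hj
  have h1 : Real.exp (j : ℝ) ≤ (4 : ℝ) ^ j := by
    have h2 : Real.exp (j : ℝ) = (Real.exp 1) ^ j := by rw [← Real.exp_nat_mul]; simp
    rw [h2]
    apply pow_le_pow_left₀ (Real.exp_pos _).le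
    have := Real.exp_one_lt_d9
    linarith
  have h3 : (Q : ℝ) ≤ Real.exp (2 * l) := by
    calc (Q : ℝ) ≤ L ^ 2 := hQL
      _ = Real.exp (2 * l) := by
          rw [← hb2, ← Real.exp_nat_mul]; push_cast; rfl
  have h4 : Real.exp (j : ℝ) ≤ Real.exp (Real.log (2 * D) + 2 * l + L) := by
    calc Real.exp (j : ℝ) ≤ 2 * Q * D * M := h1.trans rj
      _ = (2 * D) * Q * M := by ring
      _ ≤ (2 * D) * Real.exp (2 * l) * M := by
          apply mul_le_mul_of_nonneg_right _ (Nat.cast_nonneg M)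
          exact mul_le_mul_of_nonneg_left h3 hD'.le
      _ = Real.exp (Real.log (2 * D) + 2 * l + L) := by
          rw [Real.exp_add, Real.exp_add, Real.exp_log hD', hb3]
  have h5 := Real.exp_le_exp.mp h4
  have h6 : 4 * l ≤ L := by nlinarith
  linarith

/-- TARGET: prove this. Do not change the definitions above. Helper lemmas may be added before it. -/
theorem MSUM_thm (hINNER : INNER_stmt) (hOUTER : OUTER_stmt) (hOUTER0 : OUTER0_stmt) : MSUM_stmt := by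
  intro C1 D hC1 hD
  -- large `M`
  have hlim1 : Filter.Tendsto (fun M : ℕ => Real.log (M : ℝ)) Filter.atTop Filter.atTop :=
    Real.tendsto_log_atTop.comp tendsto_natCast_atTop_atTop
  have hlim2 : Filter.Tendsto (fun M : ℕ => Real.log (Real.log (M : ℝ))) Filter.atTop Filter.atTop :=
    Real.tendsto_log_atTop.comp hlim1
  obtain ⟨M1, hM1⟩ := Filter.eventually_atTop.mp (hlim2.eventually_ge_atTop 200)
  obtain ⟨M2, hM2⟩ := Filter.eventually_atTop.mp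
    (hlim1.eventually_ge_atTop (2 * Real.log (2 * (D : ℝ))))
  refine ⟨57600 * (Real.exp (1 / 2) * Real.exp 1) * D ^ 2 * (301 * Real.sqrt C1 + 49 * C1),
    max M1 M2, by positivity, ?_⟩
  intro M hM P hgood Q w1 w2 hQ hPQ hQL hcop
  have hl : 200 ≤ Real.log (Real.log (M : ℝ)) := hM1 M ((le_max_left _ _).trans hM)
  have hLD : 2 * Real.log (2 * (D : ℝ)) ≤ Real.log (M : ℝ) := hM2 M ((le_max_right _ _).trans hM)
  obtain ⟨hb1, hb2, hb3, hb4⟩ := ms_big M hl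
  have hQ' : (0 : ℝ) < Q := by exact_mod_cast hQ
  set F : ℤ × ℤ → ℝ := fun s => ∑ r ∈ rset Q D M w1 w2 s,
    (1 / 2 : ℝ) ^ (om P (s.1 * r.1 - s.2 * r.2) (s.1 * r.2 + s.2 * r.1)) with hF
  set T := (sq (2 * Q * D * M)).filter
    (fun s => LL Q s ∧ (Q : ℤ) ^ 2 ≤ 4 * (s.1 ^ 2 + s.2 ^ 2)) with hT
  set K : ℝ := 57600 * (Real.exp (1 / 2) * Real.exp 1) * D ^ 2 * M ^ 2 / Q with hK
  set E : ℝ := Real.exp (-(1 / 2) * ∑ p ∈ P, 2 / (p : ℝ)) with hE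
  set J := ⌊2 * Real.log (M : ℝ)⌋₊ with hJdef
  set jj : ℤ × ℤ → ℕ := fun s => Nat.log 4 (s.1 ^ 2 + s.2 ^ 2).toNat with hjj
  set T' := T.filter (fun s => (rset Q D M w1 w2 s).Nonempty) with hT'
  -- facts on the elements of `T'`
  have hfacts : ∀ s ∈ T', LL Q s ∧ (Q : ℤ) ^ 2 ≤ 4 * (s.1 ^ 2 + s.2 ^ 2) ∧
      (4 : ℤ) ^ (jj s) ≤ s.1 ^ 2 + s.2 ^ 2 ∧ s.1 ^ 2 + s.2 ^ 2 < (4 : ℤ) ^ (jj s + 1) ∧
      4 ^ (jj s) ≤ 2 * Q * D * M := by
    intro s hs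
    rw [hT', Finset.mem_filter] at hs
    obtain ⟨hs1, r, hr⟩ := hs
    rw [hT, Finset.mem_filter] at hs1
    obtain ⟨-, hLL, hQs⟩ := hs1
    set n : ℤ := s.1 ^ 2 + s.2 ^ 2 with hn
    have hQ1 : (1 : ℤ) ≤ (Q : ℤ) ^ 2 := by
      have : (1 : ℤ) ≤ Q := by exact_mod_cast hQ
      nlinarith
    have hn1 : 1 ≤ n := by omega
    have hn0 : n.toNat ≠ 0 := by omega
    have hnn : ((n.toNat : ℕ) : ℤ) = n := Int.toNat_of_nonneg (by omega)
    have l1 : 4 ^ (jj s) ≤ n.toNat := Nat.pow_log_le_self 4 hn0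
    have l2 : n.toNat < 4 ^ (jj s + 1) := Nat.lt_pow_succ_log_self (by norm_num) _
    have l1' : (4 : ℤ) ^ (jj s) ≤ n := by rw [← hnn]; exact_mod_cast l1
    have l2' : n < (4 : ℤ) ^ (jj s + 1) := by rw [← hnn]; exact_mod_cast l2
    unfold rset at hr
    rw [Finset.mem_filter] at hr
    obtain ⟨-, hr1, hr2, -⟩ := hr
    have h3 : n ^ 2 ≤ (2 * (Q * D * M : ℕ) : ℤ) ^ 2 := by
      calc n ^ 2 = n * n := by ring
        _ ≤ n * (r.1 ^ 2 + r.2 ^ 2) := mul_le_mul_of_nonneg_left hr1 (by omega)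
        _ ≤ 2 * ((Q * D * M : ℕ) : ℤ) ^ 2 := hr2
        _ ≤ (2 * (Q * D * M : ℕ) : ℤ) ^ 2 := by nlinarith [sq_nonneg ((Q * D * M : ℕ) : ℤ)]
    have h4 : n ≤ 2 * ((Q * D * M : ℕ) : ℤ) :=
      (pow_le_pow_iff_left₀ (by omega) (by positivity) (by norm_num)).mp h3
    refine ⟨hLL, hQs, l1', l2', ?_⟩
    have h5 : (4 : ℤ) ^ (jj s) ≤ ((2 * Q * D * M : ℕ) : ℤ) := by
      calc (4 : ℤ) ^ (jj s) ≤ n := l1'
        _ ≤ 2 * ((Q * D * M : ℕ) : ℤ) := h4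
        _ = ((2 * Q * D * M : ℕ) : ℤ) := by push_cast; ring
    exact_mod_cast h5
  have hjbd : ∀ s ∈ T', jj s ∈ range (J + 1) := by
    intro s hs
    rw [Finset.mem_range]
    have h1 := ms_jbound D M Q (jj s) hD hQ hQL hl hLD (hfacts s hs).2.2.2.2
    exact Nat.lt_succ_of_le (Nat.le_floor h1)
  have hsum1 : ∑ s ∈ T, F s = ∑ s ∈ T', F s := by
    rw [hT']
    refine (Finset.sum_filter_of_ne ?_).symm
    intro s _ hne
    by_contra hcon
    rw [Finset.not_nonempty_iff_eq_empty] at hcon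
    apply hne
    simp only [hF]
    rw [hcon, Finset.sum_empty]
  have hsum2 : ∑ s ∈ T', F s = ∑ j ∈ range (J + 1), ∑ s ∈ T'.filter (fun s => jj s = j), F s :=
    (Finset.sum_fiberwise_of_maps_to hjbd F).symm
  have hblock : ∀ j ∈ range (J + 1), ∑ s ∈ T'.filter (fun s => jj s = j), F s ≤
      K * E * ms_b C1 (Real.log (Real.log (M : ℝ))) j := by
    intro j hj
    have hjL : (j : ℝ) ≤ 2 * Real.log (M : ℝ) := by
      have h1 : j ≤ J := Nat.lt_succ_iff.mp (Finset.mem_range.mp hj)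
      calc (j : ℝ) ≤ (J : ℝ) := by exact_mod_cast h1
        _ ≤ 2 * Real.log (M : ℝ) := Nat.floor_le (by linarith)
    apply ms_block hINNER hOUTER hOUTER0 C1 hC1 D M Q P w1 w2 hgood hD hQ hPQ hQL hcop hl j hjL
    intro s hs
    rw [Finset.mem_filter] at hs
    obtain ⟨hs1, hs2⟩ := hs
    have := hfacts s hs1
    rw [hs2] at this
    exact this
  have hE2 : E ≤ Real.sqrt (C1 * (Real.log (Real.log (M : ℝ))) ^ 3 / Real.log (M : ℝ)) := by
    obtain ⟨hg1, hg2, hg3⟩ := hgood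
    set L := Real.log (M : ℝ) with hL
    set l := Real.log L with hldef
    have hL0 : 0 < L := by linarith
    have hl0 : 0 < l := by linarith
    have hY : 2 ≤ Real.exp (L / l ^ 2) := by
      have h1 : 1 ≤ L / l ^ 2 := by rw [one_le_div (by positivity)]; exact hb1
      have h2 := Real.add_one_le_exp (L / l ^ 2)
      linarith
    have h3 := hg3 (Real.exp (L / l ^ 2)) hY le_rfl
    rw [Real.log_exp, Finset.filter_true_of_mem (fun p hp => (hg1 p hp).2)] at h3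
    set A := ∑ p ∈ P, 2 / (p : ℝ) with hA
    have h4 : Real.exp (-A) ≤ C1 * l ^ 3 / L := by
      rw [le_div_iff₀ hL0]
      rw [div_le_iff₀ (by positivity)] at h3
      have h5 : Real.exp (-A) * Real.exp A = 1 := by rw [← Real.exp_add]; simp
      calc Real.exp (-A) * L ≤ Real.exp (-A) * (C1 * l * Real.exp A * l ^ 2) :=
            mul_le_mul_of_nonneg_left h3 (Real.exp_pos _).le
        _ = (Real.exp (-A) * Real.exp A) * (C1 * l ^ 3) := by ring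
        _ = C1 * l ^ 3 := by rw [h5, one_mul]
    apply Real.le_sqrt_of_sq_le
    calc E ^ 2 = Real.exp (-A) := by
          rw [hE, ← Real.exp_nat_mul]; congr 1; push_cast; ring
      _ ≤ _ := h4
  have hK0 : 0 ≤ K := by positivity
  have hJ : (J : ℝ) ≤ 2 * Real.log (M : ℝ) := Nat.floor_le (by linarith)
  have hsb := ms_sum_b C1 (Real.log (Real.log (M : ℝ))) (Real.log (M : ℝ)) hC1 hl J hJ
  have hfin := ms_final C1 (Real.log (Real.log (M : ℝ))) (Real.log (M : ℝ)) hC1 hl (by linarith)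
  have hsb0 : 0 ≤ ∑ j ∈ range (J + 1), ms_b C1 (Real.log (Real.log (M : ℝ))) j :=
    Finset.sum_nonneg fun j _ => ms_b_nonneg _ _ j
  calc ∑ s ∈ T, F s = ∑ j ∈ range (J + 1), ∑ s ∈ T'.filter (fun s => jj s = j), F s := by
        rw [hsum1, hsum2]
    _ ≤ ∑ j ∈ range (J + 1), K * E * ms_b C1 (Real.log (Real.log (M : ℝ))) j :=
        Finset.sum_le_sum hblock
    _ = K * (E * ∑ j ∈ range (J + 1), ms_b C1 (Real.log (Real.log (M : ℝ))) j) := by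
        rw [← Finset.mul_sum, mul_assoc]
    _ ≤ K * ((301 * Real.sqrt C1 + 49 * C1) * (Real.log (Real.log (M : ℝ))) ^ 4) := by
        apply mul_le_mul_of_nonneg_left _ hK0
        exact (mul_le_mul hE2 hsb hsb0 (Real.sqrt_nonneg _)).trans hfin
    _ = _ := by rw [hK]; ring



end SMSUM
end DD106
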