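import Mathlib
import Pool.Agent.H106DD.Defs

set_option autoImplicit false
open Finset

namespace DD106
namespace SNT

theorem A_large106 (C1 : ℝ) (hC1 : 0 < C1) (T : ℝ) : ∃ M0 : ℕ, ∀ M : ℕ, M0 ≤ M →
    (3 ≤ M ∧ T ≤ Real.log (Real.log M)) ∧
      ∀ P : Finset ℕ, goodP C1 M P → T ≤ ∑ p ∈ P, 2 / (p : ℝ) := by
  have hl : Filter.Tendsto (fun M : ℕ => Real.log (Real.log (M:ℝ))) Filter.atTop Filter.atTop :=
    Real.tendsto_log_atTop.comp (Real.tendsto_log_atTop.comp tendsto_natCast_atTop_atTop)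
  have h3 := (Real.tendsto_exp_div_pow_atTop 3).comp hl
  have h2 := (Real.tendsto_exp_div_pow_atTop 2).comp hl
  have e1 := hl.eventually_ge_atTop (max T 1)
  have e3 := h3.eventually_ge_atTop (C1 * Real.exp T)
  have e2 := h2.eventually_ge_atTop 1
  obtain ⟨M0, hM0⟩ := Filter.eventually_atTop.mp (e1.and (e2.and e3))
  refine ⟨max M0 3, fun M hM => ?_⟩
  have hM3 : 3 ≤ M := (le_max_right _ _).trans hM
  obtain ⟨g1, g2, g3⟩ := hM0 M ((le_max_left _ _).trans hM)
  have hlog : 0 < Real.log M := Real.log_pos (by exact_mod_cast (by omega : 1 < M))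
  simp only [Function.comp] at g2 g3
  rw [Real.exp_log hlog] at g2 g3
  set ell := Real.log (Real.log (M:ℝ)) with hell
  have hell1 : 1 ≤ ell := (le_max_right _ _).trans g1
  refine ⟨⟨hM3, (le_max_left _ _).trans g1⟩, fun P hP => ?_⟩
  obtain ⟨p1, _, p3⟩ := hP
  have hY : (2:ℝ) ≤ Real.exp (Real.log M / ell^2) := by
    have : (1:ℝ) + 1 ≤ Real.exp 1 := Real.add_one_le_exp 1
    have h' : Real.exp 1 ≤ Real.exp (Real.log M / ell^2) := Real.exp_le_exp.mpr g2
    linarith
  have hk := p3 _ hY le_rfl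
  rw [Real.log_exp] at hk
  have hfil : P.filter (fun p : ℕ => (p : ℝ) ≤ Real.exp (Real.log M / ell^2)) = P :=
    Finset.filter_true_of_mem fun p hp => (p1 p hp).2
  rw [hfil] at hk
  have hk2 : Real.log M / ell^3 ≤ C1 * Real.exp (∑ p ∈ P, 2 / (p : ℝ)) := by
    have he : Real.log M / ell^3 = Real.log M / ell^2 / ell := by
      rw [div_div, ← pow_succ]
    rw [he, div_le_iff₀ (by linarith)]
    linarith
  have : C1 * Real.exp T ≤ C1 * Real.exp (∑ p ∈ P, 2 / (p : ℝ)) := g3.trans hk2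
  exact Real.exp_le_exp.mp (le_of_mul_le_mul_left this hC1)

/-- integer version of `ff` -/
noncomputable def FI106 (K w1 w2 : ℤ) (v : ℤ × ℤ) : ℤ := (K * v.1 + w1)^2 + (K * v.2 + w2)^2

theorem ff_eq106 (q e : ℕ → ℕ) (D0 c c' : ℕ) (h1 : 0 < q c) (h2 : 0 < q c') (h3 : 0 < D0)
    (v : ℤ × ℤ) :
    ff q e D0 c c' v = ((FI106 (((q c)^(e c) * (q c')^(e c') * D0 : ℕ) : ℤ)
      ((D0:ℤ) * ((q c' : ℤ)^(e c') - (q c : ℤ)^(e c)))
      (((q c)^(e c) * (q c')^(e c') : ℕ) * ((c:ℤ) - c')) v : ℤ) : ℝ) /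
      (((q c)^(e c) * (q c')^(e c') * D0 : ℕ) : ℝ)^2 := by
  have a1 : ((q c : ℝ)^(e c)) ≠ 0 := by positivity
  have a2 : ((q c' : ℝ)^(e c')) ≠ 0 := by positivity
  have a3 : (D0 : ℝ) ≠ 0 := by positivity
  unfold ff tx ty FI106
  push_cast
  generalize (q c : ℝ)^(e c) = x at *
  generalize (q c' : ℝ)^(e c') = y at *
  field_simp
  ring

theorem coprime106 (a b e1 e2 : ℕ) (x : ℤ) (ha : a.Prime) (hb : b.Prime)
    (h1 : ¬ (a : ℤ) ∣ x) (h2 : ¬ (b : ℤ) ∣ x) :
    IsCoprime x (((a^e1 * b^e2 : ℕ) : ℤ)) := by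
  push_cast
  apply IsCoprime.mul_right
  · apply IsCoprime.pow_right
    exact ((Nat.prime_iff_prime_int.mp ha).coprime_iff_not_dvd.mpr h1).symm
  · apply IsCoprime.pow_right
    exact ((Nat.prime_iff_prime_int.mp hb).coprime_iff_not_dvd.mpr h2).symm

theorem dvd106 (a b D e1 e2 : ℕ) (ha : a.Prime) (hb : b.Prime) (hD : D.Prime) (hab : a ≠ b)
    (haD : a ≠ D) (he1 : 1 ≤ e1) : ¬ (a : ℤ) ∣ (D:ℤ) * ((b : ℤ)^e2 - (a : ℤ)^e1) := by
  intro h
  have hap := Nat.prime_iff_prime_int.mp ha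
  rcases hap.dvd_or_dvd h with h | h
  · have : a ∣ D := by exact_mod_cast h
    exact haD ((Nat.prime_dvd_prime_iff_eq ha hD).mp this)
  · have h' : (a:ℤ) ∣ (b:ℤ)^e2 := by
      have : (a:ℤ) ∣ (a:ℤ)^e1 := dvd_pow_self _ (by omega)
      have := dvd_add h this
      simpa using this
    have := hap.dvd_of_dvd_pow h'
    have : a ∣ b := by exact_mod_cast this
    exact hab ((Nat.prime_dvd_prime_iff_eq ha hb).mp this)

theorem dvd106' (a b D e1 e2 : ℕ) (ha : a.Prime) (hb : b.Prime) (hD : D.Prime) (hab : a ≠ b)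
    (haD : a ≠ D) (he1 : 1 ≤ e1) : ¬ (a : ℤ) ∣ (D:ℤ) * ((a : ℤ)^e1 - (b : ℤ)^e2) := by
  intro h
  apply dvd106 a b D e1 e2 ha hb hD hab haD he1
  have : (D:ℤ) * ((b : ℤ)^e2 - (a : ℤ)^e1) = -((D:ℤ) * ((a : ℤ)^e1 - (b : ℤ)^e2)) := by ring
  rw [this]
  exact (dvd_neg).mpr h

theorem P1_ndvd106 (p D : ℕ) (hp : P1 p) (hD : D.Prime) (hD4 : D % 4 = 3) : ¬ p ∣ D := by
  intro h
  have := (Nat.prime_dvd_prime_iff_eq hp.1 hD).mp h
  have h1 := hp.2
  omega

theorem exp_choice106 (x q : ℝ) (hx : 1 ≤ x) (hq : 1 < q) :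
    ∃ e : ℕ, 1 ≤ e ∧ x ≤ q^e ∧ q^e ≤ q * x := by
  obtain ⟨n, h1, h2⟩ := exists_nat_pow_near hx hq
  refine ⟨n+1, by omega, h2.le, ?_⟩
  rw [pow_succ, mul_comm]
  exact mul_le_mul_of_nonneg_left h1 (by linarith)

/-- TARGET: prove this. Do not change the definitions above. Helper lemmas may be added before it. -/
theorem NT_thm (hPS : PS_stmt) (hFEW : FEW_stmt) (hMANY : MANY_stmt) : NT_stmt := by
  intro C D0 q eps hset heps
  obtain ⟨hD0p, hD04, hCD0, hq, hqinj⟩ := hset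
  rcases Nat.eq_zero_or_pos C with hC | hC
  · subst hC
    exact ⟨0, fun M _ => ⟨fun _ => 1, fun c hc => absurd hc (by omega),
      fun c hc => absurd hc (by omega)⟩⟩
  have hCR : (0:ℝ) < C := by exact_mod_cast hC
  have hC1R : (1:ℝ) ≤ C := by exact_mod_cast hC
  obtain ⟨C1, hC1, Mps, hMps⟩ := hPS
  set eta : ℝ := 1/(4*C) with heta
  have heta0 : 0 < eta := by positivity
  have heta1 : eta < 1 := by
    rw [heta, div_lt_one (by positivity)]; linarith
  obtain ⟨Ma, hMa⟩ := hFEW C1 eta eps 1 hC1 heta0 heta1 heps one_pos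
  obtain ⟨Mb, hMb⟩ := hFEW C1 eta eps D0 hC1 heta0 heta1 heps hD0p.pos
  obtain ⟨Mc, hMc⟩ := hMANY C1 eta eps D0 hC1 heta0 heta1 heps hD0p.one_lt (by omega)
  set B : ℝ := ∑ c ∈ range C, (q c : ℝ) with hB
  have hqB : ∀ c < C, (q c : ℝ) ≤ B := fun c hc =>
    Finset.single_le_sum (f := fun c => (q c : ℝ)) (fun _ _ => Nat.cast_nonneg _)
      (Finset.mem_range.mpr hc)
  have hqB2 : ∀ c < C, ∀ c' < C, (q c : ℝ) * q c' ≤ B^2 + 1 := by
    intro c hc c' hc'
    have h1 := hqB c hc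
    have h2 := hqB c' hc'
    have h3 : (0:ℝ) ≤ q c := Nat.cast_nonneg _
    have h4 : (0:ℝ) ≤ q c' := Nat.cast_nonneg _
    have := mul_le_mul h1 h2 h4 (h3.trans h1)
    nlinarith
  have hlB : 0 ≤ Real.log (B^2+1) := Real.log_nonneg (by nlinarith [sq_nonneg B])
  have hlog2 : 0 < Real.log 2 := Real.log_pos (by norm_num)
  set T : ℝ := max (4*C/Real.log 2*Real.log (B^2+1)) (2*Real.log (B^2+1)) with hT
  have hT0 : 0 ≤ T := le_max_of_le_right (by positivity)
  obtain ⟨Md, hMd⟩ := A_large106 C1 hC1 T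
  refine ⟨Mps + Ma + Mb + Mc + Md, fun M hM => ?_⟩
  obtain ⟨P, hP⟩ := hMps M (by omega)
  obtain ⟨⟨hM3, hell⟩, hA⟩ := hMd M (by omega)
  have hA := hA P hP
  set A : ℝ := ∑ p ∈ P, 2 / (p : ℝ) with hAdef
  have hA0 : 0 ≤ A := hT0.trans hA
  have hAl : A ≤ Real.log (Real.log M) := hP.2.1
  have hPD0 : ∀ p ∈ P, ¬ p ∣ D0 := fun p hp => P1_ndvd106 p D0 (hP.1 p hp).1 hD0p hD04
  have two_rpow : ∀ x : ℝ, (2:ℝ)^x = Real.exp (Real.log 2 * x) := fun x =>
    Real.rpow_def_of_pos (by norm_num) x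
  have hBA : B^2 + 1 ≤ (2:ℝ)^(A/(4*C)) := by
    rw [two_rpow]
    have h1 : 4*C/Real.log 2*Real.log (B^2+1) ≤ A := (le_max_left _ _).trans hA
    have h2 : Real.log (B^2+1) ≤ Real.log 2 * (A/(4*C)) := by
      rw [div_mul_eq_mul_div, div_le_iff₀ hlog2] at h1
      rw [← mul_div_assoc, le_div_iff₀ (by positivity)]
      linarith
    calc B^2+1 = Real.exp (Real.log (B^2+1)) := (Real.exp_log (by positivity)).symm
      _ ≤ _ := Real.exp_le_exp.mpr h2
  have hlogM : 0 < Real.log M := Real.log_pos (by exact_mod_cast (by omega : 1 < M))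
  have hBell : B^2 + 1 ≤ Real.exp (0.6 * Real.log (Real.log M)) := by
    have h1 : 2*Real.log (B^2+1) ≤ Real.log (Real.log M) := (le_max_right _ _).trans hell
    have h2 : Real.log (B^2+1) ≤ 0.6 * Real.log (Real.log M) := by
      linarith
    calc B^2+1 = Real.exp (Real.log (B^2+1)) := (Real.exp_log (by positivity)).symm
      _ ≤ _ := Real.exp_le_exp.mpr h2
  have hq3 : ∀ c < C, 3 ≤ q c := by
    intro c hc
    have := (hq c hc).2.1
    omega
  have hchoice : ∀ c, ∃ e : ℕ, 1 ≤ e ∧ (c < C → (2:ℝ)^(((c:ℝ)+3/4)/C*A) ≤ (q c : ℝ)^e ∧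
      (q c : ℝ)^e ≤ q c * (2:ℝ)^(((c:ℝ)+3/4)/C*A)) := by
    intro c
    by_cases hc : c < C
    · obtain ⟨e, h1, h2, h3⟩ := exp_choice106 ((2:ℝ)^(((c:ℝ)+3/4)/C*A)) (q c)
        (Real.one_le_rpow (by norm_num) (by positivity))
        (by have := hq3 c hc; exact_mod_cast (by omega : 1 < q c))
      exact ⟨e, h1, fun _ => ⟨h2, h3⟩⟩
    · exact ⟨1, le_rfl, fun h => absurd h hc⟩
  choose e he1 he2 using hchoice
  refine ⟨e, fun c _ => he1 c, fun c hc c' hc' => ?_⟩
  have hqc0 : 0 < q c := by have := hq3 c hc; omega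
  have hqc'0 : 0 < q c' := by have := hq3 c' hc'; omega
  set Q : ℕ := (q c)^(e c) * (q c')^(e c') with hQdef
  have hQpos : 0 < Q := by positivity
  -- size bounds of Q
  have hQlow : (2:ℝ)^(((c:ℝ)+c'+3/2)/C*A) ≤ Q := by
    have h1 := (he2 c hc).1
    have h2 := (he2 c' hc').1
    have h3 := mul_le_mul h1 h2 (by positivity) (by positivity)
    rw [← Real.rpow_add (by norm_num)] at h3
    have e1 : ((c:ℝ)+3/4)/C*A + ((c':ℝ)+3/4)/C*A = ((c:ℝ)+c'+3/2)/C*A := by ring
    rw [e1] at h3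
    rw [hQdef]
    push_cast
    exact h3
  have hQup : (Q:ℝ) ≤ (B^2+1) * (2:ℝ)^(((c:ℝ)+c'+3/2)/C*A) := by
    have h1 := (he2 c hc).2
    have h2 := (he2 c' hc').2
    have h3 := mul_le_mul h1 h2 (by positivity) (by positivity)
    have e1 : ((c:ℝ)+c'+3/2)/C*A = ((c:ℝ)+3/4)/C*A + ((c':ℝ)+3/4)/C*A := by ring
    rw [e1, Real.rpow_add (by norm_num), hQdef]
    push_cast
    refine h3.trans ?_
    have h4 := hqB2 c hc c' hc'
    have h5 : (0:ℝ) ≤ (2:ℝ)^(((c:ℝ)+3/4)/C*A) * (2:ℝ)^(((c':ℝ)+3/4)/C*A) := by positivity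
    have h6 := mul_le_mul_of_nonneg_right h4 h5
    refine (le_of_eq ?_).trans h6
    ring
  set w1 : ℤ := (D0:ℤ) * ((q c' : ℤ)^(e c') - (q c : ℤ)^(e c)) with hw1
  set w2 : ℤ := (Q:ℤ) * ((c:ℤ) - c') with hw2
  have hff : ∀ v, ff q e D0 c c' v = ((FI106 ((Q * D0 : ℕ) : ℤ) w1 w2 v : ℤ) : ℝ) /
      ((Q * D0 : ℕ) : ℝ)^2 := fun v => ff_eq106 q e D0 c c' hqc0 hqc'0 hD0p.pos v
  have hKpos : (0:ℝ) < ((Q * D0 : ℕ) : ℝ)^2 := by
    have : 0 < Q * D0 := Nat.mul_pos hQpos hD0p.pos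
    positivity
  have hdle : ((q c : ℤ)^(e c)) ≤ Q ∧ ((q c' : ℤ)^(e c')) ≤ Q := by
    have h1 : (q c)^(e c) ≤ Q := Nat.le_mul_of_pos_right _ (by positivity)
    have h2 : (q c')^(e c') ≤ Q := Nat.le_mul_of_pos_left _ (by positivity)
    constructor
    · exact_mod_cast h1
    · exact_mod_cast h2
  have hdpos : (0:ℤ) < (q c : ℤ)^(e c) ∧ (0:ℤ) < (q c' : ℤ)^(e c') := by
    constructor <;> positivity
  have hw1b : |w1| ≤ ((Q * D0 : ℕ) : ℤ) := by
    rw [hw1, abs_mul, Nat.abs_cast]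
    push_cast
    rw [mul_comm]
    apply mul_le_mul_of_nonneg_right _ (Int.natCast_nonneg _)
    rw [abs_le]
    constructor <;> linarith [hdle.1, hdle.2, hdpos.1, hdpos.2]
  have hcD : |(c:ℤ) - c'| < D0 := by
    rw [abs_lt]
    constructor <;> omega
  have hw2b : |w2| ≤ ((Q * D0 : ℕ) : ℤ) := by
    rw [hw2, abs_mul, Nat.abs_cast]
    push_cast
    exact mul_le_mul_of_nonneg_left hcD.le (Int.natCast_nonneg _)
  constructor
  · intro hor
    by_cases hne : c = c'
    · -- the diagonal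
      subst hne
      have h := hMa M (by omega) P hP 3 7 0 0 0 0 (by norm_num) (by norm_num) (by norm_num)
        (by norm_num) (by norm_num)
        (fun p hp hd => (hP.1 p hp).1.1.one_lt.ne' (Nat.dvd_one.mp hd))
        (by
          simp only [pow_zero, mul_one, Nat.cast_one]
          exact Real.one_le_rpow (by norm_num) (mul_nonneg (by linarith) hA0))
        (by simp) (by simp) (by simpa using isCoprime_one_right)
      unfold fewP
      refine le_trans ?_ h
      have himg : (obox M).image (ff q e D0 c c) =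
          ((obox M).image (fun v : ℤ × ℤ =>
            (((3 ^ 0 * 7 ^ 0 * 1 : ℕ) : ℤ) * v.1 + 0) ^ 2
              + (((3 ^ 0 * 7 ^ 0 * 1 : ℕ) : ℤ) * v.2 + 0) ^ 2)).image (fun n : ℤ => (n : ℝ)) := by
        rw [Finset.image_image]
        apply Finset.image_congr
        intro v _
        simp only [Function.comp, ff]
        push_cast
        ring
      rw [himg]
      exact_mod_cast Finset.card_image_le
    · have hcc : c + c' + 2 ≤ C := by
        rcases hor with h | h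
        · exact absurd h hne
        · exact h
      have hqne : q c ≠ q c' := fun h => hne (hqinj c hc c' hc' h)
      have hcopr : IsCoprime (w1^2 + w2^2) (((q c)^(e c) * (q c')^(e c') : ℕ) : ℤ) := by
        apply coprime106 _ _ _ _ _ (hq c hc).1 (hq c' hc').1
        · intro h
          have h2 : (q c : ℤ) ∣ w2^2 := by
            apply dvd_pow _ two_ne_zero
            rw [hw2, hQdef]
            push_cast
            apply Dvd.dvd.mul_right
            apply Dvd.dvd.mul_right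
            exact dvd_pow_self _ (by have := he1 c; omega)
          have h3 : (q c : ℤ) ∣ w1^2 := (dvd_add_left h2).mp h
          have h4 := (Nat.prime_iff_prime_int.mp (hq c hc).1).dvd_of_dvd_pow h3
          exact dvd106 (q c) (q c') D0 (e c) (e c') (hq c hc).1 (hq c' hc').1 hD0p hqne
            (hq c hc).2.2 (he1 c) h4
        · intro h
          have h2 : (q c' : ℤ) ∣ w2^2 := by
            apply dvd_pow _ two_ne_zero
            rw [hw2, hQdef]
            push_cast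
            apply Dvd.dvd.mul_right
            apply Dvd.dvd.mul_left
            exact dvd_pow_self _ (by have := he1 c'; omega)
          have h3 : (q c' : ℤ) ∣ w1^2 := (dvd_add_left h2).mp h
          have h4 := (Nat.prime_iff_prime_int.mp (hq c' hc').1).dvd_of_dvd_pow h3
          exact dvd106' (q c') (q c) D0 (e c') (e c) (hq c' hc').1 (hq c hc).1 hD0p hqne.symm
            (hq c' hc').2.2 (he1 c') h4
      have hQ1 : (Q:ℝ) ≤ (2:ℝ)^((1-eta)*A) := by
        refine hQup.trans ?_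
        have h1 : ((c:ℝ)+c'+3/2)/C*A ≤ (1 - 1/(2*C))*A := by
          apply mul_le_mul_of_nonneg_right _ hA0
          rw [div_le_iff₀ hCR]
          have : ((c:ℝ) + c' + 2) ≤ C := by exact_mod_cast hcc
          have e : (1 - 1/(2*(C:ℝ)))*C = C - 1/2 := by field_simp
          rw [e]; linarith
        have h2 : (2:ℝ)^(((c:ℝ)+c'+3/2)/C*A) ≤ (2:ℝ)^((1 - 1/(2*C))*A) :=
          Real.rpow_le_rpow_of_exponent_le (by norm_num) h1
        have h3 := mul_le_mul hBA h2 (by positivity) (by positivity)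
        rw [← Real.rpow_add (by norm_num)] at h3
        refine h3.trans (le_of_eq ?_)
        congr 1
        rw [heta]
        field_simp
        ring
      have h := hMb M (by omega) P hP (q c) (q c') (e c) (e c') w1 w2 (hq c hc).1 (hq c' hc').1
        hqne (hq c hc).2.1 (hq c' hc').2.1 hPD0 hQ1 hw1b hw2b hcopr
      unfold fewP
      refine le_trans ?_ h
      have himg : (obox M).image (ff q e D0 c c') =
          ((obox M).image (fun v : ℤ × ℤ =>
            ((((q c)^(e c) * (q c')^(e c') * D0 : ℕ) : ℤ) * v.1 + w1) ^ 2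
              + ((((q c)^(e c) * (q c')^(e c') * D0 : ℕ) : ℤ) * v.2 + w2) ^ 2)).image
              (fun n : ℤ => (n : ℝ) / ((Q * D0 : ℕ) : ℝ)^2) := by
        rw [Finset.image_image]
        apply Finset.image_congr
        intro v _
        simp only [Function.comp]
        rw [hff v]
        rfl
      rw [himg]
      exact_mod_cast Finset.card_image_le
  · rintro ⟨hne, hcc⟩
    have hqne : q c ≠ q c' := fun h => hne (hqinj c hc c' hc' h)
    have hodd : ∀ c < C, (q c) % 2 = 1 := fun c hc => by have := (hq c hc).2.1; omega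
    have hQodd : Q % 2 = 1 := by
      rw [← Nat.odd_iff, hQdef]
      exact ((Nat.odd_iff.mpr (hodd c hc)).pow).mul ((Nat.odd_iff.mpr (hodd c' hc')).pow)
    have hPQ : ∀ p ∈ P, ¬ p ∣ D0 ∧ ¬ p ∣ Q := by
      intro p hp
      refine ⟨hPD0 p hp, ?_⟩
      intro h
      have hpp := (hP.1 p hp).1
      rcases (Nat.Prime.dvd_mul hpp.1).mp h with h | h
      · exact P1_ndvd106 p (q c) hpp (hq c hc).1 (hq c hc).2.1 (hpp.1.dvd_of_dvd_pow h)
      · exact P1_ndvd106 p (q c') hpp (hq c' hc').1 (hq c' hc').2.1 (hpp.1.dvd_of_dvd_pow h)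
    have hQ1 : (2:ℝ)^((1+eta)*A) ≤ Q := by
      refine le_trans ?_ hQlow
      apply Real.rpow_le_rpow_of_exponent_le (by norm_num)
      apply mul_le_mul_of_nonneg_right _ hA0
      rw [le_div_iff₀ hCR]
      have : (C:ℝ) ≤ c + c' + 1 := by exact_mod_cast hcc
      have e : (1 + eta)*C = C + 1/4 := by rw [heta]; field_simp
      rw [e]; linarith
    have hQ2 : (Q:ℝ) ≤ (Real.log M)^2 := by
      refine hQup.trans ?_
      have h1 : (2:ℝ)^(((c:ℝ)+c'+3/2)/C*A) ≤ Real.exp (1.4 * Real.log (Real.log M)) := by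
        rw [two_rpow]
        apply Real.exp_le_exp.mpr
        have hlt : Real.log 2 < 0.6931471808 := Real.log_two_lt_d9
        have h2 : ((c:ℝ)+c'+3/2)/C ≤ 2 := by
          rw [div_le_iff₀ hCR]
          have h3 : c + c' + 3 ≤ 2 * C := by omega
          have : (c:ℝ)+c'+3 ≤ 2*C := by exact_mod_cast h3
          linarith
        have h4 : ((c:ℝ)+c'+3/2)/C*A ≤ 2 * Real.log (Real.log M) :=
          mul_le_mul h2 hAl hA0 (by norm_num)
        have h5 : 0 ≤ ((c:ℝ)+c'+3/2)/C*A := by positivity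
        have h6 : 0 ≤ Real.log (Real.log M) := hA0.trans hAl
        calc Real.log 2 * (((c:ℝ)+c'+3/2)/C*A) ≤ 0.7 * (2 * Real.log (Real.log M)) :=
              mul_le_mul (by linarith) h4 h5 (by norm_num)
          _ = _ := by ring
      have h2 := mul_le_mul hBell h1 (by positivity) (by positivity)
      rw [← Real.exp_add] at h2
      refine h2.trans (le_of_eq ?_)
      rw [show 0.6 * Real.log (Real.log (M:ℝ)) + 1.4 * Real.log (Real.log (M:ℝ)) =
        Real.log (Real.log (M:ℝ)) + Real.log (Real.log (M:ℝ)) by ring, Real.exp_add,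
        Real.exp_log hlogM]
      ring
    have hc1 : IsCoprime w1 (Q:ℤ) := by
      apply coprime106 _ _ _ _ _ (hq c hc).1 (hq c' hc').1
      · exact dvd106 (q c) (q c') D0 (e c) (e c') (hq c hc).1 (hq c' hc').1 hD0p hqne
            (hq c hc).2.2 (he1 c)
      · exact dvd106' (q c') (q c) D0 (e c') (e c) (hq c' hc').1 (hq c hc).1 hD0p hqne.symm
            (hq c' hc').2.2 (he1 c')
    have hc2 : IsCoprime w2 (D0:ℤ) := by
      have hDp := Nat.prime_iff_prime_int.mp hD0p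
      apply IsCoprime.symm
      rw [hDp.coprime_iff_not_dvd]
      intro h
      rcases hDp.dvd_or_dvd h with h | h
      · have h' : D0 ∣ Q := by exact_mod_cast h
        rcases (Nat.Prime.dvd_mul hD0p).mp h' with h | h
        · exact (hq c hc).2.2 ((Nat.prime_dvd_prime_iff_eq hD0p (hq c hc).1).mp
            (hD0p.dvd_of_dvd_pow h)).symm
        · exact (hq c' hc').2.2 ((Nat.prime_dvd_prime_iff_eq hD0p (hq c' hc').1).mp
            (hD0p.dvd_of_dvd_pow h)).symm
      · have h0 : (c:ℤ) - c' ≠ 0 := by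
          intro h
          apply hne
          omega
        have := Int.eq_zero_of_abs_lt_dvd h (by simpa using hcD)
        exact h0 this
    have h := hMc M (by omega) P hP Q w1 w2 hQodd hPQ hQ1 hQ2 hw1b hw2b (dvd_mul_right _ _)
      hc1 (dvd_mul_right _ _) hc2
    unfold manyP
    refine le_trans ?_ h
    have hsub : ((obox M).filter (fun v : ℤ × ℤ => ∃ v' ∈ obox M, v' ≠ v ∧
        ff q e D0 c c' v' = ff q e D0 c c' v)) ⊆
        ((obox M).filter (fun v : ℤ × ℤ => ∃ v' ∈ obox M, v' ≠ v ∧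
        (((Q * D0 : ℕ) : ℤ) * v'.1 + w1) ^ 2 + (((Q * D0 : ℕ) : ℤ) * v'.2 + w2) ^ 2 =
        (((Q * D0 : ℕ) : ℤ) * v.1 + w1) ^ 2 + (((Q * D0 : ℕ) : ℤ) * v.2 + w2) ^ 2)) := by
      intro v hv
      rw [Finset.mem_filter] at hv ⊢
      obtain ⟨hv0, v', hv', hvne, hveq⟩ := hv
      refine ⟨hv0, v', hv', hvne, ?_⟩
      rw [hff, hff, div_left_inj' hKpos.ne'] at hveq
      have := Int.cast_injective hveq
      simpa only [FI106] using this
    exact_mod_cast Finset.card_le_card hsub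



end SNT
end DD106
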