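import Mathlib
import Pool.Agent.H106DD.Defs

set_option autoImplicit false
open Finset

namespace DD106
namespace SOUTER

theorem outer_g_le {p : ℕ} (hp : 5 ≤ p) : 0 ≤ g p ∧ g p ≤ 2 / (p : ℝ) := by
  have hp' : (5 : ℝ) ≤ p := by exact_mod_cast hp
  have hp0 : (0 : ℝ) < p := by linarith
  unfold g
  constructor
  · apply div_nonneg _ (by positivity)
    linarith
  · rw [div_le_div_iff₀ (by positivity) hp0]
    nlinarith

theorem outer_five {p : ℕ} (hp : P1 p) : 5 ≤ p := by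
  obtain ⟨h1, h2⟩ := hp
  have := h1.two_le
  omega

theorem outer_exp {x : ℝ} (h0 : 0 ≤ x) (h1 : x ≤ 1) : Real.exp x ≤ 1 + 2 * x := by
  have h := Real.abs_exp_sub_one_sub_id_le (x := x) (by rwa [abs_of_nonneg h0])
  have := (abs_le.1 h).2
  nlinarith

theorem outer_t {p : ℕ} (hp : 5 ≤ p) :
    0 ≤ 1 - 1 / 2 * Real.exp (g p / 2) ∧ 1 - 1 / 2 * Real.exp (g p / 2) ≤ 1 ∧
      1 / (p : ℝ) - (1 - 1 / 2 * Real.exp (g p / 2)) * g p ≤ 5 / 2 * ((p : ℝ) ^ 2)⁻¹ := by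
  obtain ⟨hg0, hg1⟩ := outer_g_le hp
  have hp' : (5 : ℝ) ≤ p := by exact_mod_cast hp
  have hp0 : (0 : ℝ) < p := by linarith
  have h2p : 2 / (p : ℝ) ≤ 2 / 5 := by
    apply div_le_div_of_nonneg_left (by norm_num) (by norm_num) hp'
  have he := outer_exp (x := g p / 2) (by linarith) (by linarith)
  have hepos := Real.exp_pos (g p / 2)
  refine ⟨by linarith, by linarith, ?_⟩
  have h1 : (1 - g p) / 2 * g p ≤ (1 - 1 / 2 * Real.exp (g p / 2)) * g p := by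
    apply mul_le_mul_of_nonneg_right _ hg0
    linarith
  have h2 : 1 / (p : ℝ) - (1 - g p) / 2 * g p ≤ 5 / 2 * ((p : ℝ) ^ 2)⁻¹ := by
    have h3 : g p = 2 / (p : ℝ) - ((p : ℝ) ^ 2)⁻¹ := by
      unfold g
      field_simp
    have h4 : g p ^ 2 ≤ 4 * ((p : ℝ) ^ 2)⁻¹ := by
      calc g p ^ 2 ≤ (2 / (p : ℝ)) ^ 2 := pow_le_pow_left₀ hg0 hg1 2
        _ = 4 * ((p : ℝ) ^ 2)⁻¹ := by field_simp; norm_num
    have h5 : 1 / (p : ℝ) - (1 - g p) / 2 * g p = 1 / (p : ℝ) - g p / 2 + g p ^ 2 / 2 := by ring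
    have h6 : 1 / (p : ℝ) - g p / 2 = ((p : ℝ) ^ 2)⁻¹ / 2 := by
      rw [h3]; ring
    rw [h5, h6]
    linarith
  linarith

theorem outer_sum (P : Finset ℕ) (hP : ∀ p ∈ P, 5 ≤ p) :
    ∑ p ∈ P, 5 / 2 * ((p : ℝ) ^ 2)⁻¹ ≤ 1 := by
  rw [← Finset.mul_sum]
  have h1 : P ⊆ Finset.Ioo 4 (P.sup id + 1) := by
    intro p hp
    rw [Finset.mem_Ioo]
    have := Finset.le_sup (f := id) hp
    simp only [id] at this
    have := hP p hp
    constructor
    · omega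
    · exact Nat.lt_succ_of_le (Finset.le_sup (f := id) hp)
  have h2 : ∑ p ∈ P, ((p : ℝ) ^ 2)⁻¹ ≤ ∑ p ∈ Finset.Ioo 4 (P.sup id + 1), ((p : ℝ) ^ 2)⁻¹ :=
    Finset.sum_le_sum_of_subset_of_nonneg h1 fun _ _ _ => by positivity
  have h3 := sum_Ioo_inv_sq_le (α := ℝ) 4 (P.sup id + 1)
  have h4 : (2 : ℝ) / ((4 : ℕ) + 1) = 2 / 5 := by norm_num
  rw [h4] at h3
  linarith

/-- class sums -/
theorem outer_class (hSL : SL_stmt) (P : Finset ℕ) (y l : ℝ) (Q sigma : ℕ) (t : ℕ → ℝ)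
    (hP : ∀ p ∈ P, P1 p ∧ ¬ p ∣ Q ∧ (p : ℝ) ≤ y) (ht : ∀ p ∈ P, 0 ≤ t p ∧ t p ≤ 1)
    (hy : 2 ≤ y) (hl : 1 ≤ l) (hs : (∑ p ∈ P, 2 / (p : ℝ)) ≤ l)
    (hQ : 0 < Q) (hR : y ^ (40 * l + 40) ≤ ((2 * sigma / Q + 1 : ℕ) : ℝ)) (a b : ℤ) :
    ∑ s ∈ (sq sigma).filter (fun s => s.1 % (Q : ℤ) = a ∧ s.2 % (Q : ℤ) = b), wprod P t s.1 s.2 ≤
      3 * ((2 * sigma / Q + 1 : ℕ) : ℝ) ^ 2 * Real.exp (-(∑ p ∈ P, t p * g p)) := by
  have hQ' : (0 : ℤ) < Q := by exact_mod_cast hQ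
  set R := 2 * sigma / Q + 1 with hRd
  set x0 : ℤ := -(((sigma : ℤ) + a) / Q) with hx0
  set y0 : ℤ := -(((sigma : ℤ) + b) / Q) with hy0
  have hkey := hSL P y l t Q a b x0 y0 R (fun p hp => ⟨(hP p hp).1, fun hd => (hP p hp).2.1
    (by exact_mod_cast hd), (hP p hp).2.2, ht p hp⟩) hy hl hs hR
  refine le_trans ?_ hkey
  have hrange : ∀ (c v : ℤ), -(sigma : ℤ) ≤ Q * v + c → Q * v + c ≤ sigma →
      -(((sigma : ℤ) + c) / Q) ≤ v ∧ v < -(((sigma : ℤ) + c) / Q) + R := by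
    intro c v h1 h2
    constructor
    · have : -v ≤ ((sigma : ℤ) + c) / Q := by
        rw [Int.le_ediv_iff_mul_le hQ']
        nlinarith
      linarith
    · have h3 : v + ((sigma : ℤ) + c) / Q ≤ 2 * (sigma : ℤ) / Q := by
        rw [Int.le_ediv_iff_mul_le hQ']
        have h4 : ((sigma : ℤ) + c) / Q * Q ≤ (sigma : ℤ) + c := Int.ediv_mul_le _ hQ'.ne'
        nlinarith
      have h5 : (R : ℤ) = 2 * (sigma : ℤ) / Q + 1 := by
        rw [hRd]; push_cast; rfl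
      rw [h5]
      linarith
  have hnn : ∀ u v : ℤ, 0 ≤ wprod P t u v := by
    intro u v
    apply Finset.prod_nonneg
    intro p hp
    have := (ht p (Finset.mem_filter.1 hp).1).2
    linarith
  have hrep : ∀ s ∈ (sq sigma).filter (fun s => s.1 % (Q : ℤ) = a ∧ s.2 % (Q : ℤ) = b),
      (Q : ℤ) * (s.1 / Q) + a = s.1 ∧ (Q : ℤ) * (s.2 / Q) + b = s.2 := by
    intro s hs
    obtain ⟨_, h1, h2⟩ := Finset.mem_filter.1 hs
    constructor
    · rw [← h1]; exact Int.mul_ediv_add_emod s.1 Q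
    · rw [← h2]; exact Int.mul_ediv_add_emod s.2 Q
  have hinj : Set.InjOn (fun s : ℤ × ℤ => (s.1 / (Q : ℤ), s.2 / (Q : ℤ)))
      ((sq sigma).filter (fun s => s.1 % (Q : ℤ) = a ∧ s.2 % (Q : ℤ) = b)) := by
    intro s hs s' hs' h
    have e1 := hrep s hs
    have e2 := hrep s' hs'
    have h1 : s.1 / (Q : ℤ) = s'.1 / (Q : ℤ) := congrArg Prod.fst h
    have h2 : s.2 / (Q : ℤ) = s'.2 / (Q : ℤ) := congrArg Prod.snd h
    apply Prod.ext
    · rw [← e1.1, ← e2.1, h1]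
    · rw [← e1.2, ← e2.2, h2]
  calc ∑ s ∈ (sq sigma).filter (fun s => s.1 % (Q : ℤ) = a ∧ s.2 % (Q : ℤ) = b), wprod P t s.1 s.2
      = ∑ s ∈ (sq sigma).filter (fun s => s.1 % (Q : ℤ) = a ∧ s.2 % (Q : ℤ) = b),
          wprod P t ((Q : ℤ) * (s.1 / Q) + a) ((Q : ℤ) * (s.2 / Q) + b) := by
        apply Finset.sum_congr rfl
        intro s hs
        rw [(hrep s hs).1, (hrep s hs).2]
    _ = ∑ v ∈ ((sq sigma).filter (fun s => s.1 % (Q : ℤ) = a ∧ s.2 % (Q : ℤ) = b)).image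
          (fun s : ℤ × ℤ => (s.1 / (Q : ℤ), s.2 / (Q : ℤ))),
          wprod P t ((Q : ℤ) * v.1 + a) ((Q : ℤ) * v.2 + b) := by
        rw [Finset.sum_image hinj]
    _ ≤ ∑ v ∈ cbox x0 y0 R, wprod P t ((Q : ℤ) * v.1 + a) ((Q : ℤ) * v.2 + b) := by
        apply Finset.sum_le_sum_of_subset_of_nonneg
        · intro v hv
          obtain ⟨s, hs, rfl⟩ := Finset.mem_image.1 hv
          have hsq := (Finset.mem_filter.1 hs).1
          obtain ⟨e1, e2⟩ := hrep s hs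
          unfold sq at hsq
          rw [Finset.mem_product, Finset.mem_Icc, Finset.mem_Icc] at hsq
          unfold cbox
          rw [Finset.mem_product, Finset.mem_Ico, Finset.mem_Ico]
          constructor
          · exact hrange a _ (by rw [e1]; exact hsq.1.1) (by rw [e1]; exact hsq.1.2)
          · exact hrange b _ (by rw [e2]; exact hsq.2.1) (by rw [e2]; exact hsq.2.2)
        · intro v _ _
          exact hnn _ _

/-- residues -/
def outer_cp (Q : ℕ) (j : ℕ × ℕ) : ℤ × ℤ :=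
  if j.1 = 0 then (0, (j.2 : ℤ)) else if j.1 = 1 then ((j.2 : ℤ), 0) else
    if j.1 = 2 then ((j.2 : ℤ), (j.2 : ℤ)) else ((j.2 : ℤ), (-(j.2 : ℤ)) % Q)

theorem outer_cover (Q : ℕ) (hQ : 0 < Q) (s : ℤ × ℤ) (hs : LL Q s) :
    ∃ j ∈ (Finset.range 4) ×ˢ (Finset.range Q), s.1 % (Q : ℤ) = (outer_cp Q j).1 ∧
      s.2 % (Q : ℤ) = (outer_cp Q j).2 := by
  have hQ' : (0 : ℤ) < Q := by exact_mod_cast hQ
  have hr : ∀ u : ℤ, (u % (Q : ℤ)).toNat ∈ Finset.range Q ∧ (((u % (Q : ℤ)).toNat : ℕ) : ℤ) = u % (Q : ℤ) := by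
    intro u
    have h1 := Int.emod_nonneg u hQ'.ne'
    have h2 := Int.emod_lt_of_pos u hQ'
    have h3 := Int.toNat_of_nonneg h1
    refine ⟨?_, h3⟩
    rw [Finset.mem_range]
    omega
  rcases hs with h | h | h | h
  · refine ⟨(0, (s.2 % (Q : ℤ)).toNat), ?_, ?_, ?_⟩
    · rw [Finset.mem_product]
      exact ⟨by simp, (hr s.2).1⟩
    · simp only [outer_cp, if_true]
      exact Int.emod_eq_zero_of_dvd h
    · simp only [outer_cp, if_true]
      exact (hr s.2).2.symm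
  · refine ⟨(1, (s.1 % (Q : ℤ)).toNat), ?_, ?_, ?_⟩
    · rw [Finset.mem_product]
      exact ⟨by simp, (hr s.1).1⟩
    · simp only [outer_cp, one_ne_zero, if_false, if_true]
      exact (hr s.1).2.symm
    · simp only [outer_cp, one_ne_zero, if_false, if_true]
      exact Int.emod_eq_zero_of_dvd h
  · refine ⟨(2, (s.1 % (Q : ℤ)).toNat), ?_, ?_, ?_⟩
    · rw [Finset.mem_product]
      exact ⟨by simp, (hr s.1).1⟩
    · simp only [outer_cp]
      exact (hr s.1).2.symm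
    · simp only [outer_cp]
      show s.2 % (Q : ℤ) = (((s.1 % (Q : ℤ)).toNat : ℕ) : ℤ)
      rw [(hr s.1).2]
      exact Int.modEq_iff_dvd.2 h
  · refine ⟨(3, (s.1 % (Q : ℤ)).toNat), ?_, ?_, ?_⟩
    · rw [Finset.mem_product]
      exact ⟨by simp, (hr s.1).1⟩
    · simp only [outer_cp]
      exact (hr s.1).2.symm
    · show s.2 % (Q : ℤ) = (-(((s.1 % (Q : ℤ)).toNat : ℕ) : ℤ)) % Q
      rw [(hr s.1).2]
      have h1 : -(s.1 % (Q : ℤ)) ≡ -s.1 [ZMOD Q] := (Int.mod_modEq s.1 Q).neg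
      have h2 : s.2 ≡ -s.1 [ZMOD Q] := by
        rw [Int.modEq_iff_dvd]
        have : -s.1 - s.2 = -(s.1 + s.2) := by ring
        rw [this]
        exact (dvd_neg).2 h
      exact h2.trans h1.symm

/-- TARGET: prove this. Do not change the definitions above. Helper lemmas may be added before it. -/
theorem OUTER_thm (hSL : SL_stmt) : OUTER_stmt := by
  intro P y l Q sigma hP hy hl hs hQ hR
  set t : ℕ → ℝ := fun p => 1 - 1 / 2 * Real.exp (g p / 2) with ht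
  have ht01 : ∀ p ∈ P, 0 ≤ t p ∧ t p ≤ 1 := fun p hp =>
    ⟨(outer_t (outer_five (hP p hp).1)).1, (outer_t (outer_five (hP p hp).1)).2.1⟩
  have hW : ∀ s : ℤ × ℤ, ∏ p ∈ P.filter (fun p : ℕ => (p : ℤ) ∣ s.1 ^ 2 + s.2 ^ 2),
      (1 / 2 * Real.exp (g p / 2)) = wprod P t s.1 s.2 := by
    intro s
    unfold wprod
    apply Finset.prod_congr rfl
    intro p _
    simp only [ht]
    ring
  simp_rw [hW]
  have hnn : ∀ u v : ℤ, 0 ≤ wprod P t u v := by
    intro u v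
    apply Finset.prod_nonneg
    intro p hp
    have := (ht01 p (Finset.mem_filter.1 hp).1).2
    linarith
  set J := (Finset.range 4) ×ˢ (Finset.range Q) with hJ
  set Bd : ℝ := 3 * ((2 * sigma / Q + 1 : ℕ) : ℝ) ^ 2 * Real.exp (-(∑ p ∈ P, t p * g p)) with hBd
  have h1 : ∑ s ∈ (sq sigma).filter (LL Q), wprod P t s.1 s.2 ≤
      ∑ s ∈ sq sigma, ∑ j ∈ J, if s.1 % (Q : ℤ) = (outer_cp Q j).1 ∧ s.2 % (Q : ℤ) = (outer_cp Q j).2
        then wprod P t s.1 s.2 else 0 := by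
    calc ∑ s ∈ (sq sigma).filter (LL Q), wprod P t s.1 s.2
        ≤ ∑ s ∈ (sq sigma).filter (LL Q), ∑ j ∈ J,
          if s.1 % (Q : ℤ) = (outer_cp Q j).1 ∧ s.2 % (Q : ℤ) = (outer_cp Q j).2
          then wprod P t s.1 s.2 else 0 := by
          apply Finset.sum_le_sum
          intro s hs
          obtain ⟨j, hj, hj2⟩ := outer_cover Q hQ s (Finset.mem_filter.1 hs).2
          have h2 := Finset.single_le_sum (f := fun j => if s.1 % (Q : ℤ) = (outer_cp Q j).1 ∧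
            s.2 % (Q : ℤ) = (outer_cp Q j).2 then wprod P t s.1 s.2 else 0) (s := J) (a := j)
            (fun i _ => by
              split_ifs
              · exact hnn _ _
              · exact le_rfl) hj
          simp only [if_pos hj2] at h2
          exact h2
      _ ≤ _ := by
          apply Finset.sum_le_sum_of_subset_of_nonneg (Finset.filter_subset _ _)
          intro s _ _
          apply Finset.sum_nonneg
          intro j _
          split_ifs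
          · exact hnn _ _
          · exact le_rfl
  have h2 : ∑ s ∈ sq sigma, ∑ j ∈ J, (if s.1 % (Q : ℤ) = (outer_cp Q j).1 ∧
      s.2 % (Q : ℤ) = (outer_cp Q j).2 then wprod P t s.1 s.2 else 0) ≤ J.card * Bd := by
    rw [Finset.sum_comm]
    have : ∀ j ∈ J, ∑ s ∈ sq sigma, (if s.1 % (Q : ℤ) = (outer_cp Q j).1 ∧
      s.2 % (Q : ℤ) = (outer_cp Q j).2 then wprod P t s.1 s.2 else 0) ≤ Bd := by
      intro j _
      rw [← Finset.sum_filter]
      exact outer_class hSL P y l Q sigma t hP ht01 hy hl hs hQ hR _ _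
    calc _ ≤ ∑ j ∈ J, Bd := Finset.sum_le_sum this
      _ = J.card * Bd := by rw [Finset.sum_const, nsmul_eq_mul]
  have hcard : (J.card : ℝ) = 4 * Q := by
    rw [hJ, Finset.card_product, Finset.card_range, Finset.card_range]
    push_cast
    ring
  have hexp : Real.exp (-(∑ p ∈ P, t p * g p)) ≤ Real.exp (1 - (1 / 2) * ∑ p ∈ P, 2 / (p : ℝ)) := by
    apply Real.exp_le_exp.2
    have h3 : ∑ p ∈ P, (1 / (p : ℝ) - t p * g p) ≤ 1 := by
      refine le_trans (Finset.sum_le_sum fun p hp => ?_) (outer_sum P fun p hp => outer_five (hP p hp).1)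
      exact (outer_t (outer_five (hP p hp).1)).2.2
    rw [Finset.sum_sub_distrib] at h3
    have h4 : (1 / 2) * ∑ p ∈ P, 2 / (p : ℝ) = ∑ p ∈ P, 1 / (p : ℝ) := by
      rw [Finset.mul_sum]
      apply Finset.sum_congr rfl
      intro p _
      ring
    rw [h4]
    linarith
  calc ∑ s ∈ (sq sigma).filter (LL Q), wprod P t s.1 s.2 ≤ J.card * Bd := h1.trans h2
    _ = 12 * (Q : ℝ) * ((2 * sigma / Q + 1 : ℕ) : ℝ) ^ 2 * Real.exp (-(∑ p ∈ P, t p * g p)) := by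
        rw [hcard, hBd]; ring
    _ ≤ _ := by
        apply mul_le_mul_of_nonneg_left hexp
        positivity



end SOUTER
end DD106
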