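import Mathlib
import Pool.Agent.H106DD.Defs

set_option autoImplicit false
open Finset

namespace DD106
namespace SOUTER0

theorem OUTER0_fib (Q sigma : ℕ) (hQ : 0 < Q) (c : ℤ) :
    ((Icc (-(sigma : ℤ)) sigma).filter (fun x => (Q : ℤ) ∣ x - c)).card ≤ 2 * sigma / Q + 1 := by
  have hQ' : (0 : ℤ) < Q := by exact_mod_cast hQ
  rw [← Finset.card_range (2 * sigma / Q + 1)]
  apply Finset.card_le_card_of_injOn (fun x : ℤ => ((x + (sigma : ℤ)) / (Q : ℤ)).toNat)
  · intro x hx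
    simp only [Finset.coe_filter, Finset.mem_Icc, Set.mem_setOf_eq] at hx
    obtain ⟨⟨h1, h2⟩, -⟩ := hx
    simp only [Finset.coe_range, Set.mem_Iio]
    have h3 : (x + sigma) / Q ≤ (2 * sigma : ℤ) / Q := Int.ediv_le_ediv hQ' (by linarith)
    have h4 : ((2 * sigma / Q : ℕ) : ℤ) = (2 * sigma : ℤ) / Q := by push_cast; rfl
    have h5 : 0 ≤ (x + sigma) / Q := Int.ediv_nonneg (by linarith) hQ'.le
    omega
  · intro x hx y hy hxy
    simp only [Finset.coe_filter, Finset.mem_Icc, Set.mem_setOf_eq] at hx hy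
    obtain ⟨⟨h1, h2⟩, h3⟩ := hx
    obtain ⟨⟨h4, h5⟩, h6⟩ := hy
    have h7 : 0 ≤ (x + sigma) / Q := Int.ediv_nonneg (by linarith) hQ'.le
    have h8 : 0 ≤ (y + sigma) / Q := Int.ediv_nonneg (by linarith) hQ'.le
    have h9 : (x + sigma) / Q = (y + sigma) / Q := by
      have := congrArg (fun n : ℕ => (n : ℤ)) hxy
      simp only [Int.toNat_of_nonneg h7, Int.toNat_of_nonneg h8] at this
      exact this
    have h10 : (x + sigma) % Q = (y + sigma) % Q := by
      rw [Int.emod_eq_emod_iff_emod_sub_eq_zero]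
      apply Int.emod_eq_zero_of_dvd
      have : x + sigma - (y + sigma) = (x - c) - (y - c) := by ring
      rw [this]
      exact dvd_sub h3 h6
    have h11 := Int.mul_ediv_add_emod (x + sigma) Q
    have h12 := Int.mul_ediv_add_emod (y + sigma) Q
    rw [h9, h10] at h11
    linarith

theorem OUTER0_Icc (Q sigma : ℕ) (hQ : 0 < Q) :
    (Icc (-(sigma : ℤ)) sigma).card ≤ Q * (2 * sigma / Q + 1) := by
  rw [Int.card_Icc]
  have h1 := Nat.lt_mul_div_succ (2 * sigma) hQ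
  omega

theorem OUTER0_one (Q sigma : ℕ) (hQ : 0 < Q) (p : ℤ × ℤ → Prop) [DecidablePred p] (c : ℤ → ℤ)
    (hp : ∀ s, p s → (Q : ℤ) ∣ s.1 - c s.2) :
    ((sq sigma).filter p).card ≤ Q * (2 * sigma / Q + 1) ^ 2 := by
  have h1 : ((sq sigma).filter p).card ≤
      (2 * sigma / Q + 1) * (((sq sigma).filter p).image Prod.snd).card := by
    apply Finset.card_le_mul_card_image
    intro a _
    refine le_trans ?_ (OUTER0_fib Q sigma hQ (c a))
    apply Finset.card_le_card_of_injOn Prod.fst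
    · intro x hx
      simp only [sq, Finset.coe_filter, Finset.mem_filter, Finset.mem_product,
        Set.mem_setOf_eq] at hx ⊢
      obtain ⟨⟨⟨h1, h2⟩, h3⟩, h4⟩ := hx
      refine ⟨h1, ?_⟩
      have := hp x h3
      rwa [h4] at this
    · intro x hx y hy hxy
      simp only [Finset.coe_filter, Finset.mem_filter, Set.mem_setOf_eq] at hx hy
      exact Prod.ext hxy (hx.2.trans hy.2.symm)
  have h2 : (((sq sigma).filter p).image Prod.snd).card ≤ Q * (2 * sigma / Q + 1) := by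
    refine le_trans (Finset.card_le_card ?_) (OUTER0_Icc Q sigma hQ)
    intro a ha
    simp only [sq, Finset.mem_image, Finset.mem_filter, Finset.mem_product] at ha
    obtain ⟨x, ⟨⟨h1, h2⟩, -⟩, rfl⟩ := ha
    exact h2
  calc ((sq sigma).filter p).card ≤ (2 * sigma / Q + 1) * (Q * (2 * sigma / Q + 1)) :=
        h1.trans (Nat.mul_le_mul_left _ h2)
    _ = Q * (2 * sigma / Q + 1) ^ 2 := by ring

theorem OUTER0_swap (Q sigma : ℕ) (hQ : 0 < Q) :
    ((sq sigma).filter (fun s : ℤ × ℤ => (Q : ℤ) ∣ s.2)).card ≤ Q * (2 * sigma / Q + 1) ^ 2 := by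
  refine le_trans ?_ (OUTER0_one Q sigma hQ (fun s : ℤ × ℤ => (Q : ℤ) ∣ s.1) (fun _ => 0)
    (fun s hs => by simpa using hs))
  apply Finset.card_le_card_of_injOn Prod.swap
  · intro x hx
    simp only [sq, Finset.coe_filter, Finset.mem_product, Set.mem_setOf_eq, Prod.fst_swap,
      Prod.snd_swap] at hx ⊢
    exact ⟨⟨hx.1.2, hx.1.1⟩, hx.2⟩
  · intro x _ y _ hxy
    exact Prod.swap_injective hxy

/-- TARGET: prove this. Do not change the definitions above. Helper lemmas may be added before it. -/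
theorem OUTER0_thm  : OUTER0_stmt := by
  intro Q sigma hQ
  have h1 := OUTER0_one Q sigma hQ (fun s : ℤ × ℤ => (Q : ℤ) ∣ s.1) (fun _ => 0)
    (fun s hs => by simpa using hs)
  have h2 := OUTER0_swap Q sigma hQ
  have h3 := OUTER0_one Q sigma hQ (fun s : ℤ × ℤ => (Q : ℤ) ∣ s.1 - s.2) (fun x => x)
    (fun s hs => hs)
  have h4 := OUTER0_one Q sigma hQ (fun s : ℤ × ℤ => (Q : ℤ) ∣ s.1 + s.2) (fun x => -x)
    (fun s hs => by simpa using hs)
  have h5 : (sq sigma).filter (LL Q) ⊆ ((sq sigma).filter (fun s : ℤ × ℤ => (Q : ℤ) ∣ s.1)) ∪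
      (((sq sigma).filter (fun s : ℤ × ℤ => (Q : ℤ) ∣ s.2)) ∪
      (((sq sigma).filter (fun s : ℤ × ℤ => (Q : ℤ) ∣ s.1 - s.2)) ∪
      ((sq sigma).filter (fun s : ℤ × ℤ => (Q : ℤ) ∣ s.1 + s.2)))) := by
    intro s hs
    simp only [Finset.mem_filter, LL] at hs
    simp only [Finset.mem_union, Finset.mem_filter]
    tauto
  have h6 := Finset.card_le_card h5
  have h7 := Finset.card_union_le ((sq sigma).filter (fun s : ℤ × ℤ => (Q : ℤ) ∣ s.1))
    (((sq sigma).filter (fun s : ℤ × ℤ => (Q : ℤ) ∣ s.2)) ∪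
      (((sq sigma).filter (fun s : ℤ × ℤ => (Q : ℤ) ∣ s.1 - s.2)) ∪
      ((sq sigma).filter (fun s : ℤ × ℤ => (Q : ℤ) ∣ s.1 + s.2))))
  have h8 := Finset.card_union_le ((sq sigma).filter (fun s : ℤ × ℤ => (Q : ℤ) ∣ s.2))
      (((sq sigma).filter (fun s : ℤ × ℤ => (Q : ℤ) ∣ s.1 - s.2)) ∪
      ((sq sigma).filter (fun s : ℤ × ℤ => (Q : ℤ) ∣ s.1 + s.2)))
  have h9 := Finset.card_union_le ((sq sigma).filter (fun s : ℤ × ℤ => (Q : ℤ) ∣ s.1 - s.2))
      ((sq sigma).filter (fun s : ℤ × ℤ => (Q : ℤ) ∣ s.1 + s.2))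
  have h10 : 4 * Q * (2 * sigma / Q + 1) ^ 2 = Q * (2 * sigma / Q + 1) ^ 2 +
    (Q * (2 * sigma / Q + 1) ^ 2 + (Q * (2 * sigma / Q + 1) ^ 2 +
      Q * (2 * sigma / Q + 1) ^ 2)) := by ring
  rw [h10]
  omega



end SOUTER0
end DD106
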