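import Mathlib
import Pool.Agent.H106DD.Defs

set_option autoImplicit false
open Finset

namespace DD106
namespace SPAIR


lemma pr5_key {Q : ℕ} {a b u1 u2 : ℤ}
    (he : (a = 1 ∧ b = 0) ∨ (a = -1 ∧ b = 0) ∨ (a = 0 ∧ b = 1) ∨ (a = 0 ∧ b = -1))
    (h1 : (Q : ℤ) ∣ u1 - (a * u1 + b * u2)) (h2 : (Q : ℤ) ∣ u2 - (b * u1 - a * u2))
    (hne : ¬ (u1 = a * u1 + b * u2 ∧ u2 = b * u1 - a * u2)) :
    (Q % 2 = 1 → LL Q (u1, u2)) ∧ (Q : ℤ) ^ 2 ≤ 4 * (u1 ^ 2 + u2 ^ 2) := by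
  have hodd : Q % 2 = 1 → ∀ t : ℤ, (Q : ℤ) ∣ 2 * t → (Q : ℤ) ∣ t := by
    intro hQ t ht
    have hc : IsCoprime (Q : ℤ) 2 := by
      refine ⟨1, -((Q / 2 : ℕ) : ℤ), ?_⟩
      have h3 : 2 * (Q / 2) + 1 = Q := by omega
      have h4 : (2 : ℤ) * ((Q / 2 : ℕ) : ℤ) + 1 = Q := by exact_mod_cast h3
      linarith
    exact hc.dvd_of_dvd_mul_left ht
  have hsq : ∀ t : ℤ, (Q : ℤ) ∣ t → t ≠ 0 → (Q : ℤ) ^ 2 ≤ t ^ 2 := by
    intro t ht h0
    obtain ⟨k, rfl⟩ := ht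
    have hk : k ≠ 0 := by
      rintro rfl
      exact h0 (by ring)
    have hk2 : 1 ≤ k ^ 2 := by
      have : 0 < k ^ 2 := by positivity
      linarith
    nlinarith [sq_nonneg (Q : ℤ)]
  rcases he with ⟨rfl, rfl⟩ | ⟨rfl, rfl⟩ | ⟨rfl, rfl⟩ | ⟨rfl, rfl⟩
  · have e2 : u2 - (0 * u1 - 1 * u2) = 2 * u2 := by ring
    rw [e2] at h2
    refine ⟨fun hQ => Or.inr (Or.inl (hodd hQ _ h2)), ?_⟩
    have h0 : 2 * u2 ≠ 0 := by
      intro h0
      exact hne ⟨by ring, by linarith⟩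
    have := hsq _ h2 h0
    nlinarith [sq_nonneg u1]
  · have e2 : u1 - (-1 * u1 + 0 * u2) = 2 * u1 := by ring
    rw [e2] at h1
    refine ⟨fun hQ => Or.inl (hodd hQ _ h1), ?_⟩
    have h0 : 2 * u1 ≠ 0 := by
      intro h0
      exact hne ⟨by linarith, by ring⟩
    have := hsq _ h1 h0
    nlinarith [sq_nonneg u2]
  · have e2 : u1 - (0 * u1 + 1 * u2) = u1 - u2 := by ring
    rw [e2] at h1
    refine ⟨fun hQ => Or.inr (Or.inr (Or.inl h1)), ?_⟩
    have h0 : u1 - u2 ≠ 0 := by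
      intro h0
      exact hne ⟨by linarith, by linarith⟩
    have := hsq _ h1 h0
    nlinarith [sq_nonneg (u1 + u2), sq_nonneg u1, sq_nonneg u2]
  · have e2 : u1 - (0 * u1 + -1 * u2) = u1 + u2 := by ring
    rw [e2] at h1
    refine ⟨fun hQ => Or.inr (Or.inr (Or.inr h1)), ?_⟩
    have h0 : u1 + u2 ≠ 0 := by
      intro h0
      exact hne ⟨by linarith, by linarith⟩
    have := hsq _ h1 h0
    nlinarith [sq_nonneg (u1 - u2), sq_nonneg u1, sq_nonneg u2]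

lemma pr5_unit (e : GaussianInt) (he : IsUnit e) :
    (e.re = 1 ∧ e.im = 0) ∨ (e.re = -1 ∧ e.im = 0) ∨ (e.re = 0 ∧ e.im = 1) ∨
      (e.re = 0 ∧ e.im = -1) := by
  have h1 := Zsqrtd.norm_eq_one_iff.2 he
  have h2 : e.norm = e.re * e.re + e.im * e.im := by
    rw [Zsqrtd.norm_def]; ring
  have h3 : e.re * e.re + e.im * e.im = 1 := by
    have h4 : 0 ≤ e.norm := by rw [h2]; nlinarith [mul_self_nonneg e.re, mul_self_nonneg e.im]
    rw [← h2]
    omega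
  have hr1 : e.re ≤ 1 := by nlinarith [mul_self_nonneg e.re, mul_self_nonneg e.im]
  have hr2 : -1 ≤ e.re := by nlinarith [mul_self_nonneg e.re, mul_self_nonneg e.im]
  have hi1 : e.im ≤ 1 := by nlinarith [mul_self_nonneg e.re, mul_self_nonneg e.im]
  have hi2 : -1 ≤ e.im := by nlinarith [mul_self_nonneg e.re, mul_self_nonneg e.im]
  generalize e.re = a at *
  generalize e.im = b at *
  interval_cases a <;> interval_cases b <;> simp_all

/-- TARGET: prove this. Do not change the definitions above. Helper lemmas may be added before it. -/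
theorem PAIR_thm (hZF : ZF_stmt) : PAIR_stmt := by
  intro Q D x y x' y' w1 w2 hQ hD hDo hx hy hx' hy' hw2 hw1 hDw1 hDw2 hne hnorm
  have hQx : (Q : ℤ) ∣ x - w1 := (by push_cast at hx; exact (dvd_mul_right _ _).trans hx)
  have hQy : (Q : ℤ) ∣ y - w2 := (by push_cast at hy; exact (dvd_mul_right _ _).trans hy)
  have hQx' : (Q : ℤ) ∣ x' - w1 := (by push_cast at hx'; exact (dvd_mul_right _ _).trans hx')
  have hQy' : (Q : ℤ) ∣ y' - w2 := (by push_cast at hy'; exact (dvd_mul_right _ _).trans hy')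
  have hDy : (D : ℤ) ∣ y - w2 := (by push_cast at hy; exact (dvd_mul_left _ _).trans hy)
  have hDy' : (D : ℤ) ∣ y' - w2 := (by push_cast at hy'; exact (dvd_mul_left _ _).trans hy')
  have hDunit : ∀ t : ℤ, (D : ℤ) ∣ t → IsCoprime t (D : ℤ) → False := by
    intro t ht hc
    have h1 : IsUnit (D : ℤ) := hc.symm.isUnit_of_dvd' dvd_rfl ht
    have h2 : (D : ℤ).natAbs = 1 := Int.isUnit_iff_natAbs_eq.1 h1
    simp at h2
    omega
  have hQy0 : (Q : ℤ) ∣ y := by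
    have := dvd_add hQy hw2
    simpa using this
  have hQy0' : (Q : ℤ) ∣ y' := by
    have := dvd_add hQy' hw2
    simpa using this
  have hz0 : (⟨x, y⟩ : GaussianInt) ≠ 0 := by
    intro h0
    have h1 : y = 0 := congrArg Zsqrtd.im h0
    rw [h1] at hDy
    refine hDunit w2 ?_ hDw2
    have := (dvd_neg (α := ℤ)).2 hDy
    simpa using this
  have hzn : (⟨x, y⟩ : GaussianInt).norm = (⟨x', y'⟩ : GaussianInt).norm := by
    rw [Zsqrtd.norm_def, Zsqrtd.norm_def]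
    simp only
    linarith
  obtain ⟨d, u, e, he, hz, hz'⟩ := hZF ⟨x, y⟩ ⟨x', y'⟩ hz0 hzn
  have hu := pr5_unit e he
  have ex : x = d.re * u.re - d.im * u.im := by
    have h1 := congrArg Zsqrtd.re hz
    simp only [Zsqrtd.re_mul] at h1
    rw [h1]; ring
  have ey : y = d.re * u.im + d.im * u.re := by
    have h1 := congrArg Zsqrtd.im hz
    simp only [Zsqrtd.im_mul] at h1
    rw [h1]
  have ex' : x' = e.re * (d.re * u.re + d.im * u.im) - e.im * (d.im * u.re - d.re * u.im) := by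
    have h1 := congrArg Zsqrtd.re hz'
    simp only [Zsqrtd.re_mul, Zsqrtd.im_mul, Zsqrtd.re_star, Zsqrtd.im_star] at h1
    rw [h1]; ring
  have ey' : y' = e.re * (d.im * u.re - d.re * u.im) + e.im * (d.re * u.re + d.im * u.im) := by
    have h1 := congrArg Zsqrtd.im hz'
    simp only [Zsqrtd.re_mul, Zsqrtd.im_mul, Zsqrtd.re_star, Zsqrtd.im_star] at h1
    rw [h1]; ring
  generalize e.re = a at *
  generalize e.im = b at *
  generalize d.re = d1 at *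
  generalize d.im = d2 at *
  generalize u.re = u1 at *
  generalize u.im = u2 at *
  -- coprimality
  have hcop : IsCoprime ((d1 ^ 2 + d2 ^ 2) * (u1 ^ 2 + u2 ^ 2)) (Q : ℤ) := by
    have e1 : (d1 ^ 2 + d2 ^ 2) * (u1 ^ 2 + u2 ^ 2) = x ^ 2 + y ^ 2 := by
      rw [ex, ey]; ring
    rw [e1]
    obtain ⟨k, hk⟩ := hQx
    obtain ⟨l, hl⟩ := hQy0
    have e2 : x ^ 2 + y ^ 2 = w1 ^ 2 + (Q : ℤ) * (2 * w1 * k + Q * k ^ 2 + Q * l ^ 2) := by
      have h1 : x = w1 + Q * k := by linarith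
      rw [h1, hl]; ring
    rw [e2]
    exact (hw1.pow_left (m := 2)).add_mul_left_left _
  have hcN : IsCoprime (Q : ℤ) (d1 ^ 2 + d2 ^ 2) := hcop.of_mul_left_left.symm
  have hcU : IsCoprime (Q : ℤ) (u1 ^ 2 + u2 ^ 2) := hcop.of_mul_left_right.symm
  have hQxx : (Q : ℤ) ∣ x - x' := by
    have := dvd_sub hQx hQx'
    have e1 : x - w1 - (x' - w1) = x - x' := by ring
    rwa [e1] at this
  have hQyy : (Q : ℤ) ∣ y - y' := dvd_sub hQy0 hQy0'
  have hQyy' : (Q : ℤ) ∣ y + y' := dvd_add hQy0 hQy0'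
  have hu1 : (Q : ℤ) ∣ u1 - (a * u1 + b * u2) := by
    refine hcN.dvd_of_dvd_mul_left ?_
    have e1 : (d1 ^ 2 + d2 ^ 2) * (u1 - (a * u1 + b * u2)) = d1 * (x - x') + d2 * (y - y') := by
      rw [ex, ey, ex', ey']; ring
    rw [e1]
    exact dvd_add (hQxx.mul_left _) (hQyy.mul_left _)
  have hu2 : (Q : ℤ) ∣ u2 - (b * u1 - a * u2) := by
    refine hcN.dvd_of_dvd_mul_left ?_
    have e1 : (d1 ^ 2 + d2 ^ 2) * (u2 - (b * u1 - a * u2)) = d1 * (y - y') - d2 * (x - x') := by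
      rw [ex, ey, ex', ey']; ring
    rw [e1]
    exact dvd_sub (hQyy.mul_left _) (hQxx.mul_left _)
  have hd1 : (Q : ℤ) ∣ d1 - (a * d1 + (-b) * d2) := by
    refine hcU.dvd_of_dvd_mul_left ?_
    have e1 : (u1 ^ 2 + u2 ^ 2) * (d1 - (a * d1 + (-b) * d2)) = u1 * (x - x') + u2 * (y + y') := by
      rw [ex, ey, ex', ey']; ring
    rw [e1]
    exact dvd_add (hQxx.mul_left _) (hQyy'.mul_left _)
  have hd2 : (Q : ℤ) ∣ d2 - ((-b) * d1 - a * d2) := by
    refine hcU.dvd_of_dvd_mul_left ?_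
    have e1 : (u1 ^ 2 + u2 ^ 2) * (d2 - ((-b) * d1 - a * d2)) = u1 * (y + y') - u2 * (x - x') := by
      rw [ex, ey, ex', ey']; ring
    rw [e1]
    exact dvd_sub (hQyy'.mul_left _) (hQxx.mul_left _)
  have hune : ¬ (u1 = a * u1 + b * u2 ∧ u2 = b * u1 - a * u2) := by
    rintro ⟨g1, g2⟩
    apply hne
    have h1 : x' = d1 * (a * u1 + b * u2) - d2 * (b * u1 - a * u2) := by rw [ex']; ring
    have h2 : y' = d1 * (b * u1 - a * u2) + d2 * (a * u1 + b * u2) := by rw [ey']; ring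
    rw [← g1, ← g2] at h1 h2
    rw [Prod.mk.injEq]
    exact ⟨by rw [h1, ex], by rw [h2, ey]⟩
  have hdne : ¬ (d1 = a * d1 + (-b) * d2 ∧ d2 = (-b) * d1 - a * d2) := by
    rintro ⟨g1, g2⟩
    have h2 : -y' = ((-b) * d1 - a * d2) * u1 + (a * d1 + (-b) * d2) * u2 := by rw [ey']; ring
    rw [← g1, ← g2] at h2
    have h3 : y + y' = 0 := by rw [ey]; linarith
    have h4 : (D : ℤ) ∣ 2 * w2 := by
      have h5 := dvd_add hDy hDy'
      have e1 : y - w2 + (y' - w2) = -(2 * w2) := by linarith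
      rw [e1] at h5
      exact (dvd_neg (α := ℤ)).1 h5
    have hc : IsCoprime (D : ℤ) 2 := by
      refine ⟨1, -((D / 2 : ℕ) : ℤ), ?_⟩
      have h3 : 2 * (D / 2) + 1 = D := by omega
      have h4 : (2 : ℤ) * ((D / 2 : ℕ) : ℤ) + 1 = D := by exact_mod_cast h3
      linarith
    exact hDunit w2 (hc.dvd_of_dvd_mul_left h4) hDw2
  have hb : (a = 1 ∧ -b = 0) ∨ (a = -1 ∧ -b = 0) ∨ (a = 0 ∧ -b = 1) ∨ (a = 0 ∧ -b = -1) := by
    rcases hu with ⟨h1, h2⟩ | ⟨h1, h2⟩ | ⟨h1, h2⟩ | ⟨h1, h2⟩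
    · exact Or.inl ⟨h1, by omega⟩
    · exact Or.inr (Or.inl ⟨h1, by omega⟩)
    · exact Or.inr (Or.inr (Or.inr ⟨h1, by omega⟩))
    · exact Or.inr (Or.inr (Or.inl ⟨h1, by omega⟩))
  have hU := pr5_key hu hu1 hu2 hune
  have hN := pr5_key hb hd1 hd2 hdne
  rcases le_total (u1 ^ 2 + u2 ^ 2) (d1 ^ 2 + d2 ^ 2) with hle | hle
  · exact ⟨(u1, u2), (d1, d2), by rw [ex]; ring, by rw [ey]; ring, hU.1, hU.2, hle⟩
  · exact ⟨(d1, d2), (u1, u2), by rw [ex], by rw [ey], hN.1, hN.2, hle⟩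



end SPAIR
end DD106
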