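import Mathlib
import Pool.Agent.H106DD.Defs

set_option autoImplicit false
open Finset

namespace DD106
namespace SPL

theorem PL_card_inj (E : Finset ℝ) (u : ℝ) (h : ∀ s ∈ E, ∀ s' ∈ E, s + s' = 2 * u → s = s') :
    (E.image (fun s => (s - u) ^ 2)).card = E.card := by
  apply Finset.card_image_of_injOn
  intro s hs s' hs' hss
  have h1 : (s - u) ^ 2 = (s' - u) ^ 2 := hss
  have h2 : (s - s') * (s + s' - 2 * u) = 0 := by linarith [h1, (by ring : (s - s') * (s + s' - 2 * u) = (s - u) ^ 2 - (s' - u) ^ 2)]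
  rcases mul_eq_zero.1 h2 with h3 | h3
  · linarith
  · exact h s hs s' hs' (by linarith)

theorem PL_card_one (E : Finset ℝ) (u s0 s1 : ℝ) (h0 : s0 ∈ E) (h1 : s1 ∈ E) (hne : s0 ≠ s1)
    (hs : s0 + s1 = 2 * u) (h : ∀ s ∈ E, ∀ s' ∈ E, s + s' = 2 * u →
      (s = s0 ∧ s' = s1) ∨ (s = s1 ∧ s' = s0)) :
    (E.image (fun s => (s - u) ^ 2)).card + 1 = E.card := by
  classical
  have h2 : E.image (fun s => (s - u) ^ 2) = (E.erase s1).image (fun s => (s - u) ^ 2) := by
    ext x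
    simp only [Finset.mem_image, Finset.mem_erase]
    constructor
    · rintro ⟨s, hsE, rfl⟩
      by_cases hs1 : s = s1
      · subst hs1
        refine ⟨s0, ⟨hne, h0⟩, ?_⟩
        have : s0 - u = -(s - u) := by linarith
        rw [this, neg_sq]
      · exact ⟨s, ⟨hs1, hsE⟩, rfl⟩
    · rintro ⟨s, ⟨-, hsE⟩, rfl⟩
      exact ⟨s, hsE, rfl⟩
  rw [h2, PL_card_inj (E.erase s1) u]
  · exact Finset.card_erase_add_one h1
  · intro s hsE s' hsE' hss
    rw [Finset.mem_erase] at hsE hsE'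
    rcases h s hsE.2 s' hsE'.2 hss with ⟨-, h3⟩ | ⟨h3, -⟩
    · exact absurd h3 hsE'.1
    · exact absurd h3 hsE.1

/-- TARGET: prove this. Do not change the definitions above. Helper lemmas may be added before it. -/
theorem PL_thm  : PL_stmt := by
  classical
  intro V w A hw hV
  obtain ⟨Om, hOm⟩ : ∃ Om : ℝ, ∀ v ∈ V, |v| + w + 1 < Om := by
    refine ⟨∑ v ∈ V, |v| + w + 2, fun v hv => ?_⟩
    have := Finset.single_le_sum (f := fun v : ℝ => |v|) (fun _ _ => abs_nonneg _) hv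
    linarith
  rcases V.eq_empty_or_nonempty with hVe | hVne
  · subst hVe
    exact ⟨∅, by simp, by simp⟩
  have hOm0 : 0 < Om := by
    obtain ⟨v, hv⟩ := hVne
    have h1 := hOm v hv
    have h2 := abs_nonneg v
    have h3 : (0:ℝ) ≤ w := Nat.cast_nonneg w
    linarith
  let H : Finset ℕ → ℝ := fun τ => 8 * Om * ((Encodable.encode τ : ℝ) + 1)
  let τv : ℝ → Finset ℕ := fun v => (Finset.range w).filter (fun k => A (v + k))
  have hH : ∀ τ, 8 * Om ≤ H τ := by
    intro τ
    have : (0:ℝ) ≤ (Encodable.encode τ : ℝ) := Nat.cast_nonneg _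
    simp only [H]
    nlinarith
  let E1 : Finset ℝ := V.image (fun v => 2 * v - H (τv v))
  let E2 : Finset ℝ := (Finset.range w).powerset.biUnion
    (fun τ => τ.image (fun k : ℕ => H τ + 2 * (k : ℝ)))
  -- membership
  have hE1 : ∀ s ∈ E1, ∃ v ∈ V, s = 2 * v - H (τv v) := by
    intro s hs
    obtain ⟨v, hv, h⟩ := Finset.mem_image.1 hs
    exact ⟨v, hv, h.symm⟩
  have hE2 : ∀ s ∈ E2, ∃ τ, τ ⊆ Finset.range w ∧ ∃ k ∈ τ, s = H τ + 2 * (k : ℝ) := by
    intro s hs
    obtain ⟨τ, hτ, h⟩ := Finset.mem_biUnion.1 hs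
    obtain ⟨k, hk, h⟩ := Finset.mem_image.1 h
    exact ⟨τ, Finset.mem_powerset.1 hτ, k, hk, h.symm⟩
  have hmix : ∀ v ∈ V, ∀ k < w, ∀ v' ∈ V, ∀ τ, τ ⊆ Finset.range w → ∀ k' ∈ τ,
      (2 * v' - H (τv v')) + (H τ + 2 * (k' : ℝ)) = 2 * (v + (k : ℝ)) →
        τ = τv v' ∧ v' = v ∧ k' = k := by
    intro v hv k hk v' hv' τ hτ k' hk' heq
    have hk'w : k' < w := Finset.mem_range.1 (hτ hk')
    have a1 := abs_le.1 (le_refl |v|)
    have a2 := abs_le.1 (le_refl |v'|)
    have b1 := hOm v hv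
    have b2 := hOm v' hv'
    have c1 : (k:ℝ) ≤ w := by exact_mod_cast hk.le
    have c2 : (k':ℝ) ≤ w := by exact_mod_cast hk'w.le
    have c3 : (0:ℝ) ≤ k := Nat.cast_nonneg _
    have c4 : (0:ℝ) ≤ k' := Nat.cast_nonneg _
    by_cases hn : Encodable.encode τ = Encodable.encode (τv v')
    · have hτe : τ = τv v' := Encodable.encode_injective hn
      rw [← hτe] at heq
      have h1 : v' + (k' : ℝ) = v + (k : ℝ) := by linarith
      have h2 := hV v' hv' v hv k' hk'w k hk h1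
      exact ⟨hτe, h2.1, h2.2⟩
    · exfalso
      rcases lt_or_gt_of_ne hn with h1 | h1
      · have h2 : (Encodable.encode τ : ℝ) + 1 ≤ (Encodable.encode (τv v') : ℝ) := by
          exact_mod_cast h1
        have h3 : H τ + 8 * Om ≤ H (τv v') := by
          simp only [H]
          nlinarith
        linarith [a1.1, a2.1, a1.2, a2.2]
      · have h2 : (Encodable.encode (τv v') : ℝ) + 1 ≤ (Encodable.encode τ : ℝ) := by
          exact_mod_cast h1
        have h3 : H (τv v') + 8 * Om ≤ H τ := by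
          simp only [H]
          nlinarith
        linarith [a1.1, a2.1, a1.2, a2.2]
  have hcls : ∀ v ∈ V, ∀ k < w, ∀ s ∈ E1 ∪ E2, ∀ s' ∈ E1 ∪ E2, s + s' = 2 * (v + (k : ℝ)) →
      A (v + k) ∧ ((s = 2 * v - H (τv v) ∧ s' = H (τv v) + 2 * (k : ℝ)) ∨
        (s = H (τv v) + 2 * (k : ℝ) ∧ s' = 2 * v - H (τv v))) := by
    intro v hv k hk s hs s' hs' hss
    have a1 := abs_le.1 (le_refl |v|)
    have b1 := hOm v hv
    have c1 : (k:ℝ) ≤ w := by exact_mod_cast hk.le
    have c3 : (0:ℝ) ≤ k := Nat.cast_nonneg _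
    have hsmall : ∀ s ∈ E1, s < -6 * Om := by
      intro s hs
      obtain ⟨v', hv', rfl⟩ := hE1 s hs
      have h1 := hH (τv v')
      have h2 := hOm v' hv'
      have h3 := le_abs_self v'
      have h4 : (0:ℝ) ≤ w := Nat.cast_nonneg w
      linarith
    have hbig : ∀ s ∈ E2, 8 * Om ≤ s := by
      intro s hs
      obtain ⟨τ, _, k', _, rfl⟩ := hE2 s hs
      have h1 := hH τ
      have h2 : (0:ℝ) ≤ k' := Nat.cast_nonneg _
      linarith
    have hAof : ∀ v' ∈ V, ∀ τ, τ ⊆ Finset.range w → ∀ k' ∈ τ,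
        (2 * v' - H (τv v')) + (H τ + 2 * (k' : ℝ)) = 2 * (v + (k : ℝ)) →
        A (v + k) ∧ (2 * v' - H (τv v') = 2 * v - H (τv v) ∧
          H τ + 2 * (k' : ℝ) = H (τv v) + 2 * (k : ℝ)) := by
      intro v' hv' τ hτ k' hk' heq
      obtain ⟨h1, h2, h3⟩ := hmix v hv k hk v' hv' τ hτ k' hk' heq
      subst h2
      subst h3
      subst h1
      refine ⟨(Finset.mem_filter.1 hk').2, rfl, rfl⟩
    rcases Finset.mem_union.1 hs with h1 | h1 <;> rcases Finset.mem_union.1 hs' with h2 | h2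
    · have h3 := hsmall s h1
      have h4 := hsmall s' h2
      exfalso
      linarith [a1.1, a1.2]
    · obtain ⟨v', hv', e1⟩ := hE1 s h1
      obtain ⟨τ, hτ, k', hk', e2⟩ := hE2 s' h2
      rw [e1, e2] at hss
      obtain ⟨hA, h5, h6⟩ := hAof v' hv' τ hτ k' hk' hss
      exact ⟨hA, Or.inl ⟨e1.trans h5, e2.trans h6⟩⟩
    · obtain ⟨v', hv', e1⟩ := hE1 s' h2
      obtain ⟨τ, hτ, k', hk', e2⟩ := hE2 s h1
      rw [e1, e2, add_comm] at hss
      obtain ⟨hA, h5, h6⟩ := hAof v' hv' τ hτ k' hk' hss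
      exact ⟨hA, Or.inr ⟨e2.trans h6, e1.trans h5⟩⟩
    · have h3 := hbig s h1
      have h4 := hbig s' h2
      exfalso
      linarith [a1.1, a1.2]
  refine ⟨E1 ∪ E2, ?_, ?_⟩
  · refine (Finset.card_union_le _ _).trans (add_le_add Finset.card_image_le ?_)
    refine Finset.card_biUnion_le.trans ?_
    calc ∑ τ ∈ (Finset.range w).powerset, (τ.image (fun k : ℕ => H τ + 2 * (k : ℝ))).card
        ≤ ∑ τ ∈ (Finset.range w).powerset, w := by
          refine Finset.sum_le_sum fun τ hτ => ?_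
          refine Finset.card_image_le.trans ?_
          have := Finset.card_le_card (Finset.mem_powerset.1 hτ)
          rwa [Finset.card_range] at this
      _ = w * 2 ^ w := by
          rw [Finset.sum_const, Finset.card_powerset, Finset.card_range, smul_eq_mul, mul_comm]
  · intro v hv k hk
    constructor
    · intro hA
      have hmem0 : 2 * v - H (τv v) ∈ E1 ∪ E2 :=
        Finset.mem_union_left _ (Finset.mem_image_of_mem _ hv)
      have hmem1 : H (τv v) + 2 * (k : ℝ) ∈ E1 ∪ E2 := by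
        refine Finset.mem_union_right _ (Finset.mem_biUnion.2 ⟨τv v, ?_, ?_⟩)
        · exact Finset.mem_powerset.2 (Finset.filter_subset _ _)
        · exact Finset.mem_image.2 ⟨k, Finset.mem_filter.2 ⟨Finset.mem_range.2 hk, hA⟩, rfl⟩
      refine PL_card_one (E1 ∪ E2) (v + k) (2 * v - H (τv v)) (H (τv v) + 2 * (k : ℝ))
        hmem0 hmem1 ?_ (by ring) ?_
      · intro h
        have h1 := hH (τv v)
        have h2 := hOm v hv
        have h3 := le_abs_self v
        have h4 : (0:ℝ) ≤ w := Nat.cast_nonneg w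
        have h5 : (0:ℝ) ≤ k := Nat.cast_nonneg _
        linarith
      · intro s hs s' hs' hss
        exact (hcls v hv k hk s hs s' hs' hss).2
    · intro hA
      refine PL_card_inj (E1 ∪ E2) (v + k) ?_
      intro s hs s' hs' hss
      exact absurd (hcls v hv k hk s hs s' hs' hss).1 hA



end SPL
end DD106
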