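import Mathlib
import Pool.Agent.H106DD.Defs

set_option autoImplicit false
open Finset

namespace DD106
namespace SPLACE


theorem enum833 {α : Type*} (S : Finset α) :
    ∃ r : α → ℕ, Set.InjOn r S ∧ ∀ v ∈ S, r v < S.card := by
  classical
  refine ⟨fun v => if h : v ∈ S then (S.equivFin ⟨v, h⟩ : ℕ) else 0, ?_, ?_⟩
  · intro v hv w hw h
    have hv' : v ∈ S := hv
    have hw' : w ∈ S := hw
    simp only [hv', hw', dif_pos] at h
    have := S.equivFin.injective (Fin.ext h)
    exact congrArg Subtype.val this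
  · intro v hv
    simp only [hv, dif_pos]
    exact (S.equivFin ⟨v, hv⟩).2

theorem hstep833 {α : Type*} [DecidableEq α] (Pt : Finset α) (pos : α → ℕ) (T J : ℕ) (hT : 0 < T)
    (hJ : ∀ v ∈ Pt, pos v / T < J) :
    ∃ (h : α → ℕ) (X : Finset α), X ⊆ Pt ∧ (∀ v, h v < 2 * T) ∧
      Set.InjOn (fun v => pos v + h v) X ∧
      Pt.card ≤ X.card + ∑ j ∈ range J, ((Pt.filter (fun v => pos v / T = j)).card - T) := by
  classical
  choose r hr1 hr2 using fun j : ℕ => enum833 (Pt.filter (fun v => pos v / T = j))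
  obtain ⟨X, hX⟩ : ∃ X, X = Pt.filter (fun v => r (pos v / T) v < T) := ⟨_, rfl⟩
  have hval : ∀ v ∈ X, pos v + (if v ∈ X then (pos v / T + 1) * T + r (pos v / T) v - pos v else 0)
      = (pos v / T + 1) * T + r (pos v / T) v := by
    intro v hv
    rw [if_pos hv]
    have h2 := Nat.div_add_mod (pos v) T
    have h3 := Nat.mod_lt (pos v) hT
    have h4 : (pos v / T + 1) * T = T * (pos v / T) + T := by ring
    omega
  refine ⟨fun v => if v ∈ X then (pos v / T + 1) * T + r (pos v / T) v - pos v else 0, X,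
    ?_, ?_, ?_, ?_⟩
  · rw [hX]; exact filter_subset _ _
  · intro v
    beta_reduce
    split_ifs with hv
    · have h1 : r (pos v / T) v < T := by rw [hX] at hv; exact (mem_filter.1 hv).2
      have h2 := Nat.div_add_mod (pos v) T
      have h3 := Nat.mod_lt (pos v) hT
      have h4 : (pos v / T + 1) * T = T * (pos v / T) + T := by ring
      omega
    · omega
  · intro v hv w hw hvw
    have hv' : v ∈ X := hv
    have hw' : w ∈ X := hw
    beta_reduce at hvw
    rw [hval v hv', hval w hw'] at hvw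
    rw [hX] at hv' hw'
    have h1 : r (pos v / T) v < T := (mem_filter.1 hv').2
    have h2 : r (pos w / T) w < T := (mem_filter.1 hw').2
    have h3 : pos v / T = pos w / T := by
      have e1 : ((pos v / T + 1) * T + r (pos v / T) v) / T = pos v / T + 1 := by
        rw [Nat.add_comm, Nat.add_mul_div_right _ _ hT, Nat.div_eq_of_lt h1]; omega
      have e2 : ((pos w / T + 1) * T + r (pos w / T) w) / T = pos w / T + 1 := by
        rw [Nat.add_comm, Nat.add_mul_div_right _ _ hT, Nat.div_eq_of_lt h2]; omega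
      rw [hvw, e2] at e1
      omega
    have h4 : r (pos v / T) v = r (pos v / T) w := by
      rw [h3] at hvw ⊢
      omega
    refine hr1 (pos v / T) ?_ ?_ h4
    · simpa using (mem_filter.1 hv').1
    · have h5 := (mem_filter.1 hw').1
      exact mem_coe.2 (mem_filter.2 ⟨h5, h3.symm⟩)
  · have h1 : (Pt.filter (fun v => r (pos v / T) v < T)).card
        + (Pt.filter (fun v => ¬ r (pos v / T) v < T)).card = Pt.card :=
      Finset.card_filter_add_card_filter_not _
    have h2 : (Pt.filter (fun v => ¬ r (pos v / T) v < T)).card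
        = ∑ j ∈ range J, ((Pt.filter (fun v => ¬ r (pos v / T) v < T)).filter
            (fun v => pos v / T = j)).card := by
      apply Finset.card_eq_sum_card_fiberwise
      intro v hv
      have hv' : v ∈ Pt.filter (fun v => ¬ r (pos v / T) v < T) := hv
      exact mem_coe.2 (mem_range.2 (hJ v (mem_filter.1 hv').1))
    have h3 : ∀ j ∈ range J, ((Pt.filter (fun v => ¬ r (pos v / T) v < T)).filter
            (fun v => pos v / T = j)).card ≤ (Pt.filter (fun v => pos v / T = j)).card - T := by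
      intro j hj
      rw [← Nat.card_Ico]
      apply Finset.card_le_card_of_injOn (r j)
      · intro v hv
        have hv' : v ∈ (Pt.filter (fun v => ¬ r (pos v / T) v < T)).filter
            (fun v => pos v / T = j) := hv
        rw [mem_filter, mem_filter] at hv'
        obtain ⟨⟨hv1, hv2⟩, hv3⟩ := hv'
        have h5 := hr2 j v (mem_filter.2 ⟨hv1, hv3⟩)
        rw [hv3] at hv2
        exact mem_coe.2 (mem_Ico.2 ⟨by omega, h5⟩)
      · apply (hr1 j).mono
        intro v hv
        have hv' : v ∈ (Pt.filter (fun v => ¬ r (pos v / T) v < T)).filter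
            (fun v => pos v / T = j) := hv
        rw [mem_filter, mem_filter] at hv'
        exact mem_coe.2 (mem_filter.2 ⟨hv'.1.1, hv'.2⟩)
    have h4 := Finset.sum_le_sum h3
    rw [hX]
    omega

theorem greedy833 (F J : ℕ) (hF : 0 < F) (φ : ℕ → ℕ → ℕ → ℝ) (M : ℕ) :
    ∃ f : ℕ → ℕ, (∀ i, f i < F) ∧
      ∑ j ∈ range J, (∑ b ∈ range M, (φ b (f b) j - (∑ s ∈ range F, φ b s j) / F)) ^ 2
        ≤ ∑ b ∈ range M, (∑ s ∈ range F, ∑ j ∈ range J, (φ b s j) ^ 2) / F := by
  induction M with
  | zero => exact ⟨fun _ => 0, fun _ => hF, by simp⟩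
  | succ M ih =>
    obtain ⟨f, hf, hle⟩ := ih
    have hF' : (0 : ℝ) < F := by exact_mod_cast hF
    obtain ⟨S, hS⟩ : ∃ S : ℕ → ℝ, S = fun j => ∑ b ∈ range M,
      (φ b (f b) j - (∑ s ∈ range F, φ b s j) / F) := ⟨_, rfl⟩
    obtain ⟨m, hm⟩ : ∃ m : ℕ → ℝ, m = fun j => (∑ s ∈ range F, φ M s j) / F := ⟨_, rfl⟩
    have key : ∃ s ∈ range F, ∑ j ∈ range J, (S j + (φ M s j - m j)) ^ 2
        ≤ ∑ j ∈ range J, (S j) ^ 2 + (∑ s ∈ range F, ∑ j ∈ range J, (φ M s j) ^ 2) / F := by
      by_contra hcon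
      push Not at hcon
      have hsum := Finset.sum_lt_sum_of_nonempty (s := range F) ⟨0, mem_range.2 hF⟩ hcon
      rw [Finset.sum_const, card_range, nsmul_eq_mul, mul_add, mul_div_cancel₀ _ hF'.ne',
        Finset.sum_comm (s := range F) (t := range J) (f := fun s j => (S j + (φ M s j - m j)) ^ 2),
        Finset.sum_comm (s := range F) (t := range J) (f := fun s j => (φ M s j) ^ 2)] at hsum
      have hj : ∀ j ∈ range J, ∑ s ∈ range F, (S j + (φ M s j - m j)) ^ 2
          ≤ F * (S j) ^ 2 + ∑ s ∈ range F, (φ M s j) ^ 2 := by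
        intro j _
        have hmj : ∑ s ∈ range F, φ M s j = F * m j := by rw [hm]; field_simp
        have e1 : ∑ s ∈ range F, (S j + (φ M s j - m j)) ^ 2
            = F * (S j - m j) ^ 2 + 2 * (S j - m j) * (F * m j) + ∑ s ∈ range F, (φ M s j) ^ 2 := by
          rw [← hmj, mul_sum]
          have : (F : ℝ) * (S j - m j) ^ 2 = ∑ s ∈ range F, (S j - m j) ^ 2 := by simp
          rw [this, ← sum_add_distrib, ← sum_add_distrib]
          apply sum_congr rfl
          intro s _
          ring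
        rw [e1]
        nlinarith [mul_nonneg hF'.le (sq_nonneg (m j))]
      have h3 := Finset.sum_le_sum hj
      rw [sum_add_distrib, ← mul_sum] at h3
      linarith
    obtain ⟨s, hs, hs2⟩ := key
    refine ⟨Function.update f M s, ?_, ?_⟩
    · intro i
      by_cases hi : i = M
      · subst hi
        rw [Function.update_self]
        exact mem_range.1 hs
      · rw [Function.update_of_ne hi]; exact hf i
    · have e1 : ∀ j, ∑ b ∈ range (M + 1), (φ b (Function.update f M s b) j
          - (∑ s ∈ range F, φ b s j) / F) = S j + (φ M s j - m j) := by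
        intro j
        rw [sum_range_succ, hS, hm]
        congr 1
        · apply sum_congr rfl
          intro b hb
          rw [Function.update_of_ne (by have := mem_range.1 hb; omega)]
        · rw [Function.update_self]
      simp only [e1]
      rw [sum_range_succ]
      have e2 : ∑ j ∈ range J, (S j) ^ 2 ≤ ∑ b ∈ range M, (∑ s ∈ range F, ∑ j ∈ range J,
          (φ b s j) ^ 2) / F := by
        rw [hS]; exact hle
      linarith

theorem cnt833 (F T x y : ℕ) :
    ((range F).filter (fun s => x + s < y + T ∧ y < x + s + T)).card ≤ 2 * T := by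
  calc ((range F).filter (fun s => x + s < y + T ∧ y < x + s + T)).card
      ≤ (Ico (y + 1 - (x + T)) (y + T - x)).card := by
        apply card_le_card
        intro s hs
        simp only [mem_filter, mem_range, mem_Ico] at hs ⊢
        omega
    _ ≤ 2 * T := by rw [Nat.card_Ico]; omega

theorem gstep833 (M F T : ℕ) (hF : 0 < F) (W : ℕ → ℕ → ℕ) (n : ℕ) :
    ∃ h' : ℕ → ℕ, (∀ i, h' i < F) ∧ ∀ a < n,
      F * ∑ a' ∈ range a, ∑ b ∈ range M,
        (if (W a b + h' a < W a' b + h' a' + T ∧ W a' b + h' a' < W a b + h' a + T) then 1 else 0)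
        ≤ a * M * (2 * T) := by
  induction n with
  | zero => exact ⟨fun _ => 0, fun _ => hF, by intro a ha; omega⟩
  | succ n ih =>
    obtain ⟨h', hh, hle⟩ := ih
    have key : ∃ s ∈ range F, F * ∑ a' ∈ range n, ∑ b ∈ range M,
        (if (W n b + s < W a' b + h' a' + T ∧ W a' b + h' a' < W n b + s + T) then 1 else 0)
        ≤ n * M * (2 * T) := by
      by_contra hcon
      push Not at hcon
      have hsum := Finset.sum_lt_sum_of_nonempty (s := range F) ⟨0, mem_range.2 hF⟩ hcon
      rw [Finset.sum_const, card_range, smul_eq_mul, ← mul_sum] at hsum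
      have h2 := lt_of_mul_lt_mul_left hsum (Nat.zero_le F)
      have h3 : ∑ s ∈ range F, ∑ a' ∈ range n, ∑ b ∈ range M,
          (if (W n b + s < W a' b + h' a' + T ∧ W a' b + h' a' < W n b + s + T) then 1 else 0)
          ≤ n * M * (2 * T) := by
        rw [sum_comm]
        calc ∑ a' ∈ range n, ∑ s ∈ range F, ∑ b ∈ range M,
            (if (W n b + s < W a' b + h' a' + T ∧ W a' b + h' a' < W n b + s + T) then 1 else 0)
            = ∑ a' ∈ range n, ∑ b ∈ range M, ∑ s ∈ range F,
            (if (W n b + s < W a' b + h' a' + T ∧ W a' b + h' a' < W n b + s + T)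
              then 1 else 0) := by
              apply sum_congr rfl
              intro a' _
              rw [sum_comm]
          _ ≤ ∑ a' ∈ range n, ∑ b ∈ range M, 2 * T := by
              apply sum_le_sum
              intro a' _
              apply sum_le_sum
              intro b _
              rw [← card_filter]
              exact cnt833 _ _ _ _
          _ = n * M * (2 * T) := by
              simp only [sum_const, card_range, smul_eq_mul]
              ring
      omega
    obtain ⟨s, hs, hs2⟩ := key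
    refine ⟨Function.update h' n s, ?_, ?_⟩
    · intro i
      by_cases hi : i = n
      · subst hi
        rw [Function.update_self]
        exact mem_range.1 hs
      · rw [Function.update_of_ne hi]; exact hh i
    · intro a ha
      rcases Nat.lt_succ_iff_lt_or_eq.1 ha with ha1 | ha1
      · refine le_trans (le_of_eq ?_) (hle a ha1)
        congr 1
        apply sum_congr rfl
        intro a' ha'
        have ha2 := mem_range.1 ha'
        rw [Function.update_of_ne (by omega : a ≠ n), Function.update_of_ne (by omega : a' ≠ n)]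
      · subst ha1
        refine le_trans (le_of_eq ?_) hs2
        congr 1
        apply sum_congr rfl
        intro a' ha'
        have ha2 := mem_range.1 ha'
        rw [Function.update_self, Function.update_of_ne (by omega : a' ≠ a)]

theorem sym833 (c : ℕ → ℕ → ℕ) (hc : ∀ a a', c a a' = c a' a) (M : ℕ) :
    ∑ a ∈ range M, ∑ a' ∈ range M, c a a'
      = ∑ a ∈ range M, c a a + 2 * ∑ a ∈ range M, ∑ a' ∈ range a, c a a' := by
  induction M with
  | zero => simp
  | succ M ih =>
    rw [sum_range_succ (fun a => ∑ a' ∈ range (M + 1), c a a')]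
    have h1 : ∑ a ∈ range M, ∑ a' ∈ range (M + 1), c a a'
        = ∑ a ∈ range M, ∑ a' ∈ range M, c a a' + ∑ a ∈ range M, c a M := by
      rw [← sum_add_distrib]
      apply sum_congr rfl
      intro a _
      rw [sum_range_succ]
    rw [h1, ih, sum_range_succ (fun a' => c M a'), sum_range_succ (fun a => c a a),
      sum_range_succ (fun a => ∑ a' ∈ range a, c a a')]
    have h2 : ∑ a ∈ range M, c a M = ∑ a' ∈ range M, c M a' := sum_congr rfl (fun a _ => hc a M)
    rw [h2]
    ring

theorem pairs833 (A : Finset ℕ) (g : ℕ → ℕ) (J : ℕ) :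
    ∑ j ∈ range J, (A.filter (fun a => g a = j)).card ^ 2
      ≤ ∑ a ∈ A, ∑ a' ∈ A, (if g a' = g a then 1 else 0) := by
  have h1 : ∀ j ∈ range J, (A.filter (fun a => g a = j)).card ^ 2
      = ∑ a ∈ A, if g a = j then ∑ a' ∈ A, (if g a' = g a then 1 else 0) else 0 := by
    intro j _
    rw [← sum_filter]
    have h2 : ∀ a ∈ A.filter (fun a => g a = j), ∑ a' ∈ A, (if g a' = g a then 1 else 0)
        = (A.filter (fun a => g a = j)).card := by
      intro a ha
      rw [← card_filter, (mem_filter.1 ha).2]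
    rw [sum_congr rfl h2, sum_const, smul_eq_mul, pow_two]
  rw [sum_congr rfl h1, sum_comm]
  apply sum_le_sum
  intro a _
  rw [sum_ite_eq]
  split_ifs
  · exact le_rfl
  · exact Nat.zero_le _

theorem col833 (B : Finset ℕ) (W : ℕ → ℕ) (c L : ℝ) (hc : 0 < c) (hL : 0 ≤ L)
    (hs : ∀ b1 ∈ B, ∀ b2 ∈ B, b1 < b2 → c * ((b2 : ℝ) - b1) ≤ (W b2 : ℝ) - W b1)
    (p : ℕ → Prop) [DecidablePred p]
    (hp : ∀ b1 ∈ B, ∀ b2 ∈ B, p b1 → p b2 → (W b2 : ℝ) - W b1 ≤ L) :
    c * ((B.filter p).card : ℝ) ≤ L + c := by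
  rcases (B.filter p).eq_empty_or_nonempty with h | h
  · rw [h]; simp; linarith
  · obtain ⟨b1, hb1d⟩ : ∃ b1, b1 = (B.filter p).min' h := ⟨_, rfl⟩
    obtain ⟨b2, hb2d⟩ : ∃ b2, b2 = (B.filter p).max' h := ⟨_, rfl⟩
    have hsub : B.filter p ⊆ Icc b1 b2 := fun b hb =>
      mem_Icc.2 ⟨hb1d ▸ min'_le _ _ hb, hb2d ▸ le_max' _ _ hb⟩
    have hcard := card_le_card hsub
    rw [Nat.card_Icc] at hcard
    have hb1 : b1 ∈ B.filter p := hb1d ▸ min'_mem _ _
    have hb2 : b2 ∈ B.filter p := hb2d ▸ max'_mem _ _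
    have hle : b1 ≤ b2 := (mem_Icc.1 (hsub hb1)).2
    rcases hle.eq_or_lt with heq | hlt
    · have h1 : (B.filter p).card ≤ 1 := by omega
      have h2 : ((B.filter p).card : ℝ) ≤ 1 := by exact_mod_cast h1
      nlinarith
    · have h3 := hs b1 (mem_filter.1 hb1).1 b2 (mem_filter.1 hb2).1 hlt
      have h4 := hp b1 (mem_filter.1 hb1).1 b2 (mem_filter.1 hb2).1 (mem_filter.1 hb1).2
        (mem_filter.1 hb2).2
      have h5 : (B.filter p).card + b1 ≤ b2 + 1 := by omega
      have h6 : ((B.filter p).card : ℝ) + b1 ≤ b2 + 1 := by exact_mod_cast h5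
      have h7 : ((B.filter p).card : ℝ) ≤ (b2 : ℝ) - b1 + 1 := by linarith
      have h8 := mul_le_mul_of_nonneg_left h7 hc.le
      linarith

/-- number of `a < M` whose point `(a,b)` falls into window `j` after the shift `s` -/
noncomputable def ph833 (M T : ℕ) (B : ℕ → Finset ℕ) (U : ℕ → ℕ → ℕ) (b s j : ℕ) : ℕ :=
  ((range M).filter (fun a => b ∈ B a ∧ (U a b + s) / T = j)).card

theorem win833 (F T u j : ℕ) (hT : 0 < T) :
    ∑ s ∈ range F, (if (u + s) / T = j then 1 else 0)
      ≤ if (j * T < u + F ∧ u < (j + 1) * T) then T else 0 := by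
  rw [← card_filter]
  split_ifs with h
  · calc ((range F).filter (fun s => (u + s) / T = j)).card
        ≤ (Ico (j * T - u) ((j + 1) * T - u)).card := by
          apply card_le_card
          intro s hs
          simp only [mem_filter, mem_range, mem_Ico] at hs ⊢
          have h2 := Nat.div_add_mod (u + s) T
          have h3 := Nat.mod_lt (u + s) hT
          rw [hs.2] at h2
          have h4 : (j + 1) * T = T * j + T := by ring
          have h5 : j * T = T * j := by ring
          omega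
      _ ≤ T := by
          rw [Nat.card_Ico]
          have h4 : (j + 1) * T = j * T + T := by ring
          omega
  · rw [Nat.le_zero, card_eq_zero, filter_eq_empty_iff]
    intro s hs hs2
    apply h
    have hs1 := mem_range.1 hs
    have h2 := Nat.div_add_mod (u + s) T
    have h3 := Nat.mod_lt (u + s) hT
    rw [hs2] at h2
    have h4 : (j + 1) * T = T * j + T := by ring
    have h5 : j * T = T * j := by ring
    omega

theorem mean833 (M F T : ℕ) (hT : 0 < T) (B : ℕ → Finset ℕ) (W : ℕ → ℕ → ℕ) (h' : ℕ → ℕ)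
    (c : ℝ) (hc : 0 < c) 
    (hs : ∀ a < M, ∀ b1 ∈ B a, ∀ b2 ∈ B a, b1 < b2 →
      c * ((b2 : ℝ) - b1) ≤ (W a b2 : ℝ) - W a b1) (j : ℕ) :
    c * ∑ b ∈ range M, ∑ s ∈ range F, (ph833 M T B (fun a b => W a b + h' a) b s j : ℝ)
      ≤ M * (T * ((F : ℝ) + T + c)) := by
  classical
  have h1 : ∑ b ∈ range M, ∑ s ∈ range F, ph833 M T B (fun a b => W a b + h' a) b s j
      ≤ ∑ a ∈ range M, T * ((B a).filter (fun b => j * T < W a b + h' a + F ∧
          W a b + h' a < (j + 1) * T)).card := by
    calc ∑ b ∈ range M, ∑ s ∈ range F, ph833 M T B (fun a b => W a b + h' a) b s j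
        = ∑ b ∈ range M, ∑ s ∈ range F, ∑ a ∈ range M,
            (if (b ∈ B a ∧ (W a b + h' a + s) / T = j) then 1 else 0) := by
          apply sum_congr rfl
          intro b _
          apply sum_congr rfl
          intro s _
          unfold ph833
          rw [card_filter]
      _ = ∑ b ∈ range M, ∑ a ∈ range M, ∑ s ∈ range F,
            (if (b ∈ B a ∧ (W a b + h' a + s) / T = j) then 1 else 0) := by
          apply sum_congr rfl
          intro b _
          rw [sum_comm]
      _ = ∑ a ∈ range M, ∑ b ∈ range M, ∑ s ∈ range F,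
            (if (b ∈ B a ∧ (W a b + h' a + s) / T = j) then 1 else 0) := by
          rw [sum_comm]
      _ ≤ ∑ a ∈ range M, T * ((B a).filter (fun b => j * T < W a b + h' a + F ∧
          W a b + h' a < (j + 1) * T)).card := by
          apply sum_le_sum
          intro a _
          calc ∑ b ∈ range M, ∑ s ∈ range F,
              (if (b ∈ B a ∧ (W a b + h' a + s) / T = j) then 1 else 0)
              ≤ ∑ b ∈ range M, T * (if (b ∈ B a ∧ (j * T < W a b + h' a + F ∧
                W a b + h' a < (j + 1) * T)) then 1 else 0) := by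
                apply sum_le_sum
                intro b _
                by_cases hb : b ∈ B a
                · simp only [hb, true_and]
                  refine (win833 F T (W a b + h' a) j hT).trans ?_
                  split_ifs <;> simp
                · simp [hb]
            _ = T * ((range M).filter (fun b => b ∈ B a ∧ (j * T < W a b + h' a + F ∧
                W a b + h' a < (j + 1) * T))).card := by
                rw [← mul_sum, ← card_filter]
            _ ≤ T * ((B a).filter (fun b => j * T < W a b + h' a + F ∧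
                W a b + h' a < (j + 1) * T)).card := by
                apply Nat.mul_le_mul_left
                apply card_le_card
                intro b hb
                rw [mem_filter] at hb ⊢
                exact hb.2
  have h2 : ∑ b ∈ range M, ∑ s ∈ range F, (ph833 M T B (fun a b => W a b + h' a) b s j : ℝ)
      ≤ ∑ a ∈ range M, (T : ℝ) * (((B a).filter (fun b => j * T < W a b + h' a + F ∧
          W a b + h' a < (j + 1) * T)).card : ℝ) := by
    exact_mod_cast h1
  calc c * ∑ b ∈ range M, ∑ s ∈ range F, (ph833 M T B (fun a b => W a b + h' a) b s j : ℝ)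
      ≤ c * ∑ a ∈ range M, (T : ℝ) * (((B a).filter (fun b => j * T < W a b + h' a + F ∧
          W a b + h' a < (j + 1) * T)).card : ℝ) := mul_le_mul_of_nonneg_left h2 hc.le
    _ = ∑ a ∈ range M, (T : ℝ) * (c * (((B a).filter (fun b => j * T < W a b + h' a + F ∧
          W a b + h' a < (j + 1) * T)).card : ℝ)) := by
        rw [mul_sum]
        apply sum_congr rfl
        intro a _
        ring
    _ ≤ ∑ a ∈ range M, (T : ℝ) * ((F : ℝ) + T + c) := by
        apply sum_le_sum
        intro a ha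
        apply mul_le_mul_of_nonneg_left _ (Nat.cast_nonneg T)
        apply col833 (B a) (W a) c ((F : ℝ) + T) hc (by positivity) (hs a (mem_range.1 ha))
        intro b1 hb1 b2 hb2 hp1 hp2
        have h3 : W a b2 ≤ W a b1 + F + T := by
          have h4 : (j + 1) * T = j * T + T := by ring
          omega
        have h5 : (W a b2 : ℝ) ≤ W a b1 + F + T := by exact_mod_cast h3
        linarith
    _ = M * (T * ((F : ℝ) + T + c)) := by
        rw [sum_const, card_range, nsmul_eq_mul]

theorem second833 (M J T : ℕ) (hT : 0 < T) (B : ℕ → Finset ℕ) (U : ℕ → ℕ → ℕ) (b s : ℕ) :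
    ∑ j ∈ range J, (ph833 M T B U b s j) ^ 2
      ≤ ∑ a ∈ range M, ∑ a' ∈ range M,
        (if (U a b < U a' b + T ∧ U a' b < U a b + T) then 1 else 0) := by
  have h1 := pairs833 ((range M).filter (fun a => b ∈ B a)) (fun a => (U a b + s) / T) J
  have h2 : ∀ j ∈ range J, (ph833 M T B U b s j) ^ 2
      = ((((range M).filter (fun a => b ∈ B a)).filter (fun a => (U a b + s) / T = j)).card) ^ 2 := by
    intro j _
    unfold ph833
    rw [filter_filter]
  rw [sum_congr rfl h2]
  refine h1.trans ?_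
  calc ∑ a ∈ (range M).filter (fun a => b ∈ B a), ∑ a' ∈ (range M).filter (fun a => b ∈ B a),
        (if (U a' b + s) / T = (U a b + s) / T then 1 else 0)
      ≤ ∑ a ∈ (range M).filter (fun a => b ∈ B a), ∑ a' ∈ range M,
        (if (U a b < U a' b + T ∧ U a' b < U a b + T) then 1 else 0) := by
        apply sum_le_sum
        intro a _
        refine (sum_le_sum_of_subset (filter_subset _ _)).trans ?_
        apply sum_le_sum
        intro a' _
        split_ifs with h3 h4
        · exact le_rfl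
        · exfalso
          apply h4
          have e1 := Nat.div_add_mod (U a b + s) T
          have e2 := Nat.mod_lt (U a b + s) hT
          have e3 := Nat.div_add_mod (U a' b + s) T
          have e4 := Nat.mod_lt (U a' b + s) hT
          rw [h3] at e3
          omega
        · omega
        · omega
    _ ≤ ∑ a ∈ range M, ∑ a' ∈ range M,
        (if (U a b < U a' b + T ∧ U a' b < U a b + T) then 1 else 0) :=
        sum_le_sum_of_subset (filter_subset _ _)

theorem close833 (M K T : ℕ) (hM : 0 < M) (hK : 4 * T ≤ K) (hK0 : 0 < K) (U : ℕ → ℕ → ℕ)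
    (hU : ∀ a < M, (K * M) * ∑ a' ∈ range a, ∑ b ∈ range M,
        (if (U a b < U a' b + T ∧ U a' b < U a b + T) then 1 else 0) ≤ a * M * (2 * T)) :
    ∑ b ∈ range M, ∑ a ∈ range M, ∑ a' ∈ range M,
        (if (U a b < U a' b + T ∧ U a' b < U a b + T) then 1 else 0) ≤ 2 * M ^ 2 := by
  have h1 : ∀ b ∈ range M, ∑ a ∈ range M, ∑ a' ∈ range M,
        (if (U a b < U a' b + T ∧ U a' b < U a b + T) then 1 else 0)
      = ∑ a ∈ range M, (if (U a b < U a b + T ∧ U a b < U a b + T) then 1 else 0)
        + 2 * ∑ a ∈ range M, ∑ a' ∈ range a,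
          (if (U a b < U a' b + T ∧ U a' b < U a b + T) then 1 else 0) := by
    intro b _
    apply sym833 (fun a a' => if (U a b < U a' b + T ∧ U a' b < U a b + T) then 1 else 0)
    intro a a'
    beta_reduce
    split_ifs <;> omega
  rw [sum_congr rfl h1, sum_add_distrib, ← mul_sum]
  have h2 : ∑ b ∈ range M, ∑ a ∈ range M,
      (if (U a b < U a b + T ∧ U a b < U a b + T) then 1 else 0) ≤ M ^ 2 := by
    calc ∑ b ∈ range M, ∑ a ∈ range M,
      (if (U a b < U a b + T ∧ U a b < U a b + T) then 1 else 0)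
        ≤ ∑ b ∈ range M, ∑ a ∈ range M, 1 := by
          apply sum_le_sum
          intro b _
          apply sum_le_sum
          intro a _
          split_ifs <;> omega
      _ = M ^ 2 := by
          simp only [sum_const, card_range, smul_eq_mul]
          ring
  have h3 : ∑ b ∈ range M, ∑ a ∈ range M, ∑ a' ∈ range a,
          (if (U a b < U a' b + T ∧ U a' b < U a b + T) then 1 else 0)
      = ∑ a ∈ range M, ∑ a' ∈ range a, ∑ b ∈ range M,
          (if (U a b < U a' b + T ∧ U a' b < U a b + T) then 1 else 0) := by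
    rw [sum_comm]
    apply sum_congr rfl
    intro a _
    rw [sum_comm]
  have h4 : (K * M) * ∑ a ∈ range M, ∑ a' ∈ range a, ∑ b ∈ range M,
          (if (U a b < U a' b + T ∧ U a' b < U a b + T) then 1 else 0)
      ≤ M * (M * M * (2 * T)) := by
    rw [mul_sum]
    calc ∑ a ∈ range M, (K * M) * ∑ a' ∈ range a, ∑ b ∈ range M,
          (if (U a b < U a' b + T ∧ U a' b < U a b + T) then 1 else 0)
        ≤ ∑ a ∈ range M, M * M * (2 * T) := by
          apply sum_le_sum
          intro a ha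
          refine (hU a (mem_range.1 ha)).trans ?_
          have := (mem_range.1 ha).le
          gcongr
      _ = M * (M * M * (2 * T)) := by simp
  rw [h3]
  obtain ⟨C, hC⟩ : ∃ C, C = ∑ a ∈ range M, ∑ a' ∈ range a, ∑ b ∈ range M,
          (if (U a b < U a' b + T ∧ U a' b < U a b + T) then 1 else 0) := ⟨_, rfl⟩
  rw [← hC] at h4 ⊢
  have h5 : K * M * (2 * C) ≤ K * M * M ^ 2 := by
    calc K * M * (2 * C) = 2 * (K * M * C) := by ring
      _ ≤ 2 * (M * (M * M * (2 * T))) := by omega
      _ = (4 * T) * (M * M ^ 2) := by ring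
      _ ≤ K * (M * M ^ 2) := Nat.mul_le_mul_right _ hK
      _ = K * M * M ^ 2 := by ring
  have h6 : 2 * C ≤ M ^ 2 := Nat.le_of_mul_le_mul_left h5 (Nat.mul_pos hK0 hM)
  omega

theorem core833 (e2 : ℝ) (K T M : ℕ) (he2 : 0 < e2) (he2' : e2 ≤ 1 / 40) (hT : 0 < T)
    (hK : 4 * T ≤ K) (hKe : 1 ≤ e2 * K) (hM : 8 * K ≤ M) (hT2 : 1000 ≤ 1600 * e2 ^ 2 * T)
    (W : ℕ → ℕ → ℕ) (B : ℕ → Finset ℕ)
    (hB : ∀ a < M, B a ⊆ range M)
    (hs : ∀ a < M, ∀ b1 ∈ B a, ∀ b2 ∈ B a, b1 < b2 →
      (1 - e2) * (M : ℝ) * ((b2 : ℝ) - b1) ≤ (W a b2 : ℝ) - W a b1)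
    (hW : ∀ a < M, ∀ b ∈ B a, (W a b : ℝ) ≤ (1 + e2) * (M : ℝ) ^ 2) :
    ∃ (f h' : ℕ → ℕ) (h : ℕ → ℕ → ℕ) (X : Finset (ℕ × ℕ)),
        (∀ i, f i < K * M) ∧ (∀ i, h' i < K * M) ∧ (∀ i j, h i j < 2 * T) ∧
        (∀ v ∈ X, v.1 < M ∧ v.2 ∈ B v.1) ∧
        (∑ a ∈ range M, ((B a).card : ℝ)) - (40 * e2) * (M : ℝ) ^ 2 ≤ X.card ∧
        Set.InjOn (fun v : ℕ × ℕ => W v.1 v.2 + f v.2 + h' v.1 + h v.1 v.2) X := by
  classical
  have hK0 : 0 < K := by omega
  have hM0 : 0 < M := by omega
  have hF : 0 < K * M := Nat.mul_pos hK0 hM0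
  obtain ⟨h', hh', hgs⟩ := gstep833 M (K * M) T hF W M
  obtain ⟨U, hU⟩ : ∃ U : ℕ → ℕ → ℕ, U = fun a b => W a b + h' a := ⟨_, rfl⟩
  have hclose := close833 M K T hM0 hK hK0 U (by intro a ha; rw [hU]; exact hgs a ha)
  obtain ⟨J, hJ⟩ : ∃ J, J = 2 * M ^ 2 / T := ⟨_, rfl⟩
  obtain ⟨f, hf, hvar⟩ := greedy833 (K * M) J hF (fun b s j => (ph833 M T B U b s j : ℝ)) M
  beta_reduce at hvar
  -- real versions
  have hMr : (0 : ℝ) < M := by exact_mod_cast hM0
  have hKr : (0 : ℝ) < K := by exact_mod_cast hK0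
  have hTr : (0 : ℝ) < T := by exact_mod_cast hT
  have hKr2 : (4 : ℝ) * T ≤ K := by exact_mod_cast hK
  have hMr2 : (8 : ℝ) * K ≤ M := by exact_mod_cast hM
  have hFr : (((K * M : ℕ)) : ℝ) = K * M := by push_cast; ring
  have hFpos : (0 : ℝ) < ((K * M : ℕ) : ℝ) := by exact_mod_cast hF
  -- second moment
  have hvar2 : ∑ b ∈ range M, (∑ s ∈ range (K * M), ∑ j ∈ range J,
      ((ph833 M T B U b s j : ℝ)) ^ 2) / ((K * M : ℕ) : ℝ) ≤ 2 * (M : ℝ) ^ 2 := by
    have h1 : ∀ b ∈ range M, (∑ s ∈ range (K * M), ∑ j ∈ range J,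
        ((ph833 M T B U b s j : ℝ)) ^ 2) / ((K * M : ℕ) : ℝ)
        ≤ ((∑ a ∈ range M, ∑ a' ∈ range M,
        (if (U a b < U a' b + T ∧ U a' b < U a b + T) then 1 else 0) : ℕ) : ℝ) := by
      intro b _
      rw [div_le_iff₀ hFpos]
      calc ∑ s ∈ range (K * M), ∑ j ∈ range J, ((ph833 M T B U b s j : ℝ)) ^ 2
          ≤ ∑ s ∈ range (K * M), ((∑ a ∈ range M, ∑ a' ∈ range M,
        (if (U a b < U a' b + T ∧ U a' b < U a b + T) then 1 else 0) : ℕ) : ℝ) := by
            apply sum_le_sum
            intro s _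
            have h2 := second833 M J T hT B U b s
            have h3 : ((∑ j ∈ range J, (ph833 M T B U b s j) ^ 2 : ℕ) : ℝ)
                ≤ ((∑ a ∈ range M, ∑ a' ∈ range M,
        (if (U a b < U a' b + T ∧ U a' b < U a b + T) then 1 else 0) : ℕ) : ℝ) := by
              exact_mod_cast h2
            refine le_trans (le_of_eq ?_) h3
            push_cast
            rfl
        _ = ((∑ a ∈ range M, ∑ a' ∈ range M,
        (if (U a b < U a' b + T ∧ U a' b < U a b + T) then 1 else 0) : ℕ) : ℝ)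
            * ((K * M : ℕ) : ℝ) := by
            rw [sum_const, card_range, nsmul_eq_mul, mul_comm]
    refine (sum_le_sum h1).trans ?_
    rw [← Nat.cast_sum]
    have h4 : ((∑ b ∈ range M, ∑ a ∈ range M, ∑ a' ∈ range M,
        (if (U a b < U a' b + T ∧ U a' b < U a b + T) then 1 else 0) : ℕ) : ℝ)
        ≤ ((2 * M ^ 2 : ℕ) : ℝ) := by exact_mod_cast hclose
    refine h4.trans (le_of_eq ?_)
    push_cast
    ring
  -- means
  obtain ⟨mu, hmu⟩ : ∃ mu : ℕ → ℝ, mu = fun j => ∑ b ∈ range M,
      (∑ s ∈ range (K * M), (ph833 M T B U b s j : ℝ)) / ((K * M : ℕ) : ℝ) := ⟨_, rfl⟩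
  obtain ⟨Xj, hXj⟩ : ∃ Xj : ℕ → ℕ, Xj = fun j => ∑ b ∈ range M, ph833 M T B U b (f b) j :=
    ⟨_, rfl⟩
  have hvar3 : ∑ j ∈ range J, ((Xj j : ℝ) - mu j) ^ 2 ≤ 2 * (M : ℝ) ^ 2 := by
    refine le_trans (le_of_eq ?_) (hvar.trans hvar2)
    apply sum_congr rfl
    intro j _
    rw [sum_sub_distrib, hXj, hmu]
    push_cast
    rfl
  have hmean : ∀ j, mu j ≤ (1 + 3 * e2) * T := by
    intro j
    have h1 := mean833 M (K * M) T hT B W h' ((1 - e2) * M)
      (mul_pos (by linarith) hMr) hs j
    rw [hmu]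
    beta_reduce
    rw [← sum_div, div_le_iff₀ hFpos]
    have h2 : ∑ b ∈ range M, ∑ s ∈ range (K * M), (ph833 M T B U b s j : ℝ)
        = ∑ b ∈ range M, ∑ s ∈ range (K * M),
          (ph833 M T B (fun a b => W a b + h' a) b s j : ℝ) := by rw [hU]
    rw [h2]
    obtain ⟨S, hS⟩ : ∃ S, S = ∑ b ∈ range M, ∑ s ∈ range (K * M),
          (ph833 M T B (fun a b => W a b + h' a) b s j : ℝ) := ⟨_, rfl⟩
    rw [← hS] at h1 ⊢
    rw [hFr] at h1 ⊢
    have h3 : (1 - e2) * S ≤ T * ((K : ℝ) * M + T + (1 - e2) * M) := by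
      have h4 : (M : ℝ) * ((1 - e2) * S) ≤ M * (T * ((K : ℝ) * M + T + (1 - e2) * M)) := by
        linarith
      exact le_of_mul_le_mul_left h4 hMr
    have h5 : (M : ℝ) ≤ e2 * (K * M) := by nlinarith
    have h6 : (T : ℝ) ≤ e2 / 4 * (K * M) := by nlinarith
    have h7 : (K : ℝ) * M + T + (1 - e2) * M ≤ (1 + 5 / 4 * e2) * (K * M) := by nlinarith
    have h8 : (1 - e2) * S ≤ (1 - e2) * ((1 + 3 * e2) * T * (K * M)) := by
      calc (1 - e2) * S ≤ T * ((K : ℝ) * M + T + (1 - e2) * M) := h3
        _ ≤ T * ((1 + 5 / 4 * e2) * (K * M)) := mul_le_mul_of_nonneg_left h7 hTr.le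
        _ = (1 + 5 / 4 * e2) * (T * (K * M)) := by ring
        _ ≤ ((1 - e2) * (1 + 3 * e2)) * (T * (K * M)) := by
            apply mul_le_mul_of_nonneg_right _ (by positivity)
            nlinarith
        _ = (1 - e2) * ((1 + 3 * e2) * T * (K * M)) := by ring
    exact le_of_mul_le_mul_left h8 (by linarith)
  -- points
  obtain ⟨Pt, hPt⟩ : ∃ Pt : Finset (ℕ × ℕ), Pt = (range M ×ˢ range M).filter
      (fun v : ℕ × ℕ => v.2 ∈ B v.1) := ⟨_, rfl⟩
  obtain ⟨pos, hpos⟩ : ∃ pos : ℕ × ℕ → ℕ, pos = fun v => U v.1 v.2 + f v.2 := ⟨_, rfl⟩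
  have hTM : (T : ℝ) ≤ M ^ 2 / 8 := by nlinarith
  have hposJ : ∀ v ∈ Pt, pos v / T < J := by
    intro v hv
    rw [hPt, mem_filter, mem_product, mem_range, mem_range] at hv
    have h1 := hW v.1 hv.1.1 v.2 hv.2
    have h2 : (pos v : ℝ) + T ≤ 2 * M ^ 2 := by
      have e1 : (pos v : ℝ) = W v.1 v.2 + h' v.1 + f v.2 := by
        rw [hpos, hU]; push_cast; ring
      have e2' : (h' v.1 : ℝ) ≤ K * M := by
        have := (hh' v.1).le
        exact_mod_cast this
      have e3 : (f v.2 : ℝ) ≤ K * M := by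
        have := (hf v.2).le
        exact_mod_cast this
      have e4 : (8 : ℝ) * (K * M) ≤ M ^ 2 := by nlinarith
      have e5 : e2 * (M : ℝ) ^ 2 ≤ 1 / 40 * (M : ℝ) ^ 2 :=
        mul_le_mul_of_nonneg_right he2' (sq_nonneg _)
      rw [e1]
      nlinarith
    have h3 : pos v + T ≤ 2 * M ^ 2 := by exact_mod_cast h2
    have h4 : (pos v + T) / T ≤ 2 * M ^ 2 / T := Nat.div_le_div_right h3
    rw [Nat.add_div_right _ hT] at h4
    rw [hJ]
    omega
  obtain ⟨h, X, hX1, hX2, hX3, hX4⟩ := hstep833 Pt pos T J hT hposJ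
  refine ⟨f, h', fun i j => h (i, j), X, hf, hh', fun i j => hX2 _, ?_, ?_, ?_⟩
  · intro v hv
    have := hX1 hv
    rw [hPt, mem_filter, mem_product, mem_range, mem_range] at this
    exact ⟨this.1.1, this.2⟩
  · -- cardinalities
    have hPtc : (Pt.card : ℝ) = ∑ a ∈ range M, ((B a).card : ℝ) := by
      rw [← Nat.cast_sum]
      congr 1
      rw [hPt, card_filter, sum_product]
      apply sum_congr rfl
      intro a ha
      rw [← card_filter]
      congr 1
      ext b
      rw [mem_filter]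
      exact ⟨fun h => h.2, fun h => ⟨hB a (mem_range.1 ha) h, h⟩⟩
    have hfib : ∀ j, (Pt.filter (fun v => pos v / T = j)).card = Xj j := by
      intro j
      rw [hPt, hXj, filter_filter, card_filter, sum_product_right]
      beta_reduce
      apply sum_congr rfl
      intro b _
      unfold ph833
      rw [card_filter]
      apply sum_congr rfl
      intro a _
      rw [hpos]
    have hover : ∀ j ∈ range J, (((Pt.filter (fun v => pos v / T = j)).card - T : ℕ) : ℝ)
        ≤ |(Xj j : ℝ) - mu j| + 3 * e2 * T := by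
      intro j _
      rw [hfib j]
      rcases le_total (Xj j) T with h1 | h1
      · rw [Nat.sub_eq_zero_of_le h1]
        have := abs_nonneg ((Xj j : ℝ) - mu j)
        push_cast
        positivity
      · rw [Nat.cast_sub h1]
        have h2 := le_abs_self ((Xj j : ℝ) - mu j)
        have h3 := hmean j
        nlinarith
    have hJT : (J : ℝ) * T ≤ 2 * M ^ 2 := by
      have : J * T ≤ 2 * M ^ 2 := by rw [hJ]; exact Nat.div_mul_le_self _ _
      exact_mod_cast this
    have hCS : (∑ j ∈ range J, |(Xj j : ℝ) - mu j|) ^ 2 ≤ J * (2 * (M : ℝ) ^ 2) := by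
      have h1 := sq_sum_le_card_mul_sum_sq (s := range J) (f := fun j => |(Xj j : ℝ) - mu j|)
      rw [card_range] at h1
      refine h1.trans ?_
      apply mul_le_mul_of_nonneg_left _ (Nat.cast_nonneg J)
      refine le_trans (le_of_eq ?_) hvar3
      apply sum_congr rfl
      intro j _
      rw [sq_abs]
    have hCS2 : ∑ j ∈ range J, |(Xj j : ℝ) - mu j| ≤ 10 * e2 * M ^ 2 := by
      have h1 : (∑ j ∈ range J, |(Xj j : ℝ) - mu j|) ^ 2 ≤ (10 * e2 * M ^ 2) ^ 2 := by
        refine hCS.trans ?_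
        have h2 : (T : ℝ) * (J * (2 * (M : ℝ) ^ 2)) ≤ T * (10 * e2 * M ^ 2) ^ 2 := by
          calc (T : ℝ) * (J * (2 * (M : ℝ) ^ 2)) = (J * T) * (2 * (M : ℝ) ^ 2) := by ring
            _ ≤ (2 * M ^ 2) * (2 * (M : ℝ) ^ 2) :=
                mul_le_mul_of_nonneg_right hJT (by positivity)
            _ = 4 * (M : ℝ) ^ 4 := by ring
            _ ≤ (100 * e2 ^ 2 * T) * (M : ℝ) ^ 4 := by
                apply mul_le_mul_of_nonneg_right _ (by positivity)
                linarith
            _ = T * (10 * e2 * M ^ 2) ^ 2 := by ring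
        exact le_of_mul_le_mul_left h2 hTr
      exact le_of_sq_le_sq h1 (by positivity)
    have hsum := sum_le_sum hover
    rw [sum_add_distrib, sum_const, card_range, nsmul_eq_mul] at hsum
    have hX4' : (Pt.card : ℝ) ≤ X.card + ∑ j ∈ range J,
        (((Pt.filter (fun v => pos v / T = j)).card - T : ℕ) : ℝ) := by
      rw [← Nat.cast_sum, ← Nat.cast_add]
      exact_mod_cast hX4
    rw [← hPtc]
    have h9 : (J : ℝ) * (3 * e2 * T) ≤ 6 * e2 * M ^ 2 := by
      calc (J : ℝ) * (3 * e2 * T) = 3 * e2 * (J * T) := by ring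
        _ ≤ 3 * e2 * (2 * M ^ 2) := mul_le_mul_of_nonneg_left hJT (by positivity)
        _ = 6 * e2 * M ^ 2 := by ring
    have h10 : 0 ≤ e2 * (M : ℝ) ^ 2 := by positivity
    nlinarith
  · intro v hv w hw hvw
    apply hX3 hv hw
    beta_reduce at hvw ⊢
    rw [hpos, hU]
    beta_reduce
    have e1 : (v.1, v.2) = v := rfl
    have e2' : (w.1, w.2) = w := rfl
    rw [e1, e2'] at hvw
    omega


/-- TARGET: prove this. Do not change the definitions above. Helper lemmas may be added before it. -/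
theorem PLACE_thm  : PLACE_stmt := by
  intro eps heps
  obtain ⟨e, he0, he1, hee⟩ : ∃ e : ℝ, 0 < e ∧ e ≤ 1 ∧ e ≤ eps :=
    ⟨min eps 1, lt_min heps one_pos, min_le_right _ _, min_le_left _ _⟩
  obtain ⟨T, hT⟩ : ∃ T : ℕ, 1000 / e ^ 2 ≤ (T : ℝ) := ⟨⌈1000 / e ^ 2⌉₊, Nat.le_ceil _⟩
  have hTpos : 0 < T := by
    have h1 : (0 : ℝ) < 1000 / e ^ 2 := by positivity
    have h2 : (0 : ℝ) < T := lt_of_lt_of_le h1 hT
    exact_mod_cast h2
  obtain ⟨K, hK1, hK2⟩ : ∃ K : ℕ, 4 * T ≤ K ∧ 40 / e ≤ (K : ℝ) :=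
    ⟨max (4 * T) ⌈40 / e⌉₊, le_max_left _ _,
      (Nat.le_ceil _).trans (by exact_mod_cast le_max_right _ _)⟩
  refine ⟨e / 40, K, T, 8 * K, by positivity, by linarith, by omega, hTpos, ?_⟩
  intro M hM V B lo hB hs hV
  have hKe : 1 ≤ e / 40 * K := by
    rw [div_le_iff₀ he0] at hK2
    linarith
  have hT2 : (1000 : ℝ) ≤ 1600 * (e / 40) ^ 2 * T := by
    rw [div_le_iff₀ (by positivity)] at hT
    nlinarith
  have hVW : ∀ a < M, ∀ b ∈ B a, (((V a b - lo).toNat : ℕ) : ℤ) = V a b - lo := by
    intro a ha b hb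
    have h1 : (lo : ℝ) ≤ V a b := (hV a ha b hb).1
    have h2 : lo ≤ V a b := by exact_mod_cast h1
    exact Int.toNat_of_nonneg (by omega)
  have hVWr : ∀ a < M, ∀ b ∈ B a, (((V a b - lo).toNat : ℕ) : ℝ) = V a b - lo := by
    intro a ha b hb
    have h1 := hVW a ha b hb
    have h2 : ((((V a b - lo).toNat : ℕ) : ℤ) : ℝ) = ((V a b - lo : ℤ) : ℝ) := by rw [h1]
    push_cast at h2
    exact_mod_cast h2
  obtain ⟨f, h', h, X, h1, h2, h3, h4, h5, h6⟩ := core833 (e / 40) K T M (by positivity)
    (by linarith) hTpos hK1 hKe hM hT2 (fun a b => (V a b - lo).toNat) B hB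
    (by
      intro a ha b1 hb1 b2 hb2 hb
      beta_reduce
      rw [hVWr a ha b1 hb1, hVWr a ha b2 hb2]
      have := hs a ha b1 hb1 b2 hb2 hb
      linarith)
    (by
      intro a ha b hb
      beta_reduce
      rw [hVWr a ha b hb]
      have := (hV a ha b hb).2
      linarith)
  refine ⟨f, h', h, X, h1, h2, h3, h4, ?_, ?_⟩
  · have h7 : 40 * (e / 40) * (M : ℝ) ^ 2 ≤ eps * (M : ℝ) ^ 2 :=
      mul_le_mul_of_nonneg_right (by linarith) (sq_nonneg _)
    linarith
  · intro v hv w hw hvw
    apply h6 hv hw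
    beta_reduce at hvw ⊢
    have hv' := h4 v hv
    have hw' := h4 w hw
    have e1 := hVW v.1 hv'.1 v.2 hv'.2
    have e2 := hVW w.1 hw'.1 w.2 hw'.2
    have e3 : (((V v.1 v.2 - lo).toNat + f v.2 + h' v.1 + h v.1 v.2 : ℕ) : ℤ)
        = (((V w.1 w.2 - lo).toNat + f w.2 + h' w.1 + h w.1 w.2 : ℕ) : ℤ) := by
      rw [Nat.cast_add, Nat.cast_add, Nat.cast_add, Nat.cast_add, Nat.cast_add, Nat.cast_add,
        e1, e2]
      linarith
    exact_mod_cast e3



end SPLACE
end DD106
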