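import Mathlib
import Pool.Agent.H106DD.Defs

set_option autoImplicit false
open Finset

namespace DD106
namespace SPLF


/-- TARGET: prove this. Do not change the definitions above. Helper lemmas may be added before it. -/
theorem PLF_thm (hPL : PL_stmt) : PLF_stmt := by
  intro Z u V w h B hw hV hZ hcons hB
  have key : ∀ i : ℕ, ∃ E : Finset ℝ, E.card ≤ V.card + w * 2 ^ w ∧
      ∀ z ∈ Z, (E.image (fun s => (s - u z) ^ 2)).card + (if i < h z then 1 else 0) = E.card := by
    intro i
    obtain ⟨E, hE, hE2⟩ := hPL V w (fun r => ∃ z ∈ Z, u z = r ∧ i < h z) hw hV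
    refine ⟨E, hE, fun z hz => ?_⟩
    obtain ⟨v, hv, k, hk, e⟩ := hZ z hz
    rw [e]
    split_ifs with hi
    · exact (hE2 v hv k hk).1 ⟨z, hz, e, hi⟩
    · refine (hE2 v hv k hk).2 ?_
      rintro ⟨z', hz', e', hi'⟩
      apply hi
      rw [hcons z hz z' hz' (e.trans e'.symm)]
      exact hi'
  choose E hE hE2 using key
  refine ⟨E, fun i _ => hE i, fun z hz => ?_⟩
  have h1 : ∑ i ∈ range B, (if i < h z then 1 else 0) = h z := by
    have h2 : (range B).filter (fun i => i < h z) = range (h z) := by
      ext i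
      simp only [mem_filter, mem_range]
      exact ⟨fun hi => hi.2, fun hi => ⟨lt_of_lt_of_le hi (hB z hz), hi⟩⟩
    rw [Finset.sum_boole, h2]
    simp
  calc ∑ i ∈ range B, ((E i).image (fun s => (s - u z) ^ 2)).card + h z
      = ∑ i ∈ range B, ((E i).image (fun s => (s - u z) ^ 2)).card +
        ∑ i ∈ range B, (if i < h z then 1 else 0) := by rw [h1]
    _ = ∑ i ∈ range B, (((E i).image (fun s => (s - u z) ^ 2)).card +
        (if i < h z then 1 else 0)) := by rw [Finset.sum_add_distrib]
    _ = ∑ i ∈ range B, (E i).card := Finset.sum_congr rfl (fun i _ => hE2 i z hz)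



end SPLF
end DD106
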