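import Mathlib
import Pool.Agent.H106DD.Defs

set_option autoImplicit false
open Finset

namespace DD106
namespace SPS

/-- TARGET: prove this. Do not change the definitions above. Helper lemmas may be added before it. -/
theorem PS_thm (hML : ML_stmt) : PS_stmt := by
  classical
  obtain ⟨C0, hC0⟩ := hML
  refine ⟨3 + Real.exp |C0|, by positivity, 16, ?_⟩
  intro M hM
  have hM16 : (16:ℝ) ≤ M := by exact_mod_cast hM
  have hlog16 : Real.log 16 = 4 * Real.log 2 := by
    have h16 : (16:ℝ) = 2 ^ 4 := by norm_num
    rw [h16, Real.log_pow]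
    norm_num
  have h2 := Real.log_two_gt_d9
  have h2' := Real.log_two_lt_d9
  have he := Real.exp_one_lt_d9
  obtain ⟨L, hL⟩ : ∃ L : ℝ, L = Real.log M := ⟨_, rfl⟩
  obtain ⟨l, hl⟩ : ∃ l : ℝ, l = Real.log L := ⟨_, rfl⟩
  have hLe : Real.exp 1 ≤ L := by
    rw [hL]
    have := Real.log_le_log (by norm_num) hM16
    linarith
  have hLpos : 0 < L := lt_of_lt_of_le (Real.exp_pos 1) hLe
  have hl1 : 1 ≤ l := by
    rw [hl, Real.le_log_iff_exp_le hLpos]
    exact hLe
  have hexpl : Real.exp l = L := by rw [hl, Real.exp_log hLpos]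
  obtain ⟨Y, hY⟩ : ∃ Y : ℝ, Y = Real.exp (L / l ^ 2) := ⟨_, rfl⟩
  have hYpos : 0 < Y := by rw [hY]; exact Real.exp_pos _
  have hlogY : Real.log Y ≤ L := by
    rw [hY, Real.log_exp]
    apply div_le_self hLpos.le
    nlinarith
  obtain ⟨A, hA⟩ : ∃ A : ℕ → ℝ, ∀ n, A n = ∑ p ∈ (Finset.range (n + 1)).filter
    (fun p => p.Prime ∧ p % 4 = 1), 2 / (p : ℝ) := ⟨_, fun _ => rfl⟩
  obtain ⟨P, hP⟩ : ∃ P : Finset ℕ, P = (Finset.range (⌊Y⌋₊ + 1)).filter
    (fun p => (p.Prime ∧ p % 4 = 1) ∧ A p ≤ l) := ⟨_, rfl⟩
  have hmem : ∀ p, p ∈ P ↔ p ≤ ⌊Y⌋₊ ∧ (p.Prime ∧ p % 4 = 1) ∧ A p ≤ l := by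
    intro p
    rw [hP, Finset.mem_filter, Finset.mem_range, Nat.lt_succ_iff]
  refine ⟨P, ?_⟩
  unfold goodP
  rw [← hL, ← hl, ← hY]
  refine ⟨?_, ?_, ?_⟩
  · intro p hp
    rw [hmem] at hp
    exact ⟨hp.2.1, (Nat.le_floor_iff hYpos.le).mp hp.1⟩
  · rcases P.eq_empty_or_nonempty with hPe | hPn
    · rw [hPe, Finset.sum_empty]
      linarith
    · have hmax := P.max'_mem hPn
      have hAm := ((hmem _).mp hmax).2.2
      refine le_trans ?_ hAm
      rw [hA]
      apply Finset.sum_le_sum_of_subset_of_nonneg
      · intro p hp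
        rw [Finset.mem_filter, Finset.mem_range, Nat.lt_succ_iff]
        exact ⟨P.le_max' p hp, ((hmem p).mp hp).2.1⟩
      · intro p _ _
        positivity
  · intro y hy2 hyY
    obtain ⟨S, hS⟩ : ∃ S : ℝ, S = ∑ p ∈ P.filter (fun p : ℕ => (p : ℝ) ≤ y), 2 / (p : ℝ) := ⟨_, rfl⟩
    rw [← hS]
    have hS0 : 0 ≤ S := by
      rw [hS]
      apply Finset.sum_nonneg
      intro p _
      positivity
    have hexpS : 1 ≤ Real.exp S := Real.one_le_exp hS0
    have hexpC : 0 < Real.exp |C0| := Real.exp_pos _
    have hypos : 0 < y := by linarith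
    have hlogyL : Real.log y ≤ L := le_trans (Real.log_le_log hypos hyY) hlogY
    by_cases hy16 : y < 16
    · have h1 : Real.log y ≤ 3 := by
        have := Real.log_le_log hypos hy16.le
        linarith
      have h3 : (3:ℝ) ≤ (3 + Real.exp |C0|) * l := by nlinarith
      have h4 : (3 + Real.exp |C0|) * l ≤ (3 + Real.exp |C0|) * l * Real.exp S := by
        apply le_mul_of_one_le_right _ hexpS
        positivity
      linarith
    · have hy16' : 16 ≤ y := not_lt.mp hy16
      by_cases hall : ∀ p : ℕ, p.Prime → p % 4 = 1 → (p : ℝ) ≤ y → A p ≤ l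
      · have hSA : S = ∑ p ∈ (Finset.range (⌊y⌋₊ + 1)).filter (fun p => p.Prime ∧ p % 4 = 1), 2 / (p : ℝ) := by
          rw [hS]
          apply Finset.sum_congr _ (fun _ _ => rfl)
          ext p
          rw [Finset.mem_filter, hmem, Finset.mem_filter, Finset.mem_range, Nat.lt_succ_iff]
          constructor
          · rintro ⟨⟨h1, h3, h4⟩, h5⟩
            exact ⟨(Nat.le_floor_iff hypos.le).mpr h5, h3⟩
          · rintro ⟨h1, h3⟩
            have h5 : (p : ℝ) ≤ y := (Nat.le_floor_iff hypos.le).mp h1
            exact ⟨⟨(Nat.le_floor_iff hYpos.le).mpr (le_trans h5 hyY), h3, hall p h3.1 h3.2 h5⟩, h5⟩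
        have hm := hC0 y hy16'
        rw [← hSA] at hm
        have hly : 1 < Real.log y := by
          have := Real.log_le_log (by norm_num) hy16'
          linarith
        have hlly : 0 < Real.log (Real.log y) := Real.log_pos hly
        have hll2 : Real.log (Real.log y) ≤ l := by
          rw [hl]
          exact Real.log_le_log (by linarith) hlogyL
        have e1 : Real.log y = Real.exp (Real.log (Real.log y)) := by
          rw [Real.exp_log (by linarith)]
        have e2 : Real.log (Real.log y) ≤ S + Real.log (Real.log (Real.log y)) + |C0| := by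
          have := le_abs_self C0
          linarith
        have e3 : Real.log y ≤ Real.exp S * Real.log (Real.log y) * Real.exp |C0| := by
          rw [e1]
          have h5 : Real.exp (Real.log (Real.log y)) ≤
            Real.exp (S + Real.log (Real.log (Real.log y)) + |C0|) := Real.exp_le_exp.mpr e2
          rw [Real.exp_add, Real.exp_add, Real.exp_log hlly] at h5
          rw [← e1] at h5 ⊢
          exact h5
        calc Real.log y ≤ Real.exp S * Real.log (Real.log y) * Real.exp |C0| := e3
          _ ≤ Real.exp S * l * Real.exp |C0| := by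
              apply mul_le_mul_of_nonneg_right _ hexpC.le
              exact mul_le_mul_of_nonneg_left hll2 (Real.exp_pos S).le
          _ = (Real.exp |C0|) * l * Real.exp S := by ring
          _ ≤ (3 + Real.exp |C0|) * l * Real.exp S := by
              apply mul_le_mul_of_nonneg_right _ (Real.exp_pos S).le
              apply mul_le_mul_of_nonneg_right _ (by linarith)
              linarith
      · push Not at hall
        have hex : ∃ p : ℕ, p.Prime ∧ p % 4 = 1 ∧ (p : ℝ) ≤ y ∧ l < A p := by
          obtain ⟨p, h1, h3, h4, h5⟩ := hall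
          exact ⟨p, h1, h3, h4, h5⟩
        obtain ⟨hp1, hp2, hp3, hp4⟩ := Nat.find_spec hex
        obtain ⟨p0, hp0⟩ : ∃ p0, p0 = Nat.find hex := ⟨_, rfl⟩
        rw [← hp0] at hp1 hp2 hp3 hp4
        have hmin : ∀ q < p0, q.Prime → q % 4 = 1 → A q ≤ l := by
          intro q hq h1 h3
          by_contra hcon
          have hlt : q < Nat.find hex := by rw [← hp0]; exact hq
          apply Nat.find_min hex hlt
          refine ⟨h1, h3, ?_, not_le.mp hcon⟩
          have : (q : ℝ) ≤ p0 := by exact_mod_cast hq.le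
          linarith
        have hsplit : A p0 = (∑ p ∈ (Finset.range p0).filter (fun p => p.Prime ∧ p % 4 = 1), 2 / (p : ℝ))
            + 2 / (p0 : ℝ) := by
          rw [hA, Finset.range_add_one, Finset.filter_insert, if_pos ⟨hp1, hp2⟩, Finset.sum_insert]
          · ring
          · simp
        have hle : (∑ p ∈ (Finset.range p0).filter (fun p => p.Prime ∧ p % 4 = 1), 2 / (p : ℝ)) ≤ S := by
          rw [hS]
          apply Finset.sum_le_sum_of_subset_of_nonneg
          · intro q hq
            rw [Finset.mem_filter, Finset.mem_range] at hq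
            have hqy : (q : ℝ) ≤ y := by
              have : (q : ℝ) ≤ p0 := by exact_mod_cast hq.1.le
              linarith
            rw [Finset.mem_filter, hmem]
            exact ⟨⟨(Nat.le_floor_iff hYpos.le).mpr (le_trans hqy hyY), hq.2,
              hmin q hq.1 hq.2.1 hq.2.2⟩, hqy⟩
          · intro p _ _
            positivity
        have hp0two : (2:ℝ) ≤ p0 := by exact_mod_cast hp1.two_le
        have hfrac : 2 / (p0 : ℝ) ≤ 1 := by
          rw [div_le_one (by linarith)]
          exact hp0two
        have hSl : l - 1 ≤ S := by linarith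
        have h5 : Real.exp (l - 1) ≤ Real.exp S := Real.exp_le_exp.mpr hSl
        rw [Real.exp_sub, hexpl, div_le_iff₀ (Real.exp_pos 1)] at h5
        have h6 : Real.exp S * Real.exp 1 ≤ 3 * l * Real.exp S := by
          have h7 : Real.exp 1 ≤ 3 * l := by linarith
          calc Real.exp S * Real.exp 1 ≤ Real.exp S * (3 * l) :=
                mul_le_mul_of_nonneg_left h7 (Real.exp_pos S).le
            _ = 3 * l * Real.exp S := by ring
        have h8 : 3 * l * Real.exp S ≤ (3 + Real.exp |C0|) * l * Real.exp S := by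
          apply mul_le_mul_of_nonneg_right _ (Real.exp_pos S).le
          apply mul_le_mul_of_nonneg_right _ (by linarith)
          linarith
        linarith



end SPS
end DD106
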