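import Mathlib
import Pool.Agent.H106DD.Defs

set_option autoImplicit false
open Finset

namespace DD106
namespace SREC

open Classical in
/-- number of records among the first `m` -/
private noncomputable def recs (psi : ℕ → ℝ) (m : ℕ) : Finset ℕ :=
  (range m).filter (fun b => ∀ b' < b, psi b' ≤ psi b)

private theorem rec_aux (psi : ℕ → ℝ) (r : ℕ → ℤ) (c : ℝ)
    (hpsi : ∀ b, psi b = c * b - r b) (m : ℕ) :
    ∀ b' ≤ m, c * ((m : ℝ) + 1 - (recs psi (m + 1)).card) + (psi b' - psi m) ≤
      ((∑ b ∈ range m, |r (b + 1) - r b| : ℤ) : ℝ) := by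
  classical
  induction m with
  | zero =>
    intro b' hb'
    have : b' = 0 := by omega
    subst this
    have h1 : recs psi (0 + 1) = {0} := by
      unfold recs
      ext b
      simp only [mem_filter, mem_range, mem_singleton]
      constructor
      · intro h; omega
      · intro h; subst h; exact ⟨by omega, fun b' hb' => by omega⟩
    rw [h1]
    simp
  | succ m ih =>
    intro b' hb'
    rw [sum_range_succ]
    push_cast at ih ⊢
    have hstep : psi m - psi (m + 1) = -c + ((r (m + 1) : ℝ) - r m) := by
      rw [hpsi, hpsi]; push_cast; ring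
    have habs := le_abs_self ((r (m + 1) : ℝ) - r m)
    have habs0 := abs_nonneg ((r (m + 1) : ℝ) - r m)
    by_cases hrec : ∀ b'' < m + 1, psi b'' ≤ psi (m + 1)
    · have hcard : ((recs psi (m + 1 + 1)).card : ℝ) = (recs psi (m + 1)).card + 1 := by
        have : recs psi (m + 1 + 1) = insert (m + 1) (recs psi (m + 1)) := by
          unfold recs
          rw [range_add_one, filter_insert, if_pos hrec]
        rw [this, card_insert_of_notMem]
        · push_cast; ring
        · unfold recs; simp
      rw [hcard]
      have h1 := ih m le_rfl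
      have h2 : psi b' ≤ psi (m + 1) := by
        rcases Nat.lt_or_eq_of_le hb' with h | h
        · exact hrec b' h
        · rw [h]
      have e1 : c * ((m : ℝ) + 1 + 1 - ((recs psi (m + 1)).card + 1)) =
        c * ((m : ℝ) + 1 - (recs psi (m + 1)).card) := by ring
      rw [e1]
      linarith
    · have hcard : (recs psi (m + 1 + 1)).card = (recs psi (m + 1)).card := by
        have : recs psi (m + 1 + 1) = recs psi (m + 1) := by
          unfold recs
          rw [range_add_one (n := m + 1), filter_insert, if_neg hrec]
        rw [this]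
      rw [hcard]
      have e1 : c * ((m : ℝ) + 1 + 1 - (recs psi (m + 1)).card) =
        c * ((m : ℝ) + 1 - (recs psi (m + 1)).card) + c := by ring
      rw [e1]
      have key : ∀ b'' ≤ m, c * ((m : ℝ) + 1 - (recs psi (m + 1)).card) + c +
          (psi b'' - psi (m + 1)) ≤
          (∑ b ∈ range m, |((r (b + 1) : ℝ)) - r b|) + |(r (m + 1) : ℝ) - r m| := by
        intro b'' hb''
        have := ih b'' hb''
        linarith
      rcases Nat.lt_or_eq_of_le hb' with h | h
      · exact key b' (by omega)
      · push Not at hrec
        obtain ⟨b'', hb'', hlt⟩ := hrec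
        have := key b'' (by omega)
        rw [h]
        linarith

/-- TARGET: prove this. Do not change the definitions above. Helper lemmas may be added before it. -/
theorem REC_thm  : REC_stmt := by
  classical
  intro M r e2 W he0 he1 hM hW
  set psi : ℕ → ℝ := fun b => (e2 * M) * b - r b with hpsi
  refine ⟨recs psi M, filter_subset _ _, ?_, ?_⟩
  · obtain ⟨m, rfl⟩ : ∃ m, M = m + 1 := ⟨M - 1, by omega⟩
    have h1 := rec_aux psi r (e2 * ((m + 1 : ℕ) : ℝ)) (fun b => rfl) m m le_rfl
    rw [Nat.add_sub_cancel] at hW
    have h2 := h1.trans hW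
    push_cast at h2 ⊢
    have e : ((m : ℝ) + 1 - (recs psi (m + 1)).card) * (e2 * (m + 1)) =
      e2 * (m + 1) * ((m : ℝ) + 1 - (recs psi (m + 1)).card) + (psi m - psi m) := by ring
    rw [e]
    exact h2
  · intro b1 hb1 b2 hb2 hlt
    have h2 : ∀ b' < b2, psi b' ≤ psi b2 := (mem_filter.1 hb2).2
    have h3 := h2 b1 hlt
    simp only [hpsi] at h3
    push_cast
    linarith



end SREC
end DD106
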