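import Mathlib
import Pool.Agent.H106DD.Defs

set_option autoImplicit false
open Finset

namespace DD106
namespace SSL

/-- elementary symmetric sums -/
noncomputable def slEs (x : ℕ → ℝ) (j : ℕ) (S : Finset ℕ) : ℝ :=
  ∑ D ∈ S.powersetCard j, ∏ p ∈ D, x p

lemma slEs_zero (x : ℕ → ℝ) (S : Finset ℕ) : slEs x 0 S = 1 := by
  simp [slEs]

lemma slEs_succ_empty (x : ℕ → ℝ) (j : ℕ) : slEs x (j + 1) ∅ = 0 := by
  unfold slEs
  rw [Finset.powersetCard_eq_empty.2 (by simp), Finset.sum_empty]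

lemma slEs_succ_insert (x : ℕ → ℝ) (j : ℕ) (S : Finset ℕ) (p : ℕ) (hp : p ∉ S) :
    slEs x (j + 1) (insert p S) = slEs x (j + 1) S + x p * slEs x j S := by
  classical
  unfold slEs
  rw [Finset.powersetCard_succ_insert hp, Finset.sum_union]
  · congr 1
    rw [Finset.sum_image, Finset.mul_sum]
    · refine Finset.sum_congr rfl fun D hD => ?_
      rw [Finset.prod_insert]
      intro h
      exact hp ((Finset.mem_powersetCard.1 hD).1 h)
    · intro D hD D' hD' h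
      have h1 : p ∉ D := fun h => hp ((Finset.mem_powersetCard.1 hD).1 h)
      have h2 : p ∉ D' := fun h => hp ((Finset.mem_powersetCard.1 hD').1 h)
      have h3 := congrArg (fun E => Finset.erase E p) h
      simpa [Finset.erase_insert h1, Finset.erase_insert h2] using h3
  · rw [Finset.disjoint_left]
    intro D hD hD'
    obtain ⟨E, _, rfl⟩ := Finset.mem_image.1 hD'
    exact hp ((Finset.mem_powersetCard.1 hD).1 (Finset.mem_insert_self _ _))

lemma slEs_nonneg (x : ℕ → ℝ) (j : ℕ) (S : Finset ℕ) (hx : ∀ p ∈ S, 0 ≤ x p) :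
    0 ≤ slEs x j S :=
  Finset.sum_nonneg fun D hD => Finset.prod_nonneg fun p hp =>
    hx p ((Finset.mem_powersetCard.1 hD).1 hp)

lemma sl_bern (G x : ℝ) (hG : 0 ≤ G) (hx : 0 ≤ x) (j : ℕ) :
    G ^ (j + 1) + (j + 1) * x * G ^ j ≤ (G + x) ^ (j + 1) := by
  induction j with
  | zero => simp
  | succ j ih =>
    have h1 : (G + x) * (G ^ (j + 1) + (j + 1) * x * G ^ j) ≤ (G + x) * (G + x) ^ (j + 1) :=
      mul_le_mul_of_nonneg_left ih (by positivity)
    have h2 : (0:ℝ) ≤ (j + 1) * x * x * G ^ j := by positivity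
    have h3 : (G + x) * (G + x) ^ (j + 1) = (G + x) ^ (j + 1 + 1) := by ring
    have h4 : (G + x) * (G ^ (j + 1) + (j + 1) * x * G ^ j) =
        G ^ (j + 1 + 1) + ((j + 1 : ℕ) + 1) * x * G ^ (j + 1) + (j + 1) * x * x * G ^ j := by
      push_cast; ring
    rw [h3, h4] at h1
    linarith

lemma slEs_le (x : ℕ → ℝ) (S : Finset ℕ) (hx : ∀ p ∈ S, 0 ≤ x p) (j : ℕ) :
    (j.factorial : ℝ) * slEs x j S ≤ (∑ p ∈ S, x p) ^ j := by
  classical
  induction S using Finset.induction_on generalizing j with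
  | empty =>
    cases j with
    | zero => simp [slEs_zero]
    | succ j => simp [slEs_succ_empty]
  | insert p S hp ih =>
    have hx' : ∀ p ∈ S, 0 ≤ x p := fun q hq => hx q (Finset.mem_insert_of_mem hq)
    have hxp : 0 ≤ x p := hx p (Finset.mem_insert_self _ _)
    cases j with
    | zero => simp [slEs_zero]
    | succ j =>
      rw [slEs_succ_insert x j S p hp, Finset.sum_insert hp]
      have h1 := ih hx' (j + 1)
      have h2 := ih hx' j
      have hG : 0 ≤ ∑ p ∈ S, x p := Finset.sum_nonneg hx'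
      have h3 := sl_bern (∑ p ∈ S, x p) (x p) hG hxp j
      rw [Nat.factorial_succ] at h1 ⊢
      push_cast at h1 ⊢
      have h4 : ((j:ℝ) + 1) * x p * ((j.factorial : ℝ) * slEs x j S) ≤
          ((j:ℝ) + 1) * x p * (∑ p ∈ S, x p) ^ j :=
        mul_le_mul_of_nonneg_left h2 (by positivity)
      have h5 : (((j:ℝ) + 1) * (j.factorial : ℝ)) * (slEs x (j + 1) S + x p * slEs x j S) =
          ((j:ℝ) + 1) * (j.factorial : ℝ) * slEs x (j + 1) S +
          ((j:ℝ) + 1) * x p * ((j.factorial : ℝ) * slEs x j S) := by ring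
      rw [h5, add_comm (x p)]
      linarith

/-- truncated alternating sums -/
noncomputable def slT (x : ℕ → ℝ) (k : ℕ) (S : Finset ℕ) : ℝ :=
  ∑ j ∈ range (k + 1), (-1) ^ j * slEs x j S

lemma slT_succ (x : ℕ → ℝ) (k : ℕ) (S : Finset ℕ) :
    slT x (k + 1) S = slT x k S + (-1) ^ (k + 1) * slEs x (k + 1) S := by
  unfold slT
  rw [Finset.sum_range_succ]

lemma slT_zero (x : ℕ → ℝ) (S : Finset ℕ) : slT x 0 S = 1 := by
  simp [slT, slEs_zero]

lemma slT_empty (x : ℕ → ℝ) (k : ℕ) : slT x k ∅ = 1 := by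
  induction k with
  | zero => exact slT_zero x ∅
  | succ k ih => rw [slT_succ, ih, slEs_succ_empty]; ring

lemma slT_succ_insert (x : ℕ → ℝ) (k : ℕ) (S : Finset ℕ) (p : ℕ) (hp : p ∉ S) :
    slT x (k + 1) (insert p S) = slT x (k + 1) S - x p * slT x k S := by
  induction k with
  | zero =>
    rw [slT_succ, slT_succ, slT_zero, slT_zero, slEs_succ_insert x 0 S p hp, slEs_zero]
    ring
  | succ k ih =>
    rw [slT_succ, ih, slEs_succ_insert x (k + 1) S p hp, slT_succ x (k + 1) S, slT_succ x k S]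
    ring

lemma sl_bonf (x : ℕ → ℝ) (S : Finset ℕ) (hx : ∀ p ∈ S, 0 ≤ x p ∧ x p ≤ 1) (m : ℕ) :
    (∏ p ∈ S, (1 - x p) ≤ slT x (2 * m) S) ∧ (slT x (2 * m + 1) S ≤ ∏ p ∈ S, (1 - x p)) := by
  classical
  induction S using Finset.induction_on generalizing m with
  | empty => simp [slT_empty]
  | insert p S hp ih =>
    have hx' : ∀ p ∈ S, 0 ≤ x p ∧ x p ≤ 1 := fun q hq => hx q (Finset.mem_insert_of_mem hq)
    obtain ⟨hp0, hp1⟩ := hx p (Finset.mem_insert_self _ _)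
    rw [Finset.prod_insert hp]
    have hpr : ∏ p ∈ S, (1 - x p) ≤ 1 :=
      Finset.prod_le_one (fun q hq => by linarith [(hx' q hq).2]) (fun q hq => by linarith [(hx' q hq).1])
    constructor
    · cases m with
      | zero =>
        rw [Nat.mul_zero, slT_zero]
        have h0 : 0 ≤ ∏ p ∈ S, (1 - x p) := Finset.prod_nonneg fun q hq => by linarith [(hx' q hq).2]
        nlinarith
      | succ m =>
        have h1 := (ih hx' (m + 1)).1
        have h2 := (ih hx' m).2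
        have h3 : 2 * (m + 1) = (2 * m + 1) + 1 := by ring
        rw [h3] at h1 ⊢
        rw [slT_succ_insert x _ S p hp]
        nlinarith
    · have h1 := (ih hx' m).1
      have h2 := (ih hx' m).2
      rw [slT_succ_insert x _ S p hp]
      nlinarith

lemma sl_exchange {α : Type*} (B : Finset α) (q : α → ℕ → Prop) [∀ v p, Decidable (q v p)]
    (x : ℕ → ℝ) (k : ℕ) (P : Finset ℕ) :
    ∑ v ∈ B, slT x k (P.filter (q v)) =
      ∑ j ∈ range (k + 1), (-1) ^ j * ∑ D ∈ P.powersetCard j,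
        (∏ p ∈ D, x p) * ((B.filter (fun v => ∀ p ∈ D, q v p)).card : ℝ) := by
  classical
  unfold slT
  rw [Finset.sum_comm]
  refine Finset.sum_congr rfl fun j _ => ?_
  rw [← Finset.mul_sum]
  congr 1
  have h1 : ∀ v, slEs x j (P.filter (q v)) =
      ∑ D ∈ P.powersetCard j, if (∀ p ∈ D, q v p) then ∏ p ∈ D, x p else 0 := by
    intro v
    unfold slEs
    rw [← Finset.sum_filter]
    refine Finset.sum_congr ?_ fun _ _ => rfl
    ext D
    simp only [Finset.mem_powersetCard, Finset.mem_filter, Finset.subset_iff]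
    constructor
    · rintro ⟨h, hc⟩
      exact ⟨⟨fun a ha => (h ha).1, hc⟩, fun a ha => (h ha).2⟩
    · rintro ⟨⟨h, hc⟩, h2⟩
      exact ⟨fun a ha => ⟨h ha, h2 a ha⟩, hc⟩
  simp_rw [h1]
  rw [Finset.sum_comm]
  refine Finset.sum_congr rfl fun D _ => ?_
  rw [← Finset.sum_filter, Finset.sum_const, nsmul_eq_mul, mul_comm]

lemma sl_card_le (P : Finset ℕ) (y : ℝ) (hP : ∀ p ∈ P, 1 ≤ p ∧ (p : ℝ) ≤ y) (hy : 0 ≤ y) :
    (P.card : ℝ) ≤ y := by
  have h1 : P ⊆ Finset.Icc 1 ⌊y⌋₊ := by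
    intro p hp
    rw [Finset.mem_Icc]
    exact ⟨(hP p hp).1, Nat.le_floor (hP p hp).2⟩
  have h2 := Finset.card_le_card h1
  rw [Nat.card_Icc, Nat.add_sub_cancel] at h2
  calc (P.card : ℝ) ≤ (⌊y⌋₊ : ℝ) := by exact_mod_cast h2
    _ ≤ y := Nat.floor_le hy

lemma sl_tail (G l : ℝ) (hG : 0 ≤ G) (hl : 1 ≤ l) (hGl : G ≤ l) (j : ℕ) (hj : 8 * l ≤ j) (E : ℝ)
    (hE : (j.factorial : ℝ) * E ≤ G ^ j) : E ≤ 1 / 2 * Real.exp (-G) := by
  have hf : (0:ℝ) < j.factorial := by exact_mod_cast j.factorial_pos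
  have h1 : E ≤ G ^ j / j.factorial := by
    rw [le_div_iff₀ hf]; linarith
  have h2 := Real.pow_div_factorial_le_exp (Real.exp 1 * G) (by positivity) j
  rw [mul_pow, mul_div_assoc] at h2
  have h3 : Real.exp 1 ^ j = Real.exp j := by rw [← Real.exp_nat_mul]; ring_nf
  rw [h3] at h2
  have he : Real.exp 1 ≤ 3 := by have := Real.exp_one_lt_d9; linarith
  have h4 : Real.exp (Real.exp 1 * G) ≤ Real.exp (3 * l) := by
    apply Real.exp_le_exp.2
    nlinarith [Real.exp_pos 1]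
  have h5 : G ^ j / j.factorial ≤ Real.exp (3 * l) / Real.exp j := by
    rw [le_div_iff₀ (Real.exp_pos _)]
    linarith
  rw [← Real.exp_sub] at h5
  have h6 : Real.exp (3 * l - j) ≤ Real.exp (-1 + -G) := by
    apply Real.exp_le_exp.2
    linarith
  have h7 : Real.exp (-1) ≤ 1 / 2 := by
    rw [Real.exp_neg, inv_eq_one_div]
    apply one_div_le_one_div_of_le (by norm_num)
    have := Real.exp_one_gt_d9; linarith
  rw [Real.exp_add] at h6
  have h8 : Real.exp (-1) * Real.exp (-G) ≤ 1 / 2 * Real.exp (-G) :=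
    mul_le_mul_of_nonneg_right h7 (Real.exp_pos _).le
  linarith

lemma sl_final (y l R : ℝ) (r : ℕ) (hy : 2 ≤ y) (hl : 1 ≤ l) (hr : (r : ℝ) ≤ 4 * l + 1)
    (hR : y ^ (40 * l + 40) ≤ R) :
    y ^ (2 * r) ≤ R ∧ 2 * y ^ (6 * r) * Real.exp l ≤ R := by
  have hy0 : 0 < y := by linarith
  have hy1 : 1 ≤ y := by linarith
  constructor
  · refine le_trans ?_ hR
    rw [← Real.rpow_natCast]
    apply Real.rpow_le_rpow_of_exponent_le hy1
    push_cast
    linarith
  · refine le_trans ?_ hR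
    have h1 : Real.exp l ≤ y ^ (2 * l) := by
      rw [Real.rpow_def_of_pos hy0]
      apply Real.exp_le_exp.2
      have h2 : (1:ℝ) / 2 ≤ Real.log y := by
        have h3 : Real.log 2 ≤ Real.log y := Real.log_le_log (by norm_num) hy
        have := Real.log_two_gt_d9
        linarith
      nlinarith
    have h2 : (2:ℝ) ≤ y ^ (1:ℝ) := by rw [Real.rpow_one]; exact hy
    have h3 : y ^ (6 * r) = y ^ ((6 * r : ℕ) : ℝ) := (Real.rpow_natCast _ _).symm
    calc 2 * y ^ (6 * r) * Real.exp l ≤ y ^ (1:ℝ) * y ^ ((6 * r : ℕ) : ℝ) * y ^ (2 * l) := by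
          rw [h3]
          gcongr
      _ = y ^ (1 + ((6 * r : ℕ) : ℝ) + 2 * l) := by
          rw [Real.rpow_add hy0, Real.rpow_add hy0]
      _ ≤ y ^ (40 * l + 40) := by
          apply Real.rpow_le_rpow_of_exponent_le hy1
          push_cast
          linarith

lemma sl_err (y R : ℝ) (r : ℕ) (hy : 2 ≤ y) (hR0 : 0 ≤ R) (hR : y ^ (2 * r) ≤ R)
    (P : Finset ℕ) (hP : (P.card : ℝ) ≤ y) :
    ∑ j ∈ range (2 * r + 1), ((P.powersetCard j).card : ℝ) * (2 ^ j * (2 * R + y ^ j)) ≤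
      3 * y ^ (6 * r) * R := by
  have hy1 : 1 ≤ y := by linarith
  have h1 : ∀ j ∈ range (2 * r + 1),
      ((P.powersetCard j).card : ℝ) * (2 ^ j * (2 * R + y ^ j)) ≤ y ^ (4 * r) * (3 * R) := by
    intro j hj
    have hj' : j ≤ 2 * r := by rw [Finset.mem_range] at hj; omega
    have h2 : ((P.powersetCard j).card : ℝ) ≤ y ^ (2 * r) := by
      rw [Finset.card_powersetCard]
      calc ((P.card.choose j : ℕ) : ℝ) ≤ ((P.card ^ j : ℕ) : ℝ) := by
            exact_mod_cast Nat.choose_le_pow _ _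
        _ = (P.card : ℝ) ^ j := by push_cast; rfl
        _ ≤ y ^ j := pow_le_pow_left₀ (by positivity) hP j
        _ ≤ y ^ (2 * r) := pow_le_pow_right₀ hy1 hj'
    have h3 : (2:ℝ) ^ j ≤ y ^ (2 * r) :=
      (pow_le_pow_left₀ (by norm_num) hy j).trans (pow_le_pow_right₀ hy1 hj')
    have h4 : 2 * R + y ^ j ≤ 3 * R := by
      have : y ^ j ≤ y ^ (2 * r) := pow_le_pow_right₀ hy1 hj'
      linarith
    calc ((P.powersetCard j).card : ℝ) * (2 ^ j * (2 * R + y ^ j))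
        ≤ y ^ (2 * r) * (y ^ (2 * r) * (3 * R)) := by gcongr
      _ = y ^ (4 * r) * (3 * R) := by rw [show 4 * r = 2 * r + 2 * r by ring, pow_add]; ring
  refine (Finset.sum_le_sum h1).trans ?_
  rw [Finset.sum_const, Finset.card_range, nsmul_eq_mul]
  have h5 : ((2 * r + 1 : ℕ) : ℝ) ≤ y ^ (2 * r) := by
    have h6 : 2 * r + 1 ≤ 2 ^ (2 * r) := Nat.lt_two_pow_self
    calc ((2 * r + 1 : ℕ) : ℝ) ≤ ((2 ^ (2 * r) : ℕ) : ℝ) := by exact_mod_cast h6
      _ = (2:ℝ) ^ (2 * r) := by push_cast; rfl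
      _ ≤ y ^ (2 * r) := pow_le_pow_left₀ (by norm_num) hy _
  calc ((2 * r + 1 : ℕ) : ℝ) * (y ^ (4 * r) * (3 * R)) ≤ y ^ (2 * r) * (y ^ (4 * r) * (3 * R)) := by
        gcongr
    _ = 3 * y ^ (6 * r) * R := by rw [show 6 * r = 2 * r + 4 * r by ring, pow_add]; ring

/-- TARGET: prove this. Do not change the definitions above. Helper lemmas may be added before it. -/
theorem SL_thm (hCL : CL_stmt) : SL_stmt := by
  intro P y l t Q a b x0 y0 R hP hy hl hsum hR
  classical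
  set N : ℤ × ℤ → ℤ := fun v => (Q * v.1 + a) ^ 2 + (Q * v.2 + b) ^ 2 with hN
  have hyR : (1:ℝ) ≤ R := le_trans (Real.one_le_rpow (by linarith) (by linarith)) hR
  have hg : ∀ p ∈ P, 0 ≤ g p ∧ g p ≤ 1 ∧ g p ≤ 2 / (p : ℝ) := by
    intro p hp
    have h2 : 2 ≤ p := (hP p hp).1.1.two_le
    have h3 : (2:ℝ) ≤ p := by exact_mod_cast h2
    have hpos : (0:ℝ) < (p:ℝ) ^ 2 := by positivity
    unfold g
    refine ⟨div_nonneg (by linarith) hpos.le, ?_, ?_⟩
    · rw [div_le_one hpos]; nlinarith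
    · rw [div_le_div_iff₀ hpos (by linarith)]; nlinarith
  have ht : ∀ p ∈ P, 0 ≤ t p ∧ t p ≤ 1 := fun p hp => ⟨(hP p hp).2.2.2.1, (hP p hp).2.2.2.2⟩
  set x : ℕ → ℝ := fun p => t p * g p with hx
  have hx01 : ∀ p ∈ P, 0 ≤ x p ∧ x p ≤ 1 := by
    intro p hp
    obtain ⟨h1, h2, _⟩ := hg p hp
    obtain ⟨h3, h4⟩ := ht p hp
    exact ⟨mul_nonneg h3 h1, mul_le_one₀ h4 h1 h2⟩
  set G : ℝ := ∑ p ∈ P, x p with hGdef
  have hG0 : 0 ≤ G := Finset.sum_nonneg fun p hp => (hx01 p hp).1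
  have hGl : G ≤ l := by
    refine le_trans (Finset.sum_le_sum fun p hp => ?_) hsum
    obtain ⟨h1, h2, h5⟩ := hg p hp
    obtain ⟨h3, h4⟩ := ht p hp
    calc t p * g p ≤ 1 * g p := mul_le_mul_of_nonneg_right h4 h1
      _ ≤ 2 / (p:ℝ) := by rw [one_mul]; exact h5
  set r : ℕ := ⌈4 * l⌉₊ with hrdef
  have hr1 : 4 * l ≤ r := Nat.le_ceil _
  have hr2 : (r : ℝ) ≤ 4 * l + 1 := (Nat.ceil_lt_add_one (by linarith)).le
  have hr0 : 0 < r := by
    have : (0:ℝ) < r := by linarith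
    exact_mod_cast this
  obtain ⟨hf1, hf2⟩ := sl_final y l R r hy hl hr2 hR
  clear_value r
  -- step 1: Bonferroni
  have hstep1 : ∑ v ∈ cbox x0 y0 R, wprod P t (Q * v.1 + a) (Q * v.2 + b) ≤
      ∑ v ∈ cbox x0 y0 R, slT t (2 * r) (P.filter (fun p : ℕ => (p : ℤ) ∣ N v)) := by
    refine Finset.sum_le_sum fun v _ => ?_
    exact (sl_bonf t _ (fun p hp => ht p (Finset.mem_filter.1 hp).1) r).1
  rw [sl_exchange (cbox x0 y0 R) (fun v p => (p : ℤ) ∣ N v) t (2 * r) P] at hstep1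
  -- step 2: counting lemma
  have hstep2 : ∑ j ∈ range (2 * r + 1), (-1) ^ j * ∑ D ∈ P.powersetCard j,
        (∏ p ∈ D, t p) * (((cbox x0 y0 R).filter (fun v => ∀ p ∈ D, (p : ℤ) ∣ N v)).card : ℝ) ≤
      (R:ℝ) ^ 2 * slT x (2 * r) P + ∑ j ∈ range (2 * r + 1),
        ((P.powersetCard j).card : ℝ) * (2 ^ j * (2 * R + y ^ j)) := by
    unfold slT
    rw [Finset.mul_sum, ← Finset.sum_add_distrib]
    refine Finset.sum_le_sum fun j _ => ?_
    unfold slEs
    rw [← nsmul_eq_mul, ← Finset.sum_const]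
    have h1 : (-1 : ℝ) ^ j * ∑ D ∈ P.powersetCard j,
          (∏ p ∈ D, t p) * (((cbox x0 y0 R).filter (fun v => ∀ p ∈ D, (p : ℤ) ∣ N v)).card : ℝ) -
        (R:ℝ) ^ 2 * ((-1) ^ j * ∑ D ∈ P.powersetCard j, ∏ p ∈ D, x p) =
        ∑ D ∈ P.powersetCard j, (-1 : ℝ) ^ j * ((∏ p ∈ D, t p) *
          ((((cbox x0 y0 R).filter (fun v => ∀ p ∈ D, (p : ℤ) ∣ N v)).card : ℝ) -
            (R:ℝ) ^ 2 * ∏ p ∈ D, g p)) := by
      have h2 : ∀ D : Finset ℕ, ∏ p ∈ D, x p = (∏ p ∈ D, t p) * ∏ p ∈ D, g p := by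
        intro D
        rw [← Finset.prod_mul_distrib]
      simp_rw [h2]
      rw [Finset.mul_sum, Finset.mul_sum, Finset.mul_sum, ← Finset.sum_sub_distrib]
      refine Finset.sum_congr rfl fun D _ => ?_
      ring
    have h3 : ∑ D ∈ P.powersetCard j, (-1 : ℝ) ^ j * ((∏ p ∈ D, t p) *
          ((((cbox x0 y0 R).filter (fun v => ∀ p ∈ D, (p : ℤ) ∣ N v)).card : ℝ) -
            (R:ℝ) ^ 2 * ∏ p ∈ D, g p)) ≤
        ∑ D ∈ P.powersetCard j, ((2:ℝ) ^ j * (2 * R + y ^ j)) := by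
      refine Finset.sum_le_sum fun D hD => ?_
      obtain ⟨hDP, hDc⟩ := Finset.mem_powersetCard.1 hD
      have h4 := hCL D Q a b x0 y0 R (fun p hp => ⟨(hP p (hDP hp)).1, (hP p (hDP hp)).2.1⟩)
      rw [hDc] at h4
      have h5 : ∏ p ∈ D, (p : ℝ) ≤ y ^ j := by
        rw [← hDc]
        rw [← Finset.prod_const]
        exact Finset.prod_le_prod (fun p _ => Nat.cast_nonneg p) (fun p hp => (hP p (hDP hp)).2.2.1)
      have h6 : 0 ≤ ∏ p ∈ D, t p := Finset.prod_nonneg fun p hp => (ht p (hDP hp)).1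
      have h7 : ∏ p ∈ D, t p ≤ 1 :=
        Finset.prod_le_one (fun p hp => (ht p (hDP hp)).1) (fun p hp => (ht p (hDP hp)).2)
      have h8 : |(-1 : ℝ) ^ j * ((∏ p ∈ D, t p) *
          ((((cbox x0 y0 R).filter (fun v => ∀ p ∈ D, (p : ℤ) ∣ N v)).card : ℝ) -
            (R:ℝ) ^ 2 * ∏ p ∈ D, g p))| ≤ 1 * (1 * ((2:ℝ) ^ j * (2 * R + y ^ j))) := by
        rw [abs_mul, abs_mul, abs_pow, abs_neg, abs_one, one_pow, abs_of_nonneg h6]
        refine mul_le_mul_of_nonneg_left ?_ zero_le_one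
        refine mul_le_mul h7 (h4.trans ?_) (abs_nonneg _) zero_le_one
        exact mul_le_mul_of_nonneg_left (by linarith) (by positivity)
      have h9 := (le_abs_self _).trans h8
      linarith
    linarith
  -- step 3: main term
  have hmain : slT x (2 * r) P ≤ Real.exp (-G) + 1 / 2 * Real.exp (-G) := by
    obtain ⟨m, rfl⟩ : ∃ m, r = m + 1 := ⟨r - 1, by omega⟩
    have h1 := (sl_bonf x P hx01 m).2
    have h2 : slT x (2 * (m + 1)) P = slT x (2 * m + 1) P + slEs x (2 * (m + 1)) P := by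
      rw [show 2 * (m + 1) = (2 * m + 1) + 1 by ring, slT_succ]
      rw [show (-1 : ℝ) ^ (2 * m + 1 + 1) = 1 by
        rw [show 2 * m + 1 + 1 = 2 * (m + 1) by ring, pow_mul]; norm_num, one_mul]
    have h3 : ∏ p ∈ P, (1 - x p) ≤ Real.exp (-G) := by
      rw [hGdef, ← Finset.sum_neg_distrib, Real.exp_sum]
      refine Finset.prod_le_prod (fun p hp => by linarith [(hx01 p hp).2]) fun p hp => ?_
      have := Real.add_one_le_exp (-x p)
      linarith
    have h4 : slEs x (2 * (m + 1)) P ≤ 1 / 2 * Real.exp (-G) := by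
      refine sl_tail G l hG0 hl hGl (2 * (m + 1)) ?_ _
        (slEs_le x P (fun p hp => (hx01 p hp).1) (2 * (m + 1)))
      push_cast
      push_cast at hr1
      linarith
    linarith
  -- step 4: error term
  have hPc : (P.card : ℝ) ≤ y :=
    sl_card_le P y (fun p hp => ⟨(hP p hp).1.1.one_le, (hP p hp).2.2.1⟩) (by linarith)
  have herr := sl_err y R r hy (by linarith) hf1 P hPc
  have h10 : 3 * y ^ (6 * r) * R ≤ 3 / 2 * (R:ℝ) ^ 2 * Real.exp (-G) := by
    have h11 : Real.exp (-l) ≤ Real.exp (-G) := Real.exp_le_exp.2 (by linarith)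
    have h12 : 2 * y ^ (6 * r) ≤ R * Real.exp (-l) := by
      have := mul_le_mul_of_nonneg_right hf2 (Real.exp_pos (-l)).le
      rwa [mul_assoc, ← Real.exp_add, add_neg_cancel, Real.exp_zero, mul_one] at this
    have h13 : (R:ℝ) * Real.exp (-l) ≤ R * Real.exp (-G) :=
      mul_le_mul_of_nonneg_left h11 (by linarith)
    nlinarith
  have h14 : (R:ℝ) ^ 2 * slT x (2 * r) P ≤ (R:ℝ) ^ 2 * (Real.exp (-G) + 1 / 2 * Real.exp (-G)) :=
    mul_le_mul_of_nonneg_left hmain (by positivity)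
  have hfin := hstep1.trans (hstep2.trans (add_le_add h14 (herr.trans h10)))
  refine hfin.trans (le_of_eq ?_)
  ring



end SSL
end DD106
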