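import Mathlib
import Pool.Agent.H106DD.Defs

set_option autoImplicit false
open Finset

namespace DD106
namespace SSOL

theorem sol_two_roots {q e : ℕ} (hq : q.Prime) (h2 : q ≠ 2) {y y' : ℤ} (hy : ¬ (q : ℤ) ∣ y)
    (h : ((q ^ e : ℕ) : ℤ) ∣ y ^ 2 - y' ^ 2) :
    ((q ^ e : ℕ) : ℤ) ∣ y - y' ∨ ((q ^ e : ℕ) : ℤ) ∣ y + y' := by
  have hqp : Prime (q : ℤ) := Nat.prime_iff_prime_int.1 hq
  have h1 : ((q ^ e : ℕ) : ℤ) ∣ (y - y') * (y + y') := by
    have : (y - y') * (y + y') = y ^ 2 - y' ^ 2 := by ring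
    rw [this]; exact h
  have h3 : ¬ (q : ℤ) ∣ y - y' ∨ ¬ (q : ℤ) ∣ y + y' := by
    by_contra hc
    push Not at hc
    have h4 : (q : ℤ) ∣ 2 * y := by
      have := dvd_add hc.1 hc.2
      have e1 : y - y' + (y + y') = 2 * y := by ring
      rwa [e1] at this
    rcases hqp.dvd_or_dvd h4 with h5 | h5
    · have h6 : q ∣ 2 := by exact_mod_cast h5
      exact h2 ((Nat.prime_dvd_prime_iff_eq hq Nat.prime_two).1 h6)
    · exact hy h5
  rcases h3 with h3 | h3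
  · right
    have h5 : IsCoprime ((q ^ e : ℕ) : ℤ) (y - y') := by
      push_cast
      exact ((Prime.coprime_iff_not_dvd hqp).2 h3).pow_left
    exact h5.dvd_of_dvd_mul_left h1
  · left
    have h5 : IsCoprime ((q ^ e : ℕ) : ℤ) (y + y') := by
      push_cast
      exact ((Prime.coprime_iff_not_dvd hqp).2 h3).pow_left
    exact h5.dvd_of_dvd_mul_right h1

theorem sol_range {m a b : ℕ} (ha : a < m) (hb : b < m)
    (h : (m : ℤ) ∣ (a : ℤ) - b ∨ (m : ℤ) ∣ (a : ℤ) + b) : a = b ∨ a = m - b := by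
  rcases h with ⟨k, hk⟩ | ⟨k, hk⟩
  · left
    have hk0 : k = 0 := by
      by_contra hne
      rcases lt_or_gt_of_ne hne with h | h
      · have : (m : ℤ) * k ≤ (m : ℤ) * (-1) := by
          apply mul_le_mul_of_nonneg_left (by omega) (by omega)
        omega
      · have : (m : ℤ) * 1 ≤ (m : ℤ) * k := by
          apply mul_le_mul_of_nonneg_left (by omega) (by omega)
        omega
    rw [hk0] at hk
    omega
  · have hk2 : k < 2 := by
      by_contra hne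
      have : (m : ℤ) * 2 ≤ (m : ℤ) * k := by
        apply mul_le_mul_of_nonneg_left (by omega) (by omega)
      omega
    have hk3 : 0 ≤ k := by
      by_contra hne
      have : (m : ℤ) * k ≤ (m : ℤ) * (-1) := by
        apply mul_le_mul_of_nonneg_left (by omega) (by omega)
      omega
    have hk4 : k = 0 ∨ k = 1 := by omega
    rcases hk4 with rfl | rfl
    · left; omega
    · right; omega

theorem sol_card_aux {m : ℕ} (S : Finset (ℕ × ℕ)) (hS : ∀ v ∈ S, v.1 < m ∧ v.2 < m)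
    (h : ∀ v ∈ S, ∀ w ∈ S, v.1 = w.1 → v.2 = w.2 ∨ v.2 = m - w.2) : S.card ≤ 2 * m := by
  have h1 : S.card ≤ 2 * (range m).card := by
    refine Finset.card_le_mul_card_image_of_maps_to (f := Prod.fst)
      (fun v hv => mem_range.2 (hS v hv).1) 2 ?_
    intro x _
    rcases (S.filter fun v => v.1 = x).eq_empty_or_nonempty with h0 | ⟨w, hw⟩
    · rw [h0]; simp
    · rw [mem_filter] at hw
      refine (card_le_card (t := {(x, w.2), (x, m - w.2)}) ?_).trans (card_le_two)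
      intro v hv
      rw [mem_filter] at hv
      have h2 := h v hv.1 w hw.1 (hv.2.trans hw.2.symm)
      rw [mem_insert, mem_singleton]
      rcases h2 with h2 | h2
      · left; exact Prod.ext hv.2 h2
      · right; exact Prod.ext hv.2 h2
  rwa [card_range] at h1

theorem sol_one {q e : ℕ} (hq : q.Prime) (h2 : q ≠ 2) (c : ℤ)
    (hc : IsCoprime c ((q ^ e : ℕ) : ℤ)) :
    (((range (q ^ e)) ×ˢ (range (q ^ e))).filter (fun v : ℕ × ℕ =>
      ((q ^ e : ℕ) : ℤ) ∣ (v.1 : ℤ) ^ 2 + (v.2 : ℤ) ^ 2 - c)).card ≤ 4 * q ^ e := by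
  classical
  rcases Nat.eq_zero_or_pos e with rfl | he
  · refine (card_le_card (filter_subset _ _)).trans ?_
    simp
  set m := q ^ e with hm
  set S := (((range m) ×ˢ (range m)).filter (fun v : ℕ × ℕ =>
      (m : ℤ) ∣ (v.1 : ℤ) ^ 2 + (v.2 : ℤ) ^ 2 - c)) with hS
  have hqm : (q : ℤ) ∣ (m : ℤ) := by
    rw [hm]; exact_mod_cast dvd_pow_self q (by omega)
  have hqp : Prime (q : ℤ) := Nat.prime_iff_prime_int.1 hq
  have hqc : ¬ (q : ℤ) ∣ c := by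
    intro h
    have h3 : IsCoprime (q : ℤ) (q : ℤ) := by
      exact (hc.of_isCoprime_of_dvd_left h).of_isCoprime_of_dvd_right hqm
    exact hqp.not_unit (isCoprime_self.1 h3)
  have hmem : ∀ v ∈ S, v.1 < m ∧ v.2 < m ∧ (m : ℤ) ∣ (v.1 : ℤ) ^ 2 + (v.2 : ℤ) ^ 2 - c := by
    intro v hv
    rw [hS, mem_filter, mem_product, mem_range, mem_range] at hv
    exact ⟨hv.1.1, hv.1.2, hv.2⟩
  have hcov : S ⊆ (S.filter fun v => ¬ (q : ℤ) ∣ (v.2 : ℤ)) ∪
      (S.filter fun v => ¬ (q : ℤ) ∣ (v.1 : ℤ)) := by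
    intro v hv
    rw [mem_union]
    by_contra hcon
    have h3 : (q : ℤ) ∣ (v.2 : ℤ) := by
      by_contra h; exact hcon (Or.inl (mem_filter.2 ⟨hv, h⟩))
    have h4 : (q : ℤ) ∣ (v.1 : ℤ) := by
      by_contra h; exact hcon (Or.inr (mem_filter.2 ⟨hv, h⟩))
    have h5 : (q : ℤ) ∣ (v.1 : ℤ) ^ 2 + (v.2 : ℤ) ^ 2 :=
      dvd_add (dvd_pow h4 two_ne_zero) (dvd_pow h3 two_ne_zero)
    have h6 := (dvd_sub_right h5).1 (hqm.trans (hmem v hv).2.2)
    exact hqc h6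
  have hA : (S.filter fun v => ¬ (q : ℤ) ∣ (v.2 : ℤ)).card ≤ 2 * m := by
    refine sol_card_aux _ (fun v hv => ?_) ?_
    · have := hmem v (mem_filter.1 hv).1
      exact ⟨this.1, this.2.1⟩
    · intro v hv w hw hvw
      rw [mem_filter] at hv hw
      have h3 := hmem v hv.1
      have h4 := hmem w hw.1
      refine sol_range h3.2.1 h4.2.1 (sol_two_roots hq h2 hv.2 ?_)
      have h5 := dvd_sub h3.2.2 h4.2.2
      rw [hvw] at h5
      have e1 : (w.1 : ℤ) ^ 2 + (v.2 : ℤ) ^ 2 - c - ((w.1 : ℤ) ^ 2 + (w.2 : ℤ) ^ 2 - c) =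
        (v.2 : ℤ) ^ 2 - (w.2 : ℤ) ^ 2 := by ring
      rwa [e1] at h5
  have hB : (S.filter fun v => ¬ (q : ℤ) ∣ (v.1 : ℤ)).card ≤ 2 * m := by
    have h0 : ((S.filter fun v => ¬ (q : ℤ) ∣ (v.1 : ℤ)).image Prod.swap).card ≤ 2 * m := by
      refine sol_card_aux _ (fun v hv => ?_) ?_
      · rw [mem_image] at hv
        obtain ⟨w, hw, rfl⟩ := hv
        have := hmem w (mem_filter.1 hw).1
        exact ⟨this.2.1, this.1⟩
      · intro v' hv' w' hw' hvw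
        rw [mem_image] at hv' hw'
        obtain ⟨v, hv, rfl⟩ := hv'
        obtain ⟨w, hw, rfl⟩ := hw'
        rw [mem_filter] at hv hw
        have hvw2 : v.2 = w.2 := hvw
        have h3 := hmem v hv.1
        have h4 := hmem w hw.1
        show v.1 = w.1 ∨ v.1 = m - w.1
        refine sol_range h3.1 h4.1 (sol_two_roots hq h2 hv.2 ?_)
        have h5 := dvd_sub h3.2.2 h4.2.2
        rw [hvw2] at h5
        have e1 : (v.1 : ℤ) ^ 2 + (w.2 : ℤ) ^ 2 - c - ((w.1 : ℤ) ^ 2 + (w.2 : ℤ) ^ 2 - c) =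
          (v.1 : ℤ) ^ 2 - (w.1 : ℤ) ^ 2 := by ring
        rwa [e1] at h5
    rwa [card_image_of_injective _ Prod.swap_injective] at h0
  have := (card_le_card hcov).trans (card_union_le _ _)
  omega

theorem sol_mod {m Q : ℕ} (hmQ : m ∣ Q) (c : ℤ) (a b : ℕ)
    (h : (Q : ℤ) ∣ (a : ℤ) ^ 2 + (b : ℤ) ^ 2 - c) :
    (m : ℤ) ∣ ((a % m : ℕ) : ℤ) ^ 2 + ((b % m : ℕ) : ℤ) ^ 2 - c := by
  have h1 : (m : ℤ) ∣ (a : ℤ) ^ 2 + (b : ℤ) ^ 2 - c := (Int.natCast_dvd_natCast.2 hmQ).trans h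
  have ha : ((a % m : ℕ) : ℤ) ≡ a [ZMOD m] := by
    rw [Int.natCast_mod]; exact Int.mod_modEq _ _
  have hb : ((b % m : ℕ) : ℤ) ≡ b [ZMOD m] := by
    rw [Int.natCast_mod]; exact Int.mod_modEq _ _
  have h3 : ((a % m : ℕ) : ℤ) ^ 2 + ((b % m : ℕ) : ℤ) ^ 2 - c ≡ (a : ℤ) ^ 2 + (b : ℤ) ^ 2 - c
      [ZMOD m] := ((ha.pow 2).add (hb.pow 2)).sub_right c
  exact (Int.modEq_zero_iff_dvd.1 (h3.trans (Int.modEq_zero_iff_dvd.2 h1)))

/-- TARGET: prove this. Do not change the definitions above. Helper lemmas may be added before it. -/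
theorem SOL_thm  : SOL_stmt := by
  classical
  intro q1 q2 e1 e2 c hq1 hq2 hne h1 h2 hc
  have hcop : Nat.Coprime (q1 ^ e1) (q2 ^ e2) :=
    Nat.Coprime.pow _ _ ((Nat.coprime_primes hq1 hq2).2 hne)
  set m1 := q1 ^ e1 with hm1
  set m2 := q2 ^ e2 with hm2
  have hc1 : IsCoprime c (m1 : ℤ) :=
    hc.of_isCoprime_of_dvd_right (Int.natCast_dvd_natCast.2 (dvd_mul_right _ _))
  have hc2 : IsCoprime c (m2 : ℤ) :=
    hc.of_isCoprime_of_dvd_right (Int.natCast_dvd_natCast.2 (dvd_mul_left _ _))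
  have b1 := sol_one hq1 h1 c hc1
  have b2 := sol_one hq2 h2 c hc2
  have hm1p : 0 < m1 := pow_pos hq1.pos _
  have hm2p : 0 < m2 := pow_pos hq2.pos _
  refine (card_le_card_of_injOn (t := (((range m1) ×ˢ (range m1)).filter (fun v : ℕ × ℕ =>
      (m1 : ℤ) ∣ (v.1 : ℤ) ^ 2 + (v.2 : ℤ) ^ 2 - c)) ×ˢ
      (((range m2) ×ˢ (range m2)).filter (fun v : ℕ × ℕ =>
      (m2 : ℤ) ∣ (v.1 : ℤ) ^ 2 + (v.2 : ℤ) ^ 2 - c)))
      (fun v : ℕ × ℕ => ((v.1 % m1, v.2 % m1), (v.1 % m2, v.2 % m2))) ?_ ?_).trans ?_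
  · intro v hv
    rw [mem_coe, mem_filter, mem_product, mem_range, mem_range] at hv
    rw [mem_coe, mem_product, mem_filter, mem_filter, mem_product, mem_product]
    refine ⟨⟨⟨mem_range.2 (Nat.mod_lt _ hm1p), mem_range.2 (Nat.mod_lt _ hm1p)⟩,
      sol_mod (dvd_mul_right _ _) c _ _ hv.2⟩,
      ⟨⟨mem_range.2 (Nat.mod_lt _ hm2p), mem_range.2 (Nat.mod_lt _ hm2p)⟩,
      sol_mod (dvd_mul_left _ _) c _ _ hv.2⟩⟩
  · intro v hv w hw hvw
    rw [mem_coe, mem_filter, mem_product, mem_range, mem_range] at hv hw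
    have hvw' : ((v.1 % m1, v.2 % m1), (v.1 % m2, v.2 % m2)) =
      ((w.1 % m1, w.2 % m1), (w.1 % m2, w.2 % m2)) := hvw
    simp only [Prod.mk.injEq] at hvw'
    obtain ⟨⟨a1, a2⟩, a3, a4⟩ := hvw'
    have k1 : v.1 ≡ w.1 [MOD m1 * m2] :=
      (Nat.modEq_and_modEq_iff_modEq_mul hcop).1 ⟨a1, a3⟩
    have k2 : v.2 ≡ w.2 [MOD m1 * m2] :=
      (Nat.modEq_and_modEq_iff_modEq_mul hcop).1 ⟨a2, a4⟩
    exact Prod.ext (Nat.ModEq.eq_of_lt_of_lt k1 hv.1.1 hw.1.1)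
      (Nat.ModEq.eq_of_lt_of_lt k2 hv.1.2 hw.1.2)
  · rw [card_product]
    calc _ ≤ (4 * m1) * (4 * m2) := Nat.mul_le_mul b1 b2
      _ = _ := by ring



end SSOL
end DD106
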