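import Mathlib
import Pool.Agent.H106DD.Defs

set_option autoImplicit false
open Finset

namespace DD106
namespace STU

/-- TARGET: prove this. Do not change the definitions above. Helper lemmas may be added before it. -/
theorem TU_thm (hCL : CL_stmt) : TU_stmt := by
  intro P y Q a b x0 y0 R hP hy hR
  set B := cbox x0 y0 R with hB
  set I : ℕ → ℤ × ℤ → ℝ := fun p v =>
    if (p : ℤ) ∣ (Q * v.1 + a) ^ 2 + (Q * v.2 + b) ^ 2 then 1 else 0 with hI
  have hcardB : (B.card : ℝ) = (R : ℝ) ^ 2 := by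
    have : B.card = R * R := by
      simp [hB, cbox]
    rw [this]; push_cast; ring
  have hom : ∀ v : ℤ × ℤ, (om P (Q * v.1 + a) (Q * v.2 + b) : ℝ) = ∑ p ∈ P, I p v := by
    intro v
    simp only [om, hI, Finset.card_filter]
    push_cast
    rfl
  set G := ∑ p ∈ P, g p with hG
  -- pair counts
  have hN2 : ∀ p ∈ P, ∀ p' ∈ P, p ≠ p' →
      ∑ v ∈ B, I p v * I p' v ≤ (R : ℝ) ^ 2 * (g p * g p') + 4 * (2 * R + y ^ 2) := by
    intro p hp p' hp' hne
    have h := hCL {p, p'} Q a b x0 y0 R (by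
      intro r hr
      simp only [Finset.mem_insert, Finset.mem_singleton] at hr
      rcases hr with rfl | rfl
      · exact ⟨(hP _ hp).1, (hP _ hp).2.1⟩
      · exact ⟨(hP _ hp').1, (hP _ hp').2.1⟩)
    rw [Finset.card_pair hne, Finset.prod_pair hne, Finset.prod_pair hne] at h
    have h1 : ∑ v ∈ B, I p v * I p' v = (((cbox x0 y0 R).filter (fun v : ℤ × ℤ =>
        ∀ r ∈ ({p, p'} : Finset ℕ), (r : ℤ) ∣ (Q * v.1 + a) ^ 2 + (Q * v.2 + b) ^ 2)).card : ℝ) := by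
      rw [Finset.card_filter]
      push_cast
      refine Finset.sum_congr rfl fun v _ => ?_
      simp only [hI, Finset.mem_insert, Finset.mem_singleton, forall_eq_or_imp, forall_eq]
      by_cases h1 : (p : ℤ) ∣ (Q * v.1 + a) ^ 2 + (Q * v.2 + b) ^ 2 <;>
        by_cases h2 : (p' : ℤ) ∣ (Q * v.1 + a) ^ 2 + (Q * v.2 + b) ^ 2 <;> simp [h1, h2]
    rw [h1]
    have h2 := (abs_le.mp h).2
    have hp1 : (p : ℝ) ≤ y := (hP _ hp).2.2
    have hp2 : (p' : ℝ) ≤ y := (hP _ hp').2.2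
    have h3 : (p : ℝ) * p' ≤ y ^ 2 := by
      have : (0 : ℝ) ≤ p := Nat.cast_nonneg _
      have : (0 : ℝ) ≤ p' := Nat.cast_nonneg _
      nlinarith
    have h4 : (2 : ℝ) ^ 2 = 4 := by norm_num
    rw [h4] at h2
    linarith
  have hN1 : ∀ p ∈ P, |∑ v ∈ B, I p v - (R : ℝ) ^ 2 * g p| ≤ 2 * (2 * R + y) := by
    intro p hp
    have h := hCL {p} Q a b x0 y0 R (by
      intro r hr
      simp only [Finset.mem_singleton] at hr
      subst hr
      exact ⟨(hP _ hp).1, (hP _ hp).2.1⟩)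
    rw [Finset.card_singleton, Finset.prod_singleton, Finset.prod_singleton] at h
    have h1 : ∑ v ∈ B, I p v = (((cbox x0 y0 R).filter (fun v : ℤ × ℤ =>
        ∀ r ∈ ({p} : Finset ℕ), (r : ℤ) ∣ (Q * v.1 + a) ^ 2 + (Q * v.2 + b) ^ 2)).card : ℝ) := by
      rw [Finset.card_filter]
      push_cast
      refine Finset.sum_congr rfl fun v _ => ?_
      simp only [hI, Finset.mem_singleton, forall_eq]
    rw [h1]
    refine h.trans ?_
    have hp1 : (p : ℝ) ≤ y := (hP _ hp).2.2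
    linarith
  have hg0 : ∀ p ∈ P, 0 ≤ g p ∧ g p ≤ 1 := by
    intro p hp
    have hp2 : (2 : ℝ) ≤ p := by exact_mod_cast (hP _ hp).1.1.two_le
    unfold g
    constructor
    · apply div_nonneg <;> nlinarith
    · rw [div_le_one (by positivity)]
      nlinarith
  have hII : ∀ p v, I p v * I p v = I p v := by
    intro p v
    simp only [hI]
    split_ifs <;> simp
  have hpair : ∀ p ∈ P, ∀ p' ∈ P, ∑ v ∈ B, I p v * I p' v ≤
      (R : ℝ) ^ 2 * (g p * g p') + (if p = p' then (R : ℝ) ^ 2 * g p else 0) + 4 * (2 * R + y ^ 2) := by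
    intro p hp p' hp'
    by_cases h : p = p'
    · subst h
      simp only [hII, if_true]
      have h1 := (abs_le.mp (hN1 p hp)).2
      have h2 : 0 ≤ (R : ℝ) ^ 2 * (g p * g p) := by
        have := (hg0 p hp).1
        positivity
      have h3 : (0 : ℝ) ≤ R := Nat.cast_nonneg _
      nlinarith
    · simp only [h, if_false]
      have := hN2 p hp p' hp' h
      linarith
  have hcP : (P.card : ℝ) ≤ y := by
    have h1 : P ⊆ Finset.Icc 1 ⌊y⌋₊ := by
      intro p hp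
      rw [Finset.mem_Icc]
      exact ⟨(hP _ hp).1.1.one_le, Nat.le_floor (hP _ hp).2.2⟩
    have h2 := Finset.card_le_card h1
    rw [Nat.card_Icc, Nat.add_sub_cancel] at h2
    calc (P.card : ℝ) ≤ (⌊y⌋₊ : ℝ) := by exact_mod_cast h2
      _ ≤ y := Nat.floor_le (by linarith)
  have hG0 : 0 ≤ G := Finset.sum_nonneg fun p hp => (hg0 p hp).1
  have hGP : G ≤ P.card := by
    calc G ≤ ∑ p ∈ P, (1 : ℝ) := Finset.sum_le_sum fun p hp => (hg0 p hp).2
      _ = P.card := by simp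
  -- second moment
  have hsq : ∑ v ∈ B, (∑ p ∈ P, I p v) ^ 2 ≤ (R : ℝ) ^ 2 * G ^ 2 + (R : ℝ) ^ 2 * G +
      (P.card : ℝ) ^ 2 * (4 * (2 * R + y ^ 2)) := by
    have e1 : ∑ v ∈ B, (∑ p ∈ P, I p v) ^ 2 = ∑ p ∈ P, ∑ p' ∈ P, ∑ v ∈ B, I p v * I p' v := by
      have : ∀ v, (∑ p ∈ P, I p v) ^ 2 = ∑ p ∈ P, ∑ p' ∈ P, I p v * I p' v := by
        intro v
        rw [pow_two, Finset.sum_mul_sum]
      simp only [this]
      rw [Finset.sum_comm]
      refine Finset.sum_congr rfl fun p _ => ?_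
      rw [Finset.sum_comm]
    rw [e1]
    calc ∑ p ∈ P, ∑ p' ∈ P, ∑ v ∈ B, I p v * I p' v
        ≤ ∑ p ∈ P, ∑ p' ∈ P, ((R : ℝ) ^ 2 * (g p * g p') +
          (if p = p' then (R : ℝ) ^ 2 * g p else 0) + 4 * (2 * R + y ^ 2)) :=
          Finset.sum_le_sum fun p hp => Finset.sum_le_sum fun p' hp' => hpair p hp p' hp'
      _ = (R : ℝ) ^ 2 * G ^ 2 + (R : ℝ) ^ 2 * G + (P.card : ℝ) ^ 2 * (4 * (2 * R + y ^ 2)) := by
          simp only [Finset.sum_add_distrib, Finset.sum_const, nsmul_eq_mul]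
          congr 1
          · congr 1
            · rw [hG, pow_two (∑ p ∈ P, g p), Finset.sum_mul_sum, Finset.mul_sum]
              refine Finset.sum_congr rfl fun p _ => ?_
              rw [Finset.mul_sum]
            · rw [hG, Finset.mul_sum]
              refine Finset.sum_congr rfl fun p hp => ?_
              rw [Finset.sum_ite_eq]
              simp [hp]
          · ring
  have hlin : (R : ℝ) ^ 2 * G - P.card * (2 * (2 * R + y)) ≤ ∑ v ∈ B, ∑ p ∈ P, I p v := by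
    rw [Finset.sum_comm]
    have : ∑ p ∈ P, ((R : ℝ) ^ 2 * g p - 2 * (2 * R + y)) ≤ ∑ p ∈ P, ∑ v ∈ B, I p v := by
      refine Finset.sum_le_sum fun p hp => ?_
      have := (abs_le.mp (hN1 p hp)).1
      linarith
    rw [Finset.sum_sub_distrib, Finset.sum_const, nsmul_eq_mul, ← Finset.mul_sum] at this
    exact this
  have hexp : ∑ v ∈ B, ((om P (Q * v.1 + a) (Q * v.2 + b) : ℝ) - G) ^ 2 =
      ∑ v ∈ B, (∑ p ∈ P, I p v) ^ 2 - 2 * G * (∑ v ∈ B, ∑ p ∈ P, I p v) + G ^ 2 * (R : ℝ) ^ 2 := by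
    rw [← hcardB]
    have : ∀ v ∈ B, ((om P (Q * v.1 + a) (Q * v.2 + b) : ℝ) - G) ^ 2 =
      (∑ p ∈ P, I p v) ^ 2 - 2 * G * (∑ p ∈ P, I p v) + G ^ 2 := by
      intro v _
      rw [hom v]; ring
    rw [Finset.sum_congr rfl this, Finset.sum_add_distrib, Finset.sum_sub_distrib, ← Finset.mul_sum,
      Finset.sum_const, nsmul_eq_mul]
    ring
  rw [hexp]
  set c := (P.card : ℝ) with hc
  have hc0 : 0 ≤ c := Nat.cast_nonneg _
  set r := (R : ℝ) with hr
  have hGy : G ≤ y := hGP.trans hcP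
  have hr0 : 0 ≤ r := Nat.cast_nonneg _
  have h1 : -(2 * G * (∑ v ∈ B, ∑ p ∈ P, I p v)) ≤ -(2 * G * (r ^ 2 * G - c * (2 * (2 * r + y)))) := by
    have := mul_le_mul_of_nonneg_left hlin (by linarith : (0 : ℝ) ≤ 2 * G)
    linarith
  have h2 : c ^ 2 * (4 * (2 * r + y ^ 2)) ≤ y ^ 2 * (4 * (2 * r + y ^ 2)) := by
    have : c ^ 2 ≤ y ^ 2 := by nlinarith
    have h3 : 0 ≤ 4 * (2 * r + y ^ 2) := by positivity
    exact mul_le_mul_of_nonneg_right this h3
  have h3 : 2 * G * (c * (2 * (2 * r + y))) ≤ 2 * y * (y * (2 * (2 * r + y))) := by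
    have h4 : 0 ≤ 2 * (2 * r + y) := by positivity
    have h5 : G * c ≤ y * y := by nlinarith
    have := mul_le_mul_of_nonneg_right h5 h4
    nlinarith
  -- final numeric: y^2*(4*(2r+y^2)) + 2y*(y*(2*(2r+y))) ≤ r^2
  have h6 : y ^ 2 * (4 * (2 * r + y ^ 2)) + 2 * y * (y * (2 * (2 * r + y))) ≤ r ^ 2 := by
    have hy2 : 4 ≤ y ^ 2 := by nlinarith
    have hy6 : 64 ≤ y ^ 6 := by
      have : y ^ 6 = (y ^ 2) ^ 3 := by ring
      rw [this]
      calc (64 : ℝ) = 4 ^ 3 := by norm_num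
        _ ≤ (y ^ 2) ^ 3 := by gcongr
    have hry : 64 * y ^ 2 ≤ r := by
      have : y ^ 8 = y ^ 6 * y ^ 2 := by ring
      nlinarith [sq_nonneg y]
    have hyr : y ^ 2 ≤ r := by nlinarith
    have hyy : y ≤ y ^ 2 := by nlinarith
    have e : y ^ 2 * (4 * (2 * r + y ^ 2)) + 2 * y * (y * (2 * (2 * r + y))) =
      y ^ 2 * (16 * r + 4 * y ^ 2 + 4 * y) := by ring
    rw [e]
    have h7 : 16 * r + 4 * y ^ 2 + 4 * y ≤ 24 * r := by nlinarith
    calc y ^ 2 * (16 * r + 4 * y ^ 2 + 4 * y) ≤ y ^ 2 * (24 * r) := by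
          exact mul_le_mul_of_nonneg_left h7 (by positivity)
      _ ≤ r ^ 2 := by nlinarith
  nlinarith [hsq, h1, h2, h3, h6]



end STU
end DD106
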