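import Mathlib
import Pool.Agent.H106DD.Defs

set_option autoImplicit false
open Finset

namespace DD106
namespace STV

theorem tv_gen {β γ : Type*} [DecidableEq β] [DecidableEq γ] (φ : β → γ) (A C : ℕ → Finset β)
    (hA : ∀ b, A b ⊆ A (b + 1)) (hC : ∀ b, C (b + 1) ⊆ C b) (n : ℕ) :
    ∑ b ∈ range n, |(((A (b + 1) ∪ C (b + 1)).image φ).card : ℤ) - ((A b ∪ C b).image φ).card| ≤
      ((A n).image φ).card + ((C 0).image φ).card := by
  have hterm : ∀ b, |(((A (b + 1) ∪ C (b + 1)).image φ).card : ℤ) - ((A b ∪ C b).image φ).card| ≤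
      ((((A (b + 1)).image φ).card : ℤ) - ((A b).image φ).card) +
        ((((C b).image φ).card : ℤ) - ((C (b + 1)).image φ).card) := by
    intro b
    have hA' : (A b).image φ ⊆ (A (b + 1)).image φ := Finset.image_subset_image (hA b)
    have hC' : (C (b + 1)).image φ ⊆ (C b).image φ := Finset.image_subset_image (hC b)
    have h1 : ((A (b + 1) ∪ C (b + 1)).image φ).card ≤ ((A b ∪ C b).image φ).card +
        ((A (b + 1)).image φ \ (A b).image φ).card := by
      refine (Finset.card_le_card ?_).trans (Finset.card_union_le _ _)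
      intro x hx
      rw [Finset.image_union, Finset.mem_union] at hx
      rw [Finset.mem_union, Finset.image_union, Finset.mem_union, Finset.mem_sdiff]
      rcases hx with hx | hx
      · by_cases h : x ∈ (A b).image φ
        · exact Or.inl (Or.inl h)
        · exact Or.inr ⟨hx, h⟩
      · exact Or.inl (Or.inr (hC' hx))
    have h2 : ((A b ∪ C b).image φ).card ≤ ((A (b + 1) ∪ C (b + 1)).image φ).card +
        ((C b).image φ \ (C (b + 1)).image φ).card := by
      refine (Finset.card_le_card ?_).trans (Finset.card_union_le _ _)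
      intro x hx
      rw [Finset.image_union, Finset.mem_union] at hx
      rw [Finset.mem_union, Finset.image_union, Finset.mem_union, Finset.mem_sdiff]
      rcases hx with hx | hx
      · exact Or.inl (Or.inl (hA' hx))
      · by_cases h : x ∈ (C (b + 1)).image φ
        · exact Or.inl (Or.inr h)
        · exact Or.inr ⟨hx, h⟩
    have h3 := Finset.card_sdiff_add_card_eq_card hA'
    have h4 := Finset.card_sdiff_add_card_eq_card hC'
    rw [abs_le]
    constructor <;> omega
  have hsum := Finset.sum_le_sum (s := range n) (fun b _ => hterm b)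
  refine hsum.trans ?_
  rw [Finset.sum_add_distrib]
  have h1 : ∑ b ∈ range n, ((((A (b + 1)).image φ).card : ℤ) - ((A b).image φ).card) =
      ((A n).image φ).card - ((A 0).image φ).card :=
    Finset.sum_range_sub (fun b => (((A b).image φ).card : ℤ)) n
  have h2 : ∑ b ∈ range n, ((((C b).image φ).card : ℤ) - ((C (b + 1)).image φ).card) =
      ((C 0).image φ).card - ((C n).image φ).card :=
    Finset.sum_range_sub' (fun b => (((C b).image φ).card : ℤ)) n
  rw [h1, h2]
  omega

/-- the window -/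
noncomputable def tvW (M a b : ℕ) : Finset (ℤ × ℤ) :=
  Ioc ((a : ℤ) - M) a ×ˢ Ioc ((b : ℤ) - M) b

/-- its part with nonnegative second coordinate -/
noncomputable def tvA (M a b : ℕ) : Finset (ℤ × ℤ) :=
  Ioc ((a : ℤ) - M) a ×ˢ Icc (0 : ℤ) b

/-- its part with negative second coordinate -/
noncomputable def tvC (M a b : ℕ) : Finset (ℤ × ℤ) :=
  Ioc ((a : ℤ) - M) a ×ˢ Ioo ((b : ℤ) - M) 0

theorem tvW_eq {M a b : ℕ} (hb : b < M) : tvW M a b = tvA M a b ∪ tvC M a b := by
  ext ⟨x, y⟩
  simp only [tvW, tvA, tvC, Finset.mem_union, Finset.mem_product, Finset.mem_Ioc, Finset.mem_Icc,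
    Finset.mem_Ioo]
  omega

theorem tvW_card (M a b : ℕ) : (tvW M a b).card = M ^ 2 := by
  unfold tvW
  rw [Finset.card_product, Int.card_Ioc, Int.card_Ioc]
  have h1 : ((a : ℤ) - ((a : ℤ) - M)).toNat = M := by omega
  have h2 : ((b : ℤ) - ((b : ℤ) - M)).toNat = M := by omega
  rw [h1, h2, pow_two]

theorem tv_seen (φ : ℤ × ℤ → ℝ) (M a b : ℕ) : seen φ M a b = ((tvW M a b).image φ).card := by
  unfold seen
  congr 1
  ext x
  simp only [Finset.mem_image, Finset.mem_product, Finset.mem_range, tvW, Finset.mem_Ioc]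
  constructor
  · rintro ⟨⟨v1, v2⟩, ⟨h1, h2⟩, h3⟩
    simp only at h1 h2 h3
    refine ⟨((a : ℤ) - v1, (b : ℤ) - v2), ⟨⟨?_, ?_⟩, ?_, ?_⟩, h3⟩
    · show (a : ℤ) - M < (a : ℤ) - v1
      omega
    · show (a : ℤ) - v1 ≤ a
      omega
    · show (b : ℤ) - M < (b : ℤ) - v2
      omega
    · show (b : ℤ) - v2 ≤ b
      omega
  · rintro ⟨⟨l1, l2⟩, ⟨⟨h1, h2⟩, h3, h4⟩, h5⟩
    simp only at h1 h2 h3 h4 h5
    refine ⟨(((a : ℤ) - l1).toNat, ((b : ℤ) - l2).toNat), ⟨?_, ?_⟩, ?_⟩
    · show ((a : ℤ) - l1).toNat < M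
      omega
    · show ((b : ℤ) - l2).toNat < M
      omega
    · show φ ((a : ℤ) - (((a : ℤ) - l1).toNat : ℤ), (b : ℤ) - (((b : ℤ) - l2).toNat : ℤ)) = x
      have e1 : (a : ℤ) - (((a : ℤ) - l1).toNat : ℤ) = l1 := by omega
      have e2 : (b : ℤ) - (((b : ℤ) - l2).toNat : ℤ) = l2 := by omega
      rw [e1, e2]
      exact h5

theorem tvW_sub {M a b : ℕ} (ha : a < M) (hb : b < M) : tvW M a b ⊆ obox M := by
  rintro ⟨x, y⟩ h
  simp only [tvW, obox, Finset.mem_product, Finset.mem_Ioc, Finset.mem_Ioo] at h ⊢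
  omega

theorem tvA_mono (M a b : ℕ) : tvA M a b ⊆ tvA M a (b + 1) := by
  rintro ⟨x, y⟩ h
  simp only [tvA, Finset.mem_product, Finset.mem_Ioc, Finset.mem_Icc] at h ⊢
  omega

theorem tvC_anti (M a b : ℕ) : tvC M a (b + 1) ⊆ tvC M a b := by
  rintro ⟨x, y⟩ h
  simp only [tvC, Finset.mem_product, Finset.mem_Ioc, Finset.mem_Ioo] at h ⊢
  omega

theorem tvA_sub {M a b : ℕ} (ha : a < M) (hb : b < M) : tvA M a b ⊆ obox M := by
  have h := tvW_sub ha hb
  rw [tvW_eq hb] at h
  exact Finset.subset_union_left.trans h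

theorem tvC_sub {M a b : ℕ} (ha : a < M) (hb : b < M) : tvC M a b ⊆ obox M := by
  have h := tvW_sub ha hb
  rw [tvW_eq hb] at h
  exact Finset.subset_union_right.trans h

theorem tv_disj (M a b c : ℕ) : Disjoint (tvA M a b) (tvC M a c) := by
  rw [Finset.disjoint_left]
  rintro ⟨x, y⟩ h h'
  simp only [tvA, tvC, Finset.mem_product, Finset.mem_Ioc, Finset.mem_Ioo, Finset.mem_Icc] at h h'
  omega

theorem tv_main (φ : ℤ × ℤ → ℝ) (M a : ℕ) (ha : a < M) (U : Finset (ℤ × ℤ))
    (hU : ∀ v, v ∈ U ↔ v ∈ obox M ∧ ∃ v' ∈ obox M, v' ≠ v ∧ φ v' = φ v) :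
    (∑ b ∈ range (M - 1), |(seen φ M a (b + 1) : ℤ) - seen φ M a b| ≤ 2 * ((obox M).image φ).card) ∧
    (∑ b ∈ range (M - 1), |(seen φ M a (b + 1) : ℤ) - seen φ M a b| ≤ 3 * U.card) ∧
    ∀ b < M, seen φ M a b ≤ M ^ 2 ∧ seen φ M a b ≤ ((obox M).image φ).card ∧
      M ^ 2 ≤ seen φ M a b + U.card := by
  have hM : 0 < M := by omega
  -- decomposition of the window
  have hdec : ∀ b < M, seen φ M a b + (U ∩ tvW M a b).card =
      M ^ 2 + ((U ∩ tvW M a b).image φ).card := by
    intro b hb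
    have h1 : tvW M a b = (U ∩ tvW M a b) ∪ (tvW M a b \ U) := by
      ext x
      simp only [Finset.mem_union, Finset.mem_inter, Finset.mem_sdiff]
      tauto
    have hd : Disjoint (U ∩ tvW M a b) (tvW M a b \ U) := by
      rw [Finset.disjoint_left]
      intro x hx hx'
      exact (Finset.mem_sdiff.1 hx').2 (Finset.mem_inter.1 hx).1
    have h2 : M ^ 2 = (U ∩ tvW M a b).card + (tvW M a b \ U).card := by
      rw [← Finset.card_union_of_disjoint hd, ← h1, tvW_card]
    have huniq : ∀ x ∈ tvW M a b \ U, ∀ y ∈ tvW M a b, φ y = φ x → y = x := by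
      intro x hx y hy hxy
      rw [Finset.mem_sdiff] at hx
      by_contra hne
      exact hx.2 ((hU x).2 ⟨tvW_sub ha hb hx.1, y, tvW_sub ha hb hy, hne, hxy⟩)
    have hinj : Set.InjOn φ (tvW M a b \ U : Finset (ℤ × ℤ)) := by
      intro x hx y hy hxy
      exact huniq y hy x (Finset.mem_sdiff.1 hx).1 hxy
    have hd2 : Disjoint ((U ∩ tvW M a b).image φ) ((tvW M a b \ U).image φ) := by
      rw [Finset.disjoint_left]
      intro z hz hz'
      rw [Finset.mem_image] at hz hz'
      obtain ⟨y, hy, rfl⟩ := hz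
      obtain ⟨x, hx, hxy⟩ := hz'
      rw [Finset.mem_inter] at hy
      have := huniq x hx y hy.2 hxy.symm
      rw [this] at hy
      exact (Finset.mem_sdiff.1 hx).2 hy.1
    have h3 : seen φ M a b = ((U ∩ tvW M a b).image φ).card + (tvW M a b \ U).card := by
      rw [tv_seen, ← Finset.card_image_of_injOn hinj, ← Finset.card_union_of_disjoint hd2,
        ← Finset.image_union, ← h1]
    omega
  refine ⟨?_, ?_, ?_⟩
  · have h1 := tv_gen φ (tvA M a) (tvC M a) (tvA_mono M a) (tvC_anti M a) (M - 1)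
    have h2 : ∑ b ∈ range (M - 1), |(seen φ M a (b + 1) : ℤ) - seen φ M a b| =
        ∑ b ∈ range (M - 1), |(((tvA M a (b + 1) ∪ tvC M a (b + 1)).image φ).card : ℤ) -
          ((tvA M a b ∪ tvC M a b).image φ).card| := by
      apply Finset.sum_congr rfl
      intro b hb
      rw [Finset.mem_range] at hb
      rw [tv_seen, tv_seen, tvW_eq (by omega), tvW_eq (by omega)]
    rw [h2]
    refine h1.trans ?_
    have h3 : ((tvA M a (M - 1)).image φ).card ≤ ((obox M).image φ).card :=
      Finset.card_le_card (Finset.image_subset_image (tvA_sub ha (by omega)))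
    have h4 : ((tvC M a 0).image φ).card ≤ ((obox M).image φ).card :=
      Finset.card_le_card (Finset.image_subset_image (tvC_sub ha hM))
    omega
  · have hA : ∀ b, U ∩ tvA M a b ⊆ U ∩ tvA M a (b + 1) := fun b =>
      Finset.inter_subset_inter_left (tvA_mono M a b)
    have hC : ∀ b, U ∩ tvC M a (b + 1) ⊆ U ∩ tvC M a b := fun b =>
      Finset.inter_subset_inter_left (tvC_anti M a b)
    have h1 := tv_gen φ (fun b => U ∩ tvA M a b) (fun b => U ∩ tvC M a b) hA hC (M - 1)
    have h2 := tv_gen (id : ℤ × ℤ → ℤ × ℤ) (fun b => U ∩ tvA M a b) (fun b => U ∩ tvC M a b)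
      hA hC (M - 1)
    simp only [Finset.image_id] at h2
    have hUW : ∀ b, b < M → U ∩ tvW M a b = (U ∩ tvA M a b) ∪ (U ∩ tvC M a b) := by
      intro b hb
      rw [tvW_eq hb, Finset.inter_union_distrib_left]
    have hle : ∑ b ∈ range (M - 1), |(seen φ M a (b + 1) : ℤ) - seen φ M a b| ≤
        ∑ b ∈ range (M - 1), (|((((U ∩ tvA M a (b + 1)) ∪ (U ∩ tvC M a (b + 1))).image φ).card : ℤ) -
          (((U ∩ tvA M a b) ∪ (U ∩ tvC M a b)).image φ).card| +
          |(((U ∩ tvA M a (b + 1)) ∪ (U ∩ tvC M a (b + 1))).card : ℤ) -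
          ((U ∩ tvA M a b) ∪ (U ∩ tvC M a b)).card|) := by
      apply Finset.sum_le_sum
      intro b hb
      rw [Finset.mem_range] at hb
      have e1 := hdec b (by omega)
      have e2 := hdec (b + 1) (by omega)
      rw [← hUW b (by omega), ← hUW (b + 1) (by omega)]
      have e3 : (seen φ M a (b + 1) : ℤ) - seen φ M a b =
          ((((U ∩ tvW M a (b + 1)).image φ).card : ℤ) - ((U ∩ tvW M a b).image φ).card) -
          (((U ∩ tvW M a (b + 1)).card : ℤ) - (U ∩ tvW M a b).card) := by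
        have e1' : (seen φ M a b : ℤ) + (U ∩ tvW M a b).card =
            ((M ^ 2 : ℕ) : ℤ) + ((U ∩ tvW M a b).image φ).card := by exact_mod_cast e1
        have e2' : (seen φ M a (b + 1) : ℤ) + (U ∩ tvW M a (b + 1)).card =
            ((M ^ 2 : ℕ) : ℤ) + ((U ∩ tvW M a (b + 1)).image φ).card := by exact_mod_cast e2
        linarith
      rw [e3]
      exact abs_sub _ _
    refine hle.trans ?_
    rw [Finset.sum_add_distrib]
    have h3 : ((U ∩ tvA M a (M - 1)).image φ).card ≤ (U ∩ tvA M a (M - 1)).card :=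
      Finset.card_image_le
    have h4 : ((U ∩ tvC M a 0).image φ).card ≤ (U ∩ tvC M a 0).card := Finset.card_image_le
    have h5 : (U ∩ tvA M a (M - 1)).card + (U ∩ tvC M a 0).card ≤ U.card := by
      rw [← Finset.card_union_of_disjoint]
      · exact Finset.card_le_card (Finset.union_subset Finset.inter_subset_left
          Finset.inter_subset_left)
      · exact (tv_disj M a (M - 1) 0).mono Finset.inter_subset_right Finset.inter_subset_right
    have h1' : ∑ b ∈ range (M - 1), |((((U ∩ tvA M a (b + 1)) ∪ (U ∩ tvC M a (b + 1))).image φ).card : ℤ) -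
          (((U ∩ tvA M a b) ∪ (U ∩ tvC M a b)).image φ).card| ≤
          ((U ∩ tvA M a (M - 1)).image φ).card + ((U ∩ tvC M a 0).image φ).card := h1
    have h2' : ∑ b ∈ range (M - 1), |(((U ∩ tvA M a (b + 1)) ∪ (U ∩ tvC M a (b + 1))).card : ℤ) -
          ((U ∩ tvA M a b) ∪ (U ∩ tvC M a b)).card| ≤
          (U ∩ tvA M a (M - 1)).card + (U ∩ tvC M a 0).card := h2
    omega
  · intro b hb
    have h1 := hdec b hb
    have h2 : (U ∩ tvW M a b).card ≤ U.card := Finset.card_le_card Finset.inter_subset_left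
    refine ⟨?_, ?_, by omega⟩
    · rw [tv_seen, ← tvW_card M a b]
      exact Finset.card_image_le
    · rw [tv_seen]
      exact Finset.card_le_card (Finset.image_subset_image (tvW_sub ha hb))

/-- TARGET: prove this. Do not change the definitions above. Helper lemmas may be added before it. -/
theorem TV_thm  : TV_stmt := by
  intro φ M a ha
  exact tv_main φ M a ha _ (fun v => Finset.mem_filter)



end STV
end DD106
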