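import Mathlib
import Pool.Agent.H106DD.Defs

set_option autoImplicit false
open Finset

namespace DD106
namespace SZF

/-- TARGET: prove this. Do not change the definitions above. Helper lemmas may be added before it. -/
theorem ZF_thm  : ZF_stmt := by
  intro z z' hz hn
  set d := EuclideanDomain.gcd z z' with hd
  obtain ⟨u, hu⟩ : d ∣ z := EuclideanDomain.gcd_dvd_left z z'
  obtain ⟨v, hv⟩ : d ∣ z' := EuclideanDomain.gcd_dvd_right z z'
  have hd0 : d ≠ 0 := by
    intro h
    apply hz
    rw [hu, h, zero_mul]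
  have hcop : IsCoprime u v := by
    have h1 := EuclideanDomain.gcd_eq_gcd_ab z z'
    rw [← hd] at h1
    refine ⟨EuclideanDomain.gcdA z z', EuclideanDomain.gcdB z z', ?_⟩
    apply mul_left_cancel₀ hd0
    calc d * (EuclideanDomain.gcdA z z' * u + EuclideanDomain.gcdB z z' * v)
        = (d * u) * EuclideanDomain.gcdA z z' + (d * v) * EuclideanDomain.gcdB z z' := by ring
      _ = z * EuclideanDomain.gcdA z z' + z' * EuclideanDomain.gcdB z z' := by rw [← hu, ← hv]
      _ = d := h1.symm
      _ = d * 1 := (mul_one d).symm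
  have hnd : d.norm ≠ 0 := by
    intro h
    exact hd0 (GaussianInt.norm_eq_zero.1 h)
  have hnuv : u.norm = v.norm := by
    rw [hu, hv, Zsqrtd.norm_mul, Zsqrtd.norm_mul] at hn
    exact mul_left_cancel₀ hnd hn
  have hmul : u * star u = v * star v := by
    rw [← Zsqrtd.norm_eq_mul_conj, ← Zsqrtd.norm_eq_mul_conj, hnuv]
  have h1 : u ∣ star v := by
    apply hcop.dvd_of_dvd_mul_left
    rw [← hmul]
    exact dvd_mul_right u (star u)
  have h2 : v ∣ star u := by
    apply hcop.symm.dvd_of_dvd_mul_left
    rw [hmul]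
    exact dvd_mul_right v (star v)
  have h3 : star v ∣ u := by
    obtain ⟨w, hw⟩ := h2
    refine ⟨star w, ?_⟩
    rw [← star_star u, hw, star_mul, mul_comm]
  obtain ⟨e0, he0⟩ := associated_of_dvd_dvd h1 h3
  refine ⟨d, u, star (e0 : GaussianInt), e0.isUnit.star, hu, ?_⟩
  have h4 : v = star (e0 : GaussianInt) * star u := by
    rw [← star_star v, ← he0, star_mul]
  rw [hv, h4]
  ring



end SZF
end DD106
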